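import Pool.Agent.MaxTerm.PB.ClassProj

/-!
# The window lemma (Lemma W of the note)

Integrate over the unit circle the inequality `Q(Y F - A', Y G - B') ≥ 0`, where
`Q(x, y) = (1 - γ|χ|²)(|x|² + |y|²) + 2 Re(χ y x̄)` is positive semidefinite as soon as
`|χ| ≤ 1 - γ|χ|²` (here `A' = conj A` etc.).
-/

open Filter Topology ComplexConjugate

namespace MaxTerm.PB

namespace An

open MeasureTheory

theorem fact1 : Fact ((0 : ℝ) < 1) := ⟨one_pos⟩

attribute [local instance] fact1

/-- the point of the unit circle with angle `x`. -/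
noncomputable def e (x : AddCircle (1 : ℝ)) : ℂ := (AddCircle.toCircle x : ℂ)

theorem norm_e (x : AddCircle (1 : ℝ)) : ‖e x‖ = 1 := Circle.norm_coe _

theorem e_ne (x : AddCircle (1 : ℝ)) : e x ≠ 0 := by
  intro h
  have := norm_e x
  rw [h] at this
  simp at this

theorem fourier_e (n : ℤ) (x : AddCircle (1 : ℝ)) : fourier n x = e x ^ n := by
  rw [fourier_apply, AddCircle.toCircle_zsmul, Circle.coe_zpow]
  rfl

theorem cont_zpow (n : ℤ) : Continuous fun x : AddCircle (1 : ℝ) => e x ^ n := by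
  have : (fun x : AddCircle (1 : ℝ) => e x ^ n) = fun x => fourier n x := by
    funext x
    rw [fourier_e]
  rw [this]
  exact (fourier n).continuous

/-- the mean over the circle. -/
noncomputable def mean (f : AddCircle (1 : ℝ) → ℂ) : ℂ :=
  ∫ x, f x ∂(@AddCircle.haarAddCircle 1 fact1)

theorem integrable_of_cont {f : AddCircle (1 : ℝ) → ℂ} (hf : Continuous f) :
    Integrable f (@AddCircle.haarAddCircle 1 fact1) :=
  hf.integrable_of_hasCompactSupport (HasCompactSupport.of_compactSpace f)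

theorem mean_zpow (n : ℤ) : mean (fun x => e x ^ n) = if n = 0 then 1 else 0 := by
  have h := congrFun (fourierCoeff_fourier (T := (1 : ℝ)) n) 0
  unfold fourierCoeff at h
  have h2 : (∫ t : AddCircle (1 : ℝ), (fourier (-0)) t • (fourier n) t ∂AddCircle.haarAddCircle)
      = mean (fun x => e x ^ n) := by
    unfold mean
    refine integral_congr_ae (Filter.Eventually.of_forall fun x => ?_)
    simp only [neg_zero, smul_eq_mul]
    rw [fourier_e, fourier_e]
    simp
  rw [h2] at h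
  rw [h]
  by_cases hn : n = 0
  · subst hn
    simp
  · rw [if_neg hn, Pi.single_eq_of_ne (Ne.symm hn)]

theorem norm_zpow_e (n : ℤ) (x : AddCircle (1 : ℝ)) : ‖e x ^ n‖ = 1 := by
  rw [norm_zpow, norm_e, one_zpow]

theorem summable_S {F : ℤ → ℂ} (hF : Summable fun n => ‖F n‖) (x : AddCircle (1 : ℝ)) :
    Summable fun n : ℤ => F n * e x ^ n := by
  apply Summable.of_norm
  refine hF.congr fun n => ?_
  rw [norm_mul, norm_zpow_e, mul_one]

theorem cont_S {F : ℤ → ℂ} (hF : Summable fun n => ‖F n‖) :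
    Continuous fun x : AddCircle (1 : ℝ) => S F (e x) := by
  unfold S
  refine continuous_tsum (fun n => continuous_const.mul (cont_zpow n)) hF fun n x => ?_
  rw [norm_mul, norm_zpow_e, mul_one]

/-- the basic integral. -/
theorem mean_zpow_S {F : ℤ → ℂ} (hF : Summable fun n => ‖F n‖) (m : ℤ) :
    mean (fun x => e x ^ m * S F (e x)) = F (-m) := by
  have h1 : (fun x : AddCircle (1 : ℝ) => e x ^ m * S F (e x)) =
      fun x => ∑' n : ℤ, F n * e x ^ (m + n) := by
    funext x
    unfold S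
    rw [← tsum_mul_left]
    refine tsum_congr fun n => ?_
    rw [zpow_add₀ (e_ne x)]
    ring
  have h2 : ∀ n : ℤ, Integrable (fun x : AddCircle (1 : ℝ) => F n * e x ^ (m + n))
      (@AddCircle.haarAddCircle 1 fact1) := fun n =>
    integrable_of_cont (continuous_const.mul (cont_zpow _))
  have h3 : ∀ n : ℤ, (∫ x : AddCircle (1 : ℝ), ‖F n * e x ^ (m + n)‖
      ∂(@AddCircle.haarAddCircle 1 fact1)) = ‖F n‖ := by
    intro n
    have : (fun x : AddCircle (1 : ℝ) => ‖F n * e x ^ (m + n)‖) = fun _ => ‖F n‖ := by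
      funext x
      rw [norm_mul, norm_zpow_e, mul_one]
    rw [this]
    simp
  have h4 := hasSum_integral_of_summable_integral_norm h2 (by simpa only [h3] using hF)
  have h5 : ∀ n : ℤ, (∫ x : AddCircle (1 : ℝ), F n * e x ^ (m + n)
      ∂(@AddCircle.haarAddCircle 1 fact1)) = if n = -m then F (-m) else 0 := by
    intro n
    rw [integral_const_mul]
    have := mean_zpow (m + n)
    unfold mean at this
    rw [this]
    by_cases hn : n = -m
    · subst hn
      simp
    · rw [if_neg hn, if_neg (by intro h; apply hn; linarith), mul_zero]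
  simp only [h5] at h4
  have h6 := h4.unique (hasSum_ite_eq (-m) (F (-m)))
  rw [h1]
  exact h6

theorem cont_ev (p : ℤ →₀ ℂ) : Continuous fun x : AddCircle (1 : ℝ) => ev p (e x) := by
  unfold ev Finsupp.sum
  exact continuous_finsetSum _ fun n _ => continuous_const.mul (cont_zpow n)

theorem summable_fs (p : ℤ →₀ ℂ) : Summable fun n => ‖p n‖ :=
  summable_of_ne_finset_zero (s := p.support) fun n hn => by
    rw [Finsupp.notMem_support_iff.1 hn, norm_zero]

theorem S_fs (p : ℤ →₀ ℂ) (ζ : ℂ) : S (fun n => p n) ζ = ev p ζ := by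
  unfold S ev Finsupp.sum
  refine tsum_eq_sum fun n hn => ?_
  change p n * ζ ^ n = 0
  rw [Finsupp.notMem_support_iff.1 hn, zero_mul]

theorem mean_const_mul (c : ℂ) (f : AddCircle (1 : ℝ) → ℂ) :
    mean (fun x => c * f x) = c * mean f := by
  unfold mean
  exact integral_const_mul _ _

theorem mean_add {f g : AddCircle (1 : ℝ) → ℂ} (hf : Continuous f) (hg : Continuous g) :
    mean (fun x => f x + g x) = mean f + mean g := by
  unfold mean
  exact integral_add (integrable_of_cont hf) (integrable_of_cont hg)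

theorem mean_conj (f : AddCircle (1 : ℝ) → ℂ) : mean (fun x => conj (f x)) = conj (mean f) := by
  unfold mean
  exact integral_conj

theorem mean_finset_sum {ι : Type*} (s : Finset ι) (f : ι → AddCircle (1 : ℝ) → ℂ)
    (hf : ∀ i ∈ s, Continuous (f i)) :
    mean (fun x => ∑ i ∈ s, f i x) = ∑ i ∈ s, mean (f i) := by
  unfold mean
  exact integral_finsetSum _ fun i hi => integrable_of_cont (hf i hi)

/-- pairing as a mean. -/
theorem pr_eq {F : ℤ → ℂ} (hF : Summable fun n => ‖F n‖) (p : ℤ →₀ ℂ) :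
    pr p F = mean (fun x => ev p (e x) * S F (e x)) := by
  have h1 : (fun x : AddCircle (1 : ℝ) => ev p (e x) * S F (e x)) =
      fun x => ∑ m ∈ p.support, p m * (e x ^ m * S F (e x)) := by
    funext x
    unfold ev Finsupp.sum
    rw [Finset.sum_mul]
    exact Finset.sum_congr rfl fun m _ => by ring
  rw [h1, mean_finset_sum p.support (fun m x => p m * (e x ^ m * S F (e x)))
    (fun m _ => continuous_const.mul ((cont_zpow m).mul (cont_S hF)))]
  unfold pr Finsupp.sum
  refine Finset.sum_congr rfl fun m _ => ?_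
  rw [mean_const_mul, mean_zpow_S hF]

theorem conj_e_zpow (x : AddCircle (1 : ℝ)) (n : ℤ) : conj (e x ^ n) = e x ^ (-n) := by
  rw [zpow_neg, ← Complex.inv_eq_conj (norm_zpow_e n x)]

/-- inner product with a shift as a mean. -/
theorem mean_shift (p q : ℤ →₀ ℂ) (s : ℤ) :
    mean (fun x => e x ^ (-s) * (conj (ev p (e x)) * ev q (e x))) =
      p.sum fun n a => conj a * q (n + s) := by
  have h1 : (fun x : AddCircle (1 : ℝ) => e x ^ (-s) * (conj (ev p (e x)) * ev q (e x))) =
      fun x => ∑ m ∈ p.support, conj (p m) * (e x ^ (-(m + s)) * S (fun n => q n) (e x)) := by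
    funext x
    rw [S_fs]
    have : ev p (e x) = ∑ m ∈ p.support, p m * e x ^ m := rfl
    rw [this, map_sum, Finset.sum_mul, Finset.mul_sum]
    refine Finset.sum_congr rfl fun m _ => ?_
    rw [map_mul, conj_e_zpow, neg_add, zpow_add₀ (e_ne x)]
    ring
  rw [h1, mean_finset_sum p.support
    (fun m x => conj (p m) * (e x ^ (-(m + s)) * S (fun n => q n) (e x)))
    (fun m _ => continuous_const.mul ((cont_zpow _).mul (cont_S (summable_fs q))))]
  unfold Finsupp.sum
  refine Finset.sum_congr rfl fun m _ => ?_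
  rw [mean_const_mul, mean_zpow_S (summable_fs q), neg_neg]

theorem ip_eq (p q : ℤ →₀ ℂ) : ip p q = mean (fun x => conj (ev p (e x)) * ev q (e x)) := by
  have h := mean_shift p q 0
  simp only [neg_zero, zpow_zero, one_mul, add_zero] at h
  rw [h]
  rfl

theorem ips_eq (p q : ℤ →₀ ℂ) :
    ips p q = mean (fun x => e x ^ (-2 : ℤ) * (conj (ev p (e x)) * ev q (e x))) := by
  rw [mean_shift p q 2]
  rfl

theorem re_mean (f : AddCircle (1 : ℝ) → ℂ) (hf : Continuous f) :
    (mean f).re = ∫ x, (f x).re ∂(@AddCircle.haarAddCircle 1 fact1) := by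
  unfold mean
  exact (integral_re (integrable_of_cont hf)).symm

/-- monotonicity of the real part of the mean. -/
theorem mean_re_le {f g : AddCircle (1 : ℝ) → ℂ} (hf : Continuous f) (hg : Continuous g)
    (h : ∀ x, (f x).re ≤ (g x).re) : (mean f).re ≤ (mean g).re := by
  rw [re_mean f hf, re_mean g hg]
  exact integral_mono (integrable_of_cont hf).re (integrable_of_cont hg).re h

/-- the quadratic form is positive semidefinite. -/
theorem q_nonneg (x u v : ℂ) {c : ℝ} (hc : ‖x‖ ≤ c) :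
    0 ≤ c * (‖u‖ ^ 2 + ‖v‖ ^ 2) + 2 * (x * v * conj u).re := by
  have h1 : |(x * v * conj u).re| ≤ ‖x‖ * ‖v‖ * ‖u‖ := by
    refine (Complex.abs_re_le_norm _).trans (le_of_eq ?_)
    rw [norm_mul, norm_mul, Complex.norm_conj]
  have h2 := (abs_le.1 h1).1
  have h3 : ‖x‖ * ‖v‖ * ‖u‖ ≤ c * (‖v‖ * ‖u‖) := by
    rw [mul_assoc]
    exact mul_le_mul_of_nonneg_right hc (by positivity)
  have hc0 : 0 ≤ c := (norm_nonneg _).trans hc
  nlinarith [mul_nonneg hc0 (sq_nonneg (‖u‖ - ‖v‖))]

/-- the pointwise inequality. -/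
theorem pt_pw (y x a b f g : ℂ) {c K2 : ℝ} (hc : ‖x‖ ≤ c)
    (hK : c * (‖f‖ ^ 2 + ‖g‖ ^ 2) + 2 * (x * g * conj f).re ≤ K2) :
    (2 * (y * ((c : ℂ) * a + conj x * b) * f + y * ((c : ℂ) * b + x * a) * g)).re ≤
      ((K2 : ℂ) * (conj y * y) +
        (conj a * ((c : ℂ) * a + conj x * b) + conj b * ((c : ℂ) * b + x * a))).re := by
  have h1 := q_nonneg x (y * f - conj a) (y * g - conj b) hc
  have h2 : 0 ≤ ‖y‖ ^ 2 * (K2 - (c * (‖f‖ ^ 2 + ‖g‖ ^ 2) + 2 * (x * g * conj f).re)) :=
    mul_nonneg (by positivity) (by linarith)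
  rw [← sub_nonneg]
  have h3 := add_nonneg h1 h2
  refine h3.trans (le_of_eq ?_)
  simp only [← Complex.normSq_eq_norm_sq, Complex.normSq_apply]
  simp only [Complex.add_re, Complex.sub_re, Complex.mul_re, Complex.mul_im, Complex.add_im,
    Complex.sub_im, Complex.conj_re, Complex.conj_im, Complex.ofReal_re, Complex.ofReal_im,
    Complex.re_ofNat, Complex.im_ofNat]
  ring

/-- the elementary pointwise inequality. -/
theorem pt_one (y a f : ℂ) :
    (2 * (y * a * f)).re ≤ (conj y * y).re * ‖f‖ ^ 2 + (conj a * a).re := by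
  have h1 : 0 ≤ ‖y * f - conj a‖ ^ 2 := by positivity
  rw [← sub_nonneg]
  refine h1.trans (le_of_eq ?_)
  simp only [← Complex.normSq_eq_norm_sq, Complex.normSq_apply]
  simp only [Complex.sub_re, Complex.mul_re, Complex.mul_im, Complex.sub_im, Complex.conj_re,
    Complex.conj_im, Complex.re_ofNat, Complex.im_ofNat]
  ring

theorem mean_add3 {f g h : AddCircle (1 : ℝ) → ℂ} (hf : Continuous f) (hg : Continuous g)
    (hh : Continuous h) : mean (fun x => f x + g x + h x) = mean f + mean g + mean h := by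
  rw [mean_add (f := fun x => f x + g x) (hf.add hg) hh, mean_add hf hg]

theorem mean_comb {y a b c : AddCircle (1 : ℝ) → ℂ} (hy : Continuous y) (ha : Continuous a)
    (hb : Continuous b) (hc : Continuous c) (K : ℂ) :
    mean (fun x => K * y x + (a x + b x + c x)) = K * mean y + (mean a + mean b + mean c) := by
  rw [mean_add (f := fun x => K * y x) (g := fun x => a x + b x + c x)
    (continuous_const.mul hy) ((ha.add hb).add hc), mean_add3 ha hb hc, mean_const_mul]

theorem mean_comb2 {y a b c d : AddCircle (1 : ℝ) → ℂ} (hy : Continuous y) (ha : Continuous a)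
    (hb : Continuous b) (hc : Continuous c) (hd : Continuous d) (K L : ℂ) :
    mean (fun x => K * y x + (a x + b x + c x) + 2 * (L * d x)) =
      K * mean y + (mean a + mean b + mean c) + 2 * (L * mean d) := by
  rw [mean_add (f := fun x => K * y x + (a x + b x + c x)) (g := fun x => 2 * (L * d x))
    ((continuous_const.mul hy).add ((ha.add hb).add hc))
    (continuous_const.mul (continuous_const.mul hd)), mean_comb hy ha hb hc, mean_const_mul,
    mean_const_mul]

theorem S_zero (ζ : ℂ) : S (fun _ => 0) ζ = 0 := by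
  unfold S
  simp

theorem pr_zero (p : ℤ →₀ ℂ) : pr p (fun _ => 0) = 0 := by
  unfold pr Finsupp.sum
  simp

theorem conj_mul_nonneg (a : ℂ) : 0 ≤ (conj a * a).re := by
  rw [mul_comm, Complex.mul_conj, Complex.ofReal_re]
  exact Complex.normSq_nonneg a

end An

open An

/-- **T1a.** -/
theorem wi_of_pw {γ xm K2 : ℝ} (hγ : 0 ≤ γ) (hx0 : 0 ≤ xm) (hx : xm ≤ 1 - γ * xm ^ 2)
    {F G : ℤ → ℂ} (hF : Summable fun n => ‖F n‖) (hG : Summable fun n => ‖G n‖)
    (h : PW γ K2 F G) : WI γ xm K2 false F G (fun _ => 0) := by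
  intro Y X A B C PF PG TF TG TH hX hPF hPG hTF hTG hTH
  rw [pr_zero, add_zero, if_neg (by simp), add_zero, pr_eq hF, pr_eq hG, ip_eq, ip_eq, ip_eq, ip_eq]
  have cc : ∀ p q : ℤ →₀ ℂ, Continuous fun x : AddCircle (1 : ℝ) =>
      conj (ev p (e x)) * ev q (e x) := fun p q =>
    (Complex.continuous_conj.comp (cont_ev p)).mul (cont_ev q)
  have cF : Continuous fun x : AddCircle (1 : ℝ) => ev TF (e x) * S F (e x) :=
    (cont_ev TF).mul (cont_S hF)
  have cG : Continuous fun x : AddCircle (1 : ℝ) => ev TG (e x) * S G (e x) :=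
    (cont_ev TG).mul (cont_S hG)
  have hL : 2 * (mean (fun x => ev TF (e x) * S F (e x)) +
      mean (fun x => ev TG (e x) * S G (e x))).re =
      (mean (fun x => 2 * (ev TF (e x) * S F (e x) + ev TG (e x) * S G (e x)))).re := by
    rw [mean_const_mul, mean_add cF cG]
    simp [Complex.mul_re]
  have hR : K2 * (mean (fun x => conj (ev Y (e x)) * ev Y (e x))).re +
      (mean (fun x => conj (ev A (e x)) * ev PF (e x)) +
        mean (fun x => conj (ev B (e x)) * ev PG (e x)) +
        mean (fun x => conj (ev C (e x)) * ev C (e x))).re =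
      (mean (fun x => (K2 : ℂ) * (conj (ev Y (e x)) * ev Y (e x)) +
        (conj (ev A (e x)) * ev PF (e x) + conj (ev B (e x)) * ev PG (e x) +
          conj (ev C (e x)) * ev C (e x)))).re := by
    rw [mean_comb (cc Y Y) (cc A PF) (cc B PG) (cc C C)]
    simp [Complex.mul_re]
  rw [hL, hR]
  refine mean_re_le (continuous_const.mul (cF.add cG))
    ((continuous_const.mul (cc Y Y)).add (((cc A PF).add (cc B PG)).add (cc C C))) fun x => ?_
  have hz := norm_e x
  have h1 : ‖ev X (e x)‖ ≤ xm := hX _ hz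
  have h2 : γ * ‖ev X (e x)‖ ^ 2 ≤ γ * xm ^ 2 :=
    mul_le_mul_of_nonneg_left (pow_le_pow_left₀ (norm_nonneg _) h1 2) hγ
  have h3 := pt_pw (ev Y (e x)) (ev X (e x)) (ev A (e x)) (ev B (e x)) (S F (e x)) (S G (e x))
    (c := 1 - γ * ‖ev X (e x)‖ ^ 2) (K2 := K2) (by linarith)
    (h (e x) (ev X (e x)) hz (by linarith))
  have h4 := conj_mul_nonneg (ev C (e x))
  rw [hTF _ hz, hTG _ hz, hPF _ hz, hPG _ hz]
  simp only [Complex.add_re] at h3 h4 ⊢
  linarith

/-- **T1b.** -/
theorem wi_euclid {γ K2 : ℝ} {F G H : ℤ → ℂ} (hF : Summable fun n => ‖F n‖)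
    (hG : Summable fun n => ‖G n‖) (hH : Summable fun n => ‖H n‖)
    (h : ∀ ζ : ℂ, ‖ζ‖ = 1 → ‖S F ζ‖ ^ 2 + ‖S G ζ‖ ^ 2 + ‖S H ζ‖ ^ 2 ≤ K2) :
    WI γ 0 K2 false F G H := by
  intro Y X A B C PF PG TF TG TH hX hPF hPG hTF hTG hTH
  rw [if_neg (by simp), add_zero, pr_eq hF, pr_eq hG, pr_eq hH, ip_eq, ip_eq, ip_eq, ip_eq]
  have cc : ∀ p q : ℤ →₀ ℂ, Continuous fun x : AddCircle (1 : ℝ) =>
      conj (ev p (e x)) * ev q (e x) := fun p q =>
    (Complex.continuous_conj.comp (cont_ev p)).mul (cont_ev q)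
  have cF : Continuous fun x : AddCircle (1 : ℝ) => ev TF (e x) * S F (e x) :=
    (cont_ev TF).mul (cont_S hF)
  have cG : Continuous fun x : AddCircle (1 : ℝ) => ev TG (e x) * S G (e x) :=
    (cont_ev TG).mul (cont_S hG)
  have cH : Continuous fun x : AddCircle (1 : ℝ) => ev TH (e x) * S H (e x) :=
    (cont_ev TH).mul (cont_S hH)
  have hL : 2 * (mean (fun x => ev TF (e x) * S F (e x)) +
      mean (fun x => ev TG (e x) * S G (e x)) + mean (fun x => ev TH (e x) * S H (e x))).re =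
      (mean (fun x => 2 * (ev TF (e x) * S F (e x) + ev TG (e x) * S G (e x) +
        ev TH (e x) * S H (e x)))).re := by
    rw [mean_const_mul, mean_add3 cF cG cH]
    simp [Complex.mul_re]
  have hR : K2 * (mean (fun x => conj (ev Y (e x)) * ev Y (e x))).re +
      (mean (fun x => conj (ev A (e x)) * ev PF (e x)) +
        mean (fun x => conj (ev B (e x)) * ev PG (e x)) +
        mean (fun x => conj (ev C (e x)) * ev C (e x))).re =
      (mean (fun x => (K2 : ℂ) * (conj (ev Y (e x)) * ev Y (e x)) +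
        (conj (ev A (e x)) * ev PF (e x) + conj (ev B (e x)) * ev PG (e x) +
          conj (ev C (e x)) * ev C (e x)))).re := by
    rw [mean_comb (cc Y Y) (cc A PF) (cc B PG) (cc C C)]
    simp [Complex.mul_re]
  rw [hL, hR]
  refine mean_re_le (continuous_const.mul ((cF.add cG).add cH))
    ((continuous_const.mul (cc Y Y)).add (((cc A PF).add (cc B PG)).add (cc C C))) fun x => ?_
  have hz := norm_e x
  have hx : ev X (e x) = 0 := norm_le_zero_iff.1 (hX _ hz)
  have hpf := hPF _ hz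
  have hpg := hPG _ hz
  rw [hx] at hpf hpg
  simp only [norm_zero, ne_eq, OfNat.ofNat_ne_zero, not_false_eq_true, zero_pow, mul_zero, sub_zero,
    Complex.ofReal_one, one_mul, map_zero, zero_mul, add_zero] at hpf hpg
  have h1 := pt_one (ev Y (e x)) (ev A (e x)) (S F (e x))
  have h2 := pt_one (ev Y (e x)) (ev B (e x)) (S G (e x))
  have h3 := pt_one (ev Y (e x)) (ev C (e x)) (S H (e x))
  have h4 := mul_le_mul_of_nonneg_left (h _ hz) (conj_mul_nonneg (ev Y (e x)))
  rw [hTF _ hz, hTG _ hz, hTH _ hz, hpf, hpg]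
  have h5 : ((K2 : ℂ) * (conj (ev Y (e x)) * ev Y (e x))).re =
      K2 * (conj (ev Y (e x)) * ev Y (e x)).re := Complex.re_ofReal_mul _ _
  rw [Complex.add_re, Complex.add_re, Complex.add_re, h5, mul_add, mul_add, Complex.add_re,
    Complex.add_re]
  nlinarith

/-- **T1c.** two parts of the same class. -/
theorem wi_cross {γ K2 : ℝ} {F g : ℤ → ℂ} (hF : Summable fun n => ‖F n‖)
    (hg : Summable fun n => ‖g n‖)
    (h : ∀ ζ : ℂ, ‖ζ‖ = 1 → ‖S F ζ‖ ^ 2 + ‖S g ζ‖ ^ 2 ≤ K2) {l m : ℂ} (hl : ‖l‖ ≤ 1) (hm : ‖m‖ ≤ 1) :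
    WI γ 0 K2 true F (fun n => l * g n) (fun n => m * g (n + 2)) := by
  intro Y X A B C PF PG TF TG TH hX hPF hPG hTF hTG hTH
  have hg2 : Summable fun n : ℤ => ‖g (n + 2)‖ := hg.comp_injective (add_left_injective (2 : ℤ))
  have hG : Summable fun n : ℤ => ‖l * g n‖ := by
    simp_rw [norm_mul]
    exact hg.mul_left _
  have hH : Summable fun n : ℤ => ‖m * g (n + 2)‖ := by
    simp_rw [norm_mul]
    exact hg2.mul_left _
  have hSG : ∀ ζ : ℂ, S (fun n => l * g n) ζ = l * S g ζ := by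
    intro ζ
    unfold S
    rw [← tsum_mul_left]
    exact tsum_congr fun n => by ring
  have hSH : ∀ ζ : ℂ, ζ ≠ 0 → S (fun n => m * g (n + 2)) ζ = m * (ζ ^ (-2 : ℤ) * S g ζ) := by
    intro ζ hζ
    unfold S
    rw [← (Equiv.addRight (2 : ℤ)).tsum_eq (fun n => g n * ζ ^ n), ← tsum_mul_left, ← tsum_mul_left]
    refine tsum_congr fun n => ?_
    rw [Equiv.coe_addRight, zpow_add₀ hζ, zpow_neg]
    field_simp
  rw [if_pos rfl, pr_eq hF, pr_eq hG, pr_eq hH, ip_eq, ip_eq, ip_eq, ip_eq, ips_eq]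
  have cc : ∀ p q : ℤ →₀ ℂ, Continuous fun x : AddCircle (1 : ℝ) =>
      conj (ev p (e x)) * ev q (e x) := fun p q =>
    (Complex.continuous_conj.comp (cont_ev p)).mul (cont_ev q)
  have cF : Continuous fun x : AddCircle (1 : ℝ) => ev TF (e x) * S F (e x) :=
    (cont_ev TF).mul (cont_S hF)
  have cG : Continuous fun x : AddCircle (1 : ℝ) => ev TG (e x) * S (fun n => l * g n) (e x) :=
    (cont_ev TG).mul (cont_S hG)
  have cH : Continuous fun x : AddCircle (1 : ℝ) => ev TH (e x) * S (fun n => m * g (n + 2)) (e x) :=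
    (cont_ev TH).mul (cont_S hH)
  have cI : Continuous fun x : AddCircle (1 : ℝ) => e x ^ (-2 : ℤ) * (conj (ev B (e x)) * ev C (e x)) :=
    (cont_zpow _).mul (cc B C)
  set J : ℂ := mean (fun x => e x ^ (-2 : ℤ) * (conj (ev B (e x)) * ev C (e x))) with hJ
  have hL : 2 * (mean (fun x => ev TF (e x) * S F (e x)) +
      mean (fun x => ev TG (e x) * S (fun n => l * g n) (e x)) +
      mean (fun x => ev TH (e x) * S (fun n => m * g (n + 2)) (e x))).re =
      (mean (fun x => 2 * (ev TF (e x) * S F (e x) + ev TG (e x) * S (fun n => l * g n) (e x) +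
        ev TH (e x) * S (fun n => m * g (n + 2)) (e x)))).re := by
    rw [mean_const_mul, mean_add3 cF cG cH]
    simp [Complex.mul_re]
  have hR : K2 * (mean (fun x => conj (ev Y (e x)) * ev Y (e x))).re +
      (mean (fun x => conj (ev A (e x)) * ev PF (e x)) +
        mean (fun x => conj (ev B (e x)) * ev PG (e x)) +
        mean (fun x => conj (ev C (e x)) * ev C (e x))).re + 2 * (conj l * m * J).re =
      (mean (fun x => (K2 : ℂ) * (conj (ev Y (e x)) * ev Y (e x)) +
        (conj (ev A (e x)) * ev PF (e x) + conj (ev B (e x)) * ev PG (e x) +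
          conj (ev C (e x)) * ev C (e x)) +
        2 * (conj l * m * (e x ^ (-2 : ℤ) * (conj (ev B (e x)) * ev C (e x)))))).re := by
    rw [mean_comb2 (cc Y Y) (cc A PF) (cc B PG) (cc C C) cI, ← hJ]
    have h2 : (2 * (conj l * m * J)).re = 2 * (conj l * m * J).re := by
      simp [Complex.mul_re]
    have h3 : ∀ p q r : ℂ, (p + q + r).re = p.re + q.re + r.re := fun p q r => rfl
    rw [h3 (_ * _), Complex.re_ofReal_mul, h2]
  have hJ2 : (conj l * m * J).re ≤ ‖J‖ := by
    refine (Complex.re_le_norm _).trans ?_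
    rw [norm_mul, norm_mul, Complex.norm_conj]
    have : ‖l‖ * ‖m‖ ≤ 1 := by nlinarith [norm_nonneg l, norm_nonneg m]
    nlinarith [norm_nonneg J]
  refine le_trans ?_ (add_le_add_right (mul_le_mul_of_nonneg_left hJ2 (by norm_num)) _)
  rw [hL, hR]
  refine mean_re_le (continuous_const.mul ((cF.add cG).add cH))
    (((continuous_const.mul (cc Y Y)).add (((cc A PF).add (cc B PG)).add (cc C C))).add
      (continuous_const.mul (continuous_const.mul cI))) fun x => ?_
  have hz := norm_e x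
  have hx : ev X (e x) = 0 := norm_le_zero_iff.1 (hX _ hz)
  have hpf := hPF _ hz
  have hpg := hPG _ hz
  rw [hx] at hpf hpg
  simp only [norm_zero, ne_eq, OfNat.ofNat_ne_zero, not_false_eq_true, zero_pow, mul_zero, sub_zero,
    Complex.ofReal_one, one_mul, map_zero, zero_mul, add_zero] at hpf hpg
  rw [hTF _ hz, hTG _ hz, hTH _ hz, hpf, hpg, hSG, hSH _ (e_ne x)]
  have h1 := pt_one (ev Y (e x)) (ev A (e x)) (S F (e x))
  have h2 := pt_one (ev Y (e x)) (l * ev B (e x) + m * e x ^ (-2 : ℤ) * ev C (e x)) (S g (e x))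
  have h4 := mul_le_mul_of_nonneg_left (h _ hz) (conj_mul_nonneg (ev Y (e x)))
  have h5 : ((K2 : ℂ) * (conj (ev Y (e x)) * ev Y (e x))).re =
      K2 * (conj (ev Y (e x)) * ev Y (e x)).re := Complex.re_ofReal_mul _ _
  have hw : ‖e x ^ (-2 : ℤ)‖ = 1 := norm_zpow_e _ x
  generalize e x ^ (-2 : ℤ) = w at *
  generalize ev Y (e x) = y at *
  generalize ev A (e x) = a at *
  generalize ev B (e x) = b at *
  generalize ev C (e x) = c at *
  generalize S F (e x) = f at *
  generalize S g (e x) = s at *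
  -- energy of the combined vector
  have h6 : (conj (l * b + m * w * c) * (l * b + m * w * c)).re =
      ‖l‖ ^ 2 * (conj b * b).re + ‖m‖ ^ 2 * ‖w‖ ^ 2 * (conj c * c).re +
        2 * (conj l * m * (w * (conj b * c))).re := by
    simp only [← Complex.normSq_eq_norm_sq, Complex.normSq_apply]
    simp only [map_add, map_mul, Complex.add_re, Complex.mul_re, Complex.mul_im,
      Complex.add_im, Complex.conj_re, Complex.conj_im]
    ring
  rw [hw] at h6
  have h7 : ‖l‖ ^ 2 * (conj b * b).re ≤ (conj b * b).re := by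
    have := conj_mul_nonneg b
    nlinarith [norm_nonneg l, pow_le_one₀ (norm_nonneg l) hl (n := 2)]
  have h8 : ‖m‖ ^ 2 * (conj c * c).re ≤ (conj c * c).re := by
    have := conj_mul_nonneg c
    nlinarith [norm_nonneg m, pow_le_one₀ (norm_nonneg m) hm (n := 2)]
  have h9 : (2 * (y * a * f + y * b * (l * s) + y * c * (m * (w * s)))).re =
      (2 * (y * a * f)).re + (2 * (y * (l * b + m * w * c) * s)).re := by
    rw [← Complex.add_re]
    congr 1
    ring
  have h10 : (2 * (conj l * m * (w * (conj b * c)))).re = 2 * (conj l * m * (w * (conj b * c))).re := by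
    simp [Complex.mul_re]
  rw [h9]
  rw [Complex.add_re, Complex.add_re, Complex.add_re, Complex.add_re, h5, h10]
  rw [h6] at h2
  nlinarith

/-- **T1e.** -/
theorem ip_herm (p q : ℤ →₀ ℂ) : ip p q = conj (ip q p) := by
  rw [ip_eq, ip_eq, ← mean_conj]
  congr 1
  funext x
  rw [map_mul, Complex.conj_conj, mul_comm]

/-- **T1d.** the energy form is Hermitian. -/
theorem energy_herm {γ : ℝ} {X A B A' B' PF PG PF' PG' : ℤ →₀ ℂ}
    (hPF : ∀ ζ : ℂ, ‖ζ‖ = 1 →
      ev PF ζ = ((1 - γ * ‖ev X ζ‖ ^ 2 : ℝ) : ℂ) * ev A ζ + conj (ev X ζ) * ev B ζ)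
    (hPG : ∀ ζ : ℂ, ‖ζ‖ = 1 →
      ev PG ζ = ((1 - γ * ‖ev X ζ‖ ^ 2 : ℝ) : ℂ) * ev B ζ + ev X ζ * ev A ζ)
    (hPF' : ∀ ζ : ℂ, ‖ζ‖ = 1 →
      ev PF' ζ = ((1 - γ * ‖ev X ζ‖ ^ 2 : ℝ) : ℂ) * ev A' ζ + conj (ev X ζ) * ev B' ζ)
    (hPG' : ∀ ζ : ℂ, ‖ζ‖ = 1 →
      ev PG' ζ = ((1 - γ * ‖ev X ζ‖ ^ 2 : ℝ) : ℂ) * ev B' ζ + ev X ζ * ev A' ζ) :
    ip A PF' + ip B PG' = conj (ip A' PF + ip B' PG) := by
  have hc : ∀ p q : ℤ →₀ ℂ, Continuous fun x : AddCircle (1 : ℝ) =>
      conj (ev p (e x)) * ev q (e x) := fun p q =>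
    (Complex.continuous_conj.comp (cont_ev p)).mul (cont_ev q)
  rw [ip_eq, ip_eq, ip_eq, ip_eq, ← mean_add (hc _ _) (hc _ _), ← mean_add (hc _ _) (hc _ _),
    ← mean_conj]
  congr 1
  funext x
  rw [hPF _ (norm_e x), hPG _ (norm_e x), hPF' _ (norm_e x), hPG' _ (norm_e x)]
  simp only [map_add, map_mul, Complex.conj_conj, Complex.conj_ofReal]
  ring

/-- **T1f.** a consequence of `WI` with `Y = 1`, used for the trivial conditions; or use `bessel`. -/
theorem bessel_bdd {K : ℝ} {W : ℤ → ℂ} (h : Bdd K W) (R : Finset ℤ) :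
    ∑ n ∈ R, ‖W n‖ ^ 2 ≤ K ^ 2 := by
  have hK0 : 0 ≤ K := le_trans (norm_nonneg _) (h.bound 1 (by simp))
  exact bessel W h.summable hK0 h.bound R

end MaxTerm.PB
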