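import Mathlib.Logic.Basic

/-! # Kernel-friendly integer checker for the cell certificates (MP_4255df, Part B)

Everything is written with explicit recursors, so that the kernel evaluates it quickly. -/

namespace MaxTerm.PB

/-! ## integers -/

/-- `m - n` as an integer. -/
noncomputable def snn (m n : Nat) : Int :=
  @Nat.rec (fun _ => Int) (Int.ofNat (Nat.sub m n)) (fun k _ => Int.negSucc k) (Nat.sub n m)

/-- `-n`. -/
noncomputable def inegN (n : Nat) : Int :=
  @Nat.rec (fun _ => Int) (Int.ofNat 0) (fun k _ => Int.negSucc k) n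

noncomputable def iadd (a b : Int) : Int :=
  @Int.rec (fun _ => Int)
    (fun m => @Int.rec (fun _ => Int) (fun n => Int.ofNat (Nat.add m n))
      (fun n => snn m (Nat.succ n)) b)
    (fun m => @Int.rec (fun _ => Int) (fun n => snn n (Nat.succ m))
      (fun n => Int.negSucc (Nat.succ (Nat.add m n))) b) a

noncomputable def isub (a b : Int) : Int :=
  @Int.rec (fun _ => Int)
    (fun m => @Int.rec (fun _ => Int) (fun n => snn m n)
      (fun n => Int.ofNat (Nat.succ (Nat.add m n))) b)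
    (fun m => @Int.rec (fun _ => Int) (fun n => Int.negSucc (Nat.add m n))
      (fun n => snn n m) b) a

noncomputable def imul (a b : Int) : Int :=
  @Int.rec (fun _ => Int)
    (fun m => @Int.rec (fun _ => Int) (fun n => Int.ofNat (Nat.mul m n))
      (fun n => inegN (Nat.mul m (Nat.succ n))) b)
    (fun m => @Int.rec (fun _ => Int) (fun n => inegN (Nat.mul (Nat.succ m) n))
      (fun n => Int.ofNat (Nat.mul (Nat.succ m) (Nat.succ n))) b) a

/-- `|a|`. -/
noncomputable def iabs (a : Int) : Nat :=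
  @Int.rec (fun _ => Nat) (fun m => m) (fun m => Nat.succ m) a

/-- `⌊a / 2^30⌋`. -/
noncomputable def ish (a : Int) : Int :=
  @Int.rec (fun _ => Int) (fun m => Int.ofNat (Nat.div m 1073741824))
    (fun m => Int.negSucc (Nat.div m 1073741824)) a

/-! ## Gaussian integers -/

structure GI where
  r : Int
  i : Int

noncomputable def GI.zero : GI := ⟨Int.ofNat 0, Int.ofNat 0⟩
noncomputable def gadd (a b : GI) : GI :=
  @GI.rec (fun _ => GI) (fun ar ai => @GI.rec (fun _ => GI) (fun br bi => ⟨iadd ar br, iadd ai bi⟩) b) a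
noncomputable def gmul (a b : GI) : GI :=
  @GI.rec (fun _ => GI) (fun ar ai => @GI.rec (fun _ => GI)
    (fun br bi => ⟨isub (imul ar br) (imul ai bi), iadd (imul ar bi) (imul ai br)⟩) b) a
/-- `conj a * b`. -/
noncomputable def gcmul (a b : GI) : GI :=
  @GI.rec (fun _ => GI) (fun ar ai => @GI.rec (fun _ => GI)
    (fun br bi => ⟨iadd (imul ar br) (imul ai bi), isub (imul ar bi) (imul ai br)⟩) b) a
noncomputable def gconj (a : GI) : GI :=
  @GI.rec (fun _ => GI) (fun ar ai => ⟨ar, isub (Int.ofNat 0) ai⟩) a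
noncomputable def gsm (c : Int) (a : GI) : GI :=
  @GI.rec (fun _ => GI) (fun ar ai => ⟨imul c ar, imul c ai⟩) a
noncomputable def gsh (a : GI) : GI :=
  @GI.rec (fun _ => GI) (fun ar ai => ⟨ish ar, ish ai⟩) a
noncomputable def gre (a : GI) : Int := @GI.rec (fun _ => Int) (fun x _ => x) a

/-- upper bound of `|z|` : `max + min/2` rounded up. -/
noncomputable def gab (a : GI) : Nat :=
  @GI.rec (fun _ => Nat) (fun ar ai =>
    (fun x y => (fun d => Nat.add (Nat.add x d) (Nat.div (Nat.succ (Nat.sub y d)) 2)) (Nat.sub y x))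
      (iabs ar) (iabs ai)) a
/-- cheap upper bound of `|z|` : `|re| + |im|`. -/
noncomputable def gl1 (a : GI) : Nat :=
  @GI.rec (fun _ => Nat) (fun ar ai => Nat.add (iabs ar) (iabs ai)) a

/-- upper bound for `√2 * x`. -/
noncomputable def r2 (x : Nat) : Nat := Nat.div (Nat.add (Nat.mul 17 x) 11) 12

/-! ## polynomials (lists of coefficients) -/

noncomputable def padd (a : List GI) : List GI → List GI :=
  @List.rec GI (fun _ => List GI → List GI) (fun b => b)
    (fun x a' ih b => @List.rec GI (fun _ => List GI) (x :: a') (fun y b' _ => gadd x y :: ih b') b) a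
noncomputable def psm (c : GI) (a : List GI) : List GI :=
  @List.rec GI (fun _ => List GI) [] (fun x _ ih => gmul c x :: ih) a
noncomputable def pism (c : Int) (a : List GI) : List GI :=
  @List.rec GI (fun _ => List GI) [] (fun x _ ih => gsm c x :: ih) a
/-- `0 :: a`, but `[]` if `a = []`. -/
noncomputable def zcons (a : List GI) : List GI :=
  @List.rec GI (fun _ => List GI) [] (fun _ _ _ => GI.zero :: a) a
noncomputable def pmul (a b : List GI) : List GI :=
  @List.rec GI (fun _ => List GI) [] (fun x _ ih => padd (psm x b) (zcons ih)) a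
noncomputable def pconj (a : List GI) : List GI :=
  @List.rec GI (fun _ => List GI) [] (fun x _ ih => gconj x :: ih) a
noncomputable def prevA (a : List GI) : List GI → List GI :=
  @List.rec GI (fun _ => List GI → List GI) (fun acc => acc) (fun x _ ih acc => ih (x :: acc)) a
/-- reversed conjugate. -/
noncomputable def pstar (a : List GI) : List GI := pconj (prevA a [])
noncomputable def pshift (k : Nat) (a : List GI) : List GI :=
  @Nat.rec (fun _ => List GI) a (fun _ ih => zcons ih) k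
/-- `∑ conj a_i * b_i`. -/
noncomputable def pdot (a : List GI) : List GI → GI :=
  @List.rec GI (fun _ => List GI → GI) (fun _ => GI.zero)
    (fun x _ ih b => @List.rec GI (fun _ => GI) GI.zero (fun y b' _ => gadd (gcmul x y) (ih b')) b) a
noncomputable def pdrop (k : Nat) (a : List GI) : List GI :=
  @Nat.rec (fun _ => List GI → List GI) (fun a => a)
    (fun _ ih a => @List.rec GI (fun _ => List GI) [] (fun _ a' _ => ih a') a) k a
/-- the first `k` entries (padded with zeros), reversed, in front of `acc`. -/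
noncomputable def ptakeRev (k : Nat) (a : List GI) : List GI → List GI :=
  @Nat.rec (fun _ => List GI → List GI → List GI) (fun _ acc => acc)
    (fun _ ih a acc => @List.rec GI (fun _ => List GI) (ih [] (GI.zero :: acc))
      (fun x a' _ => ih a' (x :: acc)) a) k a
/-- left side: the first `k` entries reversed (`[]` if `a = []`). -/
noncomputable def psideL (k : Nat) (a : List GI) : List GI :=
  @List.rec GI (fun _ => List GI) [] (fun _ _ _ => ptakeRev k a []) a
/-- `∑ |y|²` added to `acc`. -/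
noncomputable def nrm (l : List GI) (acc : Int) : Int :=
  @List.rec GI (fun _ => Int) acc (fun x _ ih => @GI.rec (fun _ => Int)
    (fun a b => iadd (iadd (imul a a) (imul b b)) ih) x) l
/-- `∑ |re| + |im|`. -/
noncomputable def pl1 (l : List GI) : Nat :=
  @List.rec GI (fun _ => Nat) 0 (fun x _ ih => Nat.add (gl1 x) ih) l

/-! ## Taylor models of the monomials `u^a`, `t^b`, `u^a t^b` (scale `2^30`) -/

/-- `|2^30 z - (c0 + ε ce)| ≤ rad`. -/
structure UM where
  c0 : GI
  ce : GI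
  rad : Nat

/-- `|2^30 x - (c0 + θ cd)| ≤ rad`, all real. -/
structure RM where
  c0 : Int
  cd : Int
  rad : Nat

/-- `|2^30 z - (c0 + ε ce + θ cd)| ≤ rad`. -/
structure TM where
  c0 : GI
  ce : GI
  cd : GI
  rad : Nat

noncomputable def UM.one : UM := ⟨⟨Int.ofNat 1073741824, Int.ofNat 0⟩, GI.zero, 0⟩
noncomputable def UM.junk : UM := ⟨GI.zero, GI.zero, 1073741824⟩
noncomputable def RM.one : RM := ⟨Int.ofNat 1073741824, Int.ofNat 0, 0⟩
noncomputable def RM.junk : RM := ⟨Int.ofNat 0, Int.ofNat 0, 1073741824⟩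

noncomputable def umul (a b : UM) : UM :=
  @UM.rec (fun _ => UM) (fun a0 ae ar => @UM.rec (fun _ => UM) (fun b0 be br =>
    ⟨gsh (gmul a0 b0), gsh (gadd (gmul a0 be) (gmul ae b0)),
      (fun a1 b1 => Nat.add 5 (Nat.div (Nat.add (Nat.add (Nat.mul a1 b1)
        (Nat.mul ar (Nat.add (gab b0) (Nat.add b1 br)))) (Nat.mul br (Nat.add (gab a0) a1))) 1073741824))
        (r2 (gab ae)) (r2 (gab be))⟩) b) a

noncomputable def rmul (a b : RM) : RM :=
  @RM.rec (fun _ => RM) (fun a0 ad ar => @RM.rec (fun _ => RM) (fun b0 bd br =>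
    ⟨ish (imul a0 b0), ish (iadd (imul a0 bd) (imul ad b0)),
      (fun a1 b1 => Nat.add 3 (Nat.div (Nat.add (Nat.add (Nat.mul a1 b1)
        (Nat.mul ar (Nat.add (iabs b0) (Nat.add b1 br)))) (Nat.mul br (Nat.add (iabs a0) a1))) 1073741824))
        (iabs ad) (iabs bd)⟩) b) a

noncomputable def umulR (a : UM) (b : RM) : TM :=
  @UM.rec (fun _ => TM) (fun a0 ae ar => @RM.rec (fun _ => TM) (fun b0 bd br =>
    ⟨gsh (gsm b0 a0), gsh (gsm b0 ae), gsh (gsm bd a0),
      (fun a1 b1 => Nat.add 6 (Nat.div (Nat.add (Nat.add (Nat.mul a1 b1)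
        (Nat.mul ar (Nat.add (iabs b0) (Nat.add b1 br)))) (Nat.mul br (Nat.add (gab a0) a1))) 1073741824))
        (r2 (gab ae)) (iabs bd)⟩) b) a

/-- `[y, y x, y x², …]` (`n` terms). -/
noncomputable def upows (x : UM) (n : Nat) : UM → List UM :=
  @Nat.rec (fun _ => UM → List UM) (fun _ => []) (fun _ ih y => y :: ih (umul y x)) n
noncomputable def rpows (x : RM) (n : Nat) : RM → List RM :=
  @Nat.rec (fun _ => RM → List RM) (fun _ => []) (fun _ ih y => y :: ih (rmul y x)) n

noncomputable def uget (k : Nat) : List UM → UM :=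
  @Nat.rec (fun _ => List UM → UM) (fun l => @List.rec UM (fun _ => UM) UM.junk (fun x _ _ => x) l)
    (fun _ ih l => @List.rec UM (fun _ => UM) UM.junk (fun _ l' _ => ih l') l) k
noncomputable def rget (k : Nat) : List RM → RM :=
  @Nat.rec (fun _ => List RM → RM) (fun l => @List.rec RM (fun _ => RM) RM.junk (fun x _ _ => x) l)
    (fun _ ih l => @List.rec RM (fun _ => RM) RM.junk (fun _ l' _ => ih l') l) k

/-! ## contributions of the modes -/

/-- `|2^75 z - (r0 + ε re + θ rd)| ≤ rr`. -/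
structure R3 where
  r0 : GI
  re : GI
  rd : GI
  rr : Nat

noncomputable def R3.zero : R3 := ⟨GI.zero, GI.zero, GI.zero, 0⟩
noncomputable def r3add (a b : R3) : R3 :=
  @R3.rec (fun _ => R3) (fun a0 ae ad ar => @R3.rec (fun _ => R3) (fun b0 be bd br =>
    ⟨gadd a0 b0, gadd ae be, gadd ad bd, Nat.add ar br⟩) b) a

/-- `(T0 + ε T1 + θ T2) · 2^30`. -/
noncomputable def r3one (t0 t1 t2 : GI) : R3 :=
  ⟨gsm (Int.ofNat 1073741824) t0, gsm (Int.ofNat 1073741824) t1, gsm (Int.ofNat 1073741824) t2, 0⟩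
noncomputable def r3U (s : UM) (t0 t1 t2 : GI) : R3 :=
  @UM.rec (fun _ => R3) (fun s0 se sr =>
    ⟨gmul s0 t0, gadd (gmul s0 t1) (gmul se t0), gmul s0 t2,
      (fun q => Nat.add (Nat.mul (r2 (gab se)) q) (Nat.mul sr (Nat.add (gab t0) q)))
        (Nat.add (r2 (gab t1)) (gab t2))⟩) s
noncomputable def r3R (s : RM) (t0 t1 t2 : GI) : R3 :=
  @RM.rec (fun _ => R3) (fun s0 sd sr =>
    ⟨gsm s0 t0, gsm s0 t1, gadd (gsm s0 t2) (gsm sd t0),
      (fun q => Nat.add (Nat.mul (iabs sd) q) (Nat.mul sr (Nat.add (gab t0) q)))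
        (Nat.add (r2 (gab t1)) (gab t2))⟩) s
noncomputable def r3T (s : TM) (t0 t1 t2 : GI) : R3 :=
  @TM.rec (fun _ => R3) (fun s0 se sd sr =>
    ⟨gmul s0 t0, gadd (gmul s0 t1) (gmul se t0), gadd (gmul s0 t2) (gmul sd t0),
      (fun q => Nat.add (Nat.mul (Nat.add (r2 (gab se)) (gab sd)) q) (Nat.mul sr (Nat.add (gab t0) q)))
        (Nat.add (r2 (gab t1)) (gab t2))⟩) s

/-- contribution with scale `u^a t^b`. -/
noncomputable def r3sc (U : List UM) (T : List RM) (a b : Nat) (t0 t1 t2 : GI) : R3 :=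
  @Nat.rec (fun _ => R3)
    (@Nat.rec (fun _ => R3) (r3one t0 t1 t2) (fun _ _ => r3R (rget b T) t0 t1 t2) b)
    (fun _ _ => @Nat.rec (fun _ => R3) (r3U (uget a U) t0 t1 t2)
      (fun _ _ => r3T (umulR (uget a U) (rget b T)) t0 t1 t2) b) a

noncomputable def r3one0 (t0 : GI) : R3 := ⟨gsm (Int.ofNat 1073741824) t0, GI.zero, GI.zero, 0⟩
noncomputable def r3U0 (s : UM) (t0 : GI) : R3 :=
  @UM.rec (fun _ => R3) (fun s0 se sr => ⟨gmul s0 t0, gmul se t0, GI.zero, Nat.mul sr (gab t0)⟩) s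
noncomputable def r3R0 (s : RM) (t0 : GI) : R3 :=
  @RM.rec (fun _ => R3) (fun s0 sd sr => ⟨gsm s0 t0, GI.zero, gsm sd t0, Nat.mul sr (gab t0)⟩) s
noncomputable def r3T0 (s : TM) (t0 : GI) : R3 :=
  @TM.rec (fun _ => R3) (fun s0 se sd sr => ⟨gmul s0 t0, gmul se t0, gmul sd t0, Nat.mul sr (gab t0)⟩) s
noncomputable def r3sc0 (U : List UM) (T : List RM) (a b : Nat) (t0 : GI) : R3 :=
  @Nat.rec (fun _ => R3)
    (@Nat.rec (fun _ => R3) (r3one0 t0) (fun _ _ => r3R0 (rget b T) t0) b)
    (fun _ _ => @Nat.rec (fun _ => R3) (r3U0 (uget a U) t0)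
      (fun _ _ => r3T0 (umulR (uget a U) (rget b T)) t0) b) a

/-- contributions of one window, one class, one side.  The lists `l1`, `l2` have the same length,
which is at most the length of `l0`. -/
noncomputable def contrib (U : List UM) (T : List RM) (ea eb : Nat → Nat) (l0 : List GI) :
    List GI → List GI → Nat → List R3 :=
  @List.rec GI (fun _ => List GI → List GI → Nat → List R3) (fun _ _ _ => [])
    (fun x _ ih l1 l2 j => @List.rec GI (fun _ => List R3)
      (r3sc0 U T (ea j) (eb j) x :: ih [] [] (Nat.succ j))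
      (fun x1 l1' _ => @List.rec GI (fun _ => List R3)
        (r3sc U T (ea j) (eb j) x x1 GI.zero :: ih l1' [] (Nat.succ j))
        (fun x2 l2' _ => r3sc U T (ea j) (eb j) x x1 x2 :: ih l1' l2' (Nat.succ j)) l2) l1) l0

noncomputable def r3ladd (a : List R3) : List R3 → List R3 :=
  @List.rec R3 (fun _ => List R3 → List R3) (fun b => b)
    (fun x a' ih b => @List.rec R3 (fun _ => List R3) (x :: a') (fun y b' _ => r3add x y :: ih b') b) a

/-! ## certificates -/

/-- test vectors of one class: `A0`, `A1`, `A2`; `nL` = number of entries of `T` on the left side.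
`A1`, `A2` have the same length, at most the length of `A0`. -/
structure CC where
  nL : Nat
  a0 : List GI
  a1 : List GI
  a2 : List GI

/-- one window: `Y`, `r` (radius of `χ`, `0` if `χ = 0`), `χ` (length `2 r + 1`), classes. -/
structure WC where
  Y : List GI
  r : Nat
  X : List GI
  F : CC
  G : CC
  H : CC

/-- family data: exponents of `u` and `t` on the left / right side of the class (index from the
split), numbers of known modes, denominator data of the class inequality, presence of the cross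
term. -/
structure Fam where
  g : Nat
  xmax : Nat
  ea : Bool → Nat → Nat → Nat → Nat
  eb : Bool → Nat → Nat → Nat → Nat
  kL : Nat → Nat
  kR : Nat → Nat
  cross : Bool
  real : Bool
  tri : List (Nat × Nat)

/-- sums of the contributions on both sides. -/
structure LR where
  L : List R3
  R : List R3

/-- energies. -/
structure EN where
  e00 : Int
  e01 : GI
  e02 : Int
  e11 : Int
  e12 : GI
  e22 : Int

structure Acc where
  mass : Int
  en : EN
  F : LR
  G : LR
  H : LR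
  cross : Nat

noncomputable def Acc.zero : Acc :=
  ⟨Int.ofNat 0, ⟨Int.ofNat 0, GI.zero, Int.ofNat 0, Int.ofNat 0, GI.zero, Int.ofNat 0⟩,
    ⟨[], []⟩, ⟨[], []⟩, ⟨[], []⟩, 0⟩

/-- the two vectors `P_F`, `P_G`. -/
structure PP where
  F : List GI
  G : List GI

/-- `P_F = (1 - γ|χ|²) A + χ̄ B`, `P_G = (1 - γ|χ|²) B + χ A` (scale `2^37`). -/
noncomputable def mkPP (g r : Nat) (x xs a b : List GI) : PP :=
  @Nat.rec (fun _ => PP) ⟨pism (Int.ofNat 2097152) a, pism (Int.ofNat 2097152) b⟩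
    (fun _ _ => (fun U V =>
      ⟨padd (padd (pshift (Nat.mul 2 r) (pism (Int.ofNat 2097152) a)) (pism (inegN g) (pmul xs U)))
          (pshift r (pism (Int.ofNat 16384) V)),
        padd (padd (pshift (Nat.mul 2 r) (pism (Int.ofNat 2097152) b)) (pism (inegN g) (pmul x V)))
          (pshift r (pism (Int.ofNat 16384) U))⟩) (pmul x a) (pmul xs b)) r

noncomputable def lrAdd (f : Fam) (U : List UM) (T : List RM) (w cls nL : Nat)
    (t0 t1 t2 : List GI) (acc : LR) : LR :=
  @LR.rec (fun _ => LR) (fun L R =>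
    ⟨r3ladd (contrib U T (f.ea true w cls) (f.eb true w cls)
        (psideL nL t0) (psideL nL t1) (psideL nL t2) 0) L,
      r3ladd (contrib U T (f.ea false w cls) (f.eb false w cls)
        (pdrop nL t0) (pdrop nL t1) (pdrop nL t2) 0) R⟩) acc

noncomputable def eadd (k : Nat) (a0 a1 a2 p0 p1 p2 : List GI) (e : EN) : EN :=
  @EN.rec (fun _ => EN) (fun x00 x01 x02 x11 x12 x22 => (fun q0 q1 q2 =>
      ⟨iadd x00 (gre (pdot a0 q0)), gadd x01 (pdot a0 q1), iadd x02 (gre (pdot a0 q2)),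
        iadd x11 (gre (pdot a1 q1)), gadd x12 (pdot a1 q2), iadd x22 (gre (pdot a2 q2))⟩)
      (pdrop k p0) (pdrop k p1) (pdrop k p2)) e

/-- bound of `|⟨A_G, A_H⟩|` (kind 3). -/
noncomputable def crossE (nG nH : Nat) (a0 a1 a2 p0 p1 p2 : List GI) : Nat :=
  (fun dg dh => (fun x0 x1 x2 y0 y1 y2 =>
    Nat.add (Nat.add (Nat.add (gab (pdot x0 y0)) (r2 (Nat.add (gab (pdot x0 y1)) (gab (pdot x1 y0)))))
      (Nat.add (Nat.add (gab (pdot x0 y2)) (gab (pdot x2 y0))) (Nat.mul 2 (gab (pdot x1 y1)))))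
      (Nat.add (r2 (Nat.add (gab (pdot x1 y2)) (gab (pdot x2 y1)))) (gab (pdot x2 y2))))
    (pdrop dg a0) (pdrop dg a1) (pdrop dg a2) (pdrop dh p0) (pdrop dh p1) (pdrop dh p2))
    (Nat.sub nG (Nat.succ nH)) (Nat.sub (Nat.succ nH) nG)

/-- process one window. -/
noncomputable def win (f : Fam) (U : List UM) (T : List RM) (w : Nat) (c : WC) (acc : Acc) : Acc :=
  @WC.rec (fun _ => Acc) (fun Y r X cF cG cH =>
    @CC.rec (fun _ => Acc) (fun nF f0 f1 f2 => @CC.rec (fun _ => Acc) (fun nG g0 g1 g2 =>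
    @CC.rec (fun _ => Acc) (fun nH h0 h1 h2 =>
    @Acc.rec (fun _ => Acc) (fun mass en aF aG aH cr =>
    (fun xs =>
      @PP.rec (fun _ => Acc) (fun pf0 pg0 => @PP.rec (fun _ => Acc) (fun pf1 pg1 =>
      @PP.rec (fun _ => Acc) (fun pf2 pg2 =>
      (fun q0 q1 q2 =>
        ⟨nrm Y mass,
          eadd (Nat.mul 2 r) f0 f1 f2 pf0 pf1 pf2 (eadd (Nat.mul 2 r) g0 g1 g2 pg0 pg1 pg2
            (eadd 0 h0 h1 h2 q0 q1 q2 en)),
          lrAdd f U T w 0 nF (pmul Y pf0) (pmul Y pf1) (pmul Y pf2) aF,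
          lrAdd f U T w 1 nG (pmul Y pg0) (pmul Y pg1) (pmul Y pg2) aG,
          lrAdd f U T w 2 nH (pmul Y q0) (pmul Y q1) (pmul Y q2) aH,
          @Bool.rec (fun _ => Nat) cr (Nat.add cr (crossE nG nH g0 g1 g2 q0 q1 q2)) f.cross⟩)
        (pism (Int.ofNat 2097152) h0) (pism (Int.ofNat 2097152) h1) (pism (Int.ofNat 2097152) h2))
      (mkPP f.g r X xs f2 g2)) (mkPP f.g r X xs f1 g1)) (mkPP f.g r X xs f0 g0))
      (pstar X)) acc) cH) cG) cF) c

/-! ## final inequality -/

/-- accumulators: known part `K` and payments. -/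
structure KP where
  K : R3
  pay : Nat

noncomputable def payAll (l : List R3) (acc : Nat) : Nat :=
  @List.rec R3 (fun _ => Nat) acc (fun x _ ih => @R3.rec (fun _ => Nat)
    (fun a b c d => Nat.add (Nat.add (Nat.add (gab a) (r2 (gab b))) (Nat.add (gab c) d)) ih) x) l

/-- the first `k` entries are known modes, the others are paid. -/
noncomputable def known (k : Nat) : List R3 → KP → KP :=
  @Nat.rec (fun _ => List R3 → KP → KP) (fun l q => @KP.rec (fun _ => KP) (fun K p => ⟨K, payAll l p⟩) q)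
    (fun _ ih l q => @List.rec R3 (fun _ => KP) q (fun x l' _ =>
      ih l' (@KP.rec (fun _ => KP) (fun K p => ⟨r3add x K, p⟩) q)) l) k

noncomputable def lrKP (f : Fam) (cls : Nat) (x : LR) (q : KP) : KP :=
  @LR.rec (fun _ => KP) (fun L R => known (f.kL cls) L (known (f.kR cls) R q)) x

noncomputable def final (mass : Int) (e : EN) (q : KP) (cross : Nat) : Bool :=
  @EN.rec (fun _ => Bool) (fun x00 x01 x02 x11 x12 x22 => @KP.rec (fun _ => Bool) (fun K pay =>
    @R3.rec (fun _ => Bool) (fun k0 ke kd kr =>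
      (fun d1 d2 =>
        Nat.blt
          (Nat.add (Nat.add (Nat.mul (iabs mass) 168399750188142193278976)
            (Nat.mul 200000 (Nat.add (gl1 d1) (Nat.add (iabs d2) (Nat.add kr pay)))))
            (Nat.mul 419430400000 (Nat.add (Nat.add (Nat.mul 2 (iabs x11)) (Nat.mul 2 (r2 (gab x12))))
              (Nat.add (iabs x22) (Nat.mul 2 cross)))))
          (Nat.mul 100000 (Int.toNat (isub (imul (Int.ofNat 2) (gre k0)) (imul (Int.ofNat 4194304) x00)))))
        (gadd ke (gsm (Int.negSucc 4194303) x01)) (isub (gre kd) (imul (Int.ofNat 4194304) x02))) K) q) e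

/-- upper bound of `8 |z|` (one Newton step for the square root). -/
noncomputable def gnw (a : GI) : Nat :=
  @GI.rec (fun _ => Nat) (fun ar ai => (fun x y =>
    (fun s => Nat.succ (Nat.div (Nat.add s (Nat.div (Nat.mul 64 (Nat.add (Nat.mul x x) (Nat.mul y y))) s)) 2))
      (gab ⟨Int.ofNat (Nat.mul 8 x), Int.ofNat (Nat.mul 8 y)⟩)) (iabs ar) (iabs ai)) a

/-- upper bound for `∑ |χ_j|` (scale `2^10`). -/
noncomputable def chiSum (l : List GI) : Nat :=
  @List.rec GI (fun _ => Nat) 0 (fun x _ ih => Nat.add (gnw x) ih) l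

/-! ## encoded certificates and trees of boxes -/

/-- decode `n` Gaussian integers, two base `2^24` digits each (offset `2^23`). -/
noncomputable def dec (n : Nat) : Nat → List GI :=
  @Nat.rec (fun _ => Nat → List GI) (fun _ => []) (fun _ ih x =>
    ⟨isub (Int.ofNat (Nat.mod x 16777216)) (Int.ofNat 8388608),
      isub (Int.ofNat (Nat.mod (Nat.div x 16777216) 16777216)) (Int.ofNat 8388608)⟩ ::
        ih (Nat.div x 281474976710656)) n

/-- encoded class data: `nL`, length, derivative flag, vectors. -/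
structure EC where
  nL : Nat
  n : Nat
  d : Nat
  a0 : Nat
  a1 : Nat
  a2 : Nat

noncomputable def EC.cc (e : EC) : CC :=
  @EC.rec (fun _ => CC) (fun nL n d a0 a1 a2 =>
    @Nat.rec (fun _ => CC) ⟨nL, dec n a0, [], []⟩ (fun _ _ => ⟨nL, dec n a0, dec n a1, dec n a2⟩) d) e

/-- encoded window. -/
structure EW where
  nY : Nat
  Y : Nat
  r : Nat
  X : Nat
  F : EC
  G : EC
  H : EC

noncomputable def EW.wc (e : EW) : WC :=
  @EW.rec (fun _ => WC) (fun nY Y r X F G H =>
    ⟨dec nY Y, r, @Nat.rec (fun _ => List GI) [] (fun _ _ => dec (Nat.succ (Nat.mul 2 r)) X) r,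
      F.cc, G.cc, H.cc⟩) e

/-- admissibility of `χ`, and alignment of the classes `F`, `G` if `χ ≠ 0`. -/
noncomputable def chiOK (f : Fam) (c : WC) : Bool :=
  @WC.rec (fun _ => Bool) (fun _ r X F G _ => Bool.and (Nat.ble (chiSum X) f.xmax)
    (@Nat.rec (fun _ => Bool) true (fun _ _ => Nat.beq F.nL G.nL) r)) c

/-- check of a cell: `u0`, `h`, `t0`, `ht` at scale `2^30`. -/
noncomputable def checkWC (f : Fam) (u0 : GI) (h : Int) (t0 ht : Int) (w0 w1 w2 : WC) : Bool :=
  (Bool.and (Bool.and (chiOK f w0) (Bool.and (chiOK f w1) (chiOK f w2)))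
    ((fun U T =>
      @Acc.rec (fun _ => Bool) (fun mass en aF aG aH cr =>
        final mass en (lrKP f 0 aF (lrKP f 1 aG (lrKP f 2 aH ⟨R3.zero, 0⟩))) cr)
        (win f U T 0 w0 (win f U T 1 w1 (win f U T 2 w2 Acc.zero))))
      (upows ⟨u0, ⟨h, Int.ofNat 0⟩, 0⟩ 40 UM.one)
      (rpows ⟨t0, ht, 0⟩ 80 RM.one)))

/-- the certificate of a cell (encoded). -/
structure Cert where
  w0 : EW
  w1 : EW
  w2 : EW

noncomputable def checkCert (f : Fam) (u0 : GI) (h : Int) (t0 ht : Int) (c : Cert) : Bool :=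
  @Cert.rec (fun _ => Bool) (fun w0 w1 w2 => checkWC f u0 h t0 ht w0.wc w1.wc w2.wc) c

/-- one triviality condition `2 + |u|^(2α) + t^β > 2.92127` on the box; `r2` is a lower bound for
`|u|²` at scale `2^60`, `tt` for `t` at scale `2^30`. -/
noncomputable def tri1 (r2 tt : Nat) (q : Nat × Nat) : Bool :=
  @Prod.rec Nat Nat (fun _ => Bool) (fun α β => Bool.and (Bool.and (Nat.ble α 8) (Nat.ble β 16)) <|
    Nat.blt (Nat.mul 292127 (Nat.pow 2 480)) (Nat.mul 100000 (Nat.add (Nat.pow 2 481) (Nat.add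
      (@Nat.rec (fun _ => Nat) 0 (fun _ _ => Nat.mul (Nat.pow r2 α) (Nat.pow 2 (Nat.sub 480 (Nat.mul 60 α)))) α)
      (@Nat.rec (fun _ => Nat) 0 (fun _ _ => Nat.mul (Nat.pow tt β) (Nat.pow 2 (Nat.sub 480 (Nat.mul 30 β)))) β))))) q

noncomputable def triAny (r2 tt : Nat) (l : List (Nat × Nat)) : Bool :=
  @List.rec (Nat × Nat) (fun _ => Bool) false (fun q _ ih => Bool.or (tri1 r2 tt q) ih) l

/-- the box is trivial. -/
noncomputable def triOK (f : Fam) (u0 : GI) (h : Int) (t0 ht : Int) : Bool :=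
  @GI.rec (fun _ => Bool) (fun a b => (fun mx my => triAny (Nat.add (Nat.mul mx mx) (Nat.mul my my))
    (Int.toNat (isub t0 ht)) f.tri) (Nat.sub (iabs a) (Int.toNat h)) (Nat.sub (iabs b) (Int.toNat h))) u0

/-- trees of boxes. -/
inductive Tree where
  | triv : Tree
  | leaf : Cert → Tree
  | q : Tree → Tree → Tree → Tree → Tree
  | t : Tree → Tree → Tree
  | x : Tree → Tree → Tree

/-- half of `a`. -/
noncomputable def ihalf (a : Nat) : Int := Int.ofNat (Nat.div a 2)

/-- check of a tree on the box with centre `u0 = (a, b)`, `t0`, half sides `h`, `ht` (scale `2^30`). -/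
noncomputable def checkTree (f : Fam) (T : Tree) : Int → Int → Nat → Int → Nat → Bool :=
  @Tree.rec (fun _ => Int → Int → Nat → Int → Nat → Bool)
    (fun a b h t0 ht => triOK f ⟨a, b⟩ (Int.ofNat h) t0 (Int.ofNat ht))
    (fun c a b h t0 ht => checkCert f ⟨a, b⟩ (Int.ofNat h) t0 (Int.ofNat ht) c)
    (fun _ _ _ _ i1 i2 i3 i4 a b h t0 ht =>
      (Nat.beq h (Nat.mul 2 (Nat.div h 2))).and
      (Bool.and (Bool.and (i1 (isub a (ihalf h)) (isub b (ihalf h)) (Nat.div h 2) t0 ht)
        (i2 (isub a (ihalf h)) (iadd b (ihalf h)) (Nat.div h 2) t0 ht))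
      (Bool.and (i3 (iadd a (ihalf h)) (isub b (ihalf h)) (Nat.div h 2) t0 ht)
        (i4 (iadd a (ihalf h)) (iadd b (ihalf h)) (Nat.div h 2) t0 ht))))
    (fun _ _ i1 i2 a b h t0 ht => (Nat.beq ht (Nat.mul 2 (Nat.div ht 2))).and
      (Bool.and (i1 a b h (isub t0 (ihalf ht)) (Nat.div ht 2)) (i2 a b h (iadd t0 (ihalf ht)) (Nat.div ht 2))))
    (fun _ _ i1 i2 a b h t0 ht => (Bool.and f.real (Bool.and (Nat.beq (iabs b) 0)
      (Nat.beq h (Nat.mul 2 (Nat.div h 2))))).and
      (Bool.and (i1 (isub a (ihalf h)) b (Nat.div h 2) t0 ht) (i2 (iadd a (ihalf h)) b (Nat.div h 2) t0 ht))) T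

/-! ## the families -/

/-- case (i): `(m, l)`, `γ = g / 128`. -/
noncomputable def fam1 (g xmax m l : Nat) : Fam where
  g := g
  xmax := xmax
  ea := fun side w cls i => @Bool.rec (fun _ => Nat)
    -- right side, `n = -i`
    (@Nat.rec (fun _ => Nat) 0 (fun w _ => @Nat.rec (fun _ => Nat)
      (@Nat.rec (fun _ => Nat) (Nat.succ i) (fun _ _ => Nat.succ (Nat.succ i)) cls) (fun _ _ => 0) w) w)
    -- left side, `n = 1 + i`
    (@Nat.rec (fun _ => Nat) (@Nat.rec (fun _ => Nat) i (fun _ _ => Nat.sub i 1) cls)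
      (fun w _ => @Nat.rec (fun _ => Nat) (@Nat.rec (fun _ => Nat) 0 (fun _ _ => Nat.sub 1 i) cls)
        (fun _ _ => @Nat.rec (fun _ => Nat) i (fun _ _ => Nat.sub i 1) cls) w) w) side
  eb := fun side w cls i => @Bool.rec (fun _ => Nat)
    (@Nat.rec (fun _ => Nat) (@Nat.rec (fun _ => Nat) (Nat.mul m i) (fun _ _ => Nat.add l (Nat.mul m i)) cls)
      (fun w _ => @Nat.rec (fun _ => Nat)
        (@Nat.rec (fun _ => Nat) (Nat.mul m i) (fun _ _ => Nat.add l (Nat.mul m i)) cls) (fun _ _ => 0) w) w)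
    (@Nat.rec (fun _ => Nat) 0 (fun w _ => @Nat.rec (fun _ => Nat) 0
      (fun _ _ => @Nat.rec (fun _ => Nat) (Nat.mul m (Nat.succ i))
        (fun _ _ => Nat.sub (Nat.mul m (Nat.succ i)) l) cls) w) w) side
  kL := fun cls => @Nat.rec (fun _ => Nat) 2 (fun _ _ => 0) cls
  kR := fun cls => @Nat.rec (fun _ => Nat) 1 (fun cls _ => @Nat.rec (fun _ => Nat) 1 (fun _ _ => 0) cls) cls
  cross := false
  real := false
  tri := [(1, 0), (0, Nat.mul 2 m), (1, Nat.mul 2 l)]

/-- case (ii), `a + b ≠ k`: `D = t`, `D' = u` real. -/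
noncomputable def fam2 : Fam where
  g := 256
  xmax := 0
  ea := fun side w cls i => @Nat.rec (fun _ => Nat)
    -- class F
    (@Bool.rec (fun _ => Nat)
      (@Nat.rec (fun _ => Nat) 0 (fun w _ => @Nat.rec (fun _ => Nat) (Nat.succ i) (fun _ _ => 0) w) w)
      (@Nat.rec (fun _ => Nat) i (fun w _ => @Nat.rec (fun _ => Nat) 0 (fun _ _ => i) w) w) side)
    (fun cls _ => @Nat.rec (fun _ => Nat)
      -- class G
      (@Bool.rec (fun _ => Nat)
        (@Nat.rec (fun _ => Nat) 0
          (fun w _ => @Nat.rec (fun _ => Nat) (Nat.succ (Nat.succ i)) (fun _ _ => 0) w) w)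
        (@Nat.rec (fun _ => Nat) (Nat.sub i 1)
          (fun w _ => @Nat.rec (fun _ => Nat) (Nat.sub 1 i) (fun _ _ => Nat.sub i 1) w) w) side)
      -- class H: left `n = i` (`j = -i`), right `n = -1 - i` (`j = 1 + i`)
      (fun _ _ => @Bool.rec (fun _ => Nat)
        (@Nat.rec (fun _ => Nat) 0 (fun w _ => @Nat.rec (fun _ => Nat) i (fun _ _ => 0) w) w)
        (@Nat.rec (fun _ => Nat) (Nat.succ i)
          (fun w _ => @Nat.rec (fun _ => Nat) 0 (fun _ _ => Nat.succ i) w) w) side) cls) cls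
  eb := fun side w cls i => @Nat.rec (fun _ => Nat)
    (@Bool.rec (fun _ => Nat)
      (@Nat.rec (fun _ => Nat) i (fun w _ => @Nat.rec (fun _ => Nat) i (fun _ _ => 0) w) w)
      (@Nat.rec (fun _ => Nat) 0 (fun w _ => @Nat.rec (fun _ => Nat) 0 (fun _ _ => Nat.succ i) w) w) side)
    (fun cls _ => @Nat.rec (fun _ => Nat)
      (@Bool.rec (fun _ => Nat)
        (@Nat.rec (fun _ => Nat) (Nat.succ i)
          (fun w _ => @Nat.rec (fun _ => Nat) (Nat.succ i) (fun _ _ => 0) w) w)
        (@Nat.rec (fun _ => Nat) 0 (fun w _ => @Nat.rec (fun _ => Nat) 0 (fun _ _ => i) w) w) side)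
      (fun _ _ => @Bool.rec (fun _ => Nat)
        (@Nat.rec (fun _ => Nat) (Nat.sub i 1)
          (fun w _ => @Nat.rec (fun _ => Nat) (Nat.sub i 1) (fun _ _ => Nat.sub 1 i) w) w)
        (@Nat.rec (fun _ => Nat) 0
          (fun w _ => @Nat.rec (fun _ => Nat) 0 (fun _ _ => Nat.succ (Nat.succ i)) w) w) side) cls) cls
  kL := fun cls => @Nat.rec (fun _ => Nat) 1 (fun cls _ => @Nat.rec (fun _ => Nat) 0 (fun _ _ => 1) cls) cls
  kR := fun cls => @Nat.rec (fun _ => Nat) 1 (fun cls _ => @Nat.rec (fun _ => Nat) 1 (fun _ _ => 0) cls) cls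
  cross := false
  real := true
  tri := [(1, 0), (0, 2)]

/-- case (ii), `a + b = k`, `a ≤ k / 2`: `D = t²`, `D' = u²`; class `G`: right part, class `H`:
left part of the class of `b`. -/
noncomputable def fam3 : Fam where
  g := 256
  xmax := 0
  ea := fun side w cls i => @Nat.rec (fun _ => Nat)
    (@Bool.rec (fun _ => Nat)
      (@Nat.rec (fun _ => Nat) 0 (fun w _ => @Nat.rec (fun _ => Nat) (Nat.mul 2 (Nat.succ i)) (fun _ _ => 0) w) w)
      (@Nat.rec (fun _ => Nat) (Nat.mul 2 i)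
        (fun w _ => @Nat.rec (fun _ => Nat) 0 (fun _ _ => Nat.mul 2 i) w) w) side)
    (fun cls _ => @Nat.rec (fun _ => Nat)
      (@Bool.rec (fun _ => Nat)
        (@Nat.rec (fun _ => Nat) 0
          (fun w _ => @Nat.rec (fun _ => Nat) (Nat.mul 2 (Nat.succ (Nat.succ i))) (fun _ _ => 0) w) w)
        (@Nat.rec (fun _ => Nat) (Nat.mul 2 (Nat.sub i 1))
          (fun w _ => @Nat.rec (fun _ => Nat) (Nat.mul 2 (Nat.sub 1 i)) (fun _ _ => Nat.mul 2 (Nat.sub i 1)) w) w)
          side)
      (fun _ _ => @Bool.rec (fun _ => Nat)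
        (@Nat.rec (fun _ => Nat) 0
          (fun w _ => @Nat.rec (fun _ => Nat) (Nat.succ (Nat.mul 2 i)) (fun _ _ => 0) w) w)
        (@Nat.rec (fun _ => Nat) (Nat.succ (Nat.mul 2 i))
          (fun w _ => @Nat.rec (fun _ => Nat) 0 (fun _ _ => Nat.succ (Nat.mul 2 i)) w) w) side) cls) cls
  eb := fun side w cls i => @Nat.rec (fun _ => Nat)
    (@Bool.rec (fun _ => Nat)
      (@Nat.rec (fun _ => Nat) (Nat.mul 2 i)
        (fun w _ => @Nat.rec (fun _ => Nat) (Nat.mul 2 i) (fun _ _ => 0) w) w)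
      (@Nat.rec (fun _ => Nat) 0
        (fun w _ => @Nat.rec (fun _ => Nat) 0 (fun _ _ => Nat.mul 2 (Nat.succ i)) w) w) side)
    (fun cls _ => @Nat.rec (fun _ => Nat)
      (@Bool.rec (fun _ => Nat)
        (@Nat.rec (fun _ => Nat) (Nat.mul 2 (Nat.succ i))
          (fun w _ => @Nat.rec (fun _ => Nat) (Nat.mul 2 (Nat.succ i)) (fun _ _ => 0) w) w)
        (@Nat.rec (fun _ => Nat) 0 (fun w _ => @Nat.rec (fun _ => Nat) 0 (fun _ _ => Nat.mul 2 i) w) w) side)
      (fun _ _ => @Bool.rec (fun _ => Nat)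
        (@Nat.rec (fun _ => Nat) (Nat.sub (Nat.mul 2 i) 1)
          (fun w _ => @Nat.rec (fun _ => Nat) (Nat.sub (Nat.mul 2 i) 1) (fun _ _ => Nat.sub 1 i) w) w)
        (@Nat.rec (fun _ => Nat) 0
          (fun w _ => @Nat.rec (fun _ => Nat) 0 (fun _ _ => Nat.add 3 (Nat.mul 2 i)) w) w) side) cls) cls
  kL := fun cls => @Nat.rec (fun _ => Nat) 1 (fun cls _ => @Nat.rec (fun _ => Nat) 0 (fun _ _ => 1) cls) cls
  kR := fun cls => @Nat.rec (fun _ => Nat) 1 (fun cls _ => @Nat.rec (fun _ => Nat) 1 (fun _ _ => 0) cls) cls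
  cross := true
  real := true
  tri := [(2, 0), (0, 4)]

noncomputable def famA : Fam := fam1 175 577 1 1
noncomputable def famC : Fam := fam1 256 512 4 3
noncomputable def famD : Fam := fam1 256 0 2 1

end MaxTerm.PB
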