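import Pool.Agent.MaxTerm.Parseval
import Pool.Agent.MaxTerm.PB.Check

/-!
# MP_4255df, Part B: gaps that are not eventually constant.  Common definitions.

Note: `/team-store/MP_4255df_note_helper43.md`.

* `Bdd K W` : a coefficient sequence bounded by `K` on the unit circle.
* `Triple K a k b` : three consecutive windows `R_{-1}, R_0, R_1`, written in the coordinates of the
  middle one (gaps `a, k, b`).
* `ev`, `pr`, `ip` : value of a Laurent polynomial, its pairing with a sequence, inner product.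
* `WI` : the inequality obtained by testing one window (Lemma W of the note).
* `Inst f K2 u t` : the normalised three-window configuration of the family `f` with parameters
  `u`, `t`; this is the interface between the analysis and the integer checker.
-/

open Filter Topology ComplexConjugate

namespace MaxTerm.PB

/-- `∑ F_n ζ^n`. -/
noncomputable def S (F : ℤ → ℂ) (ζ : ℂ) : ℂ := ∑' n : ℤ, F n * ζ ^ n

/-- a coefficient sequence bounded by `K` on the unit circle. -/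
structure Bdd (K : ℝ) (W : ℤ → ℂ) : Prop where
  summable : Summable fun n : ℤ => ‖W n‖
  norm_le : ∀ n, ‖W n‖ ≤ 1
  bound : ∀ z : ℂ, ‖z‖ = 1 → ‖S W z‖ ≤ K

/-- three consecutive windows in the coordinates of the middle one: vertices at `-a, 0, k, k + b`. -/
structure Triple (K : ℝ) (a k b : ℕ) where
  c : ℤ → ℂ
  σ : ℂ
  τ : ℂ
  a_pos : 0 < a
  k_pos : 0 < k
  b_pos : 0 < b
  σ_ne : σ ≠ 0
  τ_ne : τ ≠ 0
  σ_lt : ‖σ‖ < 1
  τ_lt : ‖τ‖ < 1
  c_zero : c 0 = 1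
  c_edge : c (k : ℤ) = 1
  mid : Bdd K c
  left : Bdd K fun n => c n * σ ^ n
  right : Bdd K fun n => c n * τ ^ ((k : ℤ) - n)
  left_vertex : c (-(a : ℤ)) * σ ^ (-(a : ℤ)) = 1
  right_vertex : c ((k : ℤ) + b) * τ ^ (-(b : ℤ)) = 1

/-- value of a Laurent polynomial. -/
noncomputable def ev (p : ℤ →₀ ℂ) (ζ : ℂ) : ℂ := p.sum fun n a => a * ζ ^ n

/-- pairing: constant coefficient of `p(ζ) * ∑ f_n ζ^n`. -/
noncomputable def pr (p : ℤ →₀ ℂ) (f : ℤ → ℂ) : ℂ := p.sum fun n a => a * f (-n)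

/-- `∑ conj(p_n) q_n`. -/
noncomputable def ip (p q : ℤ →₀ ℂ) : ℂ := p.sum fun n a => conj a * q n

/-- `∑ conj(p_n) q_(n+2)`. -/
noncomputable def ips (p q : ℤ →₀ ℂ) : ℂ := p.sum fun n a => conj a * q (n + 2)

/-- The inequality obtained by testing one window with `Y`, `χ = ev X`, and vectors `A, B, C`
(classes `F`, `G`, `H`); `cross = true`: the classes `G`, `H` are two parts of the same class. -/
def WI (γ xm K2 : ℝ) (cross : Bool) (F G H : ℤ → ℂ) : Prop :=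
  ∀ Y X A B C PF PG TF TG TH : ℤ →₀ ℂ,
    (∀ ζ : ℂ, ‖ζ‖ = 1 → ‖ev X ζ‖ ≤ xm) →
    (∀ ζ : ℂ, ‖ζ‖ = 1 → ev PF ζ = ((1 - γ * ‖ev X ζ‖ ^ 2 : ℝ) : ℂ) * ev A ζ + conj (ev X ζ) * ev B ζ) →
    (∀ ζ : ℂ, ‖ζ‖ = 1 → ev PG ζ = ((1 - γ * ‖ev X ζ‖ ^ 2 : ℝ) : ℂ) * ev B ζ + ev X ζ * ev A ζ) →
    (∀ ζ : ℂ, ‖ζ‖ = 1 → ev TF ζ = ev Y ζ * ev PF ζ) →
    (∀ ζ : ℂ, ‖ζ‖ = 1 → ev TG ζ = ev Y ζ * ev PG ζ) →
    (∀ ζ : ℂ, ‖ζ‖ = 1 → ev TH ζ = ev Y ζ * ev C ζ) →
    2 * (pr TF F + pr TG G + pr TH H).re ≤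
      K2 * (ip Y Y).re + (ip A PF + ip B PG + ip C C).re + (if cross then 2 * ‖ips B C‖ else 0)

/-- the split point of a class (`F`, `G`: `1`; `H`: `0`). -/
def split : ℕ → ℤ
  | 0 => 1
  | 1 => 1
  | _ => 0

/-- the sequence with left part `g true i` at `s + i` and right part `g false i` at `s - 1 - i`. -/
def sq (s : ℤ) (g : Bool → ℕ → ℂ) (n : ℤ) : ℂ :=
  if s ≤ n then g true (n - s).toNat else g false (s - 1 - n).toNat

/-- coefficients of the class `cls` at the window `w`. -/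
noncomputable def Fam.seq (f : Fam) (u : ℂ) (t : ℝ) (X : ℕ → Bool → ℕ → ℂ) (w cls : ℕ) : ℤ → ℂ :=
  sq (split cls) fun side i =>
    u ^ (f.ea side w cls i) * (t : ℂ) ^ (f.eb side w cls i) * X cls side i

/-- `2 + |u|^(2α) [α > 0] + t^β [β > 0]`. -/
noncomputable def triVal (u : ℂ) (t : ℝ) (q : ℕ × ℕ) : ℝ :=
  2 + (if q.1 = 0 then 0 else ‖u‖ ^ (2 * q.1)) + (if q.2 = 0 then 0 else t ^ q.2)

/-- the normalised three-window configuration of the family `f`, bound `K2 = K²`.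
Windows: `w = 0` middle (`R_0`), `w = 1` left (`R_{-1}`), `w = 2` right (`R_1`); classes `0 = F`,
`1 = G`, `2 = H`. -/
structure Inst (f : Fam) (K2 : ℝ) (u : ℂ) (t : ℝ) where
  X : ℕ → Bool → ℕ → ℂ
  norm_u : ‖u‖ ≤ 1
  t_nonneg : 0 ≤ t
  t_le : t ≤ 1
  real : f.real = true → u.im = 0
  norm_X : ∀ cls side i, ‖X cls side i‖ ≤ 1
  known_L : ∀ cls i, i < f.kL cls → X cls true i = 1
  known_R : ∀ cls i, i < f.kR cls → X cls false i = 1
  wi : ∀ w, w < 3 → WI ((f.g : ℝ) / 128) ((f.xmax : ℝ) / 1024) K2 f.cross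
    (f.seq u t X w 0) (f.seq u t X w 1) (f.seq u t X w 2)
  tri : ∀ q ∈ f.tri, triVal u t q ≤ K2

/-- the box with centre `(a + i b, t0)` and half sides `h`, `ht` (scale `2^30`) is excluded. -/
def CoverOK (f : Fam) (a b : ℤ) (h : ℕ) (t0 : ℤ) (ht : ℕ) : Prop :=
  ∀ (u : ℂ) (t K2 : ℝ), |(2 : ℝ) ^ 30 * u.re - (a : ℝ)| ≤ (h : ℝ) →
    |(2 : ℝ) ^ 30 * u.im - (b : ℝ)| ≤ (h : ℝ) → |(2 : ℝ) ^ 30 * t - (t0 : ℝ)| ≤ (ht : ℝ) →
    Inst f K2 u t → 2.92127 < K2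

end MaxTerm.PB
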