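import Pool.Agent.MaxTerm.Reduce
import Pool.Agent.MaxTerm.PB.Basic

/-!
# Averages over roots of unity (Lemma P of the note, first part)

`W` is bounded by `K` on the unit circle, `k ≥ 1`.  Averaging `|f(ω z)|²` over `ω^k = 1` with the weight
`1` resp. `1 + 2 Re (χ ω^b)`.
-/

open Filter Topology ComplexConjugate

namespace MaxTerm.PB

/-- the class sum of `r` modulo `k`. -/
noncomputable def clsum (W : ℤ → ℂ) (k : ℕ) (z : ℂ) (r : ℤ) : ℂ :=
  ∑' n : ℤ, W (r - n * k) * z ^ (r - n * k)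

theorem avg_cls {K : ℝ} {W : ℤ → ℂ} (h : Bdd K W) {k : ℕ} (hk : 0 < k) {z ζ : ℂ} (hz : ‖z‖ = 1)
    (hζ : IsPrimitiveRoot ζ k) (r : ℤ) :
    (k : ℂ) * clsum W k z r = ∑ i ∈ Finset.range k, (ζ ^ i) ^ (-r) * S W (ζ ^ i * z) := by
  have hk0 : (k : ℤ) ≠ 0 := by exact_mod_cast hk.ne'
  have hζn : ‖ζ‖ = 1 := hζ.norm'_eq_one hk.ne'
  have hζ0 : ζ ≠ 0 := by rw [← norm_pos_iff, hζn]; exact one_pos
  have hinj : Function.Injective (fun n : ℤ => r - n * k) := by
    intro a b hab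
    simp only [sub_right_inj] at hab
    exact mul_right_cancel₀ hk0 hab
  have hun : ∀ i : ℕ, ‖ζ ^ i * z‖ = 1 := fun i => by
    rw [norm_mul, norm_pow, hζn, hz, one_pow, mul_one]
  have hsm : ∀ u : ℂ, ‖u‖ = 1 → Summable (fun n : ℤ => W n * u ^ n) := by
    intro u hu
    apply Summable.of_norm
    refine h.summable.congr fun n => ?_
    rw [norm_mul, norm_zpow, hu, one_zpow, mul_one]
  symm
  calc ∑ i ∈ Finset.range k, (ζ ^ i) ^ (-r) * S W (ζ ^ i * z)
      = ∑ i ∈ Finset.range k, ∑' n : ℤ, (ζ ^ i) ^ (-r) * (W n * (ζ ^ i * z) ^ n) := by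
        refine Finset.sum_congr rfl fun i _ => ?_
        rw [S, tsum_mul_left]
    _ = ∑' n : ℤ, ∑ i ∈ Finset.range k, (ζ ^ i) ^ (-r) * (W n * (ζ ^ i * z) ^ n) := by
        rw [Summable.tsum_finsetSum (fun i _ => (hsm _ (hun i)).mul_left _)]
    _ = ∑' n : ℤ, (if (k : ℤ) ∣ n - r then (k : ℂ) * (W n * z ^ n) else 0) := by
        refine tsum_congr fun n => ?_
        have h1 : ∀ i ∈ Finset.range k, (ζ ^ i) ^ (-r) * (W n * (ζ ^ i * z) ^ n) =
            (W n * z ^ n) * (ζ ^ i) ^ (n - r) := by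
          intro i _
          rw [mul_zpow, sub_eq_add_neg n r, zpow_add₀ (pow_ne_zero i hζ0)]
          ring
        rw [Finset.sum_congr rfl h1, ← Finset.mul_sum, sum_root_zpow hζ]
        split_ifs
        · ring
        · ring
    _ = (k : ℂ) * clsum W k z r := by
        rw [← hinj.tsum_eq
          (f := fun n : ℤ => if (k : ℤ) ∣ n - r then (k : ℂ) * (W n * z ^ n) else 0)]
        · rw [clsum, ← tsum_mul_left]
          refine tsum_congr fun n => ?_
          rw [if_pos ⟨-n, by ring⟩]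
        · intro n hn
          simp only [Function.mem_support, ne_eq, ite_eq_right_iff, not_forall] at hn
          obtain ⟨⟨m, hm⟩, _⟩ := hn
          exact ⟨-m, by simp only; linarith⟩

/-- finite correlation identity. -/
theorem corr_identity {k : ℕ} (hk : 0 < k) {ζ : ℂ} (hζ : IsPrimitiveRoot ζ k) (a : ℕ → ℂ)
    (x : ℤ → ℂ)
    (hx : ∀ r : ℤ, (k : ℂ) * x r = ∑ i ∈ Finset.range k, (ζ ^ i) ^ (-r) * a i) (b : ℤ) :
    (k : ℂ) * ∑ r ∈ Finset.range k, x ((r : ℤ) + b) * conj (x (r : ℤ)) =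
      ∑ i ∈ Finset.range k, (a i * conj (a i)) * (ζ ^ i) ^ (-b) := by
  have hkC : (k : ℂ) ≠ 0 := by exact_mod_cast hk.ne'
  have hζn : ‖ζ‖ = 1 := hζ.norm'_eq_one hk.ne'
  have hζ0 : ζ ≠ 0 := by rw [← norm_pos_iff, hζn]; exact one_pos
  have hconj : ∀ j : ℕ, conj (ζ ^ j) = (ζ ^ j)⁻¹ := by
    intro j
    have hn : ‖ζ ^ j‖ = 1 := by rw [norm_pow, hζn, one_pow]
    rw [Complex.inv_def, Complex.normSq_eq_norm_sq, hn]
    simp
  apply mul_left_cancel₀ hkC
  calc (k : ℂ) * ((k : ℂ) * ∑ r ∈ Finset.range k, x ((r : ℤ) + b) * conj (x (r : ℤ)))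
      = ∑ r ∈ Finset.range k, ((k : ℂ) * x ((r : ℤ) + b)) * conj ((k : ℂ) * x (r : ℤ)) := by
        rw [← mul_assoc, Finset.mul_sum]
        refine Finset.sum_congr rfl fun r _ => ?_
        rw [map_mul, Complex.conj_natCast]
        ring
    _ = ∑ r ∈ Finset.range k, ∑ i ∈ Finset.range k, ∑ j ∈ Finset.range k,
          (a i * conj (a j) * (ζ ^ i) ^ (-b)) * (ζ ^ r) ^ ((j : ℤ) - i) := by
        refine Finset.sum_congr rfl fun r _ => ?_
        rw [hx, hx, map_sum, Finset.sum_mul_sum]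
        refine Finset.sum_congr rfl fun i _ => Finset.sum_congr rfl fun j _ => ?_
        rw [map_mul, map_zpow₀, hconj, inv_zpow, ← zpow_neg, neg_neg]
        have h1 : (ζ ^ i) ^ (-((r : ℤ) + b)) = (ζ ^ i) ^ (-b) * (ζ ^ r) ^ (-(i : ℤ)) := by
          rw [neg_add, zpow_add₀ (pow_ne_zero i hζ0), mul_comm]
          congr 1
          rw [← zpow_natCast, ← zpow_natCast, ← zpow_mul, ← zpow_mul]
          congr 1
          ring
        have h2 : (ζ ^ j) ^ (r : ℤ) = (ζ ^ r) ^ (j : ℤ) := by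
          rw [zpow_natCast, zpow_natCast, ← pow_mul, ← pow_mul, mul_comm]
        rw [h1, h2, sub_eq_add_neg (j : ℤ), zpow_add₀ (pow_ne_zero r hζ0)]
        ring
    _ = ∑ i ∈ Finset.range k, ∑ j ∈ Finset.range k, ∑ r ∈ Finset.range k,
          (a i * conj (a j) * (ζ ^ i) ^ (-b)) * (ζ ^ r) ^ ((j : ℤ) - i) := by
        rw [Finset.sum_comm]
        refine Finset.sum_congr rfl fun i _ => ?_
        rw [Finset.sum_comm]
    _ = ∑ i ∈ Finset.range k, ∑ j ∈ Finset.range k,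
          (if i = j then (k : ℂ) * (a i * conj (a i) * (ζ ^ i) ^ (-b)) else 0) := by
        refine Finset.sum_congr rfl fun i hi => Finset.sum_congr rfl fun j hj => ?_
        rw [← Finset.mul_sum, sum_root_zpow hζ]
        rw [Finset.mem_range] at hi hj
        by_cases hij : i = j
        · subst hij
          rw [if_pos (by simp), if_pos rfl]
          ring
        · rw [if_neg hij, if_neg, mul_zero]
          intro hd
          have := Int.eq_zero_of_abs_lt_dvd hd (by rw [abs_lt]; constructor <;> omega)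
          omega
    _ = (k : ℂ) * ∑ i ∈ Finset.range k, (a i * conj (a i)) * (ζ ^ i) ^ (-b) := by
        rw [Finset.mul_sum]
        refine Finset.sum_congr rfl fun i hi => ?_
        rw [Finset.sum_ite_eq, if_pos hi]

theorem clsum_add_k {W : ℤ → ℂ} {k : ℕ} {z : ℂ} (r : ℤ) :
    clsum W k z (r + k) = clsum W k z r := by
  rw [clsum, clsum, ← (Equiv.addRight (1 : ℤ)).tsum_eq]
  refine tsum_congr fun n => ?_
  simp only [Equiv.coe_addRight]
  congr 2 <;> ring

theorem clsum_add_mul {W : ℤ → ℂ} {k : ℕ} {z : ℂ} (r m : ℤ) :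
    clsum W k z (r + m * k) = clsum W k z r := by
  induction m using Int.induction_on with
  | zero => simp
  | succ i ih =>
      rw [← ih, ← clsum_add_k (r + (i : ℤ) * k)]
      congr 1; ring
  | pred i ih =>
      rw [← ih, ← clsum_add_k (r + (-(i : ℤ) - 1) * k)]
      congr 1; ring

theorem clsum_congr {W : ℤ → ℂ} {k : ℕ} {z : ℂ} {r s : ℤ} (h : (r : ZMod k) = (s : ZMod k)) :
    clsum W k z r = clsum W k z s := by
  rw [ZMod.intCast_eq_intCast_iff_dvd_sub] at h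
  obtain ⟨m, hm⟩ := h
  have : s = r + m * k := by linarith
  rw [this, clsum_add_mul]

/-- the weighted average, all classes. -/
theorem weighted_all {K : ℝ} {W : ℤ → ℂ} (h : Bdd K W) {k : ℕ} (hk : 0 < k) {b : ℤ}
    {z χ : ℂ} (hz : ‖z‖ = 1) (hχ : ‖χ‖ ≤ 1 / 2) (hb : χ = 0 ∨ ¬ (k : ℤ) ∣ b) :
    ∑ r ∈ Finset.range k, (‖clsum W k z r‖ ^ 2 +
      2 * (χ * (clsum W k z (r + b) * conj (clsum W k z r))).re) ≤ K ^ 2 := by
  have hkR : (0 : ℝ) < k := by exact_mod_cast hk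
  have hkC : (k : ℂ) ≠ 0 := by exact_mod_cast hk.ne'
  have hζ := Complex.isPrimitiveRoot_exp k hk.ne'
  set ζ := Complex.exp (2 * Real.pi * Complex.I / k) with hζdef
  have hζn : ‖ζ‖ = 1 := hζ.norm'_eq_one hk.ne'
  have hun : ∀ i : ℕ, ‖ζ ^ i * z‖ = 1 := fun i => by
    rw [norm_mul, norm_pow, hζn, hz, one_pow, mul_one]
  have hK0 : 0 ≤ K := (norm_nonneg _).trans (h.bound z hz)
  set a : ℕ → ℂ := fun i => S W (ζ ^ i * z) with ha
  have hx := fun r : ℤ => avg_cls h hk hz hζ r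
  have h0 := corr_identity hk hζ a (clsum W k z) hx 0
  have h1 := corr_identity hk hζ a (clsum W k z) hx b
  simp only [add_zero, neg_zero, zpow_zero, mul_one] at h0
  -- real form
  have e0 : (k : ℝ) * ∑ r ∈ Finset.range k, ‖clsum W k z r‖ ^ 2 =
      ∑ i ∈ Finset.range k, ‖a i‖ ^ 2 := by
    have := congrArg Complex.re h0
    simp only [Complex.mul_conj, Complex.normSq_eq_norm_sq] at this
    have e1 : ((k : ℂ) * ∑ r ∈ Finset.range k, (((‖clsum W k z (r : ℤ)‖ ^ 2 : ℝ)) : ℂ)) =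
        (((k : ℝ) * ∑ r ∈ Finset.range k, ‖clsum W k z r‖ ^ 2 : ℝ) : ℂ) := by
      push_cast; rfl
    have e2 : (∑ r ∈ Finset.range k, (((‖a r‖ ^ 2 : ℝ)) : ℂ)) =
        ((∑ r ∈ Finset.range k, ‖a r‖ ^ 2 : ℝ) : ℂ) := by
      push_cast; rfl
    rw [e1, e2, Complex.ofReal_re, Complex.ofReal_re] at this
    exact this
  have e1 : (k : ℝ) * ∑ r ∈ Finset.range k,
      (χ * (clsum W k z (r + b) * conj (clsum W k z r))).re =
      ∑ i ∈ Finset.range k, ‖a i‖ ^ 2 * (χ * (ζ ^ i) ^ (-b)).re := by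
    have h2 := congrArg (fun w : ℂ => (χ * w).re) h1
    have e2 : χ * ((k : ℂ) * ∑ r ∈ Finset.range k,
        clsum W k z ((r : ℤ) + b) * conj (clsum W k z (r : ℤ))) =
        ((k : ℝ) : ℂ) * ∑ r ∈ Finset.range k,
          χ * (clsum W k z ((r : ℤ) + b) * conj (clsum W k z (r : ℤ))) := by
      rw [← Finset.mul_sum]; push_cast; ring
    rw [e2, Complex.re_ofReal_mul, Complex.re_sum] at h2
    rw [h2, Finset.mul_sum, Complex.re_sum]
    refine Finset.sum_congr rfl fun i _ => ?_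
    have e3 : χ * (a i * conj (a i) * (ζ ^ i) ^ (-b)) =
        ((‖a i‖ ^ 2 : ℝ) : ℂ) * (χ * (ζ ^ i) ^ (-b)) := by
      rw [Complex.mul_conj, Complex.normSq_eq_norm_sq]; ring
    rw [e3, Complex.re_ofReal_mul]
  -- weights
  have hw : ∀ i : ℕ, 0 ≤ 1 + 2 * (χ * (ζ ^ i) ^ (-b)).re := by
    intro i
    have h2 : ‖χ * (ζ ^ i) ^ (-b)‖ ≤ 1 / 2 := by
      rw [norm_mul, norm_zpow, norm_pow, hζn, one_pow, one_zpow, mul_one]
      exact hχ
    have h3 := Complex.abs_re_le_norm (χ * (ζ ^ i) ^ (-b))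
    have h4 := (abs_le.1 (h3.trans h2)).1
    linarith
  have hsum : ∑ i ∈ Finset.range k, (1 + 2 * (χ * (ζ ^ i) ^ (-b)).re) = k := by
    rw [Finset.sum_add_distrib, ← Finset.mul_sum, ← Complex.re_sum, ← Finset.mul_sum,
      sum_root_zpow hζ]
    rcases hb with rfl | hb
    · simp
    · rw [if_neg (by rwa [dvd_neg])]
      simp
  have hfin : (k : ℝ) * ∑ r ∈ Finset.range k, (‖clsum W k z r‖ ^ 2 +
      2 * (χ * (clsum W k z (r + b) * conj (clsum W k z r))).re) ≤ k * K ^ 2 := by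
    calc (k : ℝ) * ∑ r ∈ Finset.range k, (‖clsum W k z r‖ ^ 2 +
        2 * (χ * (clsum W k z (r + b) * conj (clsum W k z r))).re)
        = (k : ℝ) * ∑ r ∈ Finset.range k, ‖clsum W k z r‖ ^ 2 +
          2 * ((k : ℝ) * ∑ r ∈ Finset.range k,
            (χ * (clsum W k z (r + b) * conj (clsum W k z r))).re) := by
          rw [Finset.sum_add_distrib, ← Finset.mul_sum]; ring
      _ = ∑ i ∈ Finset.range k, ‖a i‖ ^ 2 * (1 + 2 * (χ * (ζ ^ i) ^ (-b)).re) := by
          rw [e0, e1, Finset.mul_sum, ← Finset.sum_add_distrib]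
          refine Finset.sum_congr rfl fun i _ => ?_
          ring
      _ ≤ ∑ i ∈ Finset.range k, K ^ 2 * (1 + 2 * (χ * (ζ ^ i) ^ (-b)).re) := by
          refine Finset.sum_le_sum fun i _ => ?_
          refine mul_le_mul_of_nonneg_right ?_ (hw i)
          exact pow_le_pow_left₀ (norm_nonneg _) (h.bound _ (hun i)) 2
      _ = k * K ^ 2 := by
          rw [← Finset.mul_sum, hsum]; ring
  exact le_of_mul_le_mul_left hfin hkR

theorem sum_range_zmod {k : ℕ} (hk : 0 < k) (F : ZMod k → ℝ) :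
    ∑ r ∈ Finset.range k, F (r : ZMod k) =
      letI : NeZero k := ⟨hk.ne'⟩; ∑ a : ZMod k, F a := by
  letI : NeZero k := ⟨hk.ne'⟩
  refine Finset.sum_bij (fun r _ => (r : ZMod k)) (fun _ _ => Finset.mem_univ _) ?_ ?_ ?_
  · intro r hr s hs hrs
    rw [Finset.mem_range] at hr hs
    have := congrArg ZMod.val hrs
    rwa [ZMod.val_natCast_of_lt hr, ZMod.val_natCast_of_lt hs] at this
  · intro a _
    exact ⟨a.val, Finset.mem_range.2 (ZMod.val_lt a), ZMod.natCast_zmod_val a⟩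
  · intro _ _; rfl

/-- **T2a.** Euclidean class inequality: residues pairwise distinct modulo `k`. -/
theorem euclid_classes {K : ℝ} {W : ℤ → ℂ} (h : Bdd K W) {k : ℕ} (hk : 0 < k) (R : Finset ℤ)
    (hR : ∀ r ∈ R, ∀ s ∈ R, (k : ℤ) ∣ r - s → r = s) {ζ : ℂ} (hζ : ‖ζ‖ = 1) :
    ∑ r ∈ R, ‖S (fun n => W (r - n * k)) ζ‖ ^ 2 ≤ K ^ 2 := by
  letI : NeZero k := ⟨hk.ne'⟩
  obtain ⟨w, hw⟩ := IsAlgClosed.exists_pow_nat_eq (ζ⁻¹) hk
  have hwn : ‖w‖ = 1 := by
    have : ‖w‖ ^ k = 1 := by rw [← norm_pow, hw, norm_inv, hζ, inv_one]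
    exact (pow_eq_one_iff_of_nonneg (norm_nonneg _) hk.ne').mp this
  have hw0 : w ≠ 0 := by rw [← norm_pos_iff, hwn]; exact one_pos
  have h1 : ∀ r : ℤ, ‖S (fun n => W (r - n * k)) ζ‖ = ‖clsum W k w r‖ := by
    intro r
    have : clsum W k w r = w ^ r * S (fun n => W (r - n * k)) ζ := by
      rw [clsum, S, ← tsum_mul_left]
      refine tsum_congr fun n => ?_
      rw [sub_eq_add_neg r, zpow_add₀ hw0]
      have h2 : w ^ (-(n * (k : ℤ))) = ζ ^ n := by
        rw [mul_comm n, ← neg_mul, zpow_mul, zpow_neg, zpow_natCast, hw, inv_inv]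
      rw [h2]; ring
    rw [this, norm_mul, norm_zpow, hwn, one_zpow, one_mul]
  simp only [h1]
  have h2 := weighted_all h hk (b := 0) hwn (χ := 0) (by simp) (Or.inl rfl)
  simp only [zero_mul, Complex.zero_re, mul_zero, add_zero] at h2
  let X : ZMod k → ℝ := fun a => ‖clsum W k w (a.val : ℤ)‖ ^ 2
  have hX : ∀ r : ℤ, ‖clsum W k w r‖ ^ 2 = X (r : ZMod k) := by
    intro r
    simp only [X]
    rw [clsum_congr (r := r) (s := (((r : ZMod k).val : ℕ) : ℤ))]
    simp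
  have h3 : ∑ r ∈ Finset.range k, ‖clsum W k w (r : ℤ)‖ ^ 2 = ∑ a : ZMod k, X a := by
    rw [← sum_range_zmod hk X]
    refine Finset.sum_congr rfl fun r _ => ?_
    rw [hX]; simp
  rw [h3] at h2
  refine le_trans ?_ h2
  have hinj : Set.InjOn (fun r : ℤ => (r : ZMod k)) (R : Set ℤ) := by
    intro r hr s hs hrs
    simp only at hrs
    have h4 := (ZMod.intCast_eq_intCast_iff_dvd_sub s r k).1 hrs.symm
    exact hR r hr s hs h4
  calc ∑ r ∈ R, ‖clsum W k w r‖ ^ 2 = ∑ r ∈ R, X (r : ZMod k) :=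
        Finset.sum_congr rfl fun r _ => hX r
    _ = ∑ a ∈ R.image (fun r : ℤ => (r : ZMod k)), X a := (Finset.sum_image hinj).symm
    _ ≤ ∑ a : ZMod k, X a :=
        Finset.sum_le_sum_of_subset_of_nonneg (Finset.subset_univ _) fun a _ _ => sq_nonneg _

/-- weighted average: for `‖χ‖ ≤ 1/2`, with `x i` = class of `k + i b`, `k' = k / gcd k b`. -/
theorem weighted_classes {K : ℝ} {W : ℤ → ℂ} (h : Bdd K W) {k b : ℕ} (hk : 0 < k)
    (hkb : 2 ≤ k / Nat.gcd k b) {z χ : ℂ} (hz : ‖z‖ = 1) (hχ : ‖χ‖ ≤ 1 / 2) :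
    let x : ℕ → ℂ := fun i => ∑' n : ℤ, W ((k : ℤ) + i * b - n * k) * z ^ ((k : ℤ) + i * b - n * k)
    ∑ i ∈ Finset.range (k / Nat.gcd k b), ‖x i‖ ^ 2 +
      2 * (χ * ∑ i ∈ Finset.range (k / Nat.gcd k b), x (i + 1) * conj (x i)).re ≤ K ^ 2 := by
  intro x
  letI : NeZero k := ⟨hk.ne'⟩
  have hnd : ¬ (k : ℤ) ∣ (b : ℤ) := by
    intro hd
    have hd' : k ∣ b := by exact_mod_cast hd
    rw [Nat.gcd_eq_left hd', Nat.div_self hk] at hkb
    omega
  have h2 := weighted_all h hk (b := (b : ℤ)) hz hχ (Or.inr hnd)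
  let X : ZMod k → ℂ := fun a => clsum W k z (a.val : ℤ)
  have hX : ∀ r : ℤ, clsum W k z r = X (r : ZMod k) := by
    intro r
    simp only [X]
    apply clsum_congr
    simp
  let G : ZMod k → ℝ := fun a => ‖X a‖ ^ 2 + 2 * (χ * (X (a + (b : ZMod k)) * conj (X a))).re
  have h3 : ∑ r ∈ Finset.range k, (‖clsum W k z r‖ ^ 2 +
      2 * (χ * (clsum W k z (r + b) * conj (clsum W k z r))).re) = ∑ a : ZMod k, G a := by
    rw [← sum_range_zmod hk G]
    refine Finset.sum_congr rfl fun r _ => ?_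
    simp only [G]
    rw [hX, hX]
    push_cast
    rfl
  rw [h3] at h2
  classical
  set O : Finset (ZMod k) :=
    (Finset.range (addOrderOf (b : ZMod k))).image (fun i => i • (b : ZMod k)) with hO
  have hOmem : ∀ a : ZMod k, a ∈ O ↔ a ∈ AddSubgroup.zmultiples (b : ZMod k) := by
    intro a
    rw [hO]
    constructor
    · intro ha
      obtain ⟨i, -, rfl⟩ := Finset.mem_image.1 ha
      exact AddSubgroup.nsmul_mem_zmultiples _ i
    · intro ha
      have hf : IsOfFinAddOrder (b : ZMod k) := isOfFinAddOrder_of_finite _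
      obtain ⟨i, hi, rfl⟩ := (hf.mem_zmultiples_iff_mem_range_addOrderOf (y := a)).1 ha |> (fun t => by
        obtain ⟨i, hi, hi'⟩ := Finset.mem_image.1 t
        exact ⟨i, hi, hi'⟩ : _ → ∃ i, i ∈ Finset.range (addOrderOf (b : ZMod k)) ∧ i • (b : ZMod k) = a)
      exact Finset.mem_image.2 ⟨i, hi, rfl⟩
  have hord : addOrderOf (b : ZMod k) = k / Nat.gcd k b := ZMod.addOrderOf_coe b hk.ne'
  -- the orbit of zero
  have hxX : ∀ i : ℕ, x i = X (i • (b : ZMod k)) := by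
    intro i
    have : x i = clsum W k z ((k : ℤ) + i * b) := rfl
    rw [this, hX]
    congr 1
    push_cast
    simp
  have hOsum : ∑ a ∈ O, G a = ∑ i ∈ Finset.range (k / Nat.gcd k b), ‖x i‖ ^ 2 +
      2 * (χ * ∑ i ∈ Finset.range (k / Nat.gcd k b), x (i + 1) * conj (x i)).re := by
    rw [hO, Finset.sum_image, hord]
    · rw [Finset.mul_sum, Complex.re_sum, Finset.mul_sum, ← Finset.sum_add_distrib]
      refine Finset.sum_congr rfl fun i _ => ?_
      simp only [G]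
      rw [hxX i, hxX (i + 1), succ_nsmul]
    · intro i hi j hj hij
      exact nsmul_injOn_Iio_addOrderOf (by simpa using hi) (by simpa using hj) hij
  -- the other orbits
  have hrest : 0 ≤ ∑ a ∈ Oᶜ, G a := by
    have hshift : ∑ a ∈ Oᶜ, ‖X (a + (b : ZMod k))‖ ^ 2 = ∑ a ∈ Oᶜ, ‖X a‖ ^ 2 := by
      refine Finset.sum_equiv (Equiv.addRight (b : ZMod k)) ?_ (fun a _ => rfl)
      intro a
      rw [Finset.mem_compl, Finset.mem_compl, hOmem, hOmem, Equiv.coe_addRight]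
      rw [AddSubgroup.add_mem_cancel_right _ (AddSubgroup.mem_zmultiples _)]
    have hG : ∀ a : ZMod k, (1 - ‖χ‖) * ‖X a‖ ^ 2 - ‖χ‖ * ‖X (a + (b : ZMod k))‖ ^ 2 ≤ G a := by
      intro a
      simp only [G]
      have h4 := (abs_le.1 (Complex.abs_re_le_norm (χ * (X (a + (b : ZMod k)) * conj (X a))))).1
      rw [norm_mul, norm_mul, RCLike.norm_conj] at h4
      have h5 : 2 * (‖X (a + (b : ZMod k))‖ * ‖X a‖) ≤
          ‖X (a + (b : ZMod k))‖ ^ 2 + ‖X a‖ ^ 2 := by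
        nlinarith [sq_nonneg (‖X (a + (b : ZMod k))‖ - ‖X a‖)]
      have h6 := mul_le_mul_of_nonneg_left h5 (norm_nonneg χ)
      nlinarith
    have h7 := Finset.sum_le_sum (s := Oᶜ) fun a _ => hG a
    refine le_trans ?_ h7
    rw [Finset.sum_sub_distrib, ← Finset.mul_sum, ← Finset.mul_sum, hshift, ← sub_mul]
    refine mul_nonneg (by linarith) (Finset.sum_nonneg fun _ _ => sq_nonneg _)
  rw [← Finset.sum_add_sum_compl O, hOsum] at h2
  linarith

end MaxTerm.PB
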