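import Pool.Agent.MaxTerm.PB.ClassAvg

/-!
# Class projection (Lemma P of the note)

`W` is bounded by `K` on the unit circle, `k ≥ 1`.  The class of `r` modulo `k` is the function
`∑_n W (r - n k) ζ^n`.  Averaging `|f(ω z)|²` over `ω^k = 1` with the weight `1 + 2 Re (χ ω^b)` and
eliminating the other classes gives the inequality `PW γ` for the classes of `k` and `k + b`.
-/

open Filter Topology ComplexConjugate

namespace MaxTerm.PB

/-- pointwise inequality for two classes. -/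
def PW (γ K2 : ℝ) (F G : ℤ → ℂ) : Prop :=
  ∀ ζ χ : ℂ, ‖ζ‖ = 1 → γ * ‖χ‖ ^ 2 ≤ 1 →
    (1 - γ * ‖χ‖ ^ 2) * (‖S F ζ‖ ^ 2 + ‖S G ζ‖ ^ 2) + 2 * (χ * S G ζ * conj (S F ζ)).re ≤ K2

/-- a path with at least two vertices: the end points keep the coefficient `1 - c`. -/
theorem path_ends {c : ℝ} (hc0 : 0 ≤ c) (hc : c ≤ 1 / 2) (q : ℕ → ℝ) (n : ℕ) :
    (1 - c) * (q 0 ^ 2 + q (n + 1) ^ 2) ≤
      ∑ i ∈ Finset.range (n + 2), q i ^ 2 -
        2 * c * ∑ i ∈ Finset.range (n + 1), q i * q (i + 1) := by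
  induction n with
  | zero =>
      rw [Finset.sum_range_succ, Finset.sum_range_one, Finset.sum_range_one]
      nlinarith [mul_nonneg hc0 (sq_nonneg (q 0 - q 1))]
  | succ n ih =>
      rw [Finset.sum_range_succ (fun i => q i ^ 2) (n + 2),
        Finset.sum_range_succ (fun i => q i * q (i + 1)) (n + 1)]
      have h1 : 0 ≤ c * (q (n + 1) - q (n + 1 + 1)) ^ 2 := mul_nonneg hc0 (sq_nonneg _)
      have h2 : 0 ≤ (1 - 2 * c) * q (n + 1) ^ 2 := mul_nonneg (by linarith) (sq_nonneg _)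
      have h3 : q (n + 2) = q (n + 1 + 1) := rfl
      rw [h3]
      nlinarith

/-- elimination of a path with `n + 1` inner vertices. -/
theorem path_one {c : ℝ} (hc0 : 0 ≤ c) (hc : c ≤ 1 / 2) (p : ℕ → ℝ) (n : ℕ) :
    -(2 * c ^ 2 * (p 0 ^ 2 + p (n + 2) ^ 2)) ≤
      ∑ i ∈ Finset.range (n + 1), p (i + 1) ^ 2 -
        2 * c * ∑ i ∈ Finset.range (n + 2), p i * p (i + 1) := by
  rcases n with _ | l
  · rw [Finset.sum_range_succ, Finset.sum_range_succ _ 1, Finset.sum_range_one]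
    simp only [Finset.range_zero, Finset.sum_empty, zero_add]
    nlinarith [sq_nonneg (p 1 - c * (p 0 + p 2)), mul_nonneg (sq_nonneg c) (sq_nonneg (p 0 - p 2))]
  · have h1 := path_ends hc0 hc (fun i => p (i + 1)) l
    have h2 : ∑ i ∈ Finset.range (l + 1 + 2), p i * p (i + 1) =
        p 0 * p 1 + ∑ i ∈ Finset.range (l + 1), p (i + 1) * p (i + 1 + 1) +
          p (l + 2) * p (l + 3) := by
      rw [Finset.sum_range_succ, Finset.sum_range_succ']
      simp only [zero_add]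
      ring
    rw [h2]
    simp only [zero_add] at h1
    have h3 : 0 ≤ (p 1 - 2 * c * p 0) ^ 2 := sq_nonneg _
    have h4 : 0 ≤ (p (l + 2) - 2 * c * p (l + 3)) ^ 2 := sq_nonneg _
    have h5 : 0 ≤ (1 / 2 - c) * p 1 ^ 2 := mul_nonneg (by linarith) (sq_nonneg _)
    have h6 : 0 ≤ (1 / 2 - c) * p (l + 2) ^ 2 := mul_nonneg (by linarith) (sq_nonneg _)
    have e1 : p (l + 1 + 1) = p (l + 2) := rfl
    have e2 : p (l + 1 + 2) = p (l + 3) := rfl
    have e3 : l + 1 + 1 = l + 2 := rfl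
    rw [e1] at h1
    rw [e2, e3]
    nlinarith

/-- elimination of a path with `n + 3` inner vertices. -/
theorem path_two {c : ℝ} (hc0 : 0 ≤ c) (hc : c ^ 2 ≤ 47 / 350) (p : ℕ → ℝ) (n : ℕ) :
    -(175 / 128 * c ^ 2 * (p 0 ^ 2 + p (n + 4) ^ 2)) ≤
      ∑ i ∈ Finset.range (n + 3), p (i + 1) ^ 2 -
        2 * c * ∑ i ∈ Finset.range (n + 4), p i * p (i + 1) := by
  have hc2 : c ≤ 1 / 2 := by nlinarith
  have h1 := path_one hc0 hc2 (fun i => p (i + 1)) n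
  have h2 : ∑ i ∈ Finset.range (n + 4), p i * p (i + 1) =
      p 0 * p 1 + ∑ i ∈ Finset.range (n + 2), p (i + 1) * p (i + 1 + 1) +
        p (n + 3) * p (n + 4) := by
    rw [Finset.sum_range_succ, Finset.sum_range_succ']
    simp only [zero_add]
    ring
  have h3 : ∑ i ∈ Finset.range (n + 3), p (i + 1) ^ 2 =
      p 1 ^ 2 + ∑ i ∈ Finset.range (n + 1), p (i + 1 + 1) ^ 2 + p (n + 3) ^ 2 := by
    rw [Finset.sum_range_succ, Finset.sum_range_succ']
    simp only [zero_add]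
    ring
  rw [h2, h3]
  simp only [zero_add] at h1
  have e1 : p (n + 2 + 1) = p (n + 3) := rfl
  rw [e1] at h1
  have key : ∀ x a : ℝ, -(175 / 128 * c ^ 2 * a ^ 2) ≤ (1 - 2 * c ^ 2) * x ^ 2 - 2 * c * a * x := by
    intro x a
    have h4 : (128 / 175 : ℝ) * x ^ 2 ≤ (1 - 2 * c ^ 2) * x ^ 2 :=
      mul_le_mul_of_nonneg_right (by linarith) (sq_nonneg _)
    nlinarith [sq_nonneg (128 / 175 * x - c * a)]
  have k1 := key (p 1) (p 0)
  have k2 := key (p (n + 3)) (p (n + 4))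
  nlinarith

/-- the inequality for one `χ`, given the elimination of the path of the other classes. -/
theorem pw_core {K : ℝ} {W : ℤ → ℂ} (h : Bdd K W) {k b : ℕ} (hk : 0 < k) {m : ℕ}
    (hm : k / Nat.gcd k b = m + 2) {γ : ℝ} {ζ χ : ℂ} (hζ : ‖ζ‖ = 1) (hχ : ‖χ‖ ≤ 1 / 2)
    (hpath : ∀ p : ℕ → ℝ, -(γ * ‖χ‖ ^ 2 * (p 0 ^ 2 + p (m + 1) ^ 2)) ≤
      ∑ i ∈ Finset.range m, p (i + 1) ^ 2 -
        2 * ‖χ‖ * ∑ i ∈ Finset.range (m + 1), p i * p (i + 1)) :
    (1 - γ * ‖χ‖ ^ 2) * (‖S (fun n => W ((k : ℤ) - n * k)) ζ‖ ^ 2 +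
        ‖S (fun n => W ((k : ℤ) + b - n * k)) ζ‖ ^ 2) +
      2 * (χ * S (fun n => W ((k : ℤ) + b - n * k)) ζ *
        conj (S (fun n => W ((k : ℤ) - n * k)) ζ)).re ≤ K ^ 2 := by
  obtain ⟨z, hz⟩ := IsAlgClosed.exists_pow_nat_eq (ζ⁻¹) hk
  have hzn : ‖z‖ = 1 := by
    have : ‖z‖ ^ k = 1 := by rw [← norm_pow, hz, norm_inv, hζ, inv_one]
    exact (pow_eq_one_iff_of_nonneg (norm_nonneg _) hk.ne').mp this
  have hz0 : z ≠ 0 := by rw [← norm_pos_iff, hzn]; exact one_pos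
  have hcl : ∀ r : ℤ, clsum W k z r = z ^ r * S (fun n => W (r - n * k)) ζ := by
    intro r
    rw [clsum, S, ← tsum_mul_left]
    refine tsum_congr fun n => ?_
    rw [sub_eq_add_neg r, zpow_add₀ hz0]
    have h2 : z ^ (-(n * (k : ℤ))) = ζ ^ n := by
      rw [mul_comm n, ← neg_mul, zpow_mul, zpow_neg, zpow_natCast, hz, inv_inv]
    rw [h2]; ring
  have hχ' : ‖χ * z ^ (-(b : ℤ))‖ = ‖χ‖ := by
    rw [norm_mul, norm_zpow, hzn, one_zpow, mul_one]
  have hw := weighted_classes h hk (b := b) (by omega) hzn (χ := χ * z ^ (-(b : ℤ)))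
    (by rw [hχ']; exact hχ)
  simp only at hw
  set x : ℕ → ℂ := fun i => clsum W k z ((k : ℤ) + i * b) with hx
  have hw' : ∑ i ∈ Finset.range (m + 2), ‖x i‖ ^ 2 +
      2 * (χ * z ^ (-(b : ℤ)) * ∑ i ∈ Finset.range (m + 2), x (i + 1) * conj (x i)).re ≤ K ^ 2 := by
    rw [← hm]
    exact hw
  have hx0 : x 0 = z ^ (k : ℤ) * S (fun n => W ((k : ℤ) - n * k)) ζ := by
    rw [hx]
    simp only [Nat.cast_zero, zero_mul, add_zero]
    exact hcl _
  have hx1 : x 1 = z ^ ((k : ℤ) + b) * S (fun n => W ((k : ℤ) + b - n * k)) ζ := by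
    rw [hx]
    simp only [Nat.cast_one, one_mul]
    exact hcl _
  have hper : x (m + 2) = x 0 := by
    rw [hx]
    simp only [Nat.cast_zero, zero_mul, add_zero]
    rw [← hm]
    have hd : k ∣ k / Nat.gcd k b * b := by
      have h1 : k / Nat.gcd k b * b = k * (b / Nat.gcd k b) := by
        rw [Nat.div_mul_right_comm (Nat.gcd_dvd_left k b), Nat.mul_div_assoc _ (Nat.gcd_dvd_right k b)]
      rw [h1]
      exact dvd_mul_right _ _
    obtain ⟨l, hl⟩ := hd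
    have hl' : ((k / Nat.gcd k b : ℕ) : ℤ) * b = (l : ℤ) * k := by
      rw [mul_comm (l : ℤ)]
      exact_mod_cast hl
    rw [hl', clsum_add_mul]
  have hn0 : ‖x 0‖ = ‖S (fun n => W ((k : ℤ) - n * k)) ζ‖ := by
    rw [hx0, norm_mul, norm_zpow, hzn, one_zpow, one_mul]
  have hn1 : ‖x 1‖ = ‖S (fun n => W ((k : ℤ) + b - n * k)) ζ‖ := by
    rw [hx1, norm_mul, norm_zpow, hzn, one_zpow, one_mul]
  have hcj : ∀ r : ℤ, z ^ r * conj (z ^ r) = 1 := by
    intro r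
    rw [Complex.mul_conj, Complex.normSq_eq_norm_sq, norm_zpow, hzn, one_zpow]
    simp
  have hprod : χ * z ^ (-(b : ℤ)) * (x 1 * conj (x 0)) =
      χ * S (fun n => W ((k : ℤ) + b - n * k)) ζ *
        conj (S (fun n => W ((k : ℤ) - n * k)) ζ) := by
    rw [hx0, hx1, map_mul, zpow_add₀ hz0]
    have h1 : z ^ (-(b : ℤ)) * z ^ (b : ℤ) = 1 := by
      rw [← zpow_add₀ hz0]; simp
    calc χ * z ^ (-(b : ℤ)) * (z ^ (k : ℤ) * z ^ (b : ℤ) * S (fun n => W ((k : ℤ) + b - n * k)) ζ *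
          (conj (z ^ (k : ℤ)) * conj (S (fun n => W ((k : ℤ) - n * k)) ζ)))
        = χ * (z ^ (-(b : ℤ)) * z ^ (b : ℤ)) * (z ^ (k : ℤ) * conj (z ^ (k : ℤ))) *
          S (fun n => W ((k : ℤ) + b - n * k)) ζ *
            conj (S (fun n => W ((k : ℤ) - n * k)) ζ) := by ring
      _ = _ := by rw [h1, hcj]; ring
  rw [Finset.sum_range_succ' (fun i => x (i + 1) * conj (x i)), mul_add, Complex.add_re] at hw'
  simp only [zero_add] at hw'
  rw [hprod] at hw'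
  rw [Finset.sum_range_succ' (fun i => ‖x i‖ ^ 2), Finset.sum_range_succ'] at hw'
  simp only [zero_add] at hw'
  rw [← hn0, ← hn1]
  have hP := hpath (fun i => ‖x (i + 1)‖)
  simp only [zero_add] at hP
  have e1 : x (m + 1 + 1) = x 0 := hper
  rw [e1] at hP
  have hre : -(‖χ‖ * ∑ i ∈ Finset.range (m + 1), ‖x (i + 1)‖ * ‖x (i + 1 + 1)‖) ≤
      (χ * z ^ (-(b : ℤ)) *
        ∑ i ∈ Finset.range (m + 1), x (i + 1 + 1) * conj (x (i + 1))).re := by
    have h1 := (abs_le.1 (Complex.abs_re_le_norm (χ * z ^ (-(b : ℤ)) *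
        ∑ i ∈ Finset.range (m + 1), x (i + 1 + 1) * conj (x (i + 1))))).1
    refine le_trans (neg_le_neg ?_) h1
    rw [norm_mul, hχ']
    refine mul_le_mul_of_nonneg_left ?_ (norm_nonneg _)
    refine (norm_sum_le _ _).trans (Finset.sum_le_sum fun i _ => ?_)
    rw [norm_mul, RCLike.norm_conj, mul_comm]
  nlinarith

/-- the maximum over `χ`. -/
theorem pw_of_max {γ K2 x0 : ℝ} (hγ : 0 < γ) (hx0 : 1 / (2 * γ) ≤ x0) {F G : ℂ}
    (h : ∀ χ : ℂ, ‖χ‖ ≤ x0 →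
      (1 - γ * ‖χ‖ ^ 2) * (‖F‖ ^ 2 + ‖G‖ ^ 2) + 2 * (χ * G * conj F).re ≤ K2) (χ : ℂ) :
    (1 - γ * ‖χ‖ ^ 2) * (‖F‖ ^ 2 + ‖G‖ ^ 2) + 2 * (χ * G * conj F).re ≤ K2 := by
  have hx0' : 0 < x0 := lt_of_lt_of_le (by positivity) hx0
  have hre : (χ * G * conj F).re ≤ ‖χ‖ * (‖F‖ * ‖G‖) := by
    refine (Complex.re_le_norm _).trans ?_
    rw [norm_mul, norm_mul, RCLike.norm_conj]
    exact le_of_eq (by ring)
  by_cases hF : ‖F‖ * ‖G‖ = 0
  · have h0 := h 0 (by simpa using hx0'.le)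
    simp only [norm_zero, ne_eq, OfNat.ofNat_ne_zero, not_false_eq_true, zero_pow, mul_zero,
      sub_zero, one_mul, zero_mul, Complex.zero_re, add_zero] at h0
    rw [hF, mul_zero] at hre
    have : 0 ≤ γ * ‖χ‖ ^ 2 * (‖F‖ ^ 2 + ‖G‖ ^ 2) := by positivity
    nlinarith
  · have hF0 : F ≠ 0 := by rintro rfl; simp at hF
    have hG0 : G ≠ 0 := by rintro rfl; simp at hF
    have hFp : 0 < ‖F‖ := norm_pos_iff.2 hF0
    have hGp : 0 < ‖G‖ := norm_pos_iff.2 hG0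
    set T : ℝ := ‖F‖ ^ 2 + ‖G‖ ^ 2 with hT
    have hTp : 0 < T := by positivity
    set p : ℝ := ‖F‖ * ‖G‖ with hp
    have hpp : 0 < p := by positivity
    have hpT : 2 * p ≤ T := by
      rw [hT, hp]; nlinarith [sq_nonneg (‖F‖ - ‖G‖)]
    set y : ℝ := p / (γ * T) with hy
    have hyp : 0 < y := by positivity
    have hyx : y ≤ x0 := by
      refine le_trans ?_ hx0
      rw [hy, div_le_div_iff₀ (by positivity) (by positivity)]
      nlinarith
    set φ : ℂ := F * conj G / ((p : ℝ) : ℂ) with hφ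
    have hφn : ‖φ‖ = 1 := by
      rw [hφ, norm_div, norm_mul, RCLike.norm_conj, Complex.norm_real, Real.norm_of_nonneg hpp.le,
        ← hp, div_self hpp.ne']
    have hφp : φ * G * conj F = ((p : ℝ) : ℂ) := by
      have hpc : ((p : ℝ) : ℂ) ≠ 0 := by exact_mod_cast hpp.ne'
      rw [hφ]
      have h1 : F * conj G / ((p : ℝ) : ℂ) * G * conj F =
          (F * conj F) * (G * conj G) / ((p : ℝ) : ℂ) := by ring
      rw [h1, Complex.mul_conj, Complex.mul_conj, Complex.normSq_eq_norm_sq,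
        Complex.normSq_eq_norm_sq, div_eq_iff hpc, hp]
      push_cast
      ring
    have h1 := h (((y : ℝ) : ℂ) * φ) (by
      rw [norm_mul, hφn, mul_one, Complex.norm_real, Real.norm_of_nonneg hyp.le]
      exact hyx)
    have h2 : ‖((y : ℝ) : ℂ) * φ‖ = y := by
      rw [norm_mul, hφn, mul_one, Complex.norm_real, Real.norm_of_nonneg hyp.le]
    have h3 : (((y : ℝ) : ℂ) * φ * G * conj F).re = y * p := by
      have : ((y : ℝ) : ℂ) * φ * G * conj F = ((y * p : ℝ) : ℂ) := by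
        rw [mul_assoc, mul_assoc, ← mul_assoc φ, hφp]; push_cast; ring
      rw [this, Complex.ofReal_re]
    rw [h2, h3] at h1
    refine le_trans ?_ h1
    have h4 : γ * T * y = p := by rw [hy]; field_simp
    have h5 : 0 ≤ γ * T * (‖χ‖ - y) ^ 2 := by positivity
    nlinarith

/-- **T2b.** `k / gcd k b ≥ 3`, `γ = 2`. -/
theorem pw_two {K : ℝ} {W : ℤ → ℂ} (h : Bdd K W) {k b : ℕ} (hk : 0 < k)
    (hkb : 3 ≤ k / Nat.gcd k b) :
    PW 2 (K ^ 2) (fun n => W ((k : ℤ) - n * k)) (fun n => W ((k : ℤ) + b - n * k)) := by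
  intro ζ χ hζ _
  obtain ⟨n, hn⟩ : ∃ n, k / Nat.gcd k b = n + 1 + 2 := ⟨k / Nat.gcd k b - 3, by omega⟩
  refine pw_of_max (x0 := 1 / 2) (by norm_num) (by norm_num) (fun χ hχ => ?_) χ
  exact pw_core h hk hn hζ hχ fun p => path_one (norm_nonneg _) hχ p n

/-- **T2c.** `k / gcd k b ≥ 5`, `γ = 175 / 128`. -/
theorem pw_five {K : ℝ} {W : ℤ → ℂ} (h : Bdd K W) {k b : ℕ} (hk : 0 < k)
    (hkb : 5 ≤ k / Nat.gcd k b) :
    PW (175 / 128) (K ^ 2) (fun n => W ((k : ℤ) - n * k)) (fun n => W ((k : ℤ) + b - n * k)) := by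
  intro ζ χ hζ _
  obtain ⟨n, hn⟩ : ∃ n, k / Nat.gcd k b = n + 3 + 2 := ⟨k / Nat.gcd k b - 5, by omega⟩
  refine pw_of_max (x0 := 64 / 175) (by norm_num) (by norm_num) (fun χ hχ => ?_) χ
  have h0 := norm_nonneg χ
  exact pw_core h hk hn hζ (by linarith) fun p => path_two h0 (by nlinarith) p n

end MaxTerm.PB
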