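import Pool.Agent.MaxTerm.PB.Basic

/-!
# Triples: construction from a chain, mirror image, complex conjugate
-/

open Filter Topology ComplexConjugate

namespace MaxTerm.PB

theorem Bdd.reflect {K : ℝ} {W : ℤ → ℂ} (h : Bdd K W) (m : ℤ) : Bdd K fun n => W (m - n) := by
  have e : (fun n : ℤ => m - n) = (Equiv.subLeft m : ℤ ≃ ℤ) := rfl
  refine ⟨?_, fun n => h.norm_le _, fun z hz => ?_⟩
  · exact (Equiv.subLeft m : ℤ ≃ ℤ).summable_iff.2 h.summable
  · have hz0 : z ≠ 0 := by
      intro h0
      rw [h0, norm_zero] at hz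
      exact zero_ne_one hz
    have h1 : S (fun n => W (m - n)) z = z ^ m * S W z⁻¹ := by
      unfold S
      rw [← (Equiv.subLeft m : ℤ ≃ ℤ).tsum_eq (fun n : ℤ => W (m - n) * z ^ n), ← tsum_mul_left]
      refine tsum_congr fun n => ?_
      simp only [Equiv.subLeft_apply, sub_sub_cancel]
      rw [zpow_sub₀ hz0, inv_zpow]
      field_simp
    rw [h1, norm_mul, norm_zpow, hz, one_zpow, one_mul]
    exact h.bound _ (by rw [norm_inv, hz, inv_one])

theorem Bdd.shift {K : ℝ} {W : ℤ → ℂ} (h : Bdd K W) (m : ℤ) : Bdd K fun n => W (n + m) := by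
  have h2 := (h.reflect m).reflect 0
  convert h2 using 2 with n
  ring_nf

theorem Bdd.conj {K : ℝ} {W : ℤ → ℂ} (h : Bdd K W) : Bdd K fun n => conj (W n) := by
  refine ⟨?_, fun n => ?_, fun z hz => ?_⟩
  · simpa using h.summable
  · simpa using h.norm_le n
  · have h1 : S (fun n => conj (W n)) z = conj (S W (conj z)) := by
      unfold S
      rw [Complex.conj_tsum]
      refine tsum_congr fun n => ?_
      simp
    rw [h1, RCLike.norm_conj]
    exact h.bound _ (by rw [RCLike.norm_conj]; exact hz)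

/-- mirror image: `c'(n) = c(k - n)`, `σ ↔ τ`. -/
noncomputable def Triple.mirror {K : ℝ} {a k b : ℕ} (T : Triple K a k b) : Triple K b k a where
  c := fun n => T.c ((k : ℤ) - n)
  σ := T.τ
  τ := T.σ
  a_pos := T.b_pos
  k_pos := T.k_pos
  b_pos := T.a_pos
  σ_ne := T.τ_ne
  τ_ne := T.σ_ne
  σ_lt := T.τ_lt
  τ_lt := T.σ_lt
  c_zero := by simpa using T.c_edge
  c_edge := by simpa using T.c_zero
  mid := T.mid.reflect k
  left := by
    have h := T.right.reflect k
    convert h using 2 with n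
    simp
  right := T.left.reflect k
  left_vertex := by
    have h := T.right_vertex
    simpa using h
  right_vertex := by
    have h := T.left_vertex
    simpa using h

/-- complex conjugate. -/
noncomputable def Triple.conj {K : ℝ} {a k b : ℕ} (T : Triple K a k b) : Triple K a k b where
  c := fun n => conj (T.c n)
  σ := conj T.σ
  τ := conj T.τ
  a_pos := T.a_pos
  k_pos := T.k_pos
  b_pos := T.b_pos
  σ_ne := by simpa using T.σ_ne
  τ_ne := by simpa using T.τ_ne
  σ_lt := by simpa using T.σ_lt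
  τ_lt := by simpa using T.τ_lt
  c_zero := by simp [T.c_zero]
  c_edge := by simp [T.c_edge]
  mid := T.mid.conj
  left := by
    have h := T.left.conj
    convert h using 2 with n
    simp
  right := by
    have h := T.right.conj
    convert h using 2 with n
    simp
  left_vertex := by
    have h := congrArg (starRingEnd ℂ) T.left_vertex
    simpa using h
  right_vertex := by
    have h := congrArg (starRingEnd ℂ) T.right_vertex
    simpa using h

theorem Bdd.of_isWindow {K : ℝ} {k : ℕ} {c : ℤ → ℂ} (h : IsWindow K k c) : Bdd K c :=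
  ⟨h.summable, h.norm_le, h.bound⟩

/-- the triple of windows `j, j+1, j+2` of a chain (`σ = (τ_j)⁻¹`, `τ = (τ_{j+1})⁻¹`). -/
noncomputable def tripleOf {K : ℝ} (C : Chain K) (j : ℕ) :
    Triple K (C.k j) (C.k (j + 1)) (C.k (j + 2)) where
  c := C.c (j + 1)
  σ := (C.τ j)⁻¹
  τ := (C.τ (j + 1))⁻¹
  a_pos := C.k_pos _
  k_pos := C.k_pos _
  b_pos := C.k_pos _
  σ_ne := inv_ne_zero (norm_pos_iff.1 (one_pos.trans (C.one_lt j)))
  τ_ne := inv_ne_zero (norm_pos_iff.1 (one_pos.trans (C.one_lt (j + 1))))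
  σ_lt := by rw [norm_inv]; exact inv_lt_one_of_one_lt₀ (C.one_lt j)
  τ_lt := by rw [norm_inv]; exact inv_lt_one_of_one_lt₀ (C.one_lt (j + 1))
  c_zero := (C.win (j + 1)).c_zero
  c_edge := (C.win (j + 1)).c_edge
  mid := Bdd.of_isWindow (C.win (j + 1))
  left := by
    have h := (Bdd.of_isWindow (C.win j)).shift (C.k j)
    have h0 : C.τ j ≠ 0 := norm_pos_iff.1 (one_pos.trans (C.one_lt j))
    convert h using 2 with n
    rw [C.step j n, inv_zpow, mul_assoc, mul_inv_cancel₀ (zpow_ne_zero _ h0), mul_one]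
  right := by
    have h := (Bdd.of_isWindow (C.win (j + 2))).shift (-(C.k (j + 1) : ℤ))
    have h0 : C.τ (j + 1) ≠ 0 := norm_pos_iff.1 (one_pos.trans (C.one_lt (j + 1)))
    convert h using 2 with n
    have h2 := C.step (j + 1) (n + -(C.k (j + 1) : ℤ))
    rw [show j + 1 + 1 = j + 2 from rfl] at h2
    rw [h2, neg_add_cancel_right, inv_zpow, ← zpow_neg]
    congr 2
    ring
  left_vertex := by
    have h0 : C.τ j ≠ 0 := norm_pos_iff.1 (one_pos.trans (C.one_lt j))
    rw [C.step j, neg_add_cancel, (C.win j).c_zero, one_mul, inv_zpow, ← zpow_neg, neg_neg,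
      ← zpow_add₀ h0, neg_add_cancel, zpow_zero]
  right_vertex := by
    have h0 : C.τ (j + 1) ≠ 0 := norm_pos_iff.1 (one_pos.trans (C.one_lt (j + 1)))
    have h2 := C.step (j + 1) (C.k (j + 2) : ℤ)
    rw [show j + 1 + 1 = j + 2 from rfl, (C.win (j + 2)).c_edge] at h2
    rw [inv_zpow, ← zpow_neg, neg_neg, h2]
    congr 2
    ring

end MaxTerm.PB
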