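import Pool.Agent.MaxTerm.PB.Analysis

/-!
# Normalisation, case (ii): gaps `(a, k, b)`, `a < k > b`

Section 4 of the note.
-/

open Filter Topology ComplexConjugate

namespace MaxTerm.PB

namespace NII

/-! ### twisted sequences -/

lemma S_twist (W : ℤ → ℂ) {κ ρ : ℂ} (ζ : ℂ) :
    S (fun n => κ * ρ ^ n * W n) ζ = κ * S W (ρ * ζ) := by
  unfold S
  rw [← tsum_mul_left]
  refine tsum_congr fun n => ?_
  rw [mul_zpow]
  ring

lemma summable_twist {W : ℤ → ℂ} (h : Summable fun n => ‖W n‖) {κ ρ : ℂ} (hρ : ‖ρ‖ = 1) :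
    Summable fun n : ℤ => ‖κ * ρ ^ n * W n‖ := by
  have : (fun n : ℤ => ‖κ * ρ ^ n * W n‖) = fun n => ‖κ‖ * ‖W n‖ := by
    funext n
    rw [norm_mul, norm_mul, norm_zpow, hρ, one_zpow, mul_one]
  rw [this]
  exact h.mul_left _

lemma summable_class {K : ℝ} {W : ℤ → ℂ} (h : Bdd K W) {k : ℕ} (hk : 0 < k) (r : ℤ) :
    Summable fun n : ℤ => ‖W (r - n * k)‖ := by
  refine h.summable.comp_injective (i := fun n : ℤ => r - n * k) ?_
  intro n m hnm
  have hk' : (k : ℤ) ≠ 0 := by exact_mod_cast hk.ne'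
  have h1 : n * (k : ℤ) = m * k := by
    have : r - n * (k : ℤ) = r - m * k := hnm
    linarith
  exact mul_right_cancel₀ hk' h1

/-- The inequality of one window. -/
lemma window {K γ : ℝ} {W : ℤ → ℂ} (h : Bdd K W) {k : ℕ} (hk : 0 < k) {r₀ r₁ r₂ : ℤ}
    (h01 : ¬ (k : ℤ) ∣ r₀ - r₁) (h02 : ¬ (k : ℤ) ∣ r₀ - r₂) (h12 : ¬ (k : ℤ) ∣ r₁ - r₂)
    {F G H : ℤ → ℂ} {ρ κ₀ κ₁ κ₂ : ℂ} (hρ : ‖ρ‖ = 1) (hκ₀ : ‖κ₀‖ ≤ 1) (hκ₁ : ‖κ₁‖ ≤ 1)
    (hκ₂ : ‖κ₂‖ ≤ 1) (hF : ∀ n, F n = κ₀ * ρ ^ n * W (r₀ - n * k))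
    (hG : ∀ n, G n = κ₁ * ρ ^ n * W (r₁ - n * k)) (hH : ∀ n, H n = κ₂ * ρ ^ n * W (r₂ - n * k)) :
    WI γ 0 (K ^ 2) false F G H := by
  have eF : F = fun n => κ₀ * ρ ^ n * W (r₀ - n * k) := funext hF
  have eG : G = fun n => κ₁ * ρ ^ n * W (r₁ - n * k) := funext hG
  have eH : H = fun n => κ₂ * ρ ^ n * W (r₂ - n * k) := funext hH
  have sF := summable_twist (κ := κ₀) (summable_class h hk r₀) hρ
  have sG := summable_twist (κ := κ₁) (summable_class h hk r₁) hρ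
  have sH := summable_twist (κ := κ₂) (summable_class h hk r₂) hρ
  rw [eF, eG, eH]
  refine wi_euclid sF sG sH fun ζ hζ => ?_
  have h1 : ‖ρ * ζ‖ = 1 := by rw [norm_mul, hρ, hζ, one_mul]
  have h0 : ∀ m : ℤ, (k : ℤ) ∣ m ↔ (k : ℤ) ∣ -m := fun m => (dvd_neg).symm
  have d10 : ¬ (k : ℤ) ∣ r₁ - r₀ := by rw [h0, neg_sub]; exact h01
  have d20 : ¬ (k : ℤ) ∣ r₂ - r₀ := by rw [h0, neg_sub]; exact h02
  have d21 : ¬ (k : ℤ) ∣ r₂ - r₁ := by rw [h0, neg_sub]; exact h12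
  have n01 : r₀ ≠ r₁ := by rintro rfl; exact h01 (by simp)
  have n02 : r₀ ≠ r₂ := by rintro rfl; exact h02 (by simp)
  have n12 : r₁ ≠ r₂ := by rintro rfl; exact h12 (by simp)
  have h2 := euclid_classes h hk ({r₀, r₁, r₂} : Finset ℤ) (by
    intro r hr s hs hd
    simp only [Finset.mem_insert, Finset.mem_singleton] at hr hs
    rcases hr with rfl | rfl | rfl <;> rcases hs with rfl | rfl | rfl <;>
      first | rfl | exact absurd hd ‹_›) h1
  rw [Finset.sum_insert (by simp [n01, n02]), Finset.sum_insert (by simp [n12]),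
    Finset.sum_singleton] at h2
  refine le_trans ?_ h2
  have key : ∀ (κ : ℂ) (r : ℤ), ‖κ‖ ≤ 1 →
      ‖S (fun n => κ * ρ ^ n * W (r - n * k)) ζ‖ ^ 2 ≤
        ‖S (fun n => W (r - n * k)) (ρ * ζ)‖ ^ 2 := by
    intro κ r hκ
    rw [S_twist (fun n => W (r - n * k)) ζ, norm_mul]
    apply pow_le_pow_left₀ (by positivity)
    exact mul_le_of_le_one_left (norm_nonneg _) hκ
  have k0 := key κ₀ r₀ hκ₀
  have k1 := key κ₁ r₁ hκ₁
  have k2 := key κ₂ r₂ hκ₂
  linarith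

/-! ### the sequences of the family `fam2` -/

/-- position of the coefficient number `i` on the given side of the class `cls` -/
def nn (cls : ℕ) (side : Bool) (i : ℕ) : ℤ :=
  if side then split cls + i else split cls - 1 - i

lemma sq_eq (cls : ℕ) (g : Bool → ℕ → ℂ) (n : ℤ) :
    ∃ side i, nn cls side i = n ∧ sq (split cls) g n = g side i := by
  by_cases h : split cls ≤ n
  · refine ⟨true, (n - split cls).toNat, ?_, ?_⟩
    · simp only [nn, if_true]; omega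
    · rw [sq, if_pos h]
  · refine ⟨false, (split cls - 1 - n).toNat, ?_, ?_⟩
    · simp only [nn]; rw [if_neg (by simp)]; omega
    · rw [sq, if_neg h]

/-- exponent shift for `u` in window 1 -/
def al : ℕ → ℤ
  | 0 => 1
  | 1 => 2
  | _ => -1

/-- exponent shift for `t` in window 2 -/
def be : ℕ → ℤ
  | 0 => 0
  | 1 => -1
  | _ => 2

lemma ea_one (side : Bool) (cls i : ℕ) :
    (fam2.ea side 1 cls i : ℤ) - fam2.ea side 0 cls i = al cls - nn cls side i := by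
  rcases cls with _ | _ | cls <;> cases side <;>
    simp [fam2, al, nn, split] <;> omega

lemma ea_two (side : Bool) (cls i : ℕ) : fam2.ea side 2 cls i = fam2.ea side 0 cls i := by
  rcases cls with _ | _ | cls <;> cases side <;> rfl

lemma eb_one (side : Bool) (cls i : ℕ) : fam2.eb side 1 cls i = fam2.eb side 0 cls i := by
  rcases cls with _ | _ | cls <;> cases side <;> rfl

lemma eb_two (side : Bool) (cls i : ℕ) :
    (fam2.eb side 2 cls i : ℤ) - fam2.eb side 0 cls i = nn cls side i + be cls := by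
  rcases cls with _ | _ | cls <;> cases side
  · change ((0 : ℕ) : ℤ) - ((i : ℕ) : ℤ) = nn 0 false i + be 0
    simp [nn, be, split]
  · change ((i + 1 : ℕ) : ℤ) - ((0 : ℕ) : ℤ) = nn 0 true i + be 0
    simp [nn, be, split]; try omega
  · change ((0 : ℕ) : ℤ) - ((i + 1 : ℕ) : ℤ) = nn 1 false i + be 1
    simp [nn, be, split]; try omega
  · change ((i : ℕ) : ℤ) - ((0 : ℕ) : ℤ) = nn 1 true i + be 1
    simp [nn, be, split]; try omega
  · change ((1 - i : ℕ) : ℤ) - ((i - 1 : ℕ) : ℤ) = nn (cls + 2) false i + be (cls + 2)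
    simp [nn, be, split]; try omega
  · change ((i + 2 : ℕ) : ℤ) - ((0 : ℕ) : ℤ) = nn (cls + 2) true i + be (cls + 2)
    simp [nn, be, split]; try omega

section

variable {u t : ℝ} (hu : 0 < u) (ht : 0 < t) (val : ℕ → ℤ → ℂ)

/-- the normalised coefficients -/
noncomputable def XX (u t : ℝ) (val : ℕ → ℤ → ℂ) (cls : ℕ) (side : Bool) (i : ℕ) : ℂ :=
  val cls (nn cls side i) / ((u : ℂ) ^ (fam2.ea side 0 cls i) * (t : ℂ) ^ (fam2.eb side 0 cls i))

include hu ht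

lemma seq_zero (cls : ℕ) (n : ℤ) : fam2.seq (u : ℂ) t (XX u t val) 0 cls n = val cls n := by
  obtain ⟨side, i, hn, hs⟩ := sq_eq cls (fun side i =>
    (u : ℂ) ^ (fam2.ea side 0 cls i) * (t : ℂ) ^ (fam2.eb side 0 cls i) * XX u t val cls side i) n
  rw [Fam.seq, hs, XX, hn]
  have hu' : (u : ℂ) ≠ 0 := by exact_mod_cast hu.ne'
  have ht' : (t : ℂ) ≠ 0 := by exact_mod_cast ht.ne'
  field_simp

lemma seq_one (cls : ℕ) (n : ℤ) :
    fam2.seq (u : ℂ) t (XX u t val) 1 cls n = val cls n * (u : ℂ) ^ (al cls - n) := by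
  obtain ⟨side, i, hn, hs⟩ := sq_eq cls (fun side i =>
    (u : ℂ) ^ (fam2.ea side 1 cls i) * (t : ℂ) ^ (fam2.eb side 1 cls i) * XX u t val cls side i) n
  rw [Fam.seq, hs, XX, eb_one]
  have hu' : (u : ℂ) ≠ 0 := by exact_mod_cast hu.ne'
  have ht' : (t : ℂ) ≠ 0 := by exact_mod_cast ht.ne'
  have h1 := ea_one side cls i
  rw [hn] at h1 ⊢
  rw [← h1, zpow_sub₀ hu', zpow_natCast, zpow_natCast]
  field_simp

lemma seq_two (cls : ℕ) (n : ℤ) :
    fam2.seq (u : ℂ) t (XX u t val) 2 cls n = val cls n * (t : ℂ) ^ (n + be cls) := by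
  obtain ⟨side, i, hn, hs⟩ := sq_eq cls (fun side i =>
    (u : ℂ) ^ (fam2.ea side 2 cls i) * (t : ℂ) ^ (fam2.eb side 2 cls i) * XX u t val cls side i) n
  rw [Fam.seq, hs, XX, ea_two]
  have hu' : (u : ℂ) ≠ 0 := by exact_mod_cast hu.ne'
  have ht' : (t : ℂ) ≠ 0 := by exact_mod_cast ht.ne'
  have h1 := eb_two side cls i
  rw [hn] at h1 ⊢
  rw [← h1, zpow_sub₀ ht', zpow_natCast, zpow_natCast]
  field_simp

/-- bounds for the normalised coefficients -/
lemma norm_XX_le (h0 : ∀ cls n, ‖val cls n‖ ≤ 1)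
    (h1 : ∀ cls n, ‖val cls n‖ * u ^ (al cls - n) ≤ 1)
    (h2 : ∀ cls n, ‖val cls n‖ * t ^ (n + be cls) ≤ 1) (cls : ℕ) (side : Bool) (i : ℕ) :
    ‖XX u t val cls side i‖ ≤ 1 := by
  have hn1 : ‖(u : ℂ)‖ = u := by rw [Complex.norm_real, Real.norm_of_nonneg hu.le]
  have hn2 : ‖(t : ℂ)‖ = t := by rw [Complex.norm_real, Real.norm_of_nonneg ht.le]
  rw [XX, norm_div, norm_mul, norm_pow, norm_pow, hn1, hn2]
  apply div_le_one_of_le₀ _ (by positivity)
  have g1 : ∀ (m : ℕ) (n : ℤ), al cls - n = -(m : ℤ) → ‖val cls n‖ ≤ u ^ m := by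
    intro m n hm
    have := h1 cls n
    rw [hm, zpow_neg, zpow_natCast] at this
    have hp : 0 < u ^ m := by positivity
    rwa [← div_eq_mul_inv, div_le_one hp] at this
  have g2 : ∀ (m : ℕ) (n : ℤ), n + be cls = -(m : ℤ) → ‖val cls n‖ ≤ t ^ m := by
    intro m n hm
    have := h2 cls n
    rw [hm, zpow_neg, zpow_natCast] at this
    have hp : 0 < t ^ m := by positivity
    rwa [← div_eq_mul_inv, div_le_one hp] at this
  rcases cls with _ | _ | cls
  · cases side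
    · have := g2 i (nn 0 false i) (by simp [be, nn, split])
      simpa [fam2] using this
    · have := g1 i (nn 0 true i) (by simp [al, nn, split])
      simpa [fam2] using this
  · cases side
    · have := g2 (i + 1) (nn 1 false i) (by simp [be, nn, split]; ring)
      simpa [fam2] using this
    · rcases i with _ | i
      · have := h0 1 (nn 1 true 0)
        simpa [fam2] using this
      · have := g1 i (nn 1 true (i + 1)) (by simp [al, nn, split]; ring)
        simpa [fam2] using this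
  · cases side
    · rcases i with _ | i
      · have := h0 (cls + 2) (nn (cls + 2) false 0)
        simpa [fam2] using this
      · have := g2 i (nn (cls + 2) false (i + 1)) (by simp [be, nn, split]; ring)
        simpa [fam2] using this
    · have := g1 (i + 1) (nn (cls + 2) true i) (by simp [al, nn, split]; ring)
      simpa [fam2] using this

end

end NII

open NII in
/-- **T3b.** `a + b ≠ k`: `u = ‖σ‖^k`, `t = ‖τ‖^k`; classes `F_n = c(k - n k)`,
`G_n ~ c(k + b - n k)`, `H_n ~ c(-a - n k)`. -/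
theorem inst_II {K : ℝ} {a k b : ℕ} (T : Triple K a k b) (ha : a < k) (hb : b < k) (hab : a + b ≠ k) :
    Nonempty (Inst fam2 (K ^ 2) ((‖T.σ‖ ^ k : ℝ) : ℂ) (‖T.τ‖ ^ k)) := by
  obtain ⟨c, σ, τ, a_pos, k_pos, b_pos, σ_ne, τ_ne, σ_lt, τ_lt, c_zero, c_edge, mid, left, right,
    lv, rv⟩ := T
  simp only
  have hσ : 0 < ‖σ‖ := norm_pos_iff.2 σ_ne
  have hτ : 0 < ‖τ‖ := norm_pos_iff.2 τ_ne
  set u : ℝ := ‖σ‖ ^ k with hu_def
  set t : ℝ := ‖τ‖ ^ k with ht_def
  have hu : 0 < u := pow_pos hσ k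
  have ht : 0 < t := pow_pos hτ k
  have hu1 : u ≤ 1 := pow_le_one₀ hσ.le σ_lt.le
  have ht1 : t ≤ 1 := pow_le_one₀ hτ.le τ_lt.le
  have hu' : (u : ℂ) ≠ 0 := by exact_mod_cast hu.ne'
  have ht' : (t : ℂ) ≠ 0 := by exact_mod_cast ht.ne'
  have nu : ‖(u : ℂ)‖ = u := by rw [Complex.norm_real, Real.norm_of_nonneg hu.le]
  have nt : ‖(t : ℂ)‖ = t := by rw [Complex.norm_real, Real.norm_of_nonneg ht.le]
  -- the vertices
  have ca : c (-(a : ℤ)) = σ ^ a := by
    have h1 : c (-(a : ℤ)) * (σ ^ a)⁻¹ = 1 := by rw [← zpow_natCast, ← zpow_neg]; exact lv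
    rwa [← div_eq_mul_inv, div_eq_one_iff_eq (pow_ne_zero _ σ_ne)] at h1
  have cb : c ((k : ℤ) + b) = τ ^ b := by
    have h1 : c ((k : ℤ) + b) * (τ ^ b)⁻¹ = 1 := by rw [← zpow_natCast, ← zpow_neg]; exact rv
    rwa [← div_eq_mul_inv, div_eq_one_iff_eq (pow_ne_zero _ τ_ne)] at h1
  -- phases
  set ω : ℂ := σ ^ k / u with hω_def
  set ν : ℂ := τ ^ k / t with hν_def
  have hω : ‖ω‖ = 1 := by
    rw [hω_def, norm_div, norm_pow, nu, hu_def, div_self hu.ne']
  have hν : ‖ν‖ = 1 := by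
    rw [hν_def, norm_div, norm_pow, nt, ht_def, div_self ht.ne']
  have hω0 : ω ≠ 0 := by rw [← norm_ne_zero_iff, hω]; exact one_ne_zero
  have hν0 : ν ≠ 0 := by rw [← norm_ne_zero_iff, hν]; exact one_ne_zero
  have eσ : σ ^ k = u * ω := by rw [hω_def, mul_div_cancel₀ _ hu']
  have eτ : τ ^ k = t * ν := by rw [hν_def, mul_div_cancel₀ _ ht']
  -- constants of modulus at most one
  have small : ∀ {x : ℂ} (_ : x ≠ 0) (_ : ‖x‖ < 1) (m : ℕ), m < k →
      ‖((‖x‖ ^ k : ℝ) : ℂ) / x ^ m‖ ≤ 1 := by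
    intro x hx hx1 m hm
    have h0 : 0 < ‖x‖ := norm_pos_iff.2 hx
    rw [norm_div, norm_pow, Complex.norm_real, Real.norm_of_nonneg (by positivity)]
    exact div_le_one_of_le₀ (pow_le_pow_of_le_one h0.le hx1.le hm.le) (by positivity)
  have s1 : ‖(t : ℂ) / τ ^ b‖ ≤ 1 := small τ_ne τ_lt b hb
  have s2 : ‖(u : ℂ) / σ ^ a‖ ≤ 1 := small σ_ne σ_lt a ha
  have s3 : ‖(u : ℂ) / σ ^ b‖ ≤ 1 := small σ_ne σ_lt b hb
  have s4 : ‖(t : ℂ) / τ ^ a‖ ≤ 1 := small τ_ne τ_lt a ha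
  -- values
  let val : ℕ → ℤ → ℂ := fun cls n => match cls with
    | 0 => c ((k : ℤ) - n * k)
    | 1 => (t / τ ^ b) * c ((k : ℤ) + b - n * k)
    | _ => (u / σ ^ a) * c (-(a : ℤ) - n * k)
  have v0 : ∀ n, val 0 n = c ((k : ℤ) - n * k) := fun _ => rfl
  have v1 : ∀ n, val 1 n = (t / τ ^ b) * c ((k : ℤ) + b - n * k) := fun _ => rfl
  have v2 : ∀ cls n, val (cls + 2) n = (u / σ ^ a) * c (-(a : ℤ) - n * k) := fun _ _ => rfl
  -- window 1
  have zs : ∀ n : ℤ, σ ^ (n * (k : ℤ)) = (u : ℂ) ^ n * ω ^ n := by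
    intro n
    rw [mul_comm n, zpow_mul, zpow_natCast, eσ, mul_zpow]
  have zt : ∀ n : ℤ, τ ^ (n * (k : ℤ)) = (t : ℂ) ^ n * ν ^ n := by
    intro n
    rw [mul_comm n, zpow_mul, zpow_natCast, eτ, mul_zpow]
  have w10 : ∀ n : ℤ, val 0 n * (u : ℂ) ^ (1 - n) =
      ω⁻¹ * ω ^ n * (c ((k : ℤ) - n * k) * σ ^ ((k : ℤ) - n * k)) := by
    intro n
    have h1 : (k : ℤ) - n * k = (1 - n) * k := by ring
    rw [v0, h1, zs, sub_eq_add_neg 1 n, zpow_add₀ hω0, zpow_neg, zpow_one]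
    have := zpow_ne_zero n hω0
    field_simp
  have w11 : ∀ n : ℤ, val 1 n * (u : ℂ) ^ (2 - n) =
      ((t / τ ^ b) * (u / σ ^ b) * ω⁻¹) * ω ^ n *
        (c ((k : ℤ) + b - n * k) * σ ^ ((k : ℤ) + b - n * k)) := by
    intro n
    have h1 : (k : ℤ) + b - n * k = (1 - n) * k + b := by ring
    have h2 : (2 - n : ℤ) = (1 - n) + 1 := by ring
    rw [v1, h1, zpow_add₀ σ_ne, zs, h2, zpow_add₀ hu', zpow_one, sub_eq_add_neg 1 n,
      zpow_add₀ hω0, zpow_neg, zpow_one, zpow_natCast]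
    have := zpow_ne_zero n hω0
    field_simp
  have w12 : ∀ cls, ∀ n : ℤ, val (cls + 2) n * (u : ℂ) ^ (-1 - n) =
      1 * ω ^ n * (c (-(a : ℤ) - n * k) * σ ^ (-(a : ℤ) - n * k)) := by
    intro cls n
    have h1 : -(a : ℤ) - n * k = (-n) * k + (-a) := by ring
    have h2 : (-1 - n : ℤ) = (-n) + (-1) := by ring
    rw [v2, h1, zpow_add₀ σ_ne, zs, h2, zpow_add₀ hu', zpow_neg σ (a : ℤ), zpow_neg ω,
      zpow_neg (u : ℂ) 1, zpow_one, zpow_natCast]
    have := zpow_ne_zero n hω0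
    field_simp
  -- window 2
  have w20 : ∀ n : ℤ, val 0 n * (t : ℂ) ^ (n + 0) =
      1 * ν⁻¹ ^ n * (c ((k : ℤ) - n * k) * τ ^ ((k : ℤ) - ((k : ℤ) - n * k))) := by
    intro n
    rw [v0, sub_sub_cancel, zt, add_zero, inv_zpow]
    have := zpow_ne_zero n hν0
    field_simp
  have w21 : ∀ n : ℤ, val 1 n * (t : ℂ) ^ (n + -1) =
      1 * ν⁻¹ ^ n * (c ((k : ℤ) + b - n * k) * τ ^ ((k : ℤ) - ((k : ℤ) + b - n * k))) := by
    intro n
    have h1 : (k : ℤ) - ((k : ℤ) + b - n * k) = n * k + (-b) := by ring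
    rw [v1, h1, zpow_add₀ τ_ne, zt, zpow_add₀ ht', zpow_neg, zpow_neg, zpow_one, inv_zpow,
      zpow_natCast]
    have := zpow_ne_zero n hν0
    field_simp
  have w22 : ∀ cls, ∀ n : ℤ, val (cls + 2) n * (t : ℂ) ^ (n + 2) =
      ((u / σ ^ a) * (t / τ ^ a) * ν⁻¹) * ν⁻¹ ^ n *
        (c (-(a : ℤ) - n * k) * τ ^ ((k : ℤ) - (-(a : ℤ) - n * k))) := by
    intro cls n
    have h1 : (k : ℤ) - (-(a : ℤ) - n * k) = (n + 1) * k + a := by ring
    have h2 : (n + 2 : ℤ) = (n + 1) + 1 := by ring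
    rw [v2, h1, zpow_add₀ τ_ne, zt, h2, zpow_add₀ ht' (n + 1) 1, zpow_one, inv_zpow, zpow_natCast,
      zpow_add₀ hν0, zpow_one]
    have := zpow_ne_zero n hν0
    field_simp
  have k1 : ‖ω⁻¹‖ ≤ 1 := by rw [norm_inv, hω, inv_one]
  have k2 : ‖(t / τ ^ b) * (u / σ ^ b) * ω⁻¹‖ ≤ 1 := by
    rw [norm_mul, norm_mul]
    exact mul_le_one₀ (mul_le_one₀ s1 (norm_nonneg _) s3) (norm_nonneg _) k1
  have k3 : ‖ν⁻¹‖ = 1 := by rw [norm_inv, hν, inv_one]
  have k4 : ‖(u / σ ^ a) * (t / τ ^ a) * ν⁻¹‖ ≤ 1 := by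
    rw [norm_mul, norm_mul]
    exact mul_le_one₀ (mul_le_one₀ s2 (norm_nonneg _) s4) (norm_nonneg _) k3.le
  have nz : ∀ {x : ℂ} (_ : ‖x‖ = 1) (n : ℤ), ‖x ^ n‖ = 1 := by
    intro x hx n
    rw [norm_zpow, hx, one_zpow]
  have bd : ∀ {κ x w : ℂ}, ‖κ‖ ≤ 1 → ‖x‖ = 1 → ‖w‖ ≤ 1 → ‖κ * x * w‖ ≤ 1 := by
    intro κ x w hκ hx hw
    rw [norm_mul, norm_mul, hx, mul_one]
    exact mul_le_one₀ hκ (norm_nonneg _) hw
  have h0 : ∀ cls n, ‖val cls n‖ ≤ 1 := by
    intro cls n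
    rcases cls with _ | _ | cls
    · exact mid.norm_le _
    · rw [v1, norm_mul]
      exact mul_le_one₀ s1 (norm_nonneg _) (mid.norm_le _)
    · rw [v2, norm_mul]
      exact mul_le_one₀ s2 (norm_nonneg _) (mid.norm_le _)
  have hnu : ∀ (z : ℂ) (m : ℤ), ‖z‖ * u ^ m = ‖z * (u : ℂ) ^ m‖ := by
    intro z m
    rw [norm_mul, norm_zpow, nu]
  have hnt : ∀ (z : ℂ) (m : ℤ), ‖z‖ * t ^ m = ‖z * (t : ℂ) ^ m‖ := by
    intro z m
    rw [norm_mul, norm_zpow, nt]
  have h1 : ∀ cls n, ‖val cls n‖ * u ^ (al cls - n) ≤ 1 := by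
    intro cls n
    rw [hnu]
    rcases cls with _ | _ | cls
    · change ‖val 0 n * (u : ℂ) ^ (1 - n)‖ ≤ 1
      rw [w10]
      exact bd k1 (nz hω n) (left.norm_le _)
    · change ‖val 1 n * (u : ℂ) ^ (2 - n)‖ ≤ 1
      rw [w11]
      exact bd k2 (nz hω n) (left.norm_le _)
    · change ‖val (cls + 2) n * (u : ℂ) ^ (-1 - n)‖ ≤ 1
      rw [w12]
      exact bd norm_one.le (nz hω n) (left.norm_le _)
  have h2 : ∀ cls n, ‖val cls n‖ * t ^ (n + be cls) ≤ 1 := by
    intro cls n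
    rw [hnt]
    rcases cls with _ | _ | cls
    · change ‖val 0 n * (t : ℂ) ^ (n + 0)‖ ≤ 1
      rw [w20]
      exact bd norm_one.le (nz k3 n) (right.norm_le _)
    · change ‖val 1 n * (t : ℂ) ^ (n + -1)‖ ≤ 1
      rw [w21]
      exact bd norm_one.le (nz k3 n) (right.norm_le _)
    · change ‖val (cls + 2) n * (t : ℂ) ^ (n + 2)‖ ≤ 1
      rw [w22]
      exact bd k4 (nz k3 n) (right.norm_le _)
  -- residues
  have hk : (0 : ℤ) < k := by exact_mod_cast k_pos
  have d01 : ¬ (k : ℤ) ∣ (k : ℤ) - ((k : ℤ) + b) := by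
    intro hd
    have : (k : ℤ) ∣ b := by
      have := (dvd_neg).2 hd
      rwa [show -((k : ℤ) - ((k : ℤ) + b)) = b by ring] at this
    have := Int.natCast_dvd_natCast.1 this
    have := Nat.le_of_dvd b_pos this
    omega
  have d02 : ¬ (k : ℤ) ∣ (k : ℤ) - (-(a : ℤ)) := by
    intro hd
    have : (k : ℤ) ∣ a := by
      have := dvd_sub hd (dvd_refl (k : ℤ))
      rwa [show (k : ℤ) - (-(a : ℤ)) - k = a by ring] at this
    have := Int.natCast_dvd_natCast.1 this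
    have := Nat.le_of_dvd a_pos this
    omega
  have d12 : ¬ (k : ℤ) ∣ ((k : ℤ) + b) - (-(a : ℤ)) := by
    intro hd
    have h3 : (k : ℤ) ∣ ((a + b : ℕ) : ℤ) := by
      have := dvd_sub hd (dvd_refl (k : ℤ))
      rwa [show ((k : ℤ) + b) - (-(a : ℤ)) - k = ((a + b : ℕ) : ℤ) by push_cast; ring] at this
    obtain ⟨q, hq⟩ := Int.natCast_dvd_natCast.1 h3
    have hq1 : q ≠ 0 := by rintro rfl; omega
    have hq2 : q ≠ 1 := by rintro rfl; omega
    have : k * 2 ≤ k * q := Nat.mul_le_mul_left k (by omega)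
    omega
  refine ⟨{ X := XX u t val
            norm_u := by rw [nu]; exact hu1
            t_nonneg := ht.le
            t_le := ht1
            real := fun _ => Complex.ofReal_im _
            norm_X := norm_XX_le hu ht val h0 h1 h2
            known_L := ?_
            known_R := ?_
            wi := ?_
            tri := ?_ }⟩
  · intro cls i hi
    rcases cls with _ | _ | cls
    · have hi0 : i = 0 := by
        have : i < 1 := by simpa [fam2] using hi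
        omega
      subst hi0
      simp [XX, fam2, nn, split, v0, c_zero]
    · exact absurd hi (by simp [fam2])
    · have hi0 : i = 0 := by
        have : i < 1 := by simpa [fam2] using hi
        omega
      subst hi0
      have h3 : val (cls + 2) 0 = u := by
        rw [v2, zero_mul, sub_zero, ca, div_mul_cancel₀ _ (pow_ne_zero _ σ_ne)]
      simp [XX, fam2, nn, split, h3, hu']
  · intro cls i hi
    rcases cls with _ | _ | cls
    · have hi0 : i = 0 := by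
        have : i < 1 := by simpa [fam2] using hi
        omega
      subst hi0
      simp [XX, fam2, nn, split, v0, c_edge]
    · have hi0 : i = 0 := by
        have : i < 1 := by simpa [fam2] using hi
        omega
      subst hi0
      have h3 : val 1 0 = t := by
        rw [v1, zero_mul, sub_zero, cb, div_mul_cancel₀ _ (pow_ne_zero _ τ_ne)]
      simp [XX, fam2, nn, split, h3, ht']
    · exact absurd hi (by simp [fam2])
  · intro w hw
    have hxm : ((fam2.xmax : ℕ) : ℝ) / 1024 = 0 := by simp [fam2]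
    rw [hxm]
    change WI _ 0 (K ^ 2) false _ _ _
    interval_cases w
    · refine window mid k_pos d01 d02 d12 (ρ := 1) (κ₀ := 1) (κ₁ := t / τ ^ b) (κ₂ := u / σ ^ a)
        norm_one norm_one.le s1 s2 ?_ ?_ ?_
      · intro n
        rw [seq_zero hu ht, one_zpow, one_mul, one_mul, v0]
      · intro n
        rw [seq_zero hu ht, one_zpow, mul_one, v1]
      · intro n
        rw [seq_zero hu ht, one_zpow, mul_one]
        exact v2 0 n
    · refine window left k_pos d01 d02 d12 (ρ := ω) (κ₀ := ω⁻¹)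
        (κ₁ := (t / τ ^ b) * (u / σ ^ b) * ω⁻¹) (κ₂ := 1) hω k1 k2 norm_one.le ?_ ?_ ?_
      · intro n
        rw [seq_one hu ht]
        exact w10 n
      · intro n
        rw [seq_one hu ht]
        exact w11 n
      · intro n
        rw [seq_one hu ht]
        exact w12 0 n
    · refine window right k_pos d01 d02 d12 (ρ := ν⁻¹) (κ₀ := 1) (κ₁ := 1)
        (κ₂ := (u / σ ^ a) * (t / τ ^ a) * ν⁻¹) k3 norm_one.le norm_one.le k4 ?_ ?_ ?_
      · intro n
        rw [seq_two hu ht]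
        exact w20 n
      · intro n
        rw [seq_two hu ht]
        exact w21 n
      · intro n
        rw [seq_two hu ht]
        exact w22 0 n
  · intro q hq
    have hq' : q = (1, 0) ∨ q = (0, 2) := by simpa [fam2] using hq
    have hk0 : (k : ℤ) ≠ 0 := hk.ne'
    rcases hq' with rfl | rfl
    · have h3 := bessel_bdd mid ({0, (k : ℤ), -(a : ℤ)} : Finset ℤ)
      rw [Finset.sum_insert (by simp; omega), Finset.sum_insert (by simp; omega),
        Finset.sum_singleton, c_zero, c_edge, ca, norm_one, norm_pow] at h3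
      have h4 : u ≤ ‖σ‖ ^ a := pow_le_pow_of_le_one hσ.le σ_lt.le ha.le
      have h5 : u ^ 2 ≤ (‖σ‖ ^ a) ^ 2 := pow_le_pow_left₀ hu.le h4 2
      simp only [triVal, nu]
      norm_num
      linarith
    · have h3 := bessel_bdd mid ({0, (k : ℤ), (k : ℤ) + b} : Finset ℤ)
      rw [Finset.sum_insert (by simp; omega), Finset.sum_insert (by simp; omega),
        Finset.sum_singleton, c_zero, c_edge, cb, norm_one, norm_pow] at h3
      have h4 : t ≤ ‖τ‖ ^ b := pow_le_pow_of_le_one hτ.le τ_lt.le hb.le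
      have h5 : t ^ 2 ≤ (‖τ‖ ^ b) ^ 2 := pow_le_pow_left₀ ht.le h4 2
      simp only [triVal]
      norm_num
      linarith

end MaxTerm.PB
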