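import Pool.Agent.MaxTerm.PB.Analysis

/-!
# Normalisation, case (ii.2): gaps `(a, k, b)`, `a + b = k`
-/

open Filter Topology ComplexConjugate

namespace MaxTerm.PB.N3

/-- index in the class `cls` of the entry `i` on the side `side`. -/
def idx (cls : ℕ) (side : Bool) (i : ℕ) : ℤ :=
  if side then split cls + i else split cls - 1 - i

/-- the common variables, recovered from the middle window. -/
noncomputable def Xof (f : Fam) (u : ℂ) (t : ℝ) (c0 : ℕ → ℤ → ℂ) (cls : ℕ) (side : Bool) (i : ℕ) : ℂ :=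
  c0 cls (idx cls side i) / (u ^ (f.ea side 0 cls i) * (t : ℂ) ^ (f.eb side 0 cls i))

theorem seq_eq (f : Fam) {u : ℂ} {t : ℝ} (hu : u ≠ 0) (ht : (t : ℂ) ≠ 0) (c0 : ℕ → ℤ → ℂ) (w cls : ℕ)
    (E1 E2 : ℤ → ℤ)
    (h1 : ∀ side i, (f.ea side w cls i : ℤ) = f.ea side 0 cls i + E1 (idx cls side i))
    (h2 : ∀ side i, (f.eb side w cls i : ℤ) = f.eb side 0 cls i + E2 (idx cls side i)) (n : ℤ) :
    f.seq u t (Xof f u t c0) w cls n = c0 cls n * (u ^ (E1 n) * (t : ℂ) ^ (E2 n)) := by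
  have key : ∀ side i, idx cls side i = n →
      u ^ (f.ea side w cls i) * (t : ℂ) ^ (f.eb side w cls i) * Xof f u t c0 cls side i
        = c0 cls n * (u ^ (E1 n) * (t : ℂ) ^ (E2 n)) := by
    intro side i hi
    have e1 : u ^ (f.ea side w cls i) = u ^ (f.ea side 0 cls i) * u ^ (E1 n) := by
      rw [← zpow_natCast, h1 side i, zpow_add₀ hu, zpow_natCast, hi]
    have e2 : (t : ℂ) ^ (f.eb side w cls i) = (t : ℂ) ^ (f.eb side 0 cls i) * (t : ℂ) ^ (E2 n) := by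
      rw [← zpow_natCast, h2 side i, zpow_add₀ ht, zpow_natCast, hi]
    have n1 : u ^ (f.ea side 0 cls i) ≠ 0 := pow_ne_zero _ hu
    have n2 : (t : ℂ) ^ (f.eb side 0 cls i) ≠ 0 := pow_ne_zero _ ht
    rw [e1, e2, Xof, hi]
    field_simp
  unfold Fam.seq sq
  by_cases hn : split cls ≤ n
  · rw [if_pos hn]
    refine key true _ ?_
    simp only [idx, if_true]
    omega
  · rw [if_neg hn]
    refine key false _ ?_
    simp only [idx, Bool.false_eq_true, if_false]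
    omega

theorem ea1 (side : Bool) (i : ℕ) :
    (fam3.ea side 1 0 i : ℤ) = fam3.ea side 0 0 i + (fun n : ℤ => 2 * (1 - n)) (idx 0 side i) ∧
    (fam3.ea side 1 1 i : ℤ) = fam3.ea side 0 1 i + (fun n : ℤ => 2 * (2 - n)) (idx 1 side i) ∧
    (fam3.ea side 1 2 i : ℤ) = fam3.ea side 0 2 i + (fun n : ℤ => -1 - 2 * n) (idx 2 side i) := by
  cases side
  · have a1 : fam3.ea false 1 0 i = 2 * (i + 1) := rfl
    have a2 : fam3.ea false 0 0 i = 0 := rfl
    have a3 : fam3.ea false 1 1 i = 2 * (i + 2) := rfl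
    have a4 : fam3.ea false 0 1 i = 0 := rfl
    have a5 : fam3.ea false 1 2 i = 2 * i + 1 := rfl
    have a6 : fam3.ea false 0 2 i = 0 := rfl
    rw [a1, a2, a3, a4, a5, a6]
    simp only [idx, split, Bool.false_eq_true, if_false]
    push_cast
    refine ⟨by ring, by ring, by ring⟩
  · have a1 : fam3.ea true 1 0 i = 0 := rfl
    have a2 : fam3.ea true 0 0 i = 2 * i := rfl
    have a3 : fam3.ea true 1 1 i = 2 * (1 - i) := rfl
    have a4 : fam3.ea true 0 1 i = 2 * (i - 1) := rfl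
    have a5 : fam3.ea true 1 2 i = 0 := rfl
    have a6 : fam3.ea true 0 2 i = 2 * i + 1 := rfl
    rw [a1, a2, a3, a4, a5, a6]
    simp only [idx, split, if_true]
    refine ⟨by push_cast; ring, by omega, by push_cast; ring⟩

theorem ea2 (side : Bool) (i : ℕ) :
    (fam3.ea side 2 0 i : ℤ) = fam3.ea side 0 0 i + (fun _ : ℤ => (0 : ℤ)) (idx 0 side i) ∧
    (fam3.ea side 2 1 i : ℤ) = fam3.ea side 0 1 i + (fun _ : ℤ => (0 : ℤ)) (idx 1 side i) ∧
    (fam3.ea side 2 2 i : ℤ) = fam3.ea side 0 2 i + (fun _ : ℤ => (0 : ℤ)) (idx 2 side i) := by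
  cases side
  · have a1 : fam3.ea false 2 0 i = 0 := rfl
    have a2 : fam3.ea false 0 0 i = 0 := rfl
    have a3 : fam3.ea false 2 1 i = 0 := rfl
    have a4 : fam3.ea false 0 1 i = 0 := rfl
    have a5 : fam3.ea false 2 2 i = 0 := rfl
    have a6 : fam3.ea false 0 2 i = 0 := rfl
    rw [a1, a2, a3, a4, a5, a6]
    simp
  · have a1 : fam3.ea true 2 0 i = 2 * i := rfl
    have a2 : fam3.ea true 0 0 i = 2 * i := rfl
    have a3 : fam3.ea true 2 1 i = 2 * (i - 1) := rfl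
    have a4 : fam3.ea true 0 1 i = 2 * (i - 1) := rfl
    have a5 : fam3.ea true 2 2 i = 2 * i + 1 := rfl
    have a6 : fam3.ea true 0 2 i = 2 * i + 1 := rfl
    rw [a1, a2, a3, a4, a5, a6]
    simp

theorem eb1 (side : Bool) (i : ℕ) :
    (fam3.eb side 1 0 i : ℤ) = fam3.eb side 0 0 i + (fun _ : ℤ => (0 : ℤ)) (idx 0 side i) ∧
    (fam3.eb side 1 1 i : ℤ) = fam3.eb side 0 1 i + (fun _ : ℤ => (0 : ℤ)) (idx 1 side i) ∧
    (fam3.eb side 1 2 i : ℤ) = fam3.eb side 0 2 i + (fun _ : ℤ => (0 : ℤ)) (idx 2 side i) := by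
  cases side
  · have a1 : fam3.eb false 1 0 i = 2 * i := rfl
    have a2 : fam3.eb false 0 0 i = 2 * i := rfl
    have a3 : fam3.eb false 1 1 i = 2 * (i + 1) := rfl
    have a4 : fam3.eb false 0 1 i = 2 * (i + 1) := rfl
    have a5 : fam3.eb false 1 2 i = 2 * i - 1 := rfl
    have a6 : fam3.eb false 0 2 i = 2 * i - 1 := rfl
    rw [a1, a2, a3, a4, a5, a6]
    simp
  · have a1 : fam3.eb true 1 0 i = 0 := rfl
    have a2 : fam3.eb true 0 0 i = 0 := rfl
    have a3 : fam3.eb true 1 1 i = 0 := rfl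
    have a4 : fam3.eb true 0 1 i = 0 := rfl
    have a5 : fam3.eb true 1 2 i = 0 := rfl
    have a6 : fam3.eb true 0 2 i = 0 := rfl
    rw [a1, a2, a3, a4, a5, a6]
    simp

theorem eb2 (side : Bool) (i : ℕ) :
    (fam3.eb side 2 0 i : ℤ) = fam3.eb side 0 0 i + (fun n : ℤ => 2 * n) (idx 0 side i) ∧
    (fam3.eb side 2 1 i : ℤ) = fam3.eb side 0 1 i + (fun n : ℤ => 2 * n - 2) (idx 1 side i) ∧
    (fam3.eb side 2 2 i : ℤ) = fam3.eb side 0 2 i + (fun n : ℤ => 3 + 2 * n) (idx 2 side i) := by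
  cases side
  · have a1 : fam3.eb false 2 0 i = 0 := rfl
    have a2 : fam3.eb false 0 0 i = 2 * i := rfl
    have a3 : fam3.eb false 2 1 i = 0 := rfl
    have a4 : fam3.eb false 0 1 i = 2 * (i + 1) := rfl
    have a5 : fam3.eb false 2 2 i = 1 - i := rfl
    have a6 : fam3.eb false 0 2 i = 2 * i - 1 := rfl
    rw [a1, a2, a3, a4, a5, a6]
    simp only [idx, split, Bool.false_eq_true, if_false]
    refine ⟨by push_cast; ring, by push_cast; ring, by omega⟩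
  · have a1 : fam3.eb true 2 0 i = 2 * (i + 1) := rfl
    have a2 : fam3.eb true 0 0 i = 0 := rfl
    have a3 : fam3.eb true 2 1 i = 2 * i := rfl
    have a4 : fam3.eb true 0 1 i = 0 := rfl
    have a5 : fam3.eb true 2 2 i = 3 + 2 * i := rfl
    have a6 : fam3.eb true 0 2 i = 0 := rfl
    rw [a1, a2, a3, a4, a5, a6]
    simp only [idx, split, if_true]
    push_cast
    refine ⟨by ring, by ring, by ring⟩

theorem cls_summable {K : ℝ} {W : ℤ → ℂ} (h : Bdd K W) {k : ℕ} (hk : 0 < k) (r : ℤ) {ω : ℂ}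
    (hω : ‖ω‖ = 1) (p : ℂ) : Summable fun n : ℤ => ‖p * (W (r - n * k) * ω ^ n)‖ := by
  have hinj : Function.Injective fun n : ℤ => r - n * k := by
    intro x y hxy
    have h1 : r - x * k = r - y * k := hxy
    have h2 : x * k = y * k := by linarith
    exact mul_right_cancel₀ (by exact_mod_cast hk.ne') h2
  have h1 := (h.summable.comp_injective hinj).mul_left ‖p‖
  refine h1.congr fun n => ?_
  simp [hω]

theorem S_rot (F : ℤ → ℂ) (p ω ζ : ℂ) :
    S (fun n => p * (F n * ω ^ n)) ζ = p * S F (ω * ζ) := by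
  unfold S
  rw [← tsum_mul_left]
  refine tsum_congr fun n => ?_
  rw [mul_zpow]
  ring

theorem wi_win {K γ : ℝ} {W : ℤ → ℂ} (h : Bdd K W) {k b : ℕ} (hb : 0 < b) (hbk : b < k)
    {ω p l m : ℂ} (hω : ‖ω‖ = 1) (hp : ‖p‖ = 1) (hl : ‖l‖ ≤ 1) (hm : ‖m‖ ≤ 1) :
    WI γ 0 (K ^ 2) true (fun n : ℤ => p * (W ((k : ℤ) - n * k) * ω ^ n))
      (fun n : ℤ => l * (1 * (W ((k : ℤ) + b - n * k) * ω ^ n)))
      (fun n : ℤ => m * (1 * (W ((k : ℤ) + b - (n + 2) * k) * ω ^ (n + 2)))) := by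
  have hk : 0 < k := hb.trans hbk
  refine wi_cross (g := fun n : ℤ => 1 * (W ((k : ℤ) + b - n * k) * ω ^ n))
    (cls_summable h hk _ hω p) (cls_summable h hk _ hω 1) ?_ hl hm
  intro ζ hζ
  rw [S_rot, S_rot, norm_mul, hp, one_mul, one_mul]
  have hζ' : ‖ω * ζ‖ = 1 := by rw [norm_mul, hω, hζ, one_mul]
  have hne : (k : ℤ) ≠ (k : ℤ) + b := by omega
  have h1 := euclid_classes h hk {(k : ℤ), (k : ℤ) + b} (by
    intro r hr s hs hd
    simp only [Finset.mem_insert, Finset.mem_singleton] at hr hs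
    have hnd : ¬ (k : ℤ) ∣ (b : ℤ) := by
      intro hd
      have := Int.le_of_dvd (by exact_mod_cast hb) hd
      omega
    rcases hr with rfl | rfl <;> rcases hs with rfl | rfl
    · rfl
    · exfalso
      apply hnd
      have h2 : (k : ℤ) - (k + b) = -(b : ℤ) := by ring
      rw [h2] at hd
      exact (dvd_neg.1 hd)
    · exfalso
      apply hnd
      have h2 : (k : ℤ) + b - k = (b : ℤ) := by ring
      rwa [h2] at hd
    · rfl) hζ'
  rwa [Finset.sum_pair hne] at h1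

/-- the three classes in the middle window. -/
noncomputable def base (c : ℤ → ℂ) (k b : ℕ) (l0 m0 : ℂ) : ℕ → ℤ → ℂ
  | 0 => fun n => c ((k : ℤ) - n * k)
  | 1 => fun n => l0 * c ((k : ℤ) + b - n * k)
  | _ => fun n => m0 * c ((k : ℤ) + b - (n + 2) * k)

end MaxTerm.PB.N3

namespace MaxTerm.PB

open N3 in
/-- **T3c.** `a + b = k`, `2 a ≤ k`: `u² = ‖σ‖^k`, `t² = ‖τ‖^k`. -/
theorem inst_II_same {K : ℝ} {a k b : ℕ} (T : Triple K a k b) (hab : a + b = k) (ha : 2 * a ≤ k) :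
    Nonempty (Inst fam3 (K ^ 2) ((Real.sqrt (‖T.σ‖ ^ k) : ℝ) : ℂ) (Real.sqrt (‖T.τ‖ ^ k))) := by
  have hk := T.k_pos
  have ha0 := T.a_pos
  have hb0 := T.b_pos
  have hbk : b < k := by omega
  have hσ := T.σ_ne
  have hτ := T.τ_ne
  have hσ0 : 0 < ‖T.σ‖ := norm_pos_iff.2 hσ
  have hτ0 : 0 < ‖T.τ‖ := norm_pos_iff.2 hτ
  have hσ1 : ‖T.σ‖ ≤ 1 := T.σ_lt.le
  have hτ1 : ‖T.τ‖ ≤ 1 := T.τ_lt.le
  obtain ⟨s, hs⟩ : ∃ s : ℝ, s = ‖T.σ‖ ^ k := ⟨_, rfl⟩
  obtain ⟨d, hd⟩ : ∃ d : ℝ, d = ‖T.τ‖ ^ k := ⟨_, rfl⟩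
  have hs0 : 0 < s := by rw [hs]; positivity
  have hd0 : 0 < d := by rw [hd]; positivity
  rw [← hs, ← hd]
  obtain ⟨U, hU⟩ : ∃ U : ℝ, U = Real.sqrt s := ⟨_, rfl⟩
  obtain ⟨t, ht⟩ : ∃ t : ℝ, t = Real.sqrt d := ⟨_, rfl⟩
  rw [← hU, ← ht]
  have hU0 : 0 < U := by rw [hU]; exact Real.sqrt_pos.2 hs0
  have ht0 : 0 < t := by rw [ht]; exact Real.sqrt_pos.2 hd0
  have hU2 : U ^ 2 = s := by rw [hU]; exact Real.sq_sqrt hs0.le
  have ht2 : t ^ 2 = d := by rw [ht]; exact Real.sq_sqrt hd0.le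
  have hUa : U ≤ ‖T.σ‖ ^ a := by
    refine (sq_le_sq₀ hU0.le (by positivity)).1 ?_
    rw [hU2, hs, ← pow_mul]
    exact pow_le_pow_of_le_one hσ0.le hσ1 (by omega)
  have htb : ‖T.τ‖ ^ b ≤ t := by
    refine (sq_le_sq₀ (by positivity) ht0.le).1 ?_
    rw [ht2, hd, ← pow_mul]
    exact pow_le_pow_of_le_one hτ0.le hτ1 (by omega)
  have hU1 : U ≤ 1 := hUa.trans (pow_le_one₀ hσ0.le hσ1)
  have ht1 : t ≤ 1 := by
    refine (sq_le_sq₀ ht0.le zero_le_one).1 ?_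
    rw [ht2, hd, one_pow]
    exact pow_le_one₀ hτ0.le hτ1
  have hUC : (U : ℂ) ≠ 0 := by exact_mod_cast hU0.ne'
  have htC : (t : ℂ) ≠ 0 := by exact_mod_cast ht0.ne'
  have hnU : ‖(U : ℂ)‖ = U := by rw [Complex.norm_real, Real.norm_of_nonneg hU0.le]
  have hnt : ‖(t : ℂ)‖ = t := by rw [Complex.norm_real, Real.norm_of_nonneg ht0.le]
  obtain ⟨ω1, hω1⟩ : ∃ ω1 : ℂ, T.σ ^ k = (U : ℂ) ^ 2 * ω1 :=
    ⟨T.σ ^ k / (U : ℂ) ^ 2, by field_simp⟩
  obtain ⟨ω2, hω2⟩ : ∃ ω2 : ℂ, T.τ ^ k = (t : ℂ) ^ 2 * ω2 :=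
    ⟨T.τ ^ k / (t : ℂ) ^ 2, by field_simp⟩
  have nω1 : ‖ω1‖ = 1 := by
    have h1 := congrArg norm hω1
    rw [norm_pow, norm_mul, norm_pow, hnU, hU2, ← hs] at h1
    have h2 : s * 1 = s * ‖ω1‖ := by rw [mul_one]; exact h1
    exact (mul_left_cancel₀ hs0.ne' h2).symm
  have nω2 : ‖ω2‖ = 1 := by
    have h1 := congrArg norm hω2
    rw [norm_pow, norm_mul, norm_pow, hnt, ht2, ← hd] at h1
    have h2 : d * 1 = d * ‖ω2‖ := by rw [mul_one]; exact h1
    exact (mul_left_cancel₀ hd0.ne' h2).symm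
  have hω10 : ω1 ≠ 0 := norm_pos_iff.1 (by rw [nω1]; exact one_pos)
  have hω20 : ω2 ≠ 0 := norm_pos_iff.1 (by rw [nω2]; exact one_pos)
  have hσz : ∀ m : ℤ, T.σ ^ ((k : ℤ) * m) = (U : ℂ) ^ (2 * m) * ω1 ^ m := by
    intro m
    rw [zpow_mul, zpow_natCast, hω1, mul_zpow, zpow_mul]
    norm_cast
  have hτz : ∀ m : ℤ, T.τ ^ ((k : ℤ) * m) = (t : ℂ) ^ (2 * m) * ω2 ^ m := by
    intro m
    rw [zpow_mul, zpow_natCast, hω2, mul_zpow, zpow_mul]
    norm_cast
  -- the constants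
  obtain ⟨l0, hl0⟩ : ∃ l0 : ℂ, l0 = (t : ℂ) ^ 2 / T.τ ^ b := ⟨_, rfl⟩
  obtain ⟨m0, hm0⟩ : ∃ m0 : ℂ, m0 = (U : ℂ) / T.σ ^ a := ⟨_, rfl⟩
  have nl0 : ‖l0‖ ≤ 1 := by
    rw [hl0, norm_div, norm_pow, norm_pow, hnt, ht2, hd, div_le_one (by positivity)]
    exact pow_le_pow_of_le_one hτ0.le hτ1 (by omega)
  have nm0 : ‖m0‖ ≤ 1 := by
    rw [hm0, norm_div, norm_pow, hnU, div_le_one (by positivity)]
    exact hUa
  have hbk' : (b : ℤ) = (k : ℤ) - a := by omega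
  obtain ⟨X, hX⟩ : ∃ X : ℕ → Bool → ℕ → ℂ, X = Xof fam3 (U : ℂ) t (base T.c k b l0 m0) := ⟨_, rfl⟩
  have b0 : ∀ n, base T.c k b l0 m0 0 n = T.c ((k : ℤ) - n * k) := fun n => rfl
  have b1 : ∀ n, base T.c k b l0 m0 1 n = l0 * T.c ((k : ℤ) + b - n * k) := fun n => rfl
  have b2 : ∀ n, base T.c k b l0 m0 2 n = m0 * T.c ((k : ℤ) + b - (n + 2) * k) := fun n => rfl
  -- window 0
  have q00 : ∀ n, fam3.seq (U : ℂ) t X 0 0 n = 1 * (T.c ((k : ℤ) - n * k) * 1 ^ n) := by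
    intro n
    rw [hX, seq_eq fam3 hUC htC _ 0 0 (fun _ => 0) (fun _ => 0) (by simp) (by simp) n]
    simp [base]
  have q01 : ∀ n, fam3.seq (U : ℂ) t X 0 1 n = l0 * (1 * (T.c ((k : ℤ) + b - n * k) * 1 ^ n)) := by
    intro n
    rw [hX, seq_eq fam3 hUC htC _ 0 1 (fun _ => 0) (fun _ => 0) (by simp) (by simp) n]
    simp [base]
  have q02 : ∀ n, fam3.seq (U : ℂ) t X 0 2 n =
      m0 * (1 * (T.c ((k : ℤ) + b - (n + 2) * k) * 1 ^ (n + 2))) := by
    intro n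
    rw [hX, seq_eq fam3 hUC htC _ 0 2 (fun _ => 0) (fun _ => 0) (by simp) (by simp) n]
    simp [base]
  -- window 1
  have q10 : ∀ n, fam3.seq (U : ℂ) t X 1 0 n =
      ω1⁻¹ * ((T.c ((k : ℤ) - n * k) * T.σ ^ ((k : ℤ) - n * k)) * ω1 ^ n) := by
    intro n
    rw [hX, seq_eq fam3 hUC htC _ 1 0 (fun n => 2 * (1 - n)) (fun _ => 0) (fun s i => (ea1 s i).1) (fun s i => (eb1 s i).1) n]
    have e1 : (k : ℤ) - n * k = k * (1 - n) := by ring
    rw [b0, e1, hσz, zpow_sub₀ hω10, zpow_one]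
    have := zpow_ne_zero n hω10
    simp only [zpow_zero]
    field_simp
  have q11 : ∀ n, fam3.seq (U : ℂ) t X 1 1 n = (l0 * T.σ ^ a * (ω1 ^ 2)⁻¹) *
      (1 * ((T.c ((k : ℤ) + b - n * k) * T.σ ^ ((k : ℤ) + b - n * k)) * ω1 ^ n)) := by
    intro n
    rw [hX, seq_eq fam3 hUC htC _ 1 1 (fun n => 2 * (2 - n)) (fun _ => 0) (fun s i => (ea1 s i).2.1) (fun s i => (eb1 s i).2.1) n]
    have e1 : (k : ℤ) + b - n * k = k * (2 - n) - a := by rw [hbk']; ring
    have e2 : T.σ ^ ((k : ℤ) * (2 - n) - a) = (U : ℂ) ^ (2 * (2 - n)) * (ω1 ^ 2 / ω1 ^ n) / T.σ ^ a := by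
      rw [zpow_sub₀ hσ, hσz, zpow_sub₀ hω10, zpow_natCast]
      norm_cast
    rw [b1, e1, e2]
    have := zpow_ne_zero n hω10
    simp only [zpow_zero]
    field_simp
  have q12 : ∀ n, fam3.seq (U : ℂ) t X 1 2 n = (ω1 ^ 2)⁻¹ *
      (1 * ((T.c ((k : ℤ) + b - (n + 2) * k) * T.σ ^ ((k : ℤ) + b - (n + 2) * k)) * ω1 ^ (n + 2))) := by
    intro n
    rw [hX, seq_eq fam3 hUC htC _ 1 2 (fun n => -1 - 2 * n) (fun _ => 0) (fun s i => (ea1 s i).2.2) (fun s i => (eb1 s i).2.2) n]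
    have e1 : (k : ℤ) + b - (n + 2) * k = k * (-n) - a := by rw [hbk']; ring
    have e2 : T.σ ^ ((k : ℤ) * (-n) - a) = (U : ℂ) ^ (2 * (-n)) * (ω1 ^ n)⁻¹ / T.σ ^ a := by
      rw [zpow_sub₀ hσ, hσz, zpow_neg ω1, zpow_natCast]
    have e3 : (U : ℂ) ^ (-1 - 2 * n) = (U : ℂ) ^ (2 * (-n)) / U := by
      rw [show -1 - 2 * n = 2 * (-n) - 1 by ring, zpow_sub₀ hUC, zpow_one]
    have e4 : ω1 ^ (n + 2) = ω1 ^ n * ω1 ^ 2 := by
      rw [zpow_add₀ hω10]
      norm_cast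
    rw [b2, e1, e2, e4, hm0]
    have := zpow_ne_zero n hω10
    simp only [zpow_zero]
    rw [e3]
    field_simp
  -- window 2
  have q20 : ∀ n, fam3.seq (U : ℂ) t X 2 0 n =
      1 * ((T.c ((k : ℤ) - n * k) * T.τ ^ ((k : ℤ) - ((k : ℤ) - n * k))) * ω2⁻¹ ^ n) := by
    intro n
    rw [hX, seq_eq fam3 hUC htC _ 2 0 (fun _ => 0) (fun n => 2 * n) (fun s i => (ea2 s i).1) (fun s i => (eb2 s i).1) n]
    have e1 : (k : ℤ) - ((k : ℤ) - n * k) = k * n := by ring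
    rw [b0, e1, hτz, inv_zpow]
    have := zpow_ne_zero n hω20
    simp only [zpow_zero]
    field_simp
  have q21 : ∀ n, fam3.seq (U : ℂ) t X 2 1 n = 1 *
      (1 * ((T.c ((k : ℤ) + b - n * k) * T.τ ^ ((k : ℤ) - ((k : ℤ) + b - n * k))) * ω2⁻¹ ^ n)) := by
    intro n
    rw [hX, seq_eq fam3 hUC htC _ 2 1 (fun _ => 0) (fun n => 2 * n - 2) (fun s i => (ea2 s i).2.1) (fun s i => (eb2 s i).2.1) n]
    have e1 : (k : ℤ) - ((k : ℤ) + b - n * k) = k * n - b := by ring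
    have e2 : T.τ ^ ((k : ℤ) * n - b) = (t : ℂ) ^ (2 * n) * ω2 ^ n / T.τ ^ b := by
      rw [zpow_sub₀ hτ, hτz, zpow_natCast]
    have e3 : (t : ℂ) ^ (2 * n - 2) = (t : ℂ) ^ (2 * n) / (t : ℂ) ^ 2 := by
      rw [zpow_sub₀ htC]
      norm_cast
    rw [b1, e1, e2, inv_zpow, hl0]
    have := zpow_ne_zero n hω20
    simp only [zpow_zero]
    rw [e3]
    field_simp
  have q22 : ∀ n, fam3.seq (U : ℂ) t X 2 2 n = (m0 * T.τ ^ b / t) *
      (1 * ((T.c ((k : ℤ) + b - (n + 2) * k) *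
        T.τ ^ ((k : ℤ) - ((k : ℤ) + b - (n + 2) * k))) * ω2⁻¹ ^ (n + 2))) := by
    intro n
    rw [hX, seq_eq fam3 hUC htC _ 2 2 (fun _ => 0) (fun n => 3 + 2 * n) (fun s i => (ea2 s i).2.2) (fun s i => (eb2 s i).2.2) n]
    have e1 : (k : ℤ) - ((k : ℤ) + b - (n + 2) * k) = k * (n + 2) - b := by ring
    have e2 : T.τ ^ ((k : ℤ) * (n + 2) - b) = (t : ℂ) ^ (2 * (n + 2)) * ω2 ^ (n + 2) / T.τ ^ b := by
      rw [zpow_sub₀ hτ, hτz, zpow_natCast]
    have e3 : (t : ℂ) ^ (3 + 2 * n) = (t : ℂ) ^ (2 * (n + 2)) / t := by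
      rw [show 3 + 2 * n = 2 * (n + 2) - 1 by ring, zpow_sub₀ htC, zpow_one]
    rw [b2, e1, e2, inv_zpow]
    have := zpow_ne_zero (n + 2) hω20
    simp only [zpow_zero]
    rw [e3]
    field_simp
  -- the constants of the right window
  have nm2 : ‖m0 * T.τ ^ b / t‖ ≤ 1 := by
    rw [norm_div, norm_mul, norm_pow, hnt, div_le_one ht0]
    calc ‖m0‖ * ‖T.τ‖ ^ b ≤ 1 * ‖T.τ‖ ^ b := by gcongr
      _ ≤ t := by rw [one_mul]; exact htb
  have nl1 : ‖l0 * T.σ ^ a * (ω1 ^ 2)⁻¹‖ ≤ 1 := by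
    rw [norm_mul, norm_mul, norm_inv, norm_pow, norm_pow, nω1, one_pow, inv_one, mul_one]
    exact mul_le_one₀ nl0 (by positivity) (pow_le_one₀ hσ0.le hσ1)
  have nm1 : ‖(ω1 ^ 2)⁻¹‖ ≤ 1 := by rw [norm_inv, norm_pow, nω1, one_pow, inv_one]
  have nω2' : ‖ω2⁻¹‖ = 1 := by rw [norm_inv, nω2, inv_one]
  have nω1' : ‖ω1⁻¹‖ = 1 := by rw [norm_inv, nω1, inv_one]
  -- bounds of the coefficients
  have B : ∀ {W : ℤ → ℂ} (hW : Bdd K W) {ω l : ℂ} (hω : ‖ω‖ = 1) (hl : ‖l‖ ≤ 1) (m n : ℤ),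
      ‖l * (W m * ω ^ n)‖ ≤ 1 := by
    intro W hW ω l hω hl m n
    rw [norm_mul, norm_mul, norm_zpow, hω, one_zpow, mul_one]
    exact mul_le_one₀ hl (norm_nonneg _) (hW.norm_le m)
  have B' : ∀ {W : ℤ → ℂ} (hW : Bdd K W) {ω l : ℂ} (hω : ‖ω‖ = 1) (hl : ‖l‖ ≤ 1) (m n : ℤ),
      ‖l * (1 * (W m * ω ^ n))‖ ≤ 1 := by
    intro W hW ω l hω hl m n
    rw [one_mul]
    exact B hW hω hl m n
  have sqT : ∀ (w cls : ℕ) (i : ℕ), fam3.seq (U : ℂ) t X w cls (split cls + i) =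
      (U : ℂ) ^ (fam3.ea true w cls i) * (t : ℂ) ^ (fam3.eb true w cls i) * X cls true i := by
    intro w cls i
    unfold Fam.seq sq
    rw [if_pos (by omega)]
    have : (split cls + (i : ℤ) - split cls).toNat = i := by omega
    rw [this]
  have sqF : ∀ (w cls : ℕ) (i : ℕ), fam3.seq (U : ℂ) t X w cls (split cls - 1 - i) =
      (U : ℂ) ^ (fam3.ea false w cls i) * (t : ℂ) ^ (fam3.eb false w cls i) * X cls false i := by
    intro w cls i
    unfold Fam.seq sq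
    rw [if_neg (by omega)]
    have : (split cls - 1 - (split cls - 1 - (i : ℤ))).toNat = i := by omega
    rw [this]
  have XT0 : ∀ i, ‖X 0 true i‖ ≤ 1 := by
    intro i
    have h1 := sqT 1 0 i
    have a1 : fam3.ea true 1 0 i = 0 := rfl
    have a2 : fam3.eb true 1 0 i = 0 := rfl
    rw [a1, a2, pow_zero, pow_zero, one_mul, one_mul, q10] at h1
    rw [← h1]
    exact B T.left nω1 nω1'.le _ _
  have XF0 : ∀ i, ‖X 0 false i‖ ≤ 1 := by
    intro i
    have h1 := sqF 2 0 i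
    have a1 : fam3.ea false 2 0 i = 0 := rfl
    have a2 : fam3.eb false 2 0 i = 0 := rfl
    rw [a1, a2, pow_zero, pow_zero, one_mul, one_mul, q20] at h1
    rw [← h1]
    exact B T.right nω2' norm_one.le _ _
  have XT1 : ∀ i, ‖X 1 true i‖ ≤ 1 := by
    intro i
    rcases i with _ | i
    · have h1 := sqT 0 1 0
      have a1 : fam3.ea true 0 1 0 = 0 := rfl
      have a2 : fam3.eb true 0 1 0 = 0 := rfl
      rw [a1, a2, pow_zero, pow_zero, one_mul, one_mul, q01] at h1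
      rw [← h1]
      exact B' T.mid norm_one nl0 _ _
    · have h1 := sqT 1 1 (i + 1)
      have a1 : fam3.ea true 1 1 (i + 1) = 2 * (1 - (i + 1)) := rfl
      have a2 : fam3.eb true 1 1 (i + 1) = 0 := rfl
      have a3 : 2 * (1 - (i + 1)) = 0 := by omega
      rw [a1, a2, a3, pow_zero, pow_zero, one_mul, one_mul, q11] at h1
      rw [← h1]
      exact B' T.left nω1 nl1 _ _
  have XF1 : ∀ i, ‖X 1 false i‖ ≤ 1 := by
    intro i
    have h1 := sqF 2 1 i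
    have a1 : fam3.ea false 2 1 i = 0 := rfl
    have a2 : fam3.eb false 2 1 i = 0 := rfl
    rw [a1, a2, pow_zero, pow_zero, one_mul, one_mul, q21] at h1
    rw [← h1]
    exact B' T.right nω2' norm_one.le _ _
  have XT2 : ∀ i, ‖X 2 true i‖ ≤ 1 := by
    intro i
    have h1 := sqT 1 2 i
    have a1 : fam3.ea true 1 2 i = 0 := rfl
    have a2 : fam3.eb true 1 2 i = 0 := rfl
    rw [a1, a2, pow_zero, pow_zero, one_mul, one_mul, q12] at h1
    rw [← h1]
    exact B' T.left nω1 nm1 _ _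
  have XF2 : ∀ i, ‖X 2 false i‖ ≤ 1 := by
    intro i
    rcases i with _ | i
    · have h1 := sqF 0 2 0
      have a1 : fam3.ea false 0 2 0 = 0 := rfl
      have a2 : fam3.eb false 0 2 0 = 0 := rfl
      rw [a1, a2, pow_zero, pow_zero, one_mul, one_mul, q02] at h1
      rw [← h1]
      exact B' T.mid norm_one nm0 _ _
    · have h1 := sqF 2 2 (i + 1)
      have a1 : fam3.ea false 2 2 (i + 1) = 0 := rfl
      have a2 : fam3.eb false 2 2 (i + 1) = 1 - (i + 1) := rfl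
      have a3 : 1 - (i + 1) = 0 := by omega
      rw [a1, a2, a3, pow_zero, pow_zero, one_mul, one_mul, q22] at h1
      rw [← h1]
      exact B' T.right nω2' nm2 _ _
  have Xge : ∀ cls side i, X (cls + 2) side i = X 2 side i := by
    intro cls side i
    rw [hX]
    rfl
  -- known coefficients
  have K0T : X 0 true 0 = 1 := by
    have h1 := sqT 0 0 0
    have a1 : fam3.ea true 0 0 0 = 0 := rfl
    have a2 : fam3.eb true 0 0 0 = 0 := rfl
    rw [a1, a2, pow_zero, pow_zero, one_mul, one_mul, q00] at h1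
    rw [← h1]
    have e : (k : ℤ) - (split 0 + ((0 : ℕ) : ℤ)) * k = 0 := by
      simp [split]
    rw [e, T.c_zero]
    simp
  have K0F : X 0 false 0 = 1 := by
    have h1 := sqF 0 0 0
    have a1 : fam3.ea false 0 0 0 = 0 := rfl
    have a2 : fam3.eb false 0 0 0 = 0 := rfl
    rw [a1, a2, pow_zero, pow_zero, one_mul, one_mul, q00] at h1
    rw [← h1]
    have e : (k : ℤ) - (split 0 - 1 - ((0 : ℕ) : ℤ)) * k = k := by
      simp [split]
    rw [e, T.c_edge]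
    simp
  have K1F : X 1 false 0 = 1 := by
    have h1 := sqF 2 1 0
    have a1 : fam3.ea false 2 1 0 = 0 := rfl
    have a2 : fam3.eb false 2 1 0 = 0 := rfl
    rw [a1, a2, pow_zero, pow_zero, one_mul, one_mul, q21] at h1
    rw [← h1]
    have e0 : split 1 - 1 - ((0 : ℕ) : ℤ) = 0 := by simp [split]
    rw [e0]
    have e : (k : ℤ) + b - 0 * k = k + b := by ring
    have e' : (k : ℤ) - ((k : ℤ) + b) = -(b : ℤ) := by ring
    rw [e, e', T.right_vertex]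
    simp
  have K2T : X 2 true 0 = 1 := by
    have h1 := sqT 1 2 0
    have a1 : fam3.ea true 1 2 0 = 0 := rfl
    have a2 : fam3.eb true 1 2 0 = 0 := rfl
    rw [a1, a2, pow_zero, pow_zero, one_mul, one_mul, q12] at h1
    rw [← h1]
    have e0 : split 2 + ((0 : ℕ) : ℤ) = 0 := by simp [split]
    rw [e0]
    have e : (k : ℤ) + b - (0 + 2) * k = -(a : ℤ) := by rw [hbk']; ring
    have e3 : ω1 ^ ((0 : ℤ) + 2) = ω1 ^ 2 := by norm_cast
    rw [e, T.left_vertex, e3]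
    field_simp
  refine ⟨⟨X, ?_, ht0.le, ht1, ?_, ?_, ?_, ?_, ?_, ?_⟩⟩
  · rw [hnU]
    exact hU1
  · intro _
    exact Complex.ofReal_im U
  · intro cls side i
    rcases cls with _ | _ | cls
    · cases side
      · exact XF0 i
      · exact XT0 i
    · cases side
      · exact XF1 i
      · exact XT1 i
    · rw [Xge]
      cases side
      · exact XF2 i
      · exact XT2 i
  · intro cls i hi
    rcases cls with _ | _ | cls
    · have h0 : fam3.kL 0 = 1 := rfl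
      have hi' : i = 0 := by
        rw [h0] at hi
        omega
      rw [hi']
      exact K0T
    · have h0 : fam3.kL (0 + 1) = 0 := rfl
      rw [h0] at hi
      exact absurd hi (Nat.not_lt_zero _)
    · have h0 : fam3.kL (cls + 1 + 1) = 1 := rfl
      have hi' : i = 0 := by
        rw [h0] at hi
        omega
      rw [hi', Xge]
      exact K2T
  · intro cls i hi
    rcases cls with _ | _ | cls
    · have h0 : fam3.kR 0 = 1 := rfl
      have hi' : i = 0 := by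
        rw [h0] at hi
        omega
      rw [hi']
      exact K0F
    · have h0 : fam3.kR (0 + 1) = 1 := rfl
      have hi' : i = 0 := by
        rw [h0] at hi
        omega
      rw [hi']
      exact K1F
    · have h0 : fam3.kR (cls + 1 + 1) = 0 := rfl
      rw [h0] at hi
      exact absurd hi (Nat.not_lt_zero _)
  · intro w hw
    have hx0 : (fam3.xmax : ℝ) / 1024 = 0 := by
      have : fam3.xmax = 0 := rfl
      rw [this]
      simp
    have hcr : fam3.cross = true := rfl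
    rw [hx0, hcr]
    interval_cases w
    · rw [funext q00, funext q01, funext q02]
      exact wi_win T.mid hb0 hbk norm_one norm_one nl0 nm0
    · rw [funext q10, funext q11, funext q12]
      exact wi_win T.left hb0 hbk nω1 nω1' nl1 nm1
    · rw [funext q20, funext q21, funext q22]
      exact wi_win T.right hb0 hbk nω2' norm_one norm_one.le nm2
  · intro q hq
    have htri : fam3.tri = [(2, 0), (0, 4)] := rfl
    rw [htri] at hq
    simp only [List.mem_cons, List.not_mem_nil, or_false] at hq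
    rcases hq with rfl | rfl
    · have h1 := bessel_bdd T.left {-(a : ℤ), 0, (k : ℤ)}
      rw [Finset.sum_insert (by simp; omega), Finset.sum_pair (by omega), T.left_vertex,
        T.c_zero, T.c_edge, zpow_natCast, one_mul, one_mul, norm_pow, ← hs, ← hU2] at h1
      simp only [zpow_zero, norm_one, one_pow] at h1
      simp only [triVal, hnU]
      norm_num
      nlinarith [h1]
    · have h1 := bessel_bdd T.right {0, (k : ℤ), (k : ℤ) + b}
      have e1 : (k : ℤ) - (k + b) = -(b : ℤ) := by ring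
      rw [Finset.sum_insert (by simp; omega), Finset.sum_pair (by omega), e1, T.right_vertex,
        T.c_zero, T.c_edge, sub_zero, sub_self, zpow_natCast, one_mul, one_mul, norm_pow, ← hd,
        ← ht2] at h1
      simp only [zpow_zero, norm_one, one_pow] at h1
      simp only [triVal, hnU]
      norm_num
      nlinarith [h1]

end MaxTerm.PB
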