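import Pool.Agent.MaxTerm.PB.SWinC

/-!
# Soundness of the checker, layer 5: encoded certificates and trees of boxes
-/

open Filter Topology ComplexConjugate

namespace MaxTerm.PB

theorem length_dec (n x : ℕ) : (dec n x).length = n := by
  induction n generalizing x with
  | zero => rfl
  | succ n ih =>
    have h : dec (n + 1) x = ⟨isub (Int.ofNat (Nat.mod x 16777216)) (Int.ofNat 8388608),
      isub (Int.ofNat (Nat.mod (Nat.div x 16777216) 16777216)) (Int.ofNat 8388608)⟩ ::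
        dec n (Nat.div x 281474976710656) := rfl
    rw [h, List.length_cons, ih]

theorem EC.good (e : EC) : e.cc.Good := by
  cases e with
  | mk nL n d a0 a1 a2 =>
    cases d with
    | zero => exact ⟨Nat.zero_le _, rfl⟩
    | succ d =>
      refine ⟨?_, ?_⟩
      · show (dec n a1).length ≤ (dec n a0).length
        rw [length_dec, length_dec]
      · show (dec n a2).length = (dec n a1).length
        rw [length_dec, length_dec]

theorem and_true_split {x y : Bool} (h : Bool.and x y = true) : x = true ∧ y = true := by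
  cases x <;> cases y <;> simp_all

theorem EW.good {f : Fam} {e : EW} (h : chiOK f e.wc = true) : e.wc.Good := by
  cases e with
  | mk nY Y r X F G H =>
    refine ⟨?_, ?_, F.good, G.good, H.good⟩
    · cases r with
      | zero => exact Or.inl ⟨rfl, rfl⟩
      | succ r =>
        refine Or.inr ⟨Nat.succ_pos _, ?_⟩
        show (dec (Nat.succ (Nat.mul 2 (r + 1))) X).length = 2 * (r + 1) + 1
        rw [length_dec]
        rfl
    · intro hr
      cases r with
      | zero => exact absurd hr (lt_irrefl _)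
      | succ r =>
        exact Nat.eq_of_beq_eq_true (and_true_split h).2

theorem nat_sub_le_abs {x : ℝ} {a : ℤ} {h : ℕ} (hx : |x - (a : ℝ)| ≤ (h : ℝ)) :
    ((Nat.sub (iabs a) (Int.toNat (Int.ofNat h)) : ℕ) : ℝ) ≤ |x| := by
  have h1 : Nat.sub (iabs a) (Int.toNat (Int.ofNat h)) = a.natAbs - h := by
    rw [iabs_eq]; rfl
  rw [h1]
  have h2 : |(a : ℝ)| ≤ |x| + h := by
    have h3 : (a : ℝ) = x - (x - a) := by ring
    rw [h3]
    calc |x - (x - (a : ℝ))| ≤ |x| + |x - a| := abs_sub _ _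
      _ ≤ |x| + h := by linarith
  have h4 : ((a.natAbs : ℕ) : ℝ) = |(a : ℝ)| := by
    rw [Nat.cast_natAbs, Int.cast_abs]
  rcases le_total h a.natAbs with hle | hle
  · rw [Nat.cast_sub hle, h4]
    linarith
  · rw [Nat.sub_eq_zero_of_le hle]
    simp

theorem triAny_sound {r2 tt : ℕ} {l : List (ℕ × ℕ)} (h : triAny r2 tt l = true) :
    ∃ q ∈ l, tri1 r2 tt q = true := by
  induction l with
  | nil => exact absurd h (by simp [triAny])
  | cons q l ih =>
    have h' : Bool.or (tri1 r2 tt q) (triAny r2 tt l) = true := h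
    have h'' : tri1 r2 tt q = true ∨ triAny r2 tt l = true := by
      cases hx : tri1 r2 tt q <;> cases hy : triAny r2 tt l <;> simp_all
    rcases h'' with h1 | h1
    · exact ⟨q, List.mem_cons_self, h1⟩
    · obtain ⟨q', hq', h2⟩ := ih h1
      exact ⟨q', List.mem_cons_of_mem _ hq', h2⟩

theorem tri1_term {R X : ℝ} {r c N : ℕ} {α : ℕ} (hr : (r : ℝ) ≤ 2 ^ c * R) (hcN : c * α ≤ N)
    (hX : α ≠ 0 → R ^ α ≤ X) :
    ((@Nat.rec (fun _ => Nat) 0 (fun _ _ => Nat.mul (Nat.pow r α) (Nat.pow 2 (Nat.sub N (Nat.mul c α)))) α : ℕ) : ℝ)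
      ≤ 2 ^ N * (if α = 0 then 0 else X) := by
  cases α with
  | zero => simp
  | succ k =>
    have h1 : ((Nat.mul (Nat.pow r (k + 1)) (Nat.pow 2 (Nat.sub N (Nat.mul c (k + 1)))) : ℕ) : ℝ)
        ≤ 2 ^ N * X := by
      have e1 : Nat.mul (Nat.pow r (k + 1)) (Nat.pow 2 (Nat.sub N (Nat.mul c (k + 1))))
          = r ^ (k + 1) * 2 ^ (N - c * (k + 1)) := rfl
      rw [e1]
      push_cast
      have e2 : (r : ℝ) ^ (k + 1) ≤ (2 ^ c * R) ^ (k + 1) := pow_le_pow_left₀ (Nat.cast_nonneg _) hr _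
      have e3 : (2 ^ c * R) ^ (k + 1) * 2 ^ (N - c * (k + 1)) = 2 ^ N * R ^ (k + 1) := by
        rw [mul_pow, ← pow_mul, mul_right_comm, ← pow_add, Nat.add_sub_cancel' hcN]
      calc (r : ℝ) ^ (k + 1) * 2 ^ (N - c * (k + 1))
          ≤ (2 ^ c * R) ^ (k + 1) * 2 ^ (N - c * (k + 1)) := by gcongr
        _ = 2 ^ N * R ^ (k + 1) := e3
        _ ≤ 2 ^ N * X := by
          gcongr
          exact hX (Nat.succ_ne_zero _)
    simpa using h1

theorem triOK_sound {f : Fam} {a b : ℤ} {h : ℕ} {t0 : ℤ} {ht : ℕ}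
    (hc : triOK f ⟨a, b⟩ (Int.ofNat h) t0 (Int.ofNat ht) = true) : CoverOK f a b h t0 ht := by
  intro u t K2 hre him htt I
  obtain ⟨q, hq, h1⟩ := triAny_sound (show triAny
    (Nat.add (Nat.mul (Nat.sub (iabs a) (Int.toNat (Int.ofNat h))) (Nat.sub (iabs a) (Int.toNat (Int.ofNat h))))
      (Nat.mul (Nat.sub (iabs b) (Int.toNat (Int.ofNat h))) (Nat.sub (iabs b) (Int.toNat (Int.ofNat h)))))
    (Int.toNat (isub t0 (Int.ofNat ht))) f.tri = true from hc)
  have hmx := nat_sub_le_abs hre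
  have hmy := nat_sub_le_abs him
  set mx := Nat.sub (iabs a) (Int.toNat (Int.ofNat h)) with hmxd
  set my := Nat.sub (iabs b) (Int.toNat (Int.ofNat h)) with hmyd
  have hr2 : ((Nat.add (Nat.mul mx mx) (Nat.mul my my) : ℕ) : ℝ) ≤ 2 ^ 60 * ‖u‖ ^ 2 := by
    have e1 : Nat.add (Nat.mul mx mx) (Nat.mul my my) = mx * mx + my * my := rfl
    rw [e1]
    push_cast
    have e2 : (mx : ℝ) * mx ≤ (2 ^ 30 * u.re) * (2 ^ 30 * u.re) := by
      rw [← abs_mul_abs_self ((2 : ℝ) ^ 30 * u.re)]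
      exact mul_le_mul hmx hmx (Nat.cast_nonneg _) (abs_nonneg _)
    have e3 : (my : ℝ) * my ≤ (2 ^ 30 * u.im) * (2 ^ 30 * u.im) := by
      rw [← abs_mul_abs_self ((2 : ℝ) ^ 30 * u.im)]
      exact mul_le_mul hmy hmy (Nat.cast_nonneg _) (abs_nonneg _)
    have e4 : ‖u‖ ^ 2 = u.re * u.re + u.im * u.im := by
      rw [← Complex.normSq_eq_norm_sq, Complex.normSq_apply]
    rw [e4]
    nlinarith [e2, e3]
  have htn : ((Int.toNat (isub t0 (Int.ofNat ht)) : ℕ) : ℝ) ≤ 2 ^ 30 * t := by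
    rw [isub_eq]
    have e0 := (abs_le.1 htt).1
    have e1 : (((t0 - Int.ofNat ht).toNat : ℤ) : ℝ) ≤ 2 ^ 30 * t := by
      rw [Int.toNat_eq_max]
      push_cast
      refine max_le ?_ (mul_nonneg (by positivity) I.t_nonneg)
      have e2 : ((Int.ofNat ht : ℤ) : ℝ) = (ht : ℝ) := by simp
      linarith
    exact_mod_cast e1
  set R2 := Nat.add (Nat.mul mx mx) (Nat.mul my my) with hR2
  set TT := Int.toNat (isub t0 (Int.ofNat ht)) with hTT
  obtain ⟨α, β⟩ := q
  have h2 : Bool.and (Bool.and (Nat.ble α 8) (Nat.ble β 16))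
    (Nat.blt (Nat.mul 292127 (Nat.pow 2 480)) (Nat.mul 100000 (Nat.add (Nat.pow 2 481) (Nat.add
      (@Nat.rec (fun _ => Nat) 0 (fun _ _ => Nat.mul (Nat.pow R2 α) (Nat.pow 2 (Nat.sub 480 (Nat.mul 60 α)))) α)
      (@Nat.rec (fun _ => Nat) 0 (fun _ _ => Nat.mul (Nat.pow TT β) (Nat.pow 2 (Nat.sub 480 (Nat.mul 30 β)))) β)))))
      = true := h1
  obtain ⟨h3, h4⟩ := and_true_split h2
  obtain ⟨h5, h6⟩ := and_true_split h3
  have hα : α ≤ 8 := Nat.le_of_ble_eq_true h5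
  have hβ : β ≤ 16 := Nat.le_of_ble_eq_true h6
  have t1 := tri1_term (R := ‖u‖ ^ 2) (X := ‖u‖ ^ (2 * α)) (r := R2) (c := 60) (N := 480) (α := α)
    hr2 (by omega) (fun _ => by rw [← pow_mul])
  have t2 := tri1_term (R := t) (X := t ^ β) (r := TT) (c := 30) (N := 480) (α := β)
    htn (by omega) (fun _ => le_rfl)
  have h7 : Nat.mul 292127 (Nat.pow 2 480) < Nat.mul 100000 (Nat.add (Nat.pow 2 481) (Nat.add
      (@Nat.rec (fun _ => Nat) 0 (fun _ _ => Nat.mul (Nat.pow R2 α) (Nat.pow 2 (Nat.sub 480 (Nat.mul 60 α)))) α)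
      (@Nat.rec (fun _ => Nat) 0 (fun _ _ => Nat.mul (Nat.pow TT β) (Nat.pow 2 (Nat.sub 480 (Nat.mul 30 β)))) β))) :=
    Nat.le_of_ble_eq_true h4
  refine lt_of_lt_of_le ?_ (I.tri _ hq)
  set A := (@Nat.rec (fun _ => Nat) 0 (fun _ _ => Nat.mul (Nat.pow R2 α) (Nat.pow 2 (Nat.sub 480 (Nat.mul 60 α)))) α)
    with hA
  set B := (@Nat.rec (fun _ => Nat) 0 (fun _ _ => Nat.mul (Nat.pow TT β) (Nat.pow 2 (Nat.sub 480 (Nat.mul 30 β)))) β)
    with hB
  have h8 : (292127 : ℝ) * 2 ^ 480 < 100000 * (2 ^ 481 + (A + B)) := by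
    have h9 : 292127 * 2 ^ 480 < 100000 * (2 ^ 481 + (A + B)) := h7
    have h10 : ((292127 * 2 ^ 480 : ℕ) : ℝ) < ((100000 * (2 ^ 481 + (A + B)) : ℕ) : ℝ) :=
      Nat.cast_lt.2 h9
    rw [Nat.cast_mul, Nat.cast_mul, Nat.cast_add, Nat.cast_pow, Nat.cast_pow, Nat.cast_add] at h10
    exact h10
  have h11 : triVal u t (α, β) = 2 + (if α = 0 then 0 else ‖u‖ ^ (2 * α)) + (if β = 0 then 0 else t ^ β) := rfl
  rw [h11]
  have h12 : (0 : ℝ) < 2 ^ 480 := by positivity
  have h13 : (2 : ℝ) ^ 481 = 2 * 2 ^ 480 := by rw [pow_succ']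
  rw [h13] at h8
  generalize (2 : ℝ) ^ 480 = M at h8 h12 t1 t2
  by_contra hcon
  rw [not_lt] at hcon
  nlinarith [mul_le_mul_of_nonneg_left hcon h12.le]

theorem checkCert_sound {f : Fam} (hcr : f.cross = true → f.xmax = 0) {a b : ℤ} {h : ℕ} {t0 : ℤ} {ht : ℕ}
    {c : Cert} (hc : checkCert f ⟨a, b⟩ (Int.ofNat h) t0 (Int.ofNat ht) c = true) :
    CoverOK f a b h t0 ht := by
  intro u t K2 hre him htt I
  cases c with
  | mk w0 w1 w2 =>
    have hc' : checkWC f ⟨a, b⟩ (Int.ofNat h) t0 (Int.ofNat ht) w0.wc w1.wc w2.wc = true := hc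
    have h1 : Bool.and (chiOK f w0.wc) (Bool.and (chiOK f w1.wc) (chiOK f w2.wc)) = true :=
      (and_true_split hc').1
    obtain ⟨g0, h2⟩ := and_true_split h1
    obtain ⟨g1, g2⟩ := and_true_split h2
    -- the parameters
    have hε : ∃ ε : ℂ, |ε.re| ≤ 1 ∧ |ε.im| ≤ 1 ∧ (2 : ℂ) ^ 30 * u = (⟨a, b⟩ : GI).toC + ε * (h : ℂ) := by
      rcases Nat.eq_zero_or_pos h with h0 | hpos
      · subst h0
        refine ⟨0, by simp, by simp, ?_⟩
        rw [Nat.cast_zero, abs_nonpos_iff, sub_eq_zero] at hre him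
        have e1 : (2 : ℂ) ^ 30 * u = ⟨(2 : ℝ) ^ 30 * u.re, (2 : ℝ) ^ 30 * u.im⟩ := by
          apply Complex.ext
          · have : (2 : ℂ) ^ 30 = (((2 : ℝ) ^ 30 : ℝ) : ℂ) := by push_cast; rfl
            rw [this, Complex.re_ofReal_mul]
          · have : (2 : ℂ) ^ 30 = (((2 : ℝ) ^ 30 : ℝ) : ℂ) := by push_cast; rfl
            rw [this, Complex.im_ofReal_mul]
        rw [e1, hre, him, zero_mul, add_zero]
        rfl
      · have hh : (0 : ℝ) < h := by exact_mod_cast hpos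
        refine ⟨⟨((2 : ℝ) ^ 30 * u.re - a) / h, ((2 : ℝ) ^ 30 * u.im - b) / h⟩, ?_, ?_, ?_⟩
        · show |((2 : ℝ) ^ 30 * u.re - a) / h| ≤ 1
          rw [abs_div, abs_of_pos hh, div_le_one hh]
          exact hre
        · show |((2 : ℝ) ^ 30 * u.im - b) / h| ≤ 1
          rw [abs_div, abs_of_pos hh, div_le_one hh]
          exact him
        · have e2 : (2 : ℂ) ^ 30 = (((2 : ℝ) ^ 30 : ℝ) : ℂ) := by push_cast; rfl
          have e3 : (h : ℂ) = ((h : ℝ) : ℂ) := by push_cast; rfl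
          rw [e2, e3]
          apply Complex.ext
          · rw [Complex.re_ofReal_mul, Complex.add_re, Complex.re_mul_ofReal]
            show (2 : ℝ) ^ 30 * u.re = (a : ℝ) + ((2 : ℝ) ^ 30 * u.re - a) / h * h
            rw [div_mul_cancel₀ _ hh.ne']
            ring
          · rw [Complex.im_ofReal_mul, Complex.add_im, Complex.im_mul_ofReal]
            show (2 : ℝ) ^ 30 * u.im = (b : ℝ) + ((2 : ℝ) ^ 30 * u.im - b) / h * h
            rw [div_mul_cancel₀ _ hh.ne']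
            ring
    have hθ : ∃ θ : ℝ, |θ| ≤ 1 ∧ (2 : ℝ) ^ 30 * t = t0 + θ * (ht : ℝ) := by
      rcases Nat.eq_zero_or_pos ht with h0 | hpos
      · subst h0
        refine ⟨0, by simp, ?_⟩
        rw [Nat.cast_zero, abs_nonpos_iff, sub_eq_zero] at htt
        rw [htt, zero_mul, add_zero]
      · have hh : (0 : ℝ) < ht := by exact_mod_cast hpos
        refine ⟨((2 : ℝ) ^ 30 * t - t0) / ht, ?_, ?_⟩
        · rw [abs_div, abs_of_pos hh, div_le_one hh]
          exact htt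
        · rw [div_mul_cancel₀ _ hh.ne']
          ring
    obtain ⟨ε, e1, e2, e3⟩ := hε
    obtain ⟨θ, d1, d2⟩ := hθ
    refine checkWC_sound (hcr := hcr) (EW.good g0) (EW.good g1) (EW.good g2) hc' (u := u) (t := t)
      (p := ⟨ε, θ, e1, e2, d1⟩) ?_ ?_ I
    · have e4 : ((Int.ofNat h : ℤ) : ℂ) = (h : ℂ) := by simp
      rw [e3, e4]
    · have e4 : ((Int.ofNat ht : ℤ) : ℝ) = (ht : ℝ) := by simp
      rw [d2, e4]

theorem half_cases {x : ℝ} {a : ℤ} {h : ℕ} (hx : |x - (a : ℝ)| ≤ (h : ℝ)) (hh : h = 2 * (h / 2)) :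
    |x - ((isub a (ihalf h) : ℤ) : ℝ)| ≤ ((h / 2 : ℕ) : ℝ) ∨
    |x - ((iadd a (ihalf h) : ℤ) : ℝ)| ≤ ((h / 2 : ℕ) : ℝ) := by
  have h1 : ihalf h = ((h / 2 : ℕ) : ℤ) := rfl
  rw [isub_eq, iadd_eq, h1]
  have h2 : (h : ℝ) = 2 * ((h / 2 : ℕ) : ℝ) := by exact_mod_cast hh
  rw [h2] at hx
  generalize (h / 2 : ℕ) = m at *
  push_cast
  obtain ⟨h3, h4⟩ := abs_le.1 hx
  rcases le_total x a with hle | hle
  · left
    rw [abs_le]
    constructor <;> linarith
  · right
    rw [abs_le]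
    constructor <;> linarith

/-- **T4e.** -/
theorem checkTree_sound {f : Fam} (hcr : f.cross = true → f.xmax = 0) {T : Tree} {a b : ℤ} {h : ℕ}
    {t0 : ℤ} {ht : ℕ} (hc : checkTree f T a b h t0 ht = true) : CoverOK f a b h t0 ht := by
  induction T generalizing a b h t0 ht with
  | triv => exact triOK_sound hc
  | leaf c => exact checkCert_sound hcr hc
  | q T1 T2 T3 T4 i1 i2 i3 i4 =>
    have hc' : Bool.and (Nat.beq h (Nat.mul 2 (Nat.div h 2)))
      (Bool.and (Bool.and (checkTree f T1 (isub a (ihalf h)) (isub b (ihalf h)) (Nat.div h 2) t0 ht)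
        (checkTree f T2 (isub a (ihalf h)) (iadd b (ihalf h)) (Nat.div h 2) t0 ht))
      (Bool.and (checkTree f T3 (iadd a (ihalf h)) (isub b (ihalf h)) (Nat.div h 2) t0 ht)
        (checkTree f T4 (iadd a (ihalf h)) (iadd b (ihalf h)) (Nat.div h 2) t0 ht))) = true := hc
    obtain ⟨h0, h1⟩ := and_true_split hc'
    obtain ⟨h2, h3⟩ := and_true_split h1
    obtain ⟨c1, c2⟩ := and_true_split h2
    obtain ⟨c3, c4⟩ := and_true_split h3
    have hh : h = 2 * (h / 2) := Nat.eq_of_beq_eq_true h0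
    intro u t K2 hre him htt I
    rcases half_cases hre hh with hr | hr
    · rcases half_cases him hh with hi | hi
      · exact i1 c1 u t K2 hr hi htt I
      · exact i2 c2 u t K2 hr hi htt I
    · rcases half_cases him hh with hi | hi
      · exact i3 c3 u t K2 hr hi htt I
      · exact i4 c4 u t K2 hr hi htt I
  | t T1 T2 i1 i2 =>
    have hc' : Bool.and (Nat.beq ht (Nat.mul 2 (Nat.div ht 2)))
      (Bool.and (checkTree f T1 a b h (isub t0 (ihalf ht)) (Nat.div ht 2))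
        (checkTree f T2 a b h (iadd t0 (ihalf ht)) (Nat.div ht 2))) = true := hc
    obtain ⟨h0, h1⟩ := and_true_split hc'
    obtain ⟨c1, c2⟩ := and_true_split h1
    have hh : ht = 2 * (ht / 2) := Nat.eq_of_beq_eq_true h0
    intro u t K2 hre him htt I
    rcases half_cases htt hh with hr | hr
    · exact i1 c1 u t K2 hre him hr I
    · exact i2 c2 u t K2 hre him hr I
  | x T1 T2 i1 i2 =>
    have hc' : Bool.and (Bool.and f.real (Bool.and (Nat.beq (iabs b) 0)
      (Nat.beq h (Nat.mul 2 (Nat.div h 2)))))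
      (Bool.and (checkTree f T1 (isub a (ihalf h)) b (Nat.div h 2) t0 ht)
        (checkTree f T2 (iadd a (ihalf h)) b (Nat.div h 2) t0 ht)) = true := hc
    obtain ⟨h0, h1⟩ := and_true_split hc'
    obtain ⟨c1, c2⟩ := and_true_split h1
    obtain ⟨hreal, h2⟩ := and_true_split h0
    obtain ⟨h3, h4⟩ := and_true_split h2
    have hh : h = 2 * (h / 2) := Nat.eq_of_beq_eq_true h4
    have hb : b = 0 := by
      have := Nat.eq_of_beq_eq_true h3
      rw [iabs_eq] at this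
      exact Int.natAbs_eq_zero.1 this
    intro u t K2 hre him htt I
    have him' : |(2 : ℝ) ^ 30 * u.im - (b : ℝ)| ≤ ((h / 2 : ℕ) : ℝ) := by
      rw [I.real hreal, hb]
      simp
    rcases half_cases hre hh with hr | hr
    · exact i1 c1 u t K2 hr him' htt I
    · exact i2 c2 u t K2 hr him' htt I

/-- grid points: every real in `[lo/4, hi/4]` lies in one of the intervals of length `1/4`. -/
theorem exists_grid {x : ℝ} {lo hi : ℤ} (h0 : (lo : ℝ) / 4 ≤ x) (h1 : x ≤ (hi : ℝ) / 4) (hlt : lo < hi) :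
    ∃ i : ℤ, lo ≤ i ∧ i < hi ∧ |(2 : ℝ) ^ 30 * x - ((2 * i + 1) * 2 ^ 27 : ℤ)| ≤ (2 ^ 27 : ℕ) := by
  have key : ∃ i : ℤ, lo ≤ i ∧ i < hi ∧ (i : ℝ) ≤ 4 * x ∧ 4 * x ≤ i + 1 := by
    rcases lt_or_ge (⌊4 * x⌋) hi with h | h
    · refine ⟨⌊4 * x⌋, Int.le_floor.2 (by linarith), h, Int.floor_le _, (Int.lt_floor_add_one _).le⟩
    · have h2 : (hi : ℝ) ≤ 4 * x := Int.le_floor.1 h
      refine ⟨hi - 1, by omega, by omega, ?_, ?_⟩
      · push_cast
        linarith
      · push_cast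
        linarith
  obtain ⟨i, hi1, hi2, hi3, hi4⟩ := key
  refine ⟨i, hi1, hi2, ?_⟩
  push_cast
  rw [abs_le]
  constructor
  · nlinarith
  · nlinarith

end MaxTerm.PB
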