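import Pool.Agent.MaxTerm.PB.NormI
import Pool.Agent.MaxTerm.PB.NormII
import Pool.Agent.MaxTerm.PB.NormIIS
import Pool.Agent.MaxTerm.PB.Mirror
import Pool.Agent.MaxTerm.PB.STree

/-!
# Reduction of the mismatch theorem to the covers and to strictly increasing gaps

The covers (`hA` … `h3`) are proved in the generated files `PB/Cover*.lean`.
-/

open Filter Topology ComplexConjugate

namespace MaxTerm.PB

/-- the statement proved by the cover of the family `f`. -/
def Excluded (f : Fam) : Prop :=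
  ∀ (u : ℂ) (t K2 : ℝ), 0 ≤ u.im → Inst f K2 u t → 2.92127 < K2

/-- case (i) when `σ ^ k` is in the upper half plane. -/
theorem case_i_aux (hA : Excluded famA) (hC : Excluded famC) (hD : Excluded famD) {K : ℝ}
    {k b : ℕ} (T : Triple K k k b) (hb : b < k) (him : 0 ≤ (T.σ ^ k).im) : 2.92127 < K ^ 2 := by
  have hk := T.k_pos
  have hb0 := T.b_pos
  have hdpos : 0 < Nat.gcd k b := Nat.gcd_pos_of_pos_left _ hk
  obtain ⟨k', hk'⟩ := Nat.gcd_dvd_left k b
  obtain ⟨b', hb'⟩ := Nat.gcd_dvd_right k b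
  have hkk : k / Nat.gcd k b = k' := Nat.div_eq_of_eq_mul_right hdpos hk'
  have hlt : b' < k' := by
    by_contra hcon
    have h1 := Nat.mul_le_mul_left (Nat.gcd k b) (not_lt.1 hcon)
    omega
  have hb'0 : 0 < b' := by
    rcases Nat.eq_zero_or_pos b' with h | h
    · rw [h, mul_zero] at hb'
      omega
    · exact h
  rcases Nat.lt_or_ge 4 k' with h5 | h5
  · obtain ⟨t, ⟨I⟩⟩ := inst_I T hb (m := 1) (l := 1) (g := 175) (xmax := 577) le_rfl le_rfl le_rfl
      (by omega) (by norm_num)
      (fun W hW => by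
        have h := pw_five hW hk (b := b) (by omega)
        norm_num at h ⊢
        exact h)
    exact hA _ t _ him I
  · rcases Nat.lt_or_ge 2 k' with h3 | h3
    · have hmb : 4 * b ≤ 3 * k := by
        have h6 : 4 * b' ≤ 3 * k' := by omega
        calc 4 * b = Nat.gcd k b * (4 * b') := by
              conv_lhs => rw [hb']
              ring
          _ ≤ Nat.gcd k b * (3 * k') := Nat.mul_le_mul_left _ h6
          _ = 3 * k := by
              conv_rhs => rw [hk']
              ring
      obtain ⟨t, ⟨I⟩⟩ := inst_I T hb (m := 4) (l := 3) (g := 256) (xmax := 512) (by norm_num)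
        (by norm_num) (by norm_num) hmb (by norm_num)
        (fun W hW => by
          have h := pw_two hW hk (b := b) (by omega)
          norm_num at h ⊢
          exact h)
      exact hC _ t _ him I
    · have hmb : 2 * b ≤ 1 * k := by
        have h6 : 2 * b' ≤ k' := by omega
        calc 2 * b = Nat.gcd k b * (2 * b') := by
              conv_lhs => rw [hb']
              ring
          _ ≤ Nat.gcd k b * k' := Nat.mul_le_mul_left _ h6
          _ = 1 * k := by rw [one_mul]; exact hk'.symm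
      obtain ⟨t, ⟨I⟩⟩ := inst_I_euclid T hb (m := 2) (l := 1) (g := 256) (by norm_num)
        (by norm_num) (by norm_num) hmb
      exact hD _ t _ him I

/-- **T7a.** case (i). -/
theorem case_i (hA : Excluded famA) (hC : Excluded famC) (hD : Excluded famD) {K : ℝ} {k b : ℕ}
    (T : Triple K k k b) (hb : b < k) : 2.92127 < K ^ 2 := by
  rcases le_total 0 (T.σ ^ k).im with h | h
  · exact case_i_aux hA hC hD T hb h
  · refine case_i_aux hA hC hD T.conj hb ?_
    have e : T.conj.σ ^ k = conj (T.σ ^ k) := by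
      change (conj T.σ) ^ k = conj (T.σ ^ k)
      rw [map_pow]
    rw [e, Complex.conj_im]
    linarith

/-- **T7b.** case (ii).  In this case `u` is real and nonnegative. -/
theorem case_ii (h2 : ∀ (u t K2 : ℝ), 0 ≤ u → Inst fam2 K2 (u : ℂ) t → 2.92127 < K2)
    (h3 : ∀ (u t K2 : ℝ), 0 ≤ u → Inst fam3 K2 (u : ℂ) t → 2.92127 < K2) {K : ℝ} {a k b : ℕ}
    (T : Triple K a k b) (ha : a < k) (hb : b < k) : 2.92127 < K ^ 2 := by
  by_cases hab : a + b = k
  · rcases le_total (2 * a) k with h | h
    · obtain ⟨I⟩ := inst_II_same T hab h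
      exact h3 _ _ _ (Real.sqrt_nonneg _) I
    · obtain ⟨I⟩ := inst_II_same T.mirror (by omega) (by omega)
      exact h3 _ _ _ (Real.sqrt_nonneg _) I
  · obtain ⟨I⟩ := inst_II T ha hb hab
    exact h2 _ _ _ (pow_nonneg (norm_nonneg _) _) I

/-- **T7c.** combinatorics of the gaps. -/
theorem eventually_const_or_strict {g : ℕ → ℕ} (hpos : ∀ j, 0 < g j)
    (h1 : ∀ j, ¬ (g j = g (j + 1) ∧ g (j + 2) < g (j + 1)))
    (h1' : ∀ j, ¬ (g j < g (j + 1) ∧ g (j + 2) = g (j + 1)))
    (h2 : ∀ j, ¬ (g j < g (j + 1) ∧ g (j + 2) < g (j + 1))) :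
    (∃ J k, ∀ j ≥ J, g j = k) ∨ ∃ J, ∀ j ≥ J, g j < g (j + 1) := by
  have hback : ∀ j, g (j + 2) < g (j + 1) → g (j + 1) < g j := by
    intro j hj
    have a1 := h1 j
    have a2 := h2 j
    omega
  have hall : ∀ j, g (j + 1) < g j → ∀ i, i ≤ j → g (i + 1) < g i := by
    intro j
    induction j with
    | zero =>
      intro hj i hi
      obtain rfl : i = 0 := by omega
      exact hj
    | succ j ih =>
      intro hj i hi
      rcases Nat.lt_or_ge j i with h | h
      · obtain rfl : i = j + 1 := by omega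
        exact hj
      · exact ih (hback j hj) i h
  have hmono : ∃ J, ∀ j ≥ J, g j ≤ g (j + 1) := by
    by_contra hcon
    push Not at hcon
    have hdec : ∀ i, g (i + 1) < g i := by
      intro i
      obtain ⟨j, hj, hlt⟩ := hcon i
      exact hall j hlt i hj
    have hb : ∀ n, g n + n ≤ g 0 := by
      intro n
      induction n with
      | zero => simp
      | succ n ih =>
        have := hdec n
        omega
    have c1 := hb (g 0)
    have c2 := hpos (g 0)
    omega
  obtain ⟨J, hJ⟩ := hmono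
  by_cases hs : ∃ j, J ≤ j ∧ g j < g (j + 1)
  · obtain ⟨j, hj, hlt⟩ := hs
    refine Or.inr ⟨j, fun i hi => ?_⟩
    induction i, hi using Nat.le_induction with
    | base => exact hlt
    | succ i hi ih =>
      have b1 := h1' i
      have b2 := hJ (i + 1) (by omega)
      have b3 : g (i + 1) ≤ g (i + 2) := b2
      show g (i + 1) < g (i + 2)
      omega
  · push Not at hs
    refine Or.inl ⟨J, g J, fun i hi => ?_⟩
    induction i, hi using Nat.le_induction with
    | base => rfl
    | succ i hi ih =>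
      have b1 := hs i hi
      have b2 := hJ i hi
      omega

/-- **T7d.** -/
theorem mismatch_of (hA : Excluded famA) (hC : Excluded famC) (hD : Excluded famD)
    (h2 : ∀ (u t K2 : ℝ), 0 ≤ u → Inst fam2 K2 (u : ℂ) t → 2.92127 < K2)
    (h3 : ∀ (u t K2 : ℝ), 0 ≤ u → Inst fam3 K2 (u : ℂ) t → 2.92127 < K2)
    (hstrict : ∀ {K : ℝ} (C : Chain K), K ^ 2 ≤ 2.92127 → ¬ ∃ J, ∀ j ≥ J, C.k j < C.k (j + 1))
    {K : ℝ} (C : Chain K) (hK : K ^ 2 ≤ 2.92127) : ∃ J k, ∀ j ≥ J, C.k j = k := by
  have hno : ¬ (2.92127 < K ^ 2) := not_lt.2 hK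
  have g1 : ∀ {a k b : ℕ} (_ : Triple K a k b), ¬ (a = k ∧ b < k) := by
    rintro a k b T ⟨rfl, hb⟩
    exact hno (case_i hA hC hD T hb)
  have g2 : ∀ {a k b : ℕ} (_ : Triple K a k b), ¬ (a < k ∧ b = k) := by
    rintro a k b T ⟨ha, rfl⟩
    exact hno (case_i hA hC hD T.mirror ha)
  have g3 : ∀ {a k b : ℕ} (_ : Triple K a k b), ¬ (a < k ∧ b < k) := by
    rintro a k b T ⟨ha, hb⟩
    exact hno (case_ii h2 h3 T ha hb)
  rcases eventually_const_or_strict (g := C.k) C.k_pos (fun j => g1 (tripleOf C j))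
    (fun j => g2 (tripleOf C j)) (fun j => g3 (tripleOf C j)) with h | h
  · exact h
  · exact absurd h (hstrict C hK)

end MaxTerm.PB
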