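import Pool.Agent.MaxTerm.PB.STree
import Pool.Agent.MaxTerm.PB.Final

/-! From the table of root boxes to the exclusion of a family. -/

namespace MaxTerm.PB

theorem hcr_A : famA.cross = true → famA.xmax = 0 := fun h => absurd h (by decide +kernel)
theorem hcr_C : famC.cross = true → famC.xmax = 0 := fun h => absurd h (by decide +kernel)
theorem hcr_D : famD.cross = true → famD.xmax = 0 := fun _ => rfl
theorem hcr_E : fam2.cross = true → fam2.xmax = 0 := fun _ => rfl
theorem hcr_G : fam3.cross = true → fam3.xmax = 0 := fun _ => rfl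

theorem excluded_of_tab {f : Fam}
    (h : ∀ x y z : ℤ, -4 ≤ x → x < 4 → 0 ≤ y → y < 4 → 0 ≤ z → z < 4 →
      CoverOK f ((2 * x + 1) * 2 ^ 27) ((2 * y + 1) * 2 ^ 27) (2 ^ 27) ((2 * z + 1) * 2 ^ 27) (2 ^ 27)) :
    Excluded f := by
  intro u t K2 him I
  have hre := (abs_le.1 ((Complex.abs_re_le_norm u).trans I.norm_u))
  have him1 := (abs_le.1 ((Complex.abs_im_le_norm u).trans I.norm_u)).2
  obtain ⟨x, hx0, hx1, hx⟩ := exists_grid (x := u.re) (lo := -4) (hi := 4) (by push_cast; linarith [hre.1])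
    (by push_cast; linarith [hre.2]) (by norm_num)
  obtain ⟨y, hy0, hy1, hy⟩ := exists_grid (x := u.im) (lo := 0) (hi := 4) (by push_cast; linarith)
    (by push_cast; linarith) (by norm_num)
  obtain ⟨z, hz0, hz1, hz⟩ := exists_grid (x := t) (lo := 0) (hi := 4) (by push_cast; linarith [I.t_nonneg])
    (by push_cast; linarith [I.t_le]) (by norm_num)
  exact h x y z hx0 hx1 hy0 hy1 hz0 hz1 u t K2 hx hy hz I

theorem excludedR_of_tab {f : Fam}
    (h : ∀ x z : ℤ, 0 ≤ x → x < 4 → 0 ≤ z → z < 4 →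
      CoverOK f ((2 * x + 1) * 2 ^ 27) 0 (2 ^ 27) ((2 * z + 1) * 2 ^ 27) (2 ^ 27))
    (u t K2 : ℝ) (hu : 0 ≤ u) (I : Inst f K2 (u : ℂ) t) : 2.92127 < K2 := by
  have hre := I.norm_u
  rw [Complex.norm_real, Real.norm_of_nonneg hu] at hre
  obtain ⟨x, hx0, hx1, hx⟩ := exists_grid (x := u) (lo := 0) (hi := 4) (by push_cast; linarith)
    (by push_cast; linarith) (by norm_num)
  obtain ⟨z, hz0, hz1, hz⟩ := exists_grid (x := t) (lo := 0) (hi := 4) (by push_cast; linarith [I.t_nonneg])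
    (by push_cast; linarith [I.t_le]) (by norm_num)
  exact h x z hx0 hx1 hz0 hz1 (u : ℂ) t K2 hx (by simp) hz I

end MaxTerm.PB
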