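import Pool.Agent.MaxTerm.PB.Check

/-! Combination of checked subtrees (used by the generated files `Cov/*.lean`). -/

namespace MaxTerm.PB

theorem and_of {a b : Bool} (ha : a = true) (hb : b = true) : (a && b) = true := by
  rw [ha, hb]
  rfl

theorem ck_q {f : Fam} {T1 T2 T3 T4 : Tree} {a b : Int} {h : Nat} {t0 : Int} {ht : Nat}
    {a1 a2 b1 b2 : Int} {h' : Nat}
    (hh : Nat.beq h (Nat.mul 2 (Nat.div h 2)) = true)
    (ea1 : isub a (ihalf h) = a1) (ea2 : iadd a (ihalf h) = a2) (eb1 : isub b (ihalf h) = b1)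
    (eb2 : iadd b (ihalf h) = b2) (eh : Nat.div h 2 = h')
    (h1 : checkTree f T1 a1 b1 h' t0 ht = true) (h2 : checkTree f T2 a1 b2 h' t0 ht = true)
    (h3 : checkTree f T3 a2 b1 h' t0 ht = true) (h4 : checkTree f T4 a2 b2 h' t0 ht = true) :
    checkTree f (.q T1 T2 T3 T4) a b h t0 ht = true := by
  subst ea1 ea2 eb1 eb2 eh
  exact and_of hh (and_of (and_of h1 h2) (and_of h3 h4))

theorem ck_t {f : Fam} {T1 T2 : Tree} {a b : Int} {h : Nat} {t0 : Int} {ht : Nat}
    {t1 t2 : Int} {ht' : Nat}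
    (hh : Nat.beq ht (Nat.mul 2 (Nat.div ht 2)) = true)
    (e1 : isub t0 (ihalf ht) = t1) (e2 : iadd t0 (ihalf ht) = t2) (eh : Nat.div ht 2 = ht')
    (h1 : checkTree f T1 a b h t1 ht' = true) (h2 : checkTree f T2 a b h t2 ht' = true) :
    checkTree f (.t T1 T2) a b h t0 ht = true := by
  subst e1 e2 eh
  exact and_of hh (and_of h1 h2)

theorem ck_x {f : Fam} {T1 T2 : Tree} {a b : Int} {h : Nat} {t0 : Int} {ht : Nat}
    {a1 a2 : Int} {h' : Nat}
    (hh : (Bool.and f.real (Bool.and (Nat.beq (iabs b) 0) (Nat.beq h (Nat.mul 2 (Nat.div h 2))))) = true)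
    (e1 : isub a (ihalf h) = a1) (e2 : iadd a (ihalf h) = a2) (eh : Nat.div h 2 = h')
    (h1 : checkTree f T1 a1 b h' t0 ht = true) (h2 : checkTree f T2 a2 b h' t0 ht = true) :
    checkTree f (.x T1 T2) a b h t0 ht = true := by
  subst e1 e2 eh
  exact and_of hh (and_of h1 h2)

end MaxTerm.PB
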