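import Pool.Agent.MaxTerm.PB.Cov.C00
import Pool.Agent.MaxTerm.PB.Cov.C01
import Pool.Agent.MaxTerm.PB.Cov.C02
import Pool.Agent.MaxTerm.PB.Cov.C03
import Pool.Agent.MaxTerm.PB.Cov.C04
import Pool.Agent.MaxTerm.PB.Cov.C05
import Pool.Agent.MaxTerm.PB.Cov.C06
import Pool.Agent.MaxTerm.PB.Cov.C07
import Pool.Agent.MaxTerm.PB.Cov.C08
import Pool.Agent.MaxTerm.PB.CovBase

/-! Assembly of the cell certificates of `famC` (generated). -/

namespace MaxTerm.PB

theorem cv_C_0_0_0 : CoverOK famC (Int.negSucc 939524095) (Int.ofNat 134217728) 134217728 (Int.ofNat 134217728) 134217728 :=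
  checkTree_sound hcr_C Cov.ck_C_0_0_0

theorem cv_C_0_0_1 : CoverOK famC (Int.negSucc 939524095) (Int.ofNat 134217728) 134217728 (Int.ofNat 402653184) 134217728 :=
  checkTree_sound hcr_C Cov.ck_C_0_0_1

theorem cv_C_0_0_2 : CoverOK famC (Int.negSucc 939524095) (Int.ofNat 134217728) 134217728 (Int.ofNat 671088640) 134217728 :=
  checkTree_sound hcr_C Cov.ck_C_0_0_2

theorem cv_C_0_0_3 : CoverOK famC (Int.negSucc 939524095) (Int.ofNat 134217728) 134217728 (Int.ofNat 939524096) 134217728 :=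
  checkTree_sound hcr_C Cov.ck_C_0_0_3

theorem cv_C_0_1_0 : CoverOK famC (Int.negSucc 939524095) (Int.ofNat 402653184) 134217728 (Int.ofNat 134217728) 134217728 :=
  checkTree_sound hcr_C Cov.ck_C_0_1_0

theorem cv_C_0_1_1 : CoverOK famC (Int.negSucc 939524095) (Int.ofNat 402653184) 134217728 (Int.ofNat 402653184) 134217728 :=
  checkTree_sound hcr_C Cov.ck_C_0_1_1

theorem cv_C_0_1_2 : CoverOK famC (Int.negSucc 939524095) (Int.ofNat 402653184) 134217728 (Int.ofNat 671088640) 134217728 :=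
  checkTree_sound hcr_C Cov.ck_C_0_1_2

theorem cv_C_0_1_3 : CoverOK famC (Int.negSucc 939524095) (Int.ofNat 402653184) 134217728 (Int.ofNat 939524096) 134217728 :=
  checkTree_sound hcr_C Cov.ck_C_0_1_3

theorem cv_C_0_2_0 : CoverOK famC (Int.negSucc 939524095) (Int.ofNat 671088640) 134217728 (Int.ofNat 134217728) 134217728 :=
  checkTree_sound hcr_C Cov.ck_C_0_2_0

theorem cv_C_0_2_1 : CoverOK famC (Int.negSucc 939524095) (Int.ofNat 671088640) 134217728 (Int.ofNat 402653184) 134217728 :=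
  checkTree_sound hcr_C Cov.ck_C_0_2_1

theorem cv_C_0_2_2 : CoverOK famC (Int.negSucc 939524095) (Int.ofNat 671088640) 134217728 (Int.ofNat 671088640) 134217728 :=
  checkTree_sound hcr_C Cov.ck_C_0_2_2

theorem cv_C_0_2_3 : CoverOK famC (Int.negSucc 939524095) (Int.ofNat 671088640) 134217728 (Int.ofNat 939524096) 134217728 :=
  checkTree_sound (T := .triv) hcr_C (by decide +kernel)

theorem cv_C_0_3_0 : CoverOK famC (Int.negSucc 939524095) (Int.ofNat 939524096) 134217728 (Int.ofNat 134217728) 134217728 :=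
  checkTree_sound (T := .triv) hcr_C (by decide +kernel)

theorem cv_C_0_3_1 : CoverOK famC (Int.negSucc 939524095) (Int.ofNat 939524096) 134217728 (Int.ofNat 402653184) 134217728 :=
  checkTree_sound (T := .triv) hcr_C (by decide +kernel)

theorem cv_C_0_3_2 : CoverOK famC (Int.negSucc 939524095) (Int.ofNat 939524096) 134217728 (Int.ofNat 671088640) 134217728 :=
  checkTree_sound (T := .triv) hcr_C (by decide +kernel)

theorem cv_C_0_3_3 : CoverOK famC (Int.negSucc 939524095) (Int.ofNat 939524096) 134217728 (Int.ofNat 939524096) 134217728 :=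
  checkTree_sound (T := .triv) hcr_C (by decide +kernel)

theorem cv_C_1_0_0 : CoverOK famC (Int.negSucc 671088639) (Int.ofNat 134217728) 134217728 (Int.ofNat 134217728) 134217728 :=
  checkTree_sound hcr_C Cov.ck_C_1_0_0

theorem cv_C_1_0_1 : CoverOK famC (Int.negSucc 671088639) (Int.ofNat 134217728) 134217728 (Int.ofNat 402653184) 134217728 :=
  checkTree_sound hcr_C Cov.ck_C_1_0_1

theorem cv_C_1_0_2 : CoverOK famC (Int.negSucc 671088639) (Int.ofNat 134217728) 134217728 (Int.ofNat 671088640) 134217728 :=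
  checkTree_sound hcr_C Cov.ck_C_1_0_2

theorem cv_C_1_0_3 : CoverOK famC (Int.negSucc 671088639) (Int.ofNat 134217728) 134217728 (Int.ofNat 939524096) 134217728 :=
  checkTree_sound hcr_C Cov.ck_C_1_0_3

theorem cv_C_1_1_0 : CoverOK famC (Int.negSucc 671088639) (Int.ofNat 402653184) 134217728 (Int.ofNat 134217728) 134217728 :=
  checkTree_sound hcr_C Cov.ck_C_1_1_0

theorem cv_C_1_1_1 : CoverOK famC (Int.negSucc 671088639) (Int.ofNat 402653184) 134217728 (Int.ofNat 402653184) 134217728 :=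
  checkTree_sound hcr_C Cov.ck_C_1_1_1

theorem cv_C_1_1_2 : CoverOK famC (Int.negSucc 671088639) (Int.ofNat 402653184) 134217728 (Int.ofNat 671088640) 134217728 :=
  checkTree_sound hcr_C Cov.ck_C_1_1_2

theorem cv_C_1_1_3 : CoverOK famC (Int.negSucc 671088639) (Int.ofNat 402653184) 134217728 (Int.ofNat 939524096) 134217728 :=
  checkTree_sound hcr_C Cov.ck_C_1_1_3

theorem cv_C_1_2_0 : CoverOK famC (Int.negSucc 671088639) (Int.ofNat 671088640) 134217728 (Int.ofNat 134217728) 134217728 :=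
  checkTree_sound hcr_C Cov.ck_C_1_2_0

theorem cv_C_1_2_1 : CoverOK famC (Int.negSucc 671088639) (Int.ofNat 671088640) 134217728 (Int.ofNat 402653184) 134217728 :=
  checkTree_sound hcr_C Cov.ck_C_1_2_1

theorem cv_C_1_2_2 : CoverOK famC (Int.negSucc 671088639) (Int.ofNat 671088640) 134217728 (Int.ofNat 671088640) 134217728 :=
  checkTree_sound hcr_C Cov.ck_C_1_2_2

theorem cv_C_1_2_3 : CoverOK famC (Int.negSucc 671088639) (Int.ofNat 671088640) 134217728 (Int.ofNat 939524096) 134217728 :=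
  checkTree_sound hcr_C Cov.ck_C_1_2_3

theorem cv_C_1_3_0 : CoverOK famC (Int.negSucc 671088639) (Int.ofNat 939524096) 134217728 (Int.ofNat 134217728) 134217728 :=
  checkTree_sound hcr_C Cov.ck_C_1_3_0

theorem cv_C_1_3_1 : CoverOK famC (Int.negSucc 671088639) (Int.ofNat 939524096) 134217728 (Int.ofNat 402653184) 134217728 :=
  checkTree_sound hcr_C Cov.ck_C_1_3_1

theorem cv_C_1_3_2 : CoverOK famC (Int.negSucc 671088639) (Int.ofNat 939524096) 134217728 (Int.ofNat 671088640) 134217728 :=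
  checkTree_sound hcr_C Cov.ck_C_1_3_2

theorem cv_C_1_3_3 : CoverOK famC (Int.negSucc 671088639) (Int.ofNat 939524096) 134217728 (Int.ofNat 939524096) 134217728 :=
  checkTree_sound (T := .triv) hcr_C (by decide +kernel)

theorem cv_C_2_0_0 : CoverOK famC (Int.negSucc 402653183) (Int.ofNat 134217728) 134217728 (Int.ofNat 134217728) 134217728 :=
  checkTree_sound hcr_C Cov.ck_C_2_0_0

theorem cv_C_2_0_1 : CoverOK famC (Int.negSucc 402653183) (Int.ofNat 134217728) 134217728 (Int.ofNat 402653184) 134217728 :=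
  checkTree_sound hcr_C Cov.ck_C_2_0_1

theorem cv_C_2_0_2 : CoverOK famC (Int.negSucc 402653183) (Int.ofNat 134217728) 134217728 (Int.ofNat 671088640) 134217728 :=
  checkTree_sound hcr_C Cov.ck_C_2_0_2

theorem cv_C_2_0_3 : CoverOK famC (Int.negSucc 402653183) (Int.ofNat 134217728) 134217728 (Int.ofNat 939524096) 134217728 :=
  checkTree_sound hcr_C Cov.ck_C_2_0_3

theorem cv_C_2_1_0 : CoverOK famC (Int.negSucc 402653183) (Int.ofNat 402653184) 134217728 (Int.ofNat 134217728) 134217728 :=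
  checkTree_sound hcr_C Cov.ck_C_2_1_0

theorem cv_C_2_1_1 : CoverOK famC (Int.negSucc 402653183) (Int.ofNat 402653184) 134217728 (Int.ofNat 402653184) 134217728 :=
  checkTree_sound hcr_C Cov.ck_C_2_1_1

theorem cv_C_2_1_2 : CoverOK famC (Int.negSucc 402653183) (Int.ofNat 402653184) 134217728 (Int.ofNat 671088640) 134217728 :=
  checkTree_sound hcr_C Cov.ck_C_2_1_2

theorem cv_C_2_1_3 : CoverOK famC (Int.negSucc 402653183) (Int.ofNat 402653184) 134217728 (Int.ofNat 939524096) 134217728 :=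
  checkTree_sound hcr_C Cov.ck_C_2_1_3

theorem cv_C_2_2_0 : CoverOK famC (Int.negSucc 402653183) (Int.ofNat 671088640) 134217728 (Int.ofNat 134217728) 134217728 :=
  checkTree_sound hcr_C Cov.ck_C_2_2_0

theorem cv_C_2_2_1 : CoverOK famC (Int.negSucc 402653183) (Int.ofNat 671088640) 134217728 (Int.ofNat 402653184) 134217728 :=
  checkTree_sound hcr_C Cov.ck_C_2_2_1

theorem cv_C_2_2_2 : CoverOK famC (Int.negSucc 402653183) (Int.ofNat 671088640) 134217728 (Int.ofNat 671088640) 134217728 :=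
  checkTree_sound hcr_C Cov.ck_C_2_2_2

theorem cv_C_2_2_3 : CoverOK famC (Int.negSucc 402653183) (Int.ofNat 671088640) 134217728 (Int.ofNat 939524096) 134217728 :=
  checkTree_sound hcr_C Cov.ck_C_2_2_3

theorem cv_C_2_3_0 : CoverOK famC (Int.negSucc 402653183) (Int.ofNat 939524096) 134217728 (Int.ofNat 134217728) 134217728 :=
  checkTree_sound hcr_C Cov.ck_C_2_3_0

theorem cv_C_2_3_1 : CoverOK famC (Int.negSucc 402653183) (Int.ofNat 939524096) 134217728 (Int.ofNat 402653184) 134217728 :=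
  checkTree_sound hcr_C Cov.ck_C_2_3_1

theorem cv_C_2_3_2 : CoverOK famC (Int.negSucc 402653183) (Int.ofNat 939524096) 134217728 (Int.ofNat 671088640) 134217728 :=
  checkTree_sound hcr_C Cov.ck_C_2_3_2

theorem cv_C_2_3_3 : CoverOK famC (Int.negSucc 402653183) (Int.ofNat 939524096) 134217728 (Int.ofNat 939524096) 134217728 :=
  checkTree_sound hcr_C Cov.ck_C_2_3_3

theorem cv_C_3_0_0 : CoverOK famC (Int.negSucc 134217727) (Int.ofNat 134217728) 134217728 (Int.ofNat 134217728) 134217728 :=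
  checkTree_sound hcr_C Cov.ck_C_3_0_0

theorem cv_C_3_0_1 : CoverOK famC (Int.negSucc 134217727) (Int.ofNat 134217728) 134217728 (Int.ofNat 402653184) 134217728 :=
  checkTree_sound hcr_C Cov.ck_C_3_0_1

theorem cv_C_3_0_2 : CoverOK famC (Int.negSucc 134217727) (Int.ofNat 134217728) 134217728 (Int.ofNat 671088640) 134217728 :=
  checkTree_sound hcr_C Cov.ck_C_3_0_2

theorem cv_C_3_0_3 : CoverOK famC (Int.negSucc 134217727) (Int.ofNat 134217728) 134217728 (Int.ofNat 939524096) 134217728 :=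
  checkTree_sound hcr_C Cov.ck_C_3_0_3

theorem cv_C_3_1_0 : CoverOK famC (Int.negSucc 134217727) (Int.ofNat 402653184) 134217728 (Int.ofNat 134217728) 134217728 :=
  checkTree_sound hcr_C Cov.ck_C_3_1_0

theorem cv_C_3_1_1 : CoverOK famC (Int.negSucc 134217727) (Int.ofNat 402653184) 134217728 (Int.ofNat 402653184) 134217728 :=
  checkTree_sound hcr_C Cov.ck_C_3_1_1

theorem cv_C_3_1_2 : CoverOK famC (Int.negSucc 134217727) (Int.ofNat 402653184) 134217728 (Int.ofNat 671088640) 134217728 :=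
  checkTree_sound hcr_C Cov.ck_C_3_1_2

theorem cv_C_3_1_3 : CoverOK famC (Int.negSucc 134217727) (Int.ofNat 402653184) 134217728 (Int.ofNat 939524096) 134217728 :=
  checkTree_sound hcr_C Cov.ck_C_3_1_3

theorem cv_C_3_2_0 : CoverOK famC (Int.negSucc 134217727) (Int.ofNat 671088640) 134217728 (Int.ofNat 134217728) 134217728 :=
  checkTree_sound hcr_C Cov.ck_C_3_2_0

theorem cv_C_3_2_1 : CoverOK famC (Int.negSucc 134217727) (Int.ofNat 671088640) 134217728 (Int.ofNat 402653184) 134217728 :=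
  checkTree_sound hcr_C Cov.ck_C_3_2_1

theorem cv_C_3_2_2 : CoverOK famC (Int.negSucc 134217727) (Int.ofNat 671088640) 134217728 (Int.ofNat 671088640) 134217728 :=
  checkTree_sound hcr_C Cov.ck_C_3_2_2

theorem cv_C_3_2_3 : CoverOK famC (Int.negSucc 134217727) (Int.ofNat 671088640) 134217728 (Int.ofNat 939524096) 134217728 :=
  checkTree_sound hcr_C Cov.ck_C_3_2_3

theorem cv_C_3_3_0 : CoverOK famC (Int.negSucc 134217727) (Int.ofNat 939524096) 134217728 (Int.ofNat 134217728) 134217728 :=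
  checkTree_sound hcr_C Cov.ck_C_3_3_0

theorem cv_C_3_3_1 : CoverOK famC (Int.negSucc 134217727) (Int.ofNat 939524096) 134217728 (Int.ofNat 402653184) 134217728 :=
  checkTree_sound hcr_C Cov.ck_C_3_3_1

theorem cv_C_3_3_2 : CoverOK famC (Int.negSucc 134217727) (Int.ofNat 939524096) 134217728 (Int.ofNat 671088640) 134217728 :=
  checkTree_sound hcr_C Cov.ck_C_3_3_2

theorem cv_C_3_3_3 : CoverOK famC (Int.negSucc 134217727) (Int.ofNat 939524096) 134217728 (Int.ofNat 939524096) 134217728 :=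
  checkTree_sound hcr_C Cov.ck_C_3_3_3

theorem cv_C_4_0_0 : CoverOK famC (Int.ofNat 134217728) (Int.ofNat 134217728) 134217728 (Int.ofNat 134217728) 134217728 :=
  checkTree_sound hcr_C Cov.ck_C_4_0_0

theorem cv_C_4_0_1 : CoverOK famC (Int.ofNat 134217728) (Int.ofNat 134217728) 134217728 (Int.ofNat 402653184) 134217728 :=
  checkTree_sound hcr_C Cov.ck_C_4_0_1

theorem cv_C_4_0_2 : CoverOK famC (Int.ofNat 134217728) (Int.ofNat 134217728) 134217728 (Int.ofNat 671088640) 134217728 :=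
  checkTree_sound hcr_C Cov.ck_C_4_0_2

theorem cv_C_4_0_3 : CoverOK famC (Int.ofNat 134217728) (Int.ofNat 134217728) 134217728 (Int.ofNat 939524096) 134217728 :=
  checkTree_sound hcr_C Cov.ck_C_4_0_3

theorem cv_C_4_1_0 : CoverOK famC (Int.ofNat 134217728) (Int.ofNat 402653184) 134217728 (Int.ofNat 134217728) 134217728 :=
  checkTree_sound hcr_C Cov.ck_C_4_1_0

theorem cv_C_4_1_1 : CoverOK famC (Int.ofNat 134217728) (Int.ofNat 402653184) 134217728 (Int.ofNat 402653184) 134217728 :=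
  checkTree_sound hcr_C Cov.ck_C_4_1_1

theorem cv_C_4_1_2 : CoverOK famC (Int.ofNat 134217728) (Int.ofNat 402653184) 134217728 (Int.ofNat 671088640) 134217728 :=
  checkTree_sound hcr_C Cov.ck_C_4_1_2

theorem cv_C_4_1_3 : CoverOK famC (Int.ofNat 134217728) (Int.ofNat 402653184) 134217728 (Int.ofNat 939524096) 134217728 :=
  checkTree_sound hcr_C Cov.ck_C_4_1_3

theorem cv_C_4_2_0 : CoverOK famC (Int.ofNat 134217728) (Int.ofNat 671088640) 134217728 (Int.ofNat 134217728) 134217728 :=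
  checkTree_sound hcr_C Cov.ck_C_4_2_0

theorem cv_C_4_2_1 : CoverOK famC (Int.ofNat 134217728) (Int.ofNat 671088640) 134217728 (Int.ofNat 402653184) 134217728 :=
  checkTree_sound hcr_C Cov.ck_C_4_2_1

theorem cv_C_4_2_2 : CoverOK famC (Int.ofNat 134217728) (Int.ofNat 671088640) 134217728 (Int.ofNat 671088640) 134217728 :=
  checkTree_sound hcr_C Cov.ck_C_4_2_2

theorem cv_C_4_2_3 : CoverOK famC (Int.ofNat 134217728) (Int.ofNat 671088640) 134217728 (Int.ofNat 939524096) 134217728 :=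
  checkTree_sound hcr_C Cov.ck_C_4_2_3

theorem cv_C_4_3_0 : CoverOK famC (Int.ofNat 134217728) (Int.ofNat 939524096) 134217728 (Int.ofNat 134217728) 134217728 :=
  checkTree_sound hcr_C Cov.ck_C_4_3_0

theorem cv_C_4_3_1 : CoverOK famC (Int.ofNat 134217728) (Int.ofNat 939524096) 134217728 (Int.ofNat 402653184) 134217728 :=
  checkTree_sound hcr_C Cov.ck_C_4_3_1

theorem cv_C_4_3_2 : CoverOK famC (Int.ofNat 134217728) (Int.ofNat 939524096) 134217728 (Int.ofNat 671088640) 134217728 :=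
  checkTree_sound hcr_C Cov.ck_C_4_3_2

theorem cv_C_4_3_3 : CoverOK famC (Int.ofNat 134217728) (Int.ofNat 939524096) 134217728 (Int.ofNat 939524096) 134217728 :=
  checkTree_sound hcr_C Cov.ck_C_4_3_3

theorem cv_C_5_0_0 : CoverOK famC (Int.ofNat 402653184) (Int.ofNat 134217728) 134217728 (Int.ofNat 134217728) 134217728 :=
  checkTree_sound hcr_C Cov.ck_C_5_0_0

theorem cv_C_5_0_1 : CoverOK famC (Int.ofNat 402653184) (Int.ofNat 134217728) 134217728 (Int.ofNat 402653184) 134217728 :=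
  checkTree_sound hcr_C Cov.ck_C_5_0_1

theorem cv_C_5_0_2 : CoverOK famC (Int.ofNat 402653184) (Int.ofNat 134217728) 134217728 (Int.ofNat 671088640) 134217728 :=
  checkTree_sound hcr_C Cov.ck_C_5_0_2

theorem cv_C_5_0_3 : CoverOK famC (Int.ofNat 402653184) (Int.ofNat 134217728) 134217728 (Int.ofNat 939524096) 134217728 :=
  checkTree_sound hcr_C Cov.ck_C_5_0_3

theorem cv_C_5_1_0 : CoverOK famC (Int.ofNat 402653184) (Int.ofNat 402653184) 134217728 (Int.ofNat 134217728) 134217728 :=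
  checkTree_sound hcr_C Cov.ck_C_5_1_0

theorem cv_C_5_1_1 : CoverOK famC (Int.ofNat 402653184) (Int.ofNat 402653184) 134217728 (Int.ofNat 402653184) 134217728 :=
  checkTree_sound hcr_C Cov.ck_C_5_1_1

theorem cv_C_5_1_2 : CoverOK famC (Int.ofNat 402653184) (Int.ofNat 402653184) 134217728 (Int.ofNat 671088640) 134217728 :=
  checkTree_sound hcr_C Cov.ck_C_5_1_2

theorem cv_C_5_1_3 : CoverOK famC (Int.ofNat 402653184) (Int.ofNat 402653184) 134217728 (Int.ofNat 939524096) 134217728 :=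
  checkTree_sound hcr_C Cov.ck_C_5_1_3

theorem cv_C_5_2_0 : CoverOK famC (Int.ofNat 402653184) (Int.ofNat 671088640) 134217728 (Int.ofNat 134217728) 134217728 :=
  checkTree_sound hcr_C Cov.ck_C_5_2_0

theorem cv_C_5_2_1 : CoverOK famC (Int.ofNat 402653184) (Int.ofNat 671088640) 134217728 (Int.ofNat 402653184) 134217728 :=
  checkTree_sound hcr_C Cov.ck_C_5_2_1

theorem cv_C_5_2_2 : CoverOK famC (Int.ofNat 402653184) (Int.ofNat 671088640) 134217728 (Int.ofNat 671088640) 134217728 :=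
  checkTree_sound hcr_C Cov.ck_C_5_2_2

theorem cv_C_5_2_3 : CoverOK famC (Int.ofNat 402653184) (Int.ofNat 671088640) 134217728 (Int.ofNat 939524096) 134217728 :=
  checkTree_sound hcr_C Cov.ck_C_5_2_3

theorem cv_C_5_3_0 : CoverOK famC (Int.ofNat 402653184) (Int.ofNat 939524096) 134217728 (Int.ofNat 134217728) 134217728 :=
  checkTree_sound hcr_C Cov.ck_C_5_3_0

theorem cv_C_5_3_1 : CoverOK famC (Int.ofNat 402653184) (Int.ofNat 939524096) 134217728 (Int.ofNat 402653184) 134217728 :=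
  checkTree_sound hcr_C Cov.ck_C_5_3_1

theorem cv_C_5_3_2 : CoverOK famC (Int.ofNat 402653184) (Int.ofNat 939524096) 134217728 (Int.ofNat 671088640) 134217728 :=
  checkTree_sound hcr_C Cov.ck_C_5_3_2

theorem cv_C_5_3_3 : CoverOK famC (Int.ofNat 402653184) (Int.ofNat 939524096) 134217728 (Int.ofNat 939524096) 134217728 :=
  checkTree_sound hcr_C Cov.ck_C_5_3_3

theorem cv_C_6_0_0 : CoverOK famC (Int.ofNat 671088640) (Int.ofNat 134217728) 134217728 (Int.ofNat 134217728) 134217728 :=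
  checkTree_sound hcr_C Cov.ck_C_6_0_0

theorem cv_C_6_0_1 : CoverOK famC (Int.ofNat 671088640) (Int.ofNat 134217728) 134217728 (Int.ofNat 402653184) 134217728 :=
  checkTree_sound hcr_C Cov.ck_C_6_0_1

theorem cv_C_6_0_2 : CoverOK famC (Int.ofNat 671088640) (Int.ofNat 134217728) 134217728 (Int.ofNat 671088640) 134217728 :=
  checkTree_sound hcr_C Cov.ck_C_6_0_2

theorem cv_C_6_0_3 : CoverOK famC (Int.ofNat 671088640) (Int.ofNat 134217728) 134217728 (Int.ofNat 939524096) 134217728 :=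
  checkTree_sound hcr_C Cov.ck_C_6_0_3

theorem cv_C_6_1_0 : CoverOK famC (Int.ofNat 671088640) (Int.ofNat 402653184) 134217728 (Int.ofNat 134217728) 134217728 :=
  checkTree_sound hcr_C Cov.ck_C_6_1_0

theorem cv_C_6_1_1 : CoverOK famC (Int.ofNat 671088640) (Int.ofNat 402653184) 134217728 (Int.ofNat 402653184) 134217728 :=
  checkTree_sound hcr_C Cov.ck_C_6_1_1

theorem cv_C_6_1_2 : CoverOK famC (Int.ofNat 671088640) (Int.ofNat 402653184) 134217728 (Int.ofNat 671088640) 134217728 :=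
  checkTree_sound hcr_C Cov.ck_C_6_1_2

theorem cv_C_6_1_3 : CoverOK famC (Int.ofNat 671088640) (Int.ofNat 402653184) 134217728 (Int.ofNat 939524096) 134217728 :=
  checkTree_sound hcr_C Cov.ck_C_6_1_3

theorem cv_C_6_2_0 : CoverOK famC (Int.ofNat 671088640) (Int.ofNat 671088640) 134217728 (Int.ofNat 134217728) 134217728 :=
  checkTree_sound hcr_C Cov.ck_C_6_2_0

theorem cv_C_6_2_1 : CoverOK famC (Int.ofNat 671088640) (Int.ofNat 671088640) 134217728 (Int.ofNat 402653184) 134217728 :=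
  checkTree_sound hcr_C Cov.ck_C_6_2_1

theorem cv_C_6_2_2 : CoverOK famC (Int.ofNat 671088640) (Int.ofNat 671088640) 134217728 (Int.ofNat 671088640) 134217728 :=
  checkTree_sound hcr_C Cov.ck_C_6_2_2

theorem cv_C_6_2_3 : CoverOK famC (Int.ofNat 671088640) (Int.ofNat 671088640) 134217728 (Int.ofNat 939524096) 134217728 :=
  checkTree_sound hcr_C Cov.ck_C_6_2_3

theorem cv_C_6_3_0 : CoverOK famC (Int.ofNat 671088640) (Int.ofNat 939524096) 134217728 (Int.ofNat 134217728) 134217728 :=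
  checkTree_sound hcr_C Cov.ck_C_6_3_0

theorem cv_C_6_3_1 : CoverOK famC (Int.ofNat 671088640) (Int.ofNat 939524096) 134217728 (Int.ofNat 402653184) 134217728 :=
  checkTree_sound hcr_C Cov.ck_C_6_3_1

theorem cv_C_6_3_2 : CoverOK famC (Int.ofNat 671088640) (Int.ofNat 939524096) 134217728 (Int.ofNat 671088640) 134217728 :=
  checkTree_sound hcr_C Cov.ck_C_6_3_2

theorem cv_C_6_3_3 : CoverOK famC (Int.ofNat 671088640) (Int.ofNat 939524096) 134217728 (Int.ofNat 939524096) 134217728 :=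
  checkTree_sound (T := .triv) hcr_C (by decide +kernel)

theorem cv_C_7_0_0 : CoverOK famC (Int.ofNat 939524096) (Int.ofNat 134217728) 134217728 (Int.ofNat 134217728) 134217728 :=
  checkTree_sound hcr_C Cov.ck_C_7_0_0

theorem cv_C_7_0_1 : CoverOK famC (Int.ofNat 939524096) (Int.ofNat 134217728) 134217728 (Int.ofNat 402653184) 134217728 :=
  checkTree_sound hcr_C Cov.ck_C_7_0_1

theorem cv_C_7_0_2 : CoverOK famC (Int.ofNat 939524096) (Int.ofNat 134217728) 134217728 (Int.ofNat 671088640) 134217728 :=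
  checkTree_sound hcr_C Cov.ck_C_7_0_2

theorem cv_C_7_0_3 : CoverOK famC (Int.ofNat 939524096) (Int.ofNat 134217728) 134217728 (Int.ofNat 939524096) 134217728 :=
  checkTree_sound hcr_C Cov.ck_C_7_0_3

theorem cv_C_7_1_0 : CoverOK famC (Int.ofNat 939524096) (Int.ofNat 402653184) 134217728 (Int.ofNat 134217728) 134217728 :=
  checkTree_sound hcr_C Cov.ck_C_7_1_0

theorem cv_C_7_1_1 : CoverOK famC (Int.ofNat 939524096) (Int.ofNat 402653184) 134217728 (Int.ofNat 402653184) 134217728 :=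
  checkTree_sound hcr_C Cov.ck_C_7_1_1

theorem cv_C_7_1_2 : CoverOK famC (Int.ofNat 939524096) (Int.ofNat 402653184) 134217728 (Int.ofNat 671088640) 134217728 :=
  checkTree_sound hcr_C Cov.ck_C_7_1_2

theorem cv_C_7_1_3 : CoverOK famC (Int.ofNat 939524096) (Int.ofNat 402653184) 134217728 (Int.ofNat 939524096) 134217728 :=
  checkTree_sound hcr_C Cov.ck_C_7_1_3

theorem cv_C_7_2_0 : CoverOK famC (Int.ofNat 939524096) (Int.ofNat 671088640) 134217728 (Int.ofNat 134217728) 134217728 :=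
  checkTree_sound hcr_C Cov.ck_C_7_2_0

theorem cv_C_7_2_1 : CoverOK famC (Int.ofNat 939524096) (Int.ofNat 671088640) 134217728 (Int.ofNat 402653184) 134217728 :=
  checkTree_sound hcr_C Cov.ck_C_7_2_1

theorem cv_C_7_2_2 : CoverOK famC (Int.ofNat 939524096) (Int.ofNat 671088640) 134217728 (Int.ofNat 671088640) 134217728 :=
  checkTree_sound hcr_C Cov.ck_C_7_2_2

theorem cv_C_7_2_3 : CoverOK famC (Int.ofNat 939524096) (Int.ofNat 671088640) 134217728 (Int.ofNat 939524096) 134217728 :=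
  checkTree_sound (T := .triv) hcr_C (by decide +kernel)

theorem cv_C_7_3_0 : CoverOK famC (Int.ofNat 939524096) (Int.ofNat 939524096) 134217728 (Int.ofNat 134217728) 134217728 :=
  checkTree_sound (T := .triv) hcr_C (by decide +kernel)

theorem cv_C_7_3_1 : CoverOK famC (Int.ofNat 939524096) (Int.ofNat 939524096) 134217728 (Int.ofNat 402653184) 134217728 :=
  checkTree_sound (T := .triv) hcr_C (by decide +kernel)

theorem cv_C_7_3_2 : CoverOK famC (Int.ofNat 939524096) (Int.ofNat 939524096) 134217728 (Int.ofNat 671088640) 134217728 :=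
  checkTree_sound (T := .triv) hcr_C (by decide +kernel)

theorem cv_C_7_3_3 : CoverOK famC (Int.ofNat 939524096) (Int.ofNat 939524096) 134217728 (Int.ofNat 939524096) 134217728 :=
  checkTree_sound (T := .triv) hcr_C (by decide +kernel)

theorem tab_C (x y z : ℤ) (hx : -4 ≤ x) (hx' : x < 4) (hy : 0 ≤ y) (hy' : y < 4) (hz : 0 ≤ z)
    (hz' : z < 4) : CoverOK famC ((2 * x + 1) * 2 ^ 27) ((2 * y + 1) * 2 ^ 27) (2 ^ 27)
      ((2 * z + 1) * 2 ^ 27) (2 ^ 27) := by
  interval_cases x <;> interval_cases y <;> interval_cases z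
  · exact cv_C_0_0_0
  · exact cv_C_0_0_1
  · exact cv_C_0_0_2
  · exact cv_C_0_0_3
  · exact cv_C_0_1_0
  · exact cv_C_0_1_1
  · exact cv_C_0_1_2
  · exact cv_C_0_1_3
  · exact cv_C_0_2_0
  · exact cv_C_0_2_1
  · exact cv_C_0_2_2
  · exact cv_C_0_2_3
  · exact cv_C_0_3_0
  · exact cv_C_0_3_1
  · exact cv_C_0_3_2
  · exact cv_C_0_3_3
  · exact cv_C_1_0_0
  · exact cv_C_1_0_1
  · exact cv_C_1_0_2
  · exact cv_C_1_0_3
  · exact cv_C_1_1_0
  · exact cv_C_1_1_1
  · exact cv_C_1_1_2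
  · exact cv_C_1_1_3
  · exact cv_C_1_2_0
  · exact cv_C_1_2_1
  · exact cv_C_1_2_2
  · exact cv_C_1_2_3
  · exact cv_C_1_3_0
  · exact cv_C_1_3_1
  · exact cv_C_1_3_2
  · exact cv_C_1_3_3
  · exact cv_C_2_0_0
  · exact cv_C_2_0_1
  · exact cv_C_2_0_2
  · exact cv_C_2_0_3
  · exact cv_C_2_1_0
  · exact cv_C_2_1_1
  · exact cv_C_2_1_2
  · exact cv_C_2_1_3
  · exact cv_C_2_2_0
  · exact cv_C_2_2_1
  · exact cv_C_2_2_2
  · exact cv_C_2_2_3
  · exact cv_C_2_3_0
  · exact cv_C_2_3_1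
  · exact cv_C_2_3_2
  · exact cv_C_2_3_3
  · exact cv_C_3_0_0
  · exact cv_C_3_0_1
  · exact cv_C_3_0_2
  · exact cv_C_3_0_3
  · exact cv_C_3_1_0
  · exact cv_C_3_1_1
  · exact cv_C_3_1_2
  · exact cv_C_3_1_3
  · exact cv_C_3_2_0
  · exact cv_C_3_2_1
  · exact cv_C_3_2_2
  · exact cv_C_3_2_3
  · exact cv_C_3_3_0
  · exact cv_C_3_3_1
  · exact cv_C_3_3_2
  · exact cv_C_3_3_3
  · exact cv_C_4_0_0
  · exact cv_C_4_0_1
  · exact cv_C_4_0_2
  · exact cv_C_4_0_3
  · exact cv_C_4_1_0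
  · exact cv_C_4_1_1
  · exact cv_C_4_1_2
  · exact cv_C_4_1_3
  · exact cv_C_4_2_0
  · exact cv_C_4_2_1
  · exact cv_C_4_2_2
  · exact cv_C_4_2_3
  · exact cv_C_4_3_0
  · exact cv_C_4_3_1
  · exact cv_C_4_3_2
  · exact cv_C_4_3_3
  · exact cv_C_5_0_0
  · exact cv_C_5_0_1
  · exact cv_C_5_0_2
  · exact cv_C_5_0_3
  · exact cv_C_5_1_0
  · exact cv_C_5_1_1
  · exact cv_C_5_1_2
  · exact cv_C_5_1_3
  · exact cv_C_5_2_0
  · exact cv_C_5_2_1
  · exact cv_C_5_2_2
  · exact cv_C_5_2_3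
  · exact cv_C_5_3_0
  · exact cv_C_5_3_1
  · exact cv_C_5_3_2
  · exact cv_C_5_3_3
  · exact cv_C_6_0_0
  · exact cv_C_6_0_1
  · exact cv_C_6_0_2
  · exact cv_C_6_0_3
  · exact cv_C_6_1_0
  · exact cv_C_6_1_1
  · exact cv_C_6_1_2
  · exact cv_C_6_1_3
  · exact cv_C_6_2_0
  · exact cv_C_6_2_1
  · exact cv_C_6_2_2
  · exact cv_C_6_2_3
  · exact cv_C_6_3_0
  · exact cv_C_6_3_1
  · exact cv_C_6_3_2
  · exact cv_C_6_3_3
  · exact cv_C_7_0_0
  · exact cv_C_7_0_1
  · exact cv_C_7_0_2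
  · exact cv_C_7_0_3
  · exact cv_C_7_1_0
  · exact cv_C_7_1_1
  · exact cv_C_7_1_2
  · exact cv_C_7_1_3
  · exact cv_C_7_2_0
  · exact cv_C_7_2_1
  · exact cv_C_7_2_2
  · exact cv_C_7_2_3
  · exact cv_C_7_3_0
  · exact cv_C_7_3_1
  · exact cv_C_7_3_2
  · exact cv_C_7_3_3

theorem excluded_C : Excluded famC := excluded_of_tab tab_C

end MaxTerm.PB
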