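import Pool.Agent.MaxTerm.PB.Cov.G00
import Pool.Agent.MaxTerm.PB.Cov.G01
import Pool.Agent.MaxTerm.PB.CovBase

/-! Assembly of the cell certificates of `fam3` (generated). -/

namespace MaxTerm.PB

theorem cv_G_4_0_0 : CoverOK fam3 (Int.ofNat 134217728) (Int.ofNat 0) 134217728 (Int.ofNat 134217728) 134217728 :=
  checkTree_sound hcr_G Cov.ck_G_4_0_0

theorem cv_G_4_0_1 : CoverOK fam3 (Int.ofNat 134217728) (Int.ofNat 0) 134217728 (Int.ofNat 402653184) 134217728 :=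
  checkTree_sound hcr_G Cov.ck_G_4_0_1

theorem cv_G_4_0_2 : CoverOK fam3 (Int.ofNat 134217728) (Int.ofNat 0) 134217728 (Int.ofNat 671088640) 134217728 :=
  checkTree_sound hcr_G Cov.ck_G_4_0_2

theorem cv_G_4_0_3 : CoverOK fam3 (Int.ofNat 134217728) (Int.ofNat 0) 134217728 (Int.ofNat 939524096) 134217728 :=
  checkTree_sound hcr_G Cov.ck_G_4_0_3

theorem cv_G_5_0_0 : CoverOK fam3 (Int.ofNat 402653184) (Int.ofNat 0) 134217728 (Int.ofNat 134217728) 134217728 :=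
  checkTree_sound hcr_G Cov.ck_G_5_0_0

theorem cv_G_5_0_1 : CoverOK fam3 (Int.ofNat 402653184) (Int.ofNat 0) 134217728 (Int.ofNat 402653184) 134217728 :=
  checkTree_sound hcr_G Cov.ck_G_5_0_1

theorem cv_G_5_0_2 : CoverOK fam3 (Int.ofNat 402653184) (Int.ofNat 0) 134217728 (Int.ofNat 671088640) 134217728 :=
  checkTree_sound hcr_G Cov.ck_G_5_0_2

theorem cv_G_5_0_3 : CoverOK fam3 (Int.ofNat 402653184) (Int.ofNat 0) 134217728 (Int.ofNat 939524096) 134217728 :=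
  checkTree_sound hcr_G Cov.ck_G_5_0_3

theorem cv_G_6_0_0 : CoverOK fam3 (Int.ofNat 671088640) (Int.ofNat 0) 134217728 (Int.ofNat 134217728) 134217728 :=
  checkTree_sound hcr_G Cov.ck_G_6_0_0

theorem cv_G_6_0_1 : CoverOK fam3 (Int.ofNat 671088640) (Int.ofNat 0) 134217728 (Int.ofNat 402653184) 134217728 :=
  checkTree_sound hcr_G Cov.ck_G_6_0_1

theorem cv_G_6_0_2 : CoverOK fam3 (Int.ofNat 671088640) (Int.ofNat 0) 134217728 (Int.ofNat 671088640) 134217728 :=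
  checkTree_sound hcr_G Cov.ck_G_6_0_2

theorem cv_G_6_0_3 : CoverOK fam3 (Int.ofNat 671088640) (Int.ofNat 0) 134217728 (Int.ofNat 939524096) 134217728 :=
  checkTree_sound hcr_G Cov.ck_G_6_0_3

theorem cv_G_7_0_0 : CoverOK fam3 (Int.ofNat 939524096) (Int.ofNat 0) 134217728 (Int.ofNat 134217728) 134217728 :=
  checkTree_sound hcr_G Cov.ck_G_7_0_0

theorem cv_G_7_0_1 : CoverOK fam3 (Int.ofNat 939524096) (Int.ofNat 0) 134217728 (Int.ofNat 402653184) 134217728 :=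
  checkTree_sound hcr_G Cov.ck_G_7_0_1

theorem cv_G_7_0_2 : CoverOK fam3 (Int.ofNat 939524096) (Int.ofNat 0) 134217728 (Int.ofNat 671088640) 134217728 :=
  checkTree_sound hcr_G Cov.ck_G_7_0_2

theorem cv_G_7_0_3 : CoverOK fam3 (Int.ofNat 939524096) (Int.ofNat 0) 134217728 (Int.ofNat 939524096) 134217728 :=
  checkTree_sound hcr_G Cov.ck_G_7_0_3

theorem tab_G (x z : ℤ) (hx : 0 ≤ x) (hx' : x < 4) (hz : 0 ≤ z)
    (hz' : z < 4) : CoverOK fam3 ((2 * x + 1) * 2 ^ 27) 0 (2 ^ 27)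
      ((2 * z + 1) * 2 ^ 27) (2 ^ 27) := by
  interval_cases x <;> interval_cases z
  · exact cv_G_4_0_0
  · exact cv_G_4_0_1
  · exact cv_G_4_0_2
  · exact cv_G_4_0_3
  · exact cv_G_5_0_0
  · exact cv_G_5_0_1
  · exact cv_G_5_0_2
  · exact cv_G_5_0_3
  · exact cv_G_6_0_0
  · exact cv_G_6_0_1
  · exact cv_G_6_0_2
  · exact cv_G_6_0_3
  · exact cv_G_7_0_0
  · exact cv_G_7_0_1
  · exact cv_G_7_0_2
  · exact cv_G_7_0_3

theorem excluded_G (u t K2 : ℝ) (hu : 0 ≤ u) (I : Inst fam3 K2 (u : ℂ) t) : 2.92127 < K2 :=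
  excludedR_of_tab tab_G u t K2 hu I

end MaxTerm.PB
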