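import Pool.Agent.MaxTerm.PB.CoverA
import Pool.Agent.MaxTerm.PB.CoverC
import Pool.Agent.MaxTerm.PB.CoverD
import Pool.Agent.MaxTerm.PB.CoverE
import Pool.Agent.MaxTerm.PB.CoverG

/-!
# Part B: if `K² ≤ 2.92127`, the gaps are eventually constant or strictly increasing
-/

namespace MaxTerm.PB

/-- Part B, up to strictly increasing gaps (`hstrict`, see `Inc*.lean`). -/
theorem mismatch_of_strict
    (hstrict : ∀ {K : ℝ} (C : Chain K), K ^ 2 ≤ 2.92127 → ¬ ∃ J, ∀ j ≥ J, C.k j < C.k (j + 1))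
    {K : ℝ} (C : Chain K) (hK : K ^ 2 ≤ 2.92127) : ∃ J k, ∀ j ≥ J, C.k j = k :=
  mismatch_of excluded_A excluded_C excluded_D excluded_E excluded_G hstrict C hK

end MaxTerm.PB
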