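import Pool.Agent.MaxTerm.PB.NormIIS

/-!
# Normalisation, case (i): gaps `(k, k, b)`, `b < k`

`u = σ^k = c(-k)`, `D = ‖τ‖^k = t^m`, `F_n = c(k - n k)`, `G_n = λ c(k + b - n k)` with `|λ| ≤ 1`
chosen so that `G_0 = t^l` (possible since `‖τ‖^b = D^(b/k) ≥ t^l`, as `m b ≤ l k`).
Section 3 of the note.
-/

open Filter Topology ComplexConjugate

namespace MaxTerm.PB

namespace NI

theorem S_rot (F : ℤ → ℂ) (l ω ζ : ℂ) :
    S (fun n => l * (F n * ω ^ n)) ζ = l * S F (ω * ζ) := N3.S_rot F l ω ζ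

theorem S_rot' (F : ℤ → ℂ) (ω ζ : ℂ) :
    S (fun n => F n * ω ^ n) ζ = S F (ω * ζ) := by
  have := S_rot F 1 ω ζ
  simpa using this

end NI

/-- `PW` is invariant under rotation, and under multiplication of the second class by a constant of
modulus at most one. -/
theorem PW.rotate {γ K2 : ℝ} {F G : ℤ → ℂ} (h : PW γ K2 F G) {ω l : ℂ} (hω : ‖ω‖ = 1) (hl : ‖l‖ ≤ 1)
    (hγ : 0 ≤ γ) :
    PW γ K2 (fun n => F n * ω ^ n) (fun n => l * (G n * ω ^ n)) := by
  intro ζ χ hζ hχ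
  rw [NI.S_rot', NI.S_rot]
  have h1 : ‖ω * ζ‖ = 1 := by rw [norm_mul, hω, hζ, one_mul]
  have hl2 : ‖l‖ ^ 2 ≤ 1 := pow_le_one₀ (norm_nonneg l) hl
  have h2 : ‖l * χ‖ ^ 2 ≤ ‖χ‖ ^ 2 := by
    rw [norm_mul, mul_pow]
    exact mul_le_of_le_one_left (by positivity) hl2
  have h3 : γ * ‖l * χ‖ ^ 2 ≤ γ * ‖χ‖ ^ 2 := mul_le_mul_of_nonneg_left h2 hγ
  have h4 := h (ω * ζ) (l * χ) h1 (h3.trans hχ)
  have h5 : χ * (l * S G (ω * ζ)) * conj (S F (ω * ζ)) =
      l * χ * S G (ω * ζ) * conj (S F (ω * ζ)) := by ring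
  rw [h5]
  refine le_trans ?_ h4
  have h6 : ‖l * S G (ω * ζ)‖ ^ 2 ≤ ‖S G (ω * ζ)‖ ^ 2 := by
    rw [norm_mul, mul_pow]
    exact mul_le_of_le_one_left (by positivity) hl2
  have h7 : (1 - γ * ‖χ‖ ^ 2) * (‖S F (ω * ζ)‖ ^ 2 + ‖l * S G (ω * ζ)‖ ^ 2) ≤
      (1 - γ * ‖l * χ‖ ^ 2) * (‖S F (ω * ζ)‖ ^ 2 + ‖S G (ω * ζ)‖ ^ 2) := by
    refine mul_le_mul (by linarith) (by linarith) (by positivity) (by linarith)
  linarith

namespace NI

open N3

/-- the classes in the middle window. -/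
noncomputable def base (c : ℤ → ℂ) (k b : ℕ) (l0 : ℂ) : ℕ → ℤ → ℂ
  | 0 => fun n => c ((k : ℤ) - n * k)
  | 1 => fun n => l0 * c ((k : ℤ) + b - n * k)
  | _ => fun _ => 0

theorem ea1 (g xmax m l : ℕ) (side : Bool) (i : ℕ) :
    ((fam1 g xmax m l).ea side 1 0 i : ℤ) = (fam1 g xmax m l).ea side 0 0 i +
      (fun n : ℤ => 1 - n) (idx 0 side i) ∧
    ((fam1 g xmax m l).ea side 1 1 i : ℤ) = (fam1 g xmax m l).ea side 0 1 i +
      (fun n : ℤ => 2 - n) (idx 1 side i) := by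
  cases side
  · have a1 : (fam1 g xmax m l).ea false 1 0 i = i + 1 := rfl
    have a2 : (fam1 g xmax m l).ea false 0 0 i = 0 := rfl
    have a3 : (fam1 g xmax m l).ea false 1 1 i = i + 2 := rfl
    have a4 : (fam1 g xmax m l).ea false 0 1 i = 0 := rfl
    rw [a1, a2, a3, a4]
    simp only [idx, split, Bool.false_eq_true, if_false]
    push_cast
    refine ⟨by ring, by ring⟩
  · have a1 : (fam1 g xmax m l).ea true 1 0 i = 0 := rfl
    have a2 : (fam1 g xmax m l).ea true 0 0 i = i := rfl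
    have a3 : (fam1 g xmax m l).ea true 1 1 i = 1 - i := rfl
    have a4 : (fam1 g xmax m l).ea true 0 1 i = i - 1 := rfl
    rw [a1, a2, a3, a4]
    simp only [idx, split, if_true]
    refine ⟨by push_cast; ring, by omega⟩

theorem ea2 (g xmax m l : ℕ) (side : Bool) (i : ℕ) :
    ((fam1 g xmax m l).ea side 2 0 i : ℤ) = (fam1 g xmax m l).ea side 0 0 i +
      (fun _ : ℤ => (0 : ℤ)) (idx 0 side i) ∧
    ((fam1 g xmax m l).ea side 2 1 i : ℤ) = (fam1 g xmax m l).ea side 0 1 i +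
      (fun _ : ℤ => (0 : ℤ)) (idx 1 side i) := by
  cases side
  · have a1 : (fam1 g xmax m l).ea false 2 0 i = 0 := rfl
    have a2 : (fam1 g xmax m l).ea false 0 0 i = 0 := rfl
    have a3 : (fam1 g xmax m l).ea false 2 1 i = 0 := rfl
    have a4 : (fam1 g xmax m l).ea false 0 1 i = 0 := rfl
    rw [a1, a2, a3, a4]
    simp
  · have a1 : (fam1 g xmax m l).ea true 2 0 i = i := rfl
    have a2 : (fam1 g xmax m l).ea true 0 0 i = i := rfl
    have a3 : (fam1 g xmax m l).ea true 2 1 i = i - 1 := rfl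
    have a4 : (fam1 g xmax m l).ea true 0 1 i = i - 1 := rfl
    rw [a1, a2, a3, a4]
    simp

theorem eb1 (g xmax m l : ℕ) (side : Bool) (i : ℕ) :
    ((fam1 g xmax m l).eb side 1 0 i : ℤ) = (fam1 g xmax m l).eb side 0 0 i +
      (fun _ : ℤ => (0 : ℤ)) (idx 0 side i) ∧
    ((fam1 g xmax m l).eb side 1 1 i : ℤ) = (fam1 g xmax m l).eb side 0 1 i +
      (fun _ : ℤ => (0 : ℤ)) (idx 1 side i) := by
  cases side
  · have a1 : (fam1 g xmax m l).eb false 1 0 i = m * i := rfl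
    have a2 : (fam1 g xmax m l).eb false 0 0 i = m * i := rfl
    have a3 : (fam1 g xmax m l).eb false 1 1 i = l + m * i := rfl
    have a4 : (fam1 g xmax m l).eb false 0 1 i = l + m * i := rfl
    rw [a1, a2, a3, a4]
    simp
  · have a1 : (fam1 g xmax m l).eb true 1 0 i = 0 := rfl
    have a2 : (fam1 g xmax m l).eb true 0 0 i = 0 := rfl
    have a3 : (fam1 g xmax m l).eb true 1 1 i = 0 := rfl
    have a4 : (fam1 g xmax m l).eb true 0 1 i = 0 := rfl
    rw [a1, a2, a3, a4]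
    simp

theorem eb2 (g xmax : ℕ) {m l : ℕ} (hlm : l ≤ m) (side : Bool) (i : ℕ) :
    ((fam1 g xmax m l).eb side 2 0 i : ℤ) = (fam1 g xmax m l).eb side 0 0 i +
      (fun n : ℤ => m * n) (idx 0 side i) ∧
    ((fam1 g xmax m l).eb side 2 1 i : ℤ) = (fam1 g xmax m l).eb side 0 1 i +
      (fun n : ℤ => m * n - l) (idx 1 side i) := by
  cases side
  · have a1 : (fam1 g xmax m l).eb false 2 0 i = 0 := rfl
    have a2 : (fam1 g xmax m l).eb false 0 0 i = m * i := rfl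
    have a3 : (fam1 g xmax m l).eb false 2 1 i = 0 := rfl
    have a4 : (fam1 g xmax m l).eb false 0 1 i = l + m * i := rfl
    rw [a1, a2, a3, a4]
    simp only [idx, split, Bool.false_eq_true, if_false]
    push_cast
    refine ⟨by ring, by ring⟩
  · have a1 : (fam1 g xmax m l).eb true 2 0 i = m * (i + 1) := rfl
    have a2 : (fam1 g xmax m l).eb true 0 0 i = 0 := rfl
    have a3 : (fam1 g xmax m l).eb true 2 1 i = m * (i + 1) - l := rfl
    have a4 : (fam1 g xmax m l).eb true 0 1 i = 0 := rfl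
    rw [a1, a2, a3, a4]
    simp only [idx, split, if_true]
    have h1 : l ≤ m * (i + 1) := by nlinarith
    refine ⟨by push_cast; ring, ?_⟩
    rw [Nat.cast_sub h1]
    push_cast
    ring

/-- the configuration, given the window inequality. -/
theorem inst_core {K : ℝ} {k b : ℕ} (T : Triple K k k b) (hb : b < k) {m l g xmax : ℕ}
    (hm : 1 ≤ m) (hl : 1 ≤ l) (hlm : l ≤ m) (hmb : m * b ≤ l * k)
    (hwi : ∀ W : ℤ → ℂ, Bdd K W → ∀ ω l0 : ℂ, ‖ω‖ = 1 → ‖l0‖ ≤ 1 →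
      WI ((g : ℝ) / 128) ((xmax : ℝ) / 1024) (K ^ 2) false
        (fun n => W ((k : ℤ) - n * k) * ω ^ n) (fun n => l0 * (W ((k : ℤ) + b - n * k) * ω ^ n))
        (fun _ => 0)) :
    ∃ t : ℝ, Nonempty (Inst (fam1 g xmax m l) (K ^ 2) (T.σ ^ k) t) := by
  have hk := T.k_pos
  have hb0 := T.b_pos
  have hσ := T.σ_ne
  have hτ := T.τ_ne
  have hσ0 : 0 < ‖T.σ‖ := norm_pos_iff.2 hσ
  have hτ0 : 0 < ‖T.τ‖ := norm_pos_iff.2 hτ
  have hσ1 : ‖T.σ‖ ≤ 1 := T.σ_lt.le
  have hτ1 : ‖T.τ‖ ≤ 1 := T.τ_lt.le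
  obtain ⟨u, hu⟩ : ∃ u : ℂ, u = T.σ ^ k := ⟨_, rfl⟩
  rw [← hu]
  have hu0 : u ≠ 0 := by rw [hu]; exact pow_ne_zero _ hσ
  have nu : ‖u‖ ≤ 1 := by rw [hu, norm_pow]; exact pow_le_one₀ hσ0.le hσ1
  -- `t`
  obtain ⟨t, ht0, htm⟩ : ∃ t : ℝ, 0 < t ∧ t ^ m = ‖T.τ‖ ^ k := by
    refine ⟨(‖T.τ‖ ^ k) ^ ((m : ℝ)⁻¹), Real.rpow_pos_of_pos (by positivity) _, ?_⟩
    exact Real.rpow_inv_natCast_pow (by positivity) (by omega)
  have ht1 : t ≤ 1 := by
    rw [← pow_le_one_iff_of_nonneg ht0.le (by omega : m ≠ 0), htm]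
    exact pow_le_one₀ hτ0.le hτ1
  have htl : t ^ l ≤ ‖T.τ‖ ^ b := by
    rw [← pow_le_pow_iff_left₀ (by positivity) (by positivity) (by omega : m ≠ 0), ← pow_mul,
      mul_comm l m, pow_mul, htm, ← pow_mul, ← pow_mul]
    exact pow_le_pow_of_le_one hτ0.le hτ1 (by rw [mul_comm b m, mul_comm k l]; exact hmb)
  refine ⟨t, ?_⟩
  have htC : (t : ℂ) ≠ 0 := by exact_mod_cast ht0.ne'
  have hnt : ‖(t : ℂ)‖ = t := by rw [Complex.norm_real, Real.norm_of_nonneg ht0.le]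
  -- the phase
  obtain ⟨ν, hν⟩ : ∃ ν : ℂ, T.τ ^ k = (t : ℂ) ^ m * ν :=
    ⟨T.τ ^ k / (t : ℂ) ^ m, by field_simp⟩
  have nν : ‖ν‖ = 1 := by
    have h1 := congrArg norm hν
    rw [norm_pow, norm_mul, norm_pow, hnt, htm] at h1
    have h2 : ‖T.τ‖ ^ k * 1 = ‖T.τ‖ ^ k * ‖ν‖ := by rw [mul_one]; exact h1
    exact (mul_left_cancel₀ (by positivity) h2).symm
  have hν0 : ν ≠ 0 := norm_pos_iff.1 (by rw [nν]; exact one_pos)
  have nν' : ‖ν⁻¹‖ = 1 := by rw [norm_inv, nν, inv_one]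
  have hσz : ∀ n : ℤ, T.σ ^ ((k : ℤ) * n) = u ^ n := by
    intro n
    rw [zpow_mul, zpow_natCast, ← hu]
  have hτz : ∀ n : ℤ, T.τ ^ ((k : ℤ) * n) = (t : ℂ) ^ ((m : ℤ) * n) * ν ^ n := by
    intro n
    rw [zpow_mul, zpow_natCast, hν, mul_zpow, zpow_mul, zpow_natCast]
  -- the constant
  obtain ⟨l0, hl0⟩ : ∃ l0 : ℂ, l0 = (t : ℂ) ^ l / T.τ ^ b := ⟨_, rfl⟩
  have nl0 : ‖l0‖ ≤ 1 := by
    rw [hl0, norm_div, norm_pow, norm_pow, hnt, div_le_one (by positivity)]
    exact htl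
  have nl1 : ‖l0 * (u / T.σ ^ b)‖ ≤ 1 := by
    rw [norm_mul, norm_div, hu, norm_pow, norm_pow]
    refine mul_le_one₀ nl0 (by positivity) ?_
    rw [div_le_one (by positivity)]
    exact pow_le_pow_of_le_one hσ0.le hσ1 hb.le
  obtain ⟨X, hX⟩ : ∃ X : ℕ → Bool → ℕ → ℂ,
    X = Xof (fam1 g xmax m l) u t (base T.c k b l0) := ⟨_, rfl⟩
  have b0 : ∀ n, base T.c k b l0 0 n = T.c ((k : ℤ) - n * k) := fun n => rfl
  have b1 : ∀ n, base T.c k b l0 1 n = l0 * T.c ((k : ℤ) + b - n * k) := fun n => rfl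
  have X2 : ∀ cls side i, X (cls + 2) side i = 0 := by
    intro cls side i
    rw [hX, Xof]
    have : base T.c k b l0 (cls + 2) (idx (cls + 2) side i) = 0 := rfl
    rw [this, zero_div]
  have q2 : ∀ w, (fam1 g xmax m l).seq u t X w 2 = fun _ => 0 := by
    intro w
    funext n
    unfold Fam.seq sq
    have h2 : ∀ side i, X 2 side i = 0 := fun side i => X2 0 side i
    split_ifs
    · simp only [h2, mul_zero]
    · simp only [h2, mul_zero]
  -- window 0
  have q00 : ∀ n, (fam1 g xmax m l).seq u t X 0 0 n = T.c ((k : ℤ) - n * k) * 1 ^ n := by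
    intro n
    rw [hX, seq_eq _ hu0 htC _ 0 0 (fun _ => 0) (fun _ => 0) (by simp) (by simp) n]
    simp [base]
  have q01 : ∀ n, (fam1 g xmax m l).seq u t X 0 1 n =
      l0 * (T.c ((k : ℤ) + b - n * k) * 1 ^ n) := by
    intro n
    rw [hX, seq_eq _ hu0 htC _ 0 1 (fun _ => 0) (fun _ => 0) (by simp) (by simp) n]
    simp [base]
  -- window 1
  have q10 : ∀ n, (fam1 g xmax m l).seq u t X 1 0 n =
      (T.c ((k : ℤ) - n * k) * T.σ ^ ((k : ℤ) - n * k)) * 1 ^ n := by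
    intro n
    rw [hX, seq_eq _ hu0 htC _ 1 0 (fun n => 1 - n) (fun _ => 0)
      (fun s i => (ea1 g xmax m l s i).1) (fun s i => (eb1 g xmax m l s i).1) n]
    have e1 : (k : ℤ) - n * k = k * (1 - n) := by ring
    rw [b0, e1, hσz, one_zpow, zpow_zero, mul_one, mul_one]
  have q11 : ∀ n, (fam1 g xmax m l).seq u t X 1 1 n = (l0 * (u / T.σ ^ b)) *
      ((T.c ((k : ℤ) + b - n * k) * T.σ ^ ((k : ℤ) + b - n * k)) * 1 ^ n) := by
    intro n
    rw [hX, seq_eq _ hu0 htC _ 1 1 (fun n => 2 - n) (fun _ => 0)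
      (fun s i => (ea1 g xmax m l s i).2) (fun s i => (eb1 g xmax m l s i).2) n]
    have e1 : (k : ℤ) + b - n * k = k * (1 - n) + b := by ring
    have e2 : T.σ ^ ((k : ℤ) * (1 - n) + b) = u ^ (1 - n) * T.σ ^ b := by
      rw [zpow_add₀ hσ, hσz, zpow_natCast]
    have e3 : u ^ (2 - n) = u ^ (1 - n) * u := by
      rw [show 2 - n = (1 - n) + 1 by ring, zpow_add₀ hu0, zpow_one]
    simp only [b1, e1, e2, e3, one_zpow, zpow_zero, mul_one]
    field_simp
  -- window 2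
  have q20 : ∀ n, (fam1 g xmax m l).seq u t X 2 0 n =
      (T.c ((k : ℤ) - n * k) * T.τ ^ ((k : ℤ) - ((k : ℤ) - n * k))) * ν⁻¹ ^ n := by
    intro n
    rw [hX, seq_eq _ hu0 htC _ 2 0 (fun _ => 0) (fun n => m * n)
      (fun s i => (ea2 g xmax m l s i).1) (fun s i => (eb2 g xmax hlm s i).1) n]
    have e1 : (k : ℤ) - ((k : ℤ) - n * k) = k * n := by ring
    rw [b0, e1, hτz, inv_zpow]
    have := zpow_ne_zero n hν0
    simp only [zpow_zero]
    field_simp
  have q21 : ∀ n, (fam1 g xmax m l).seq u t X 2 1 n = 1 *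
      ((T.c ((k : ℤ) + b - n * k) * T.τ ^ ((k : ℤ) - ((k : ℤ) + b - n * k))) * ν⁻¹ ^ n) := by
    intro n
    rw [hX, seq_eq _ hu0 htC _ 2 1 (fun _ => 0) (fun n => m * n - l)
      (fun s i => (ea2 g xmax m l s i).2) (fun s i => (eb2 g xmax hlm s i).2) n]
    have e1 : (k : ℤ) - ((k : ℤ) + b - n * k) = k * n - b := by ring
    have e2 : T.τ ^ ((k : ℤ) * n - b) = (t : ℂ) ^ ((m : ℤ) * n) * ν ^ n / T.τ ^ b := by
      rw [zpow_sub₀ hτ, hτz, zpow_natCast]
    have e3 : (t : ℂ) ^ ((m : ℤ) * n - l) = (t : ℂ) ^ ((m : ℤ) * n) / (t : ℂ) ^ l := by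
      rw [zpow_sub₀ htC, zpow_natCast]
    rw [b1, e1, e2, inv_zpow, hl0]
    have := zpow_ne_zero n hν0
    simp only [zpow_zero]
    rw [e3]
    field_simp
  -- bounds of the coefficients
  have B : ∀ {W : ℤ → ℂ} (hW : Bdd K W) {ω : ℂ} (hω : ‖ω‖ = 1) (j n : ℤ),
      ‖W j * ω ^ n‖ ≤ 1 := by
    intro W hW ω hω j n
    rw [norm_mul, norm_zpow, hω, one_zpow, mul_one]
    exact hW.norm_le j
  have B' : ∀ {W : ℤ → ℂ} (hW : Bdd K W) {ω p : ℂ} (hω : ‖ω‖ = 1) (hp : ‖p‖ ≤ 1) (j n : ℤ),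
      ‖p * (W j * ω ^ n)‖ ≤ 1 := by
    intro W hW ω p hω hp j n
    rw [norm_mul]
    exact mul_le_one₀ hp (norm_nonneg _) (B hW hω j n)
  have sqT : ∀ (w cls : ℕ) (i : ℕ), (fam1 g xmax m l).seq u t X w cls (split cls + i) =
      u ^ ((fam1 g xmax m l).ea true w cls i) * (t : ℂ) ^ ((fam1 g xmax m l).eb true w cls i) *
        X cls true i := by
    intro w cls i
    unfold Fam.seq sq
    rw [if_pos (by omega)]
    have : (split cls + (i : ℤ) - split cls).toNat = i := by omega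
    rw [this]
  have sqF : ∀ (w cls : ℕ) (i : ℕ), (fam1 g xmax m l).seq u t X w cls (split cls - 1 - i) =
      u ^ ((fam1 g xmax m l).ea false w cls i) * (t : ℂ) ^ ((fam1 g xmax m l).eb false w cls i) *
        X cls false i := by
    intro w cls i
    unfold Fam.seq sq
    rw [if_neg (by omega)]
    have : (split cls - 1 - (split cls - 1 - (i : ℤ))).toNat = i := by omega
    rw [this]
  have XT0 : ∀ i, ‖X 0 true i‖ ≤ 1 := by
    intro i
    have h1 := sqT 1 0 i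
    have a1 : (fam1 g xmax m l).ea true 1 0 i = 0 := rfl
    have a2 : (fam1 g xmax m l).eb true 1 0 i = 0 := rfl
    rw [a1, a2, pow_zero, pow_zero, one_mul, one_mul, q10] at h1
    rw [← h1]
    exact B T.left norm_one _ _
  have XF0 : ∀ i, ‖X 0 false i‖ ≤ 1 := by
    intro i
    have h1 := sqF 2 0 i
    have a1 : (fam1 g xmax m l).ea false 2 0 i = 0 := rfl
    have a2 : (fam1 g xmax m l).eb false 2 0 i = 0 := rfl
    rw [a1, a2, pow_zero, pow_zero, one_mul, one_mul, q20] at h1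
    rw [← h1]
    exact B T.right nν' _ _
  have XT1 : ∀ i, ‖X 1 true i‖ ≤ 1 := by
    intro i
    rcases i with _ | i
    · have h1 := sqT 0 1 0
      have a1 : (fam1 g xmax m l).ea true 0 1 0 = 0 := rfl
      have a2 : (fam1 g xmax m l).eb true 0 1 0 = 0 := rfl
      rw [a1, a2, pow_zero, pow_zero, one_mul, one_mul, q01] at h1
      rw [← h1]
      exact B' T.mid norm_one nl0 _ _
    · have h1 := sqT 1 1 (i + 1)
      have a1 : (fam1 g xmax m l).ea true 1 1 (i + 1) = 1 - (i + 1) := rfl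
      have a2 : (fam1 g xmax m l).eb true 1 1 (i + 1) = 0 := rfl
      have a3 : 1 - (i + 1) = 0 := by omega
      rw [a1, a2, a3, pow_zero, pow_zero, one_mul, one_mul, q11] at h1
      rw [← h1]
      exact B' T.left norm_one nl1 _ _
  have XF1 : ∀ i, ‖X 1 false i‖ ≤ 1 := by
    intro i
    have h1 := sqF 2 1 i
    have a1 : (fam1 g xmax m l).ea false 2 1 i = 0 := rfl
    have a2 : (fam1 g xmax m l).eb false 2 1 i = 0 := rfl
    rw [a1, a2, pow_zero, pow_zero, one_mul, one_mul, q21] at h1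
    rw [← h1]
    exact B' T.right nν' norm_one.le _ _
  -- vertices
  have cneg : T.c (-(k : ℤ)) = u := by
    have h1 := T.left_vertex
    rw [zpow_neg, zpow_natCast, ← hu] at h1
    exact (mul_inv_eq_one₀ hu0).1 h1
  have cb : T.c ((k : ℤ) + b) = T.τ ^ b := by
    have h1 := T.right_vertex
    rw [zpow_neg, zpow_natCast] at h1
    exact (mul_inv_eq_one₀ (pow_ne_zero _ hτ)).1 h1
  -- known coefficients
  have K0T0 : X 0 true 0 = 1 := by
    have h1 := sqT 0 0 0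
    have a1 : (fam1 g xmax m l).ea true 0 0 0 = 0 := rfl
    have a2 : (fam1 g xmax m l).eb true 0 0 0 = 0 := rfl
    rw [a1, a2, pow_zero, pow_zero, one_mul, one_mul, q00] at h1
    rw [← h1]
    have e : (k : ℤ) - (split 0 + ((0 : ℕ) : ℤ)) * k = 0 := by
      simp [split]
    rw [e, T.c_zero]
    simp
  have K0T1 : X 0 true 1 = 1 := by
    have h1 := sqT 0 0 1
    have a1 : (fam1 g xmax m l).ea true 0 0 1 = 1 := rfl
    have a2 : (fam1 g xmax m l).eb true 0 0 1 = 0 := rfl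
    rw [a1, a2, pow_zero, pow_one, mul_one, q00] at h1
    have e : (k : ℤ) - (split 0 + ((1 : ℕ) : ℤ)) * k = -(k : ℤ) := by
      simp [split]; ring
    rw [e, cneg, one_zpow] at h1
    exact mul_left_cancel₀ hu0 h1.symm
  have K0F : X 0 false 0 = 1 := by
    have h1 := sqF 0 0 0
    have a1 : (fam1 g xmax m l).ea false 0 0 0 = 0 := rfl
    have a2 : (fam1 g xmax m l).eb false 0 0 0 = 0 := rfl
    rw [a1, a2, pow_zero, pow_zero, one_mul, one_mul, q00] at h1
    rw [← h1]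
    have e : (k : ℤ) - (split 0 - 1 - ((0 : ℕ) : ℤ)) * k = k := by
      simp [split]
    rw [e, T.c_edge]
    simp
  have K1F : X 1 false 0 = 1 := by
    have h1 := sqF 2 1 0
    have a1 : (fam1 g xmax m l).ea false 2 1 0 = 0 := rfl
    have a2 : (fam1 g xmax m l).eb false 2 1 0 = 0 := rfl
    rw [a1, a2, pow_zero, pow_zero, one_mul, one_mul, q21] at h1
    rw [← h1]
    have e0 : split 1 - 1 - ((0 : ℕ) : ℤ) = 0 := by simp [split]
    rw [e0]
    have e : (k : ℤ) + b - 0 * k = k + b := by ring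
    have e' : (k : ℤ) - ((k : ℤ) + b) = -(b : ℤ) := by ring
    rw [e, e', T.right_vertex]
    simp
  refine ⟨⟨X, nu, ht0.le, ht1, ?_, ?_, ?_, ?_, ?_, ?_⟩⟩
  · intro h
    exact absurd h (by simp [fam1])
  · intro cls side i
    rcases cls with _ | _ | cls
    · cases side
      · exact XF0 i
      · exact XT0 i
    · cases side
      · exact XF1 i
      · exact XT1 i
    · rw [X2]
      simp
  · intro cls i hi
    rcases cls with _ | cls
    · have h0 : (fam1 g xmax m l).kL 0 = 2 := rfl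
      rw [h0] at hi
      interval_cases i
      · exact K0T0
      · exact K0T1
    · have h0 : (fam1 g xmax m l).kL (cls + 1) = 0 := rfl
      rw [h0] at hi
      exact absurd hi (Nat.not_lt_zero _)
  · intro cls i hi
    rcases cls with _ | _ | cls
    · have h0 : (fam1 g xmax m l).kR 0 = 1 := rfl
      have hi' : i = 0 := by
        rw [h0] at hi
        omega
      rw [hi']
      exact K0F
    · have h0 : (fam1 g xmax m l).kR (0 + 1) = 1 := rfl
      have hi' : i = 0 := by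
        rw [h0] at hi
        omega
      rw [hi']
      exact K1F
    · have h0 : (fam1 g xmax m l).kR (cls + 1 + 1) = 0 := rfl
      rw [h0] at hi
      exact absurd hi (Nat.not_lt_zero _)
  · intro w hw
    change WI ((g : ℝ) / 128) ((xmax : ℝ) / 1024) (K ^ 2) false _ _ _
    rw [q2]
    interval_cases w
    · rw [funext q00, funext q01]
      exact hwi _ T.mid _ _ norm_one nl0
    · rw [funext q10, funext q11]
      exact hwi _ T.left _ _ norm_one nl1
    · rw [funext q20, funext q21]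
      exact hwi _ T.right _ _ nν' norm_one.le
  · intro q hq
    have htri : (fam1 g xmax m l).tri = [(1, 0), (0, 2 * m), (1, 2 * l)] := rfl
    rw [htri] at hq
    simp only [List.mem_cons, List.not_mem_nil, or_false] at hq
    rcases hq with rfl | rfl | rfl
    · have h1 := bessel_bdd T.mid {-(k : ℤ), 0, (k : ℤ)}
      rw [Finset.sum_insert (by simp; omega), Finset.sum_pair (by omega), T.c_zero, T.c_edge,
        cneg] at h1
      simp only [norm_one, one_pow] at h1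
      simp only [triVal]
      norm_num
      linarith
    · have h1 := bessel_bdd T.mid {0, (k : ℤ), (k : ℤ) + b}
      rw [Finset.sum_insert (by simp; omega), Finset.sum_pair (by omega), T.c_zero, T.c_edge,
        cb, norm_pow] at h1
      simp only [norm_one, one_pow] at h1
      have h3 : t ^ (2 * m) ≤ (‖T.τ‖ ^ b) ^ 2 := by
        rw [mul_comm, pow_mul, htm]
        exact pow_le_pow_left₀ (by positivity) (pow_le_pow_of_le_one hτ0.le hτ1 hb.le) 2
      simp only [triVal]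
      rw [if_pos trivial, if_neg (by omega)]
      linarith
    · have h1 := bessel_bdd T.mid {-(k : ℤ), 0, (k : ℤ), (k : ℤ) + b}
      rw [Finset.sum_insert (by simp; omega), Finset.sum_insert (by simp; omega),
        Finset.sum_pair (by omega), T.c_zero, T.c_edge, cneg,
        cb, norm_pow] at h1
      simp only [norm_one, one_pow] at h1
      have h3 : t ^ (2 * l) ≤ (‖T.τ‖ ^ b) ^ 2 := by
        rw [mul_comm, pow_mul]
        exact pow_le_pow_left₀ (by positivity) htl 2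
      simp only [triVal]
      rw [if_neg (by omega), if_neg (by omega)]
      norm_num
      linarith

theorem ndvd {k b : ℕ} (hb0 : 0 < b) (hb : b < k) : ∀ r ∈ ({(k : ℤ), (k : ℤ) + b} : Finset ℤ),
    ∀ s ∈ ({(k : ℤ), (k : ℤ) + b} : Finset ℤ), (k : ℤ) ∣ r - s → r = s := by
  intro r hr s hs hd
  simp only [Finset.mem_insert, Finset.mem_singleton] at hr hs
  have hnd : ¬ (k : ℤ) ∣ (b : ℤ) := by
    intro hd
    have := Int.le_of_dvd (by exact_mod_cast hb0) hd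
    omega
  rcases hr with rfl | rfl <;> rcases hs with rfl | rfl
  · rfl
  · exfalso
    apply hnd
    have h2 : (k : ℤ) - (k + b) = -(b : ℤ) := by ring
    rw [h2] at hd
    exact (dvd_neg.1 hd)
  · exfalso
    apply hnd
    have h2 : (k : ℤ) + b - k = (b : ℤ) := by ring
    rwa [h2] at hd
  · rfl

end NI

open NI N3

/-- **T3a.** -/
theorem inst_I {K : ℝ} {k b : ℕ} (T : Triple K k k b) (hb : b < k) {m l g xmax : ℕ}
    (hm : 1 ≤ m) (hl : 1 ≤ l) (hlm : l ≤ m) (hmb : m * b ≤ l * k)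
    (hx : (xmax : ℝ) / 1024 ≤ 1 - (g : ℝ) / 128 * ((xmax : ℝ) / 1024) ^ 2)
    (hPW : ∀ W : ℤ → ℂ, Bdd K W → PW ((g : ℝ) / 128) (K ^ 2)
      (fun n => W ((k : ℤ) - n * k)) (fun n => W ((k : ℤ) + b - n * k))) :
    ∃ t : ℝ, Nonempty (Inst (fam1 g xmax m l) (K ^ 2) (T.σ ^ k) t) := by
  refine inst_core T hb hm hl hlm hmb fun W hW ω l0 hω hl0 => ?_
  refine wi_of_pw (by positivity) (by positivity) hx ?_ ?_
    ((hPW W hW).rotate hω hl0 (by positivity))
  · have := cls_summable hW T.k_pos (k : ℤ) hω 1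
    refine this.congr fun n => ?_
    rw [one_mul]
  · exact cls_summable hW T.k_pos ((k : ℤ) + b) hω l0

/-- **T3a'.** Euclidean version (`χ = 0`, `b` not a multiple of `k`). -/
theorem inst_I_euclid {K : ℝ} {k b : ℕ} (T : Triple K k k b) (hb : b < k) {m l g : ℕ}
    (hm : 1 ≤ m) (hl : 1 ≤ l) (hlm : l ≤ m) (hmb : m * b ≤ l * k) :
    ∃ t : ℝ, Nonempty (Inst (fam1 g 0 m l) (K ^ 2) (T.σ ^ k) t) := by
  refine inst_core T hb hm hl hlm hmb fun W hW ω l0 hω hl0 => ?_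
  have e0 : (((0 : ℕ) : ℝ) / 1024) = 0 := by simp
  rw [e0]
  refine wi_euclid ?_ (cls_summable hW T.k_pos ((k : ℤ) + b) hω l0) (by simp) fun ζ hζ => ?_
  · have := cls_summable hW T.k_pos (k : ℤ) hω 1
    refine this.congr fun n => ?_
    rw [one_mul]
  · rw [NI.S_rot' (fun n => W ((k : ℤ) - n * k)), NI.S_rot (fun n => W ((k : ℤ) + b - n * k)),
      An.S_zero, norm_zero, norm_mul, mul_pow]
    have hζ' : ‖ω * ζ‖ = 1 := by rw [norm_mul, hω, hζ, one_mul]
    have hb0 := T.b_pos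
    have h1 := euclid_classes hW T.k_pos {(k : ℤ), (k : ℤ) + b} (ndvd T.b_pos hb) hζ'
    rw [Finset.sum_pair (by omega)] at h1
    have h2 : ‖l0‖ ^ 2 * ‖S (fun n => W ((k : ℤ) + b - n * k)) (ω * ζ)‖ ^ 2 ≤
        ‖S (fun n => W ((k : ℤ) + b - n * k)) (ω * ζ)‖ ^ 2 :=
      mul_le_of_le_one_left (by positivity) (pow_le_one₀ (norm_nonneg _) hl0)
    have h3 : (0 : ℝ) ^ 2 = 0 := by norm_num
    linarith

end MaxTerm.PB
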