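import Pool.Agent.MaxTerm.PB.Basic

/-!
# Soundness of the checker, layer 1: integers and Gaussian integers
-/

open Filter Topology ComplexConjugate

namespace MaxTerm.PB

/-- the complex number of a Gaussian integer. -/
noncomputable def GI.toC (a : GI) : ℂ := ⟨(a.r : ℝ), (a.i : ℝ)⟩

theorem snn_eq (m n : ℕ) : snn m n = (m : ℤ) - n := by
  have h1 : Nat.sub n m = n - m := rfl
  have h2 : Nat.sub m n = m - n := rfl
  unfold snn
  rw [h1, h2]
  cases h : n - m with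
  | zero =>
    change Int.ofNat (m - n) = _
    rw [Int.ofNat_eq_natCast]
    omega
  | succ k =>
    change Int.negSucc k = _
    rw [Int.negSucc_eq]
    omega

theorem inegN_eq (n : ℕ) : inegN n = -(n : ℤ) := by
  cases n with
  | zero => rfl
  | succ k =>
    change Int.negSucc k = _
    rw [Int.negSucc_eq]
    push_cast
    ring

theorem iadd_eq (a b : ℤ) : iadd a b = a + b := by
  cases a with
  | ofNat m =>
    cases b with
    | ofNat n => rfl
    | negSucc n =>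
      change snn m (Nat.succ n) = _
      rw [snn_eq, Int.negSucc_eq, Int.ofNat_eq_natCast]
      push_cast
      ring
  | negSucc m =>
    cases b with
    | ofNat n =>
      change snn n (Nat.succ m) = _
      rw [snn_eq, Int.negSucc_eq, Int.ofNat_eq_natCast]
      push_cast
      ring
    | negSucc n => rfl

theorem isub_eq (a b : ℤ) : isub a b = a - b := by
  cases a with
  | ofNat m =>
    cases b with
    | ofNat n =>
      change snn m n = _
      rw [snn_eq, Int.ofNat_eq_natCast, Int.ofNat_eq_natCast]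
    | negSucc n =>
      change Int.ofNat (Nat.succ (m + n)) = _
      rw [Int.negSucc_eq, Int.ofNat_eq_natCast, Int.ofNat_eq_natCast]
      push_cast
      ring
  | negSucc m =>
    cases b with
    | ofNat n =>
      change Int.negSucc (m + n) = _
      rw [Int.negSucc_eq, Int.negSucc_eq, Int.ofNat_eq_natCast]
      push_cast
      ring
    | negSucc n =>
      change snn n m = _
      rw [snn_eq, Int.negSucc_eq, Int.negSucc_eq]
      ring

theorem imul_eq (a b : ℤ) : imul a b = a * b := by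
  cases a with
  | ofNat m =>
    cases b with
    | ofNat n => rfl
    | negSucc n =>
      change inegN (m * Nat.succ n) = _
      rw [inegN_eq, Int.negSucc_eq, Int.ofNat_eq_natCast]
      push_cast
      ring
  | negSucc m =>
    cases b with
    | ofNat n =>
      change inegN (Nat.succ m * n) = _
      rw [inegN_eq, Int.negSucc_eq, Int.ofNat_eq_natCast]
      push_cast
      ring
    | negSucc n =>
      change Int.ofNat (Nat.succ m * Nat.succ n) = _
      rw [Int.negSucc_eq, Int.negSucc_eq, Int.ofNat_eq_natCast]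
      push_cast
      ring

theorem iabs_eq (a : ℤ) : iabs a = a.natAbs := by
  cases a with
  | ofNat m => rfl
  | negSucc m => rfl

theorem ish_bounds (a : ℤ) : ish a * 1073741824 ≤ a ∧ a < (ish a + 1) * 1073741824 := by
  cases a with
  | ofNat m =>
    change Int.ofNat (m / 1073741824) * 1073741824 ≤ _ ∧ _ < (Int.ofNat (m / 1073741824) + 1) * _
    rw [Int.ofNat_eq_natCast, Int.ofNat_eq_natCast]
    constructor <;> omega
  | negSucc m =>
    change Int.negSucc (m / 1073741824) * 1073741824 ≤ _ ∧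
      _ < (Int.negSucc (m / 1073741824) + 1) * _
    rw [Int.negSucc_eq, Int.negSucc_eq]
    constructor <;> omega

theorem ish_le (a : ℤ) : (ish a : ℝ) * 2 ^ 30 ≤ a := by
  have h := (ish_bounds a).1
  have h' : ((ish a * 1073741824 : ℤ) : ℝ) ≤ (a : ℝ) := by exact_mod_cast h
  push_cast at h'
  norm_num
  exact h'

theorem lt_ish (a : ℤ) : (a : ℝ) < ((ish a : ℝ) + 1) * 2 ^ 30 := by
  have h := (ish_bounds a).2
  have h' : (a : ℝ) < (((ish a + 1) * 1073741824 : ℤ) : ℝ) := by exact_mod_cast h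
  push_cast at h'
  norm_num
  exact h'

@[simp] theorem toC_zero : GI.zero.toC = 0 := by
  apply Complex.ext
  · change ((Int.ofNat 0 : ℤ) : ℝ) = 0
    simp
  · change ((Int.ofNat 0 : ℤ) : ℝ) = 0
    simp

theorem toC_gadd (a b : GI) : (gadd a b).toC = a.toC + b.toC := by
  obtain ⟨ar, ai⟩ := a
  obtain ⟨br, bi⟩ := b
  change GI.toC ⟨iadd ar br, iadd ai bi⟩ = _
  rw [iadd_eq, iadd_eq]
  apply Complex.ext
  · simp [GI.toC]
  · simp [GI.toC]

theorem toC_gmul (a b : GI) : (gmul a b).toC = a.toC * b.toC := by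
  obtain ⟨ar, ai⟩ := a
  obtain ⟨br, bi⟩ := b
  change GI.toC ⟨isub (imul ar br) (imul ai bi), iadd (imul ar bi) (imul ai br)⟩ = _
  rw [isub_eq, iadd_eq, imul_eq, imul_eq, imul_eq, imul_eq]
  apply Complex.ext
  · simp [GI.toC, Complex.mul_re]
  · simp [GI.toC, Complex.mul_im]

theorem toC_gcmul (a b : GI) : (gcmul a b).toC = conj a.toC * b.toC := by
  obtain ⟨ar, ai⟩ := a
  obtain ⟨br, bi⟩ := b
  change GI.toC ⟨iadd (imul ar br) (imul ai bi), isub (imul ar bi) (imul ai br)⟩ = _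
  rw [isub_eq, iadd_eq, imul_eq, imul_eq, imul_eq, imul_eq]
  apply Complex.ext
  · simp [GI.toC, Complex.mul_re]
  · simp [GI.toC, Complex.mul_im]
    ring

theorem toC_gconj (a : GI) : (gconj a).toC = conj a.toC := by
  obtain ⟨ar, ai⟩ := a
  change GI.toC ⟨ar, isub (Int.ofNat 0) ai⟩ = _
  rw [isub_eq]
  apply Complex.ext
  · simp [GI.toC]
  · simp [GI.toC]

theorem toC_gsm (c : ℤ) (a : GI) : (gsm c a).toC = (c : ℂ) * a.toC := by
  obtain ⟨ar, ai⟩ := a
  change GI.toC ⟨imul c ar, imul c ai⟩ = _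
  rw [imul_eq, imul_eq]
  apply Complex.ext
  · simp [GI.toC, Complex.mul_re]
  · simp [GI.toC, Complex.mul_im]

theorem gre_eq (a : GI) : ((gre a : ℤ) : ℝ) = a.toC.re := by
  obtain ⟨ar, ai⟩ := a
  rfl

theorem norm_gsh (a : GI) : ‖(2 : ℂ) ^ 30 * (gsh a).toC - a.toC‖ ≤ 2 ^ 30 * Real.sqrt 2 := by
  obtain ⟨ar, ai⟩ := a
  change ‖(2 : ℂ) ^ 30 * GI.toC ⟨ish ar, ish ai⟩ - _‖ ≤ _
  have e : (2 : ℂ) ^ 30 * GI.toC ⟨ish ar, ish ai⟩ - GI.toC ⟨ar, ai⟩ =
      ⟨2 ^ 30 * (ish ar : ℝ) - ar, 2 ^ 30 * (ish ai : ℝ) - ai⟩ := by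
    have h2 : (2 : ℂ) ^ 30 = ((2 ^ 30 : ℝ) : ℂ) := by push_cast; rfl
    rw [h2]
    apply Complex.ext
    · rw [Complex.sub_re, Complex.re_ofReal_mul]
      rfl
    · rw [Complex.sub_im, Complex.im_ofReal_mul]
      rfl
  rw [e]
  refine (Complex.norm_le_sqrt_two_mul_max _).trans ?_
  rw [mul_comm]
  refine mul_le_mul_of_nonneg_right ?_ (Real.sqrt_nonneg 2)
  have h1 := ish_le ar
  have h2 := lt_ish ar
  have h3 := ish_le ai
  have h4 := lt_ish ai
  refine max_le ?_ ?_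
  · rw [abs_le]
    constructor <;> nlinarith
  · rw [abs_le]
    constructor <;> nlinarith

theorem gab_eq (a : GI) : gab a = max a.r.natAbs a.i.natAbs +
    (min a.r.natAbs a.i.natAbs + 1) / 2 := by
  obtain ⟨ar, ai⟩ := a
  change (iabs ar + (iabs ai - iabs ar)) + ((iabs ai - (iabs ai - iabs ar)) + 1) / 2 = _
  rw [iabs_eq, iabs_eq]
  change _ = max ar.natAbs ai.natAbs + (min ar.natAbs ai.natAbs + 1) / 2
  omega

theorem norm_sq_toC (a : GI) : ‖a.toC‖ ^ 2 = (a.r.natAbs : ℝ) ^ 2 + (a.i.natAbs : ℝ) ^ 2 := by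
  rw [← Complex.normSq_eq_norm_sq, Complex.normSq_apply]
  have h1 : ((a.r.natAbs : ℕ) : ℝ) ^ 2 = (a.r : ℝ) * a.r := by
    rw [Nat.cast_natAbs, Int.cast_abs, sq_abs]
    ring
  have h2 : ((a.i.natAbs : ℕ) : ℝ) ^ 2 = (a.i : ℝ) * a.i := by
    rw [Nat.cast_natAbs, Int.cast_abs, sq_abs]
    ring
  rw [h1, h2]
  rfl

theorem norm_le_gab (a : GI) : ‖a.toC‖ ≤ (gab a : ℝ) := by
  rw [gab_eq]
  refine abs_le_of_sq_le_sq' ?_ (Nat.cast_nonneg _) |>.2
  rw [norm_sq_toC]
  generalize a.r.natAbs = x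
  generalize a.i.natAbs = y
  have h1 : (min x y : ℕ) ≤ 2 * ((min x y + 1) / 2) := by omega
  have h1' : ((min x y : ℕ) : ℝ) ≤ 2 * (((min x y + 1) / 2 : ℕ) : ℝ) := by exact_mod_cast h1
  rcases le_total x y with h | h
  · rw [min_eq_left h] at h1' ⊢
    rw [max_eq_right h]
    have h' : (x : ℝ) ≤ y := by exact_mod_cast h
    have hx : (0 : ℝ) ≤ x := Nat.cast_nonneg x
    push_cast
    push_cast at h1'
    nlinarith
  · rw [min_eq_right h] at h1' ⊢
    rw [max_eq_left h]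
    have h' : (y : ℝ) ≤ x := by exact_mod_cast h
    have hx : (0 : ℝ) ≤ y := Nat.cast_nonneg y
    push_cast
    push_cast at h1'
    nlinarith

theorem gl1_eq (a : GI) : (gl1 a : ℝ) = |a.toC.re| + |a.toC.im| := by
  obtain ⟨ar, ai⟩ := a
  change ((iabs ar + iabs ai : ℕ) : ℝ) = |(ar : ℝ)| + |(ai : ℝ)|
  rw [iabs_eq, iabs_eq]
  push_cast
  rw [Nat.cast_natAbs, Nat.cast_natAbs, Int.cast_abs, Int.cast_abs]

theorem sqrt_two_mul_le_r2 (x : ℕ) : Real.sqrt 2 * x ≤ (r2 x : ℝ) := by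
  have h1 : r2 x = (17 * x + 11) / 12 := rfl
  have h2 : 17 * x ≤ 12 * ((17 * x + 11) / 12) := by omega
  have h2' : 17 * (x : ℝ) ≤ 12 * (((17 * x + 11) / 12 : ℕ) : ℝ) := by exact_mod_cast h2
  have h3 : Real.sqrt 2 ≤ 17 / 12 := by
    rw [Real.sqrt_le_left (by norm_num)]
    norm_num
  rw [h1]
  have hx : (0 : ℝ) ≤ x := Nat.cast_nonneg x
  nlinarith

theorem norm_le_gnw (a : GI) : 8 * ‖a.toC‖ ≤ (gnw a : ℝ) := by
  obtain ⟨ar, ai⟩ := a
  have hsq := norm_sq_toC ⟨ar, ai⟩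
  have hs := norm_le_gab ⟨Int.ofNat (8 * iabs ar), Int.ofNat (8 * iabs ai)⟩
  have hsq' := norm_sq_toC ⟨Int.ofNat (8 * iabs ar), Int.ofNat (8 * iabs ai)⟩
  set s := gab ⟨Int.ofNat (8 * iabs ar), Int.ofNat (8 * iabs ai)⟩ with hsdef
  have hg : gnw ⟨ar, ai⟩ = (s + (64 * (iabs ar * iabs ar + iabs ai * iabs ai)) / s) / 2 + 1 := rfl
  rw [hg, iabs_eq, iabs_eq] at *
  change ‖GI.toC ⟨ar, ai⟩‖ ^ 2 = ((ar.natAbs : ℕ) : ℝ) ^ 2 + ((ai.natAbs : ℕ) : ℝ) ^ 2 at hsq
  simp only [Int.ofNat_eq_natCast, Int.natAbs_natCast] at hsq'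
  generalize ar.natAbs = x at *
  generalize ai.natAbs = y at *
  -- `8 |a| ≤ s`
  have h8 : (8 * ‖GI.toC ⟨ar, ai⟩‖) ^ 2 = 64 * ((x : ℝ) ^ 2 + (y : ℝ) ^ 2) := by
    rw [mul_pow, hsq]
    norm_num
  set N := 8 * ‖GI.toC ⟨ar, ai⟩‖ with hN
  have hN0 : 0 ≤ N := by positivity
  have hNs : N ≤ s := by
    refine le_trans (le_of_eq ?_) hs
    have h9 : N ^ 2 = ‖GI.toC ⟨((8 * x : ℕ) : ℤ), ((8 * y : ℕ) : ℤ)⟩‖ ^ 2 := by
      rw [h8]
      rw [hsq']
      push_cast
      ring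
    exact (pow_left_inj₀ hN0 (norm_nonneg _) two_ne_zero).1 h9
  rcases Nat.eq_zero_or_pos s with h0 | h0
  · rw [h0] at hNs
    rw [Nat.cast_zero] at hNs
    push_cast
    have : (0 : ℝ) ≤ (((s + 64 * (x * x + y * y) / s) / 2 : ℕ) : ℝ) := Nat.cast_nonneg _
    linarith
  · have hs0 : (0 : ℝ) < s := by exact_mod_cast h0
    have h1 : 64 * (x * x + y * y) < (64 * (x * x + y * y) / s + 1) * s :=
      Nat.lt_mul_of_div_lt (Nat.lt_succ_self _) h0
    have h1' : N ^ 2 < (((64 * (x * x + y * y) / s : ℕ) : ℝ) + 1) * s := by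
      rw [h8]
      have : ((64 * (x * x + y * y) : ℕ) : ℝ) < (((64 * (x * x + y * y) / s + 1) * s : ℕ) : ℝ) := by
        exact_mod_cast h1
      push_cast at this
      calc 64 * ((x : ℝ) ^ 2 + (y : ℝ) ^ 2) = 64 * ((x : ℝ) * x + y * y) := by ring
        _ < _ := by
          push_cast
          exact this
    generalize 64 * (x * x + y * y) / s = w at *
    have h2 : s + w < 2 * ((s + w) / 2 + 1) := by omega
    have h2' : (s : ℝ) + w + 1 ≤ 2 * (((s + w) / 2 : ℕ) : ℝ) + 2 := by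
      have : s + w + 1 ≤ 2 * ((s + w) / 2) + 2 := by omega
      exact_mod_cast this
    push_cast
    -- `2 N ≤ s + N² / s`
    have h3 : 2 * N * s ≤ s ^ 2 + N ^ 2 := by nlinarith [sq_nonneg ((s : ℝ) - N)]
    have h4 : 2 * N ≤ s + w + 1 := by
      by_contra hc
      rw [not_le] at hc
      nlinarith
    have h5 : ((((s + w) / 2 : ℕ)) : ℝ) + 1 ≥ N := by linarith
    exact_mod_cast h5

end MaxTerm.PB
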