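import Pool.Agent.MaxTerm.PB.SInt

/-!
# Soundness of the checker, layer 2: lists of Gaussian integers as Laurent polynomials
-/

open Filter Topology ComplexConjugate

namespace MaxTerm.PB

/-- `i`-th coefficient of a list (`0` beyond the end). -/
noncomputable def co (l : List GI) (i : ℕ) : ℂ := (l.getD i GI.zero).toC

/-- the Laurent polynomial `∑ l_i ζ^(o + i)`. -/
noncomputable def fs : ℤ → List GI → (ℤ →₀ ℂ)
  | _, [] => 0
  | o, x :: l => Finsupp.single o x.toC + fs (o + 1) l

end MaxTerm.PB
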