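import Pool.Agent.MaxTerm.PB.SPoly

/-!
# Soundness of the checker, layer 2a: algebra of lists
-/

open Filter Topology ComplexConjugate

namespace MaxTerm.PB

theorem ev_add (p q : ℤ →₀ ℂ) (ζ : ℂ) : ev (p + q) ζ = ev p ζ + ev q ζ := by
  unfold ev
  exact Finsupp.sum_add_index' (fun _ => by simp) (fun _ _ _ => by ring)
theorem ev_smul (c : ℂ) (p : ℤ →₀ ℂ) (ζ : ℂ) : ev (c • p) ζ = c * ev p ζ := by
  unfold ev
  rw [Finsupp.sum_smul_index (fun _ => by simp), Finsupp.mul_sum]
  exact Finsupp.sum_congr fun _ _ => by ring
theorem pr_add (p q : ℤ →₀ ℂ) (f : ℤ → ℂ) : pr (p + q) f = pr p f + pr q f := by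
  unfold pr
  exact Finsupp.sum_add_index' (fun _ => by simp) (fun _ _ _ => by ring)
theorem pr_smul (c : ℂ) (p : ℤ →₀ ℂ) (f : ℤ → ℂ) : pr (c • p) f = c * pr p f := by
  unfold pr
  rw [Finsupp.sum_smul_index (fun _ => by simp), Finsupp.mul_sum]
  exact Finsupp.sum_congr fun _ _ => by ring
theorem ip_add_left (p q r : ℤ →₀ ℂ) : ip (p + q) r = ip p r + ip q r := by
  unfold ip
  exact Finsupp.sum_add_index' (fun _ => by simp) (fun _ _ _ => by rw [map_add]; ring)
theorem ip_add_right (p q r : ℤ →₀ ℂ) : ip p (q + r) = ip p q + ip p r := by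
  unfold ip
  rw [← Finsupp.sum_add]
  exact Finsupp.sum_congr fun _ _ => by rw [Finsupp.add_apply]; ring
theorem ip_smul_left (c : ℂ) (p q : ℤ →₀ ℂ) : ip (c • p) q = conj c * ip p q := by
  unfold ip
  rw [Finsupp.sum_smul_index (fun _ => by simp), Finsupp.mul_sum]
  exact Finsupp.sum_congr fun _ _ => by rw [map_mul]; ring
theorem ip_smul_right (c : ℂ) (p q : ℤ →₀ ℂ) : ip p (c • q) = c * ip p q := by
  unfold ip
  rw [Finsupp.mul_sum]
  exact Finsupp.sum_congr fun _ _ => by rw [Finsupp.smul_apply, smul_eq_mul]; ring
theorem ips_add_left (p q r : ℤ →₀ ℂ) : ips (p + q) r = ips p r + ips q r := by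
  unfold ips
  exact Finsupp.sum_add_index' (fun _ => by simp) (fun _ _ _ => by rw [map_add]; ring)
theorem ips_add_right (p q r : ℤ →₀ ℂ) : ips p (q + r) = ips p q + ips p r := by
  unfold ips
  rw [← Finsupp.sum_add]
  exact Finsupp.sum_congr fun _ _ => by rw [Finsupp.add_apply]; ring
theorem ips_smul_left (c : ℂ) (p q : ℤ →₀ ℂ) : ips (c • p) q = conj c * ips p q := by
  unfold ips
  rw [Finsupp.sum_smul_index (fun _ => by simp), Finsupp.mul_sum]
  exact Finsupp.sum_congr fun _ _ => by rw [map_mul]; ring
theorem ips_smul_right (c : ℂ) (p q : ℤ →₀ ℂ) : ips p (c • q) = c * ips p q := by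
  unfold ips
  rw [Finsupp.mul_sum]
  exact Finsupp.sum_congr fun _ _ => by rw [Finsupp.smul_apply, smul_eq_mul]; ring

theorem fs_nil (o : ℤ) : fs o [] = 0 := rfl
theorem fs_cons (o : ℤ) (x : GI) (l : List GI) :
    fs o (x :: l) = Finsupp.single o x.toC + fs (o + 1) l := rfl

theorem co_nil (i : ℕ) : co [] i = 0 := by simp [co]
theorem co_cons_zero (x : GI) (l : List GI) : co (x :: l) 0 = x.toC := by simp [co]
theorem co_cons_succ (x : GI) (l : List GI) (i : ℕ) : co (x :: l) (i + 1) = co l i := by
  simp [co]

theorem fs_apply (o : ℤ) (l : List GI) (n : ℤ) :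
    fs o l n = if o ≤ n then co l (n - o).toNat else 0 := by
  induction l generalizing o with
  | nil => rw [fs_nil]; simp [co_nil]
  | cons x l ih =>
    rw [fs_cons, Finsupp.add_apply, ih (o + 1)]
    rcases lt_trichotomy o n with h | h | h
    · rw [Finsupp.single_eq_of_ne (by omega), if_pos (by omega), if_pos (by omega), zero_add]
      have : (n - o).toNat = (n - (o + 1)).toNat + 1 := by omega
      rw [this, co_cons_succ]
    · subst h
      rw [Finsupp.single_eq_same, if_neg (by omega), if_pos le_rfl, add_zero, sub_self]
      exact (co_cons_zero x l).symm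
    · rw [Finsupp.single_eq_of_ne (by omega), if_neg (by omega), if_neg (by omega), zero_add]

theorem padd_nil_left (b : List GI) : padd [] b = b := rfl
theorem padd_nil_right (x : GI) (a : List GI) : padd (x :: a) [] = x :: a := rfl
theorem padd_cons (x y : GI) (a b : List GI) : padd (x :: a) (y :: b) = gadd x y :: padd a b := rfl
theorem pism_nil (c : ℤ) : pism c [] = [] := rfl
theorem pism_cons (c : ℤ) (x : GI) (a : List GI) : pism c (x :: a) = gsm c x :: pism c a := rfl
theorem psm_nil (c : GI) : psm c [] = [] := rfl
theorem psm_cons (c x : GI) (a : List GI) : psm c (x :: a) = gmul c x :: psm c a := rfl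
theorem zcons_nil : zcons [] = [] := rfl
theorem zcons_cons (x : GI) (a : List GI) : zcons (x :: a) = GI.zero :: x :: a := rfl
theorem pmul_nil (b : List GI) : pmul [] b = [] := rfl
theorem pmul_cons (x : GI) (a b : List GI) :
    pmul (x :: a) b = padd (psm x b) (zcons (pmul a b)) := rfl
theorem pshift_zero (a : List GI) : pshift 0 a = a := rfl
theorem pshift_succ (k : ℕ) (a : List GI) : pshift (k + 1) a = zcons (pshift k a) := rfl
theorem pconj_nil : pconj [] = [] := rfl
theorem pconj_cons (x : GI) (a : List GI) : pconj (x :: a) = gconj x :: pconj a := rfl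

theorem pconj_eq (a : List GI) : pconj a = a.map gconj := by
  induction a with
  | nil => rfl
  | cons x a ih => rw [pconj_cons, ih, List.map_cons]

theorem prevA_eq (a acc : List GI) : prevA a acc = a.reverse ++ acc := by
  induction a generalizing acc with
  | nil => rfl
  | cons x a ih =>
    change prevA a (x :: acc) = _
    rw [ih, List.reverse_cons, List.append_assoc]
    rfl

theorem pstar_eq (a : List GI) : pstar a = a.reverse.map gconj := by
  change pconj (prevA a []) = _
  rw [prevA_eq, pconj_eq, List.append_nil]

theorem fs_padd (o : ℤ) (a b : List GI) : fs o (padd a b) = fs o a + fs o b := by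
  induction a generalizing o b with
  | nil => rw [padd_nil_left, fs_nil, zero_add]
  | cons x a ih =>
    cases b with
    | nil => rw [padd_nil_right, fs_nil, add_zero]
    | cons y b =>
      rw [padd_cons, fs_cons, fs_cons, fs_cons, ih, toC_gadd, Finsupp.single_add]
      abel

theorem fs_pism (o c : ℤ) (a : List GI) : fs o (pism c a) = (c : ℂ) • fs o a := by
  induction a generalizing o with
  | nil => rw [pism_nil, fs_nil, smul_zero]
  | cons x a ih =>
    rw [pism_cons, fs_cons, fs_cons, ih, toC_gsm, smul_add, Finsupp.smul_single, smul_eq_mul]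

theorem fs_psm (o : ℤ) (c : GI) (a : List GI) : fs o (psm c a) = c.toC • fs o a := by
  induction a generalizing o with
  | nil => rw [psm_nil, fs_nil, smul_zero]
  | cons x a ih =>
    rw [psm_cons, fs_cons, fs_cons, ih, toC_gmul, smul_add, Finsupp.smul_single, smul_eq_mul]

theorem fs_zcons (o : ℤ) (a : List GI) : fs o (zcons a) = fs (o + 1) a := by
  cases a with
  | nil => rw [zcons_nil, fs_nil, fs_nil]
  | cons x a => rw [zcons_cons, fs_cons o, toC_zero, Finsupp.single_zero, zero_add]

theorem fs_pshift (o : ℤ) (k : ℕ) (a : List GI) : fs o (pshift k a) = fs (o + k) a := by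
  induction k generalizing o with
  | zero => rw [pshift_zero]; simp
  | succ k ih =>
    rw [pshift_succ, fs_zcons, ih]
    congr 1
    push_cast
    ring

theorem ev_zero (ζ : ℂ) : ev 0 ζ = 0 := by simp [ev]
theorem ev_single (n : ℤ) (a ζ : ℂ) : ev (Finsupp.single n a) ζ = a * ζ ^ n := by
  unfold ev
  rw [Finsupp.sum_single_index (by simp)]

theorem ev_fs_add (o k : ℤ) (a : List GI) {ζ : ℂ} (hζ : ζ ≠ 0) :
    ev (fs (o + k) a) ζ = ζ ^ o * ev (fs k a) ζ := by
  induction a generalizing k with
  | nil => rw [fs_nil, fs_nil, ev_zero, mul_zero]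
  | cons x a ih =>
    rw [fs_cons, fs_cons, ev_add, ev_add, ev_single, ev_single, add_assoc, ih (k + 1),
      zpow_add₀ hζ]
    ring

theorem ev_pmul (o₁ o₂ : ℤ) (a b : List GI) {ζ : ℂ} (hζ : ‖ζ‖ = 1) :
    ev (fs (o₁ + o₂) (pmul a b)) ζ = ev (fs o₁ a) ζ * ev (fs o₂ b) ζ := by
  have h0 : ζ ≠ 0 := by
    rintro rfl
    simp at hζ
  induction a generalizing o₁ with
  | nil => rw [pmul_nil, fs_nil, fs_nil, ev_zero, zero_mul]
  | cons x a ih =>
    rw [pmul_cons, fs_padd, ev_add, fs_psm, ev_smul, fs_zcons, fs_cons, ev_add, ev_single]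
    have h1 : o₁ + o₂ + 1 = (o₁ + 1) + o₂ := by ring
    rw [h1, ih (o₁ + 1), ev_fs_add o₁ o₂ b h0]
    ring

theorem fs_append (o : ℤ) (a b : List GI) : fs o (a ++ b) = fs o a + fs (o + a.length) b := by
  induction a generalizing o with
  | nil => simp [fs_nil]
  | cons x a ih =>
    have h : o + 1 + (a.length : ℤ) = o + ((x :: a).length : ℤ) := by
      rw [List.length_cons]; push_cast; ring
    rw [List.cons_append, fs_cons, fs_cons, ih, h]
    abel

theorem ev_pstar (o : ℤ) (a : List GI) {ζ : ℂ} (hζ : ‖ζ‖ = 1) :
    ev (fs (1 - o - a.length) (pstar a)) ζ = conj (ev (fs o a) ζ) := by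
  have hc : conj ζ = ζ⁻¹ := (Complex.inv_eq_conj hζ).symm
  rw [pstar_eq]
  induction a generalizing o with
  | nil => simp [fs_nil, ev_zero]
  | cons x a ih =>
    rw [List.reverse_cons, List.map_append, fs_append, ev_add, List.length_map,
      List.length_reverse, List.length_cons, fs_cons, ev_add, map_add, ev_single, map_mul,
      map_zpow₀, hc]
    have h1 : (1 - o - ((a.length + 1 : ℕ) : ℤ)) = 1 - (o + 1) - a.length := by push_cast; ring
    rw [h1, ih (o + 1)]
    have h2 : (1 - (o + 1) - (a.length : ℤ) + a.length) = -o := by ring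
    rw [h2, List.map_cons, List.map_nil, fs_cons, fs_nil, add_zero, ev_single, toC_gconj,
      inv_zpow, zpow_neg]
    ring

theorem length_padd (a b : List GI) : (padd a b).length = max a.length b.length := by
  induction a generalizing b with
  | nil => rw [padd_nil_left]; simp
  | cons x a ih =>
    cases b with
    | nil => rw [padd_nil_right]; simp
    | cons y b =>
      rw [padd_cons, List.length_cons, ih, List.length_cons, List.length_cons]
      omega
theorem length_pism (c : ℤ) (a : List GI) : (pism c a).length = a.length := by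
  induction a with
  | nil => rfl
  | cons x a ih => rw [pism_cons, List.length_cons, ih, List.length_cons]
theorem length_psm (c : GI) (a : List GI) : (psm c a).length = a.length := by
  induction a with
  | nil => rfl
  | cons x a ih => rw [psm_cons, List.length_cons, ih, List.length_cons]
theorem length_zcons_mono {a b : List GI} (h : a.length ≤ b.length) :
    (zcons a).length ≤ (zcons b).length := by
  cases a with
  | nil => rw [zcons_nil]; simp
  | cons x a =>
    cases b with
    | nil => simp at h
    | cons y b =>
      rw [zcons_cons, zcons_cons]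
      simp only [List.length_cons] at h ⊢
      omega
theorem length_pmul_mono {a b b' : List GI} (h : b.length ≤ b'.length) :
    (pmul a b).length ≤ (pmul a b').length := by
  induction a with
  | nil => rw [pmul_nil, pmul_nil]
  | cons x a ih =>
    rw [pmul_cons, pmul_cons, length_padd, length_padd, length_psm, length_psm]
    exact max_le_max h (length_zcons_mono ih)
theorem length_pmul_congr {a b b' : List GI} (h : b.length = b'.length) :
    (pmul a b).length = (pmul a b').length :=
  le_antisymm (length_pmul_mono h.le) (length_pmul_mono h.ge)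
theorem length_pshift_mono {k : ℕ} {a b : List GI} (h : a.length ≤ b.length) :
    (pshift k a).length ≤ (pshift k b).length := by
  induction k with
  | zero => exact h
  | succ k ih => rw [pshift_succ, pshift_succ]; exact length_zcons_mono ih
theorem length_pshift_congr {k : ℕ} {a b : List GI} (h : a.length = b.length) :
    (pshift k a).length = (pshift k b).length :=
  le_antisymm (length_pshift_mono h.le) (length_pshift_mono h.ge)
theorem length_pstar (a : List GI) : (pstar a).length = a.length := by
  rw [pstar_eq]; simp
theorem length_ptakeRev (k : ℕ) (a acc : List GI) :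
    (ptakeRev k a acc).length = k + acc.length := by
  induction k generalizing a acc with
  | zero =>
    change acc.length = _
    omega
  | succ k ih =>
    cases a with
    | nil =>
      change (ptakeRev k [] (GI.zero :: acc)).length = _
      rw [ih, List.length_cons]; omega
    | cons x a =>
      change (ptakeRev k a (x :: acc)).length = _
      rw [ih, List.length_cons]; omega
theorem length_psideL_cons (k : ℕ) (x : GI) (a : List GI) : (psideL k (x :: a)).length = k := by
  change (ptakeRev k (x :: a) []).length = k
  rw [length_ptakeRev]; simp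
theorem length_psideL_le (k : ℕ) (a : List GI) : (psideL k a).length ≤ k := by
  cases a with
  | nil => exact Nat.zero_le _
  | cons x a => rw [length_psideL_cons]
theorem length_psideL_mono {k : ℕ} {a b : List GI} (h : a.length ≤ b.length) :
    (psideL k a).length ≤ (psideL k b).length := by
  cases a with
  | nil => exact Nat.zero_le _
  | cons x a =>
    cases b with
    | nil => simp at h
    | cons y b => rw [length_psideL_cons, length_psideL_cons]
theorem length_pdrop (k : ℕ) (a : List GI) : (pdrop k a).length = a.length - k := by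
  induction k generalizing a with
  | zero => rfl
  | succ k ih =>
    cases a with
    | nil =>
      change ([] : List GI).length = _
      simp
    | cons x a =>
      change (pdrop k a).length = _
      rw [ih, List.length_cons]; omega

end MaxTerm.PB
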