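import Pool.Agent.MaxTerm.PB.SPolyA

/-!
# Soundness of the checker, layer 2b: inner products, pairings, splitting
-/

open Filter Topology ComplexConjugate

namespace MaxTerm.PB

theorem co_of_le {l : List GI} {i : ℕ} (h : l.length ≤ i) : co l i = 0 := by
  unfold co
  rw [List.getD_eq_default _ _ h, toC_zero]

theorem co_pdrop (k : ℕ) (l : List GI) (i : ℕ) : co (pdrop k l) i = co l (k + i) := by
  induction k generalizing l with
  | zero => rw [Nat.zero_add]; rfl
  | succ k ih =>
    cases l with
    | nil =>
      change co [] i = _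
      rw [co_nil, co_nil]
    | cons x l =>
      change co (pdrop k l) i = _
      rw [ih, Nat.add_right_comm, co_cons_succ]

theorem co_ptakeRev (k : ℕ) (l acc : List GI) (i : ℕ) :
    co (ptakeRev k l acc) i = if i < k then co l (k - 1 - i) else co acc (i - k) := by
  induction k generalizing l acc with
  | zero =>
    change co acc i = _
    simp
  | succ k ih =>
    cases l with
    | nil =>
      change co (ptakeRev k [] (GI.zero :: acc)) i = _
      rw [ih]
      rcases lt_trichotomy i k with h | h | h
      · rw [if_pos h, if_pos (by omega), co_nil, co_nil]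
      · subst h
        rw [if_neg (by omega), if_pos (by omega), Nat.sub_self, co_cons_zero, toC_zero, co_nil]
      · rw [if_neg (by omega), if_neg (by omega)]
        have : i - k = (i - (k + 1)) + 1 := by omega
        rw [this, co_cons_succ]
    | cons x l =>
      change co (ptakeRev k l (x :: acc)) i = _
      rw [ih]
      rcases lt_trichotomy i k with h | h | h
      · rw [if_pos h, if_pos (by omega)]
        have : k + 1 - 1 - i = (k - 1 - i) + 1 := by omega
        rw [this, co_cons_succ]
      · subst h
        rw [if_neg (by omega), if_pos (by omega), Nat.sub_self, co_cons_zero]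
        have : i + 1 - 1 - i = 0 := by omega
        rw [this, co_cons_zero]
      · rw [if_neg (by omega), if_neg (by omega)]
        have : i - k = (i - (k + 1)) + 1 := by omega
        rw [this, co_cons_succ]

theorem co_psideL (k : ℕ) (l : List GI) (i : ℕ) :
    co (psideL k l) i = if i < k then co l (k - 1 - i) else 0 := by
  cases l with
  | nil =>
    change co [] i = _
    rw [co_nil, co_nil, ite_self]
  | cons x l =>
    change co (ptakeRev k (x :: l) []) i = _
    rw [co_ptakeRev, co_nil]

theorem sum_co {l : List GI} {N M : ℕ} (f : ℕ → ℂ) (hN : l.length ≤ N) (hM : l.length ≤ M) :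
    ∑ i ∈ Finset.range N, co l i * f i = ∑ i ∈ Finset.range M, co l i * f i := by
  have key : ∀ K, l.length ≤ K →
      ∑ i ∈ Finset.range K, co l i * f i = ∑ i ∈ Finset.range l.length, co l i * f i := by
    intro K hK
    symm
    apply Finset.sum_subset (Finset.range_mono hK)
    intro i _ hi
    rw [co_of_le (by simpa using hi), zero_mul]
  rw [key N hN, key M hM]

theorem ip_zero_left (q : ℤ →₀ ℂ) : ip 0 q = 0 := by simp [ip]
theorem ips_zero_left (q : ℤ →₀ ℂ) : ips 0 q = 0 := by simp [ips]
theorem pr_zero_left (f : ℤ → ℂ) : pr 0 f = 0 := by simp [pr]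
theorem ip_single_left (n : ℤ) (a : ℂ) (q : ℤ →₀ ℂ) :
    ip (Finsupp.single n a) q = conj a * q n := by
  unfold ip
  rw [Finsupp.sum_single_index (by simp)]
theorem ips_single_left (n : ℤ) (a : ℂ) (q : ℤ →₀ ℂ) :
    ips (Finsupp.single n a) q = conj a * q (n + 2) := by
  unfold ips
  rw [Finsupp.sum_single_index (by simp)]
theorem pr_single_left (n : ℤ) (a : ℂ) (f : ℤ → ℂ) :
    pr (Finsupp.single n a) f = a * f (-n) := by
  unfold pr
  rw [Finsupp.sum_single_index (by simp)]

theorem ips_fs_eq (o : ℤ) (a : List GI) (q : ℤ →₀ ℂ) : ips (fs o a) q = ip (fs (o + 2) a) q := by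
  induction a generalizing o with
  | nil => rw [fs_nil, fs_nil, ips_zero_left, ip_zero_left]
  | cons x a ih =>
    rw [fs_cons, fs_cons, ips_add_left, ip_add_left, ips_single_left, ip_single_left, ih]
    congr 3
    ring

theorem pdot_nil_left (b : List GI) : pdot [] b = GI.zero := rfl
theorem pdot_nil_right (a : List GI) : pdot a [] = GI.zero := by
  cases a <;> rfl
theorem pdot_cons (x y : GI) (a b : List GI) :
    pdot (x :: a) (y :: b) = gadd (gcmul x y) (pdot a b) := rfl

theorem pdot_toC (a b : List GI) :
    (pdot a b).toC = ∑ i ∈ Finset.range a.length, conj (co a i) * co b i := by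
  induction a generalizing b with
  | nil => rw [pdot_nil_left, toC_zero]; simp
  | cons x a ih =>
    rw [List.length_cons, Finset.sum_range_succ']
    cases b with
    | nil =>
      rw [pdot_nil_right, toC_zero]
      simp [co_nil]
    | cons y b =>
      rw [pdot_cons, toC_gadd, toC_gcmul, ih, co_cons_zero, co_cons_zero, add_comm]
      congr 1

theorem ip_fs_sum (o : ℤ) (a : List GI) (q : ℤ →₀ ℂ) :
    ip (fs o a) q = ∑ i ∈ Finset.range a.length, conj (co a i) * q (o + i) := by
  induction a generalizing o with
  | nil => rw [fs_nil, ip_zero_left]; simp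
  | cons x a ih =>
    rw [fs_cons, ip_add_left, ip_single_left, ih, List.length_cons, Finset.sum_range_succ',
      add_comm]
    congr 1
    · refine Finset.sum_congr rfl fun i _ => ?_
      rw [co_cons_succ]
      congr 2
      push_cast
      ring
    · rw [co_cons_zero]
      simp

theorem pr_fs_sum (o : ℤ) (a : List GI) (f : ℤ → ℂ) :
    pr (fs o a) f = ∑ i ∈ Finset.range a.length, co a i * f (-(o + i)) := by
  induction a generalizing o with
  | nil => rw [fs_nil, pr_zero_left]; simp
  | cons x a ih =>
    rw [fs_cons, pr_add, pr_single_left, ih, List.length_cons, Finset.sum_range_succ', add_comm]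
    congr 1
    · refine Finset.sum_congr rfl fun i _ => ?_
      rw [co_cons_succ]
      congr 2
      push_cast
      ring
    · rw [co_cons_zero]
      simp

theorem ip_fs (o : ℤ) (k : ℕ) (a p : List GI) :
    ip (fs o a) (fs (o - k) p) = (pdot a (pdrop k p)).toC := by
  rw [ip_fs_sum, pdot_toC]
  refine Finset.sum_congr rfl fun i _ => ?_
  rw [fs_apply, if_pos (by omega), co_pdrop]
  congr 2
  omega
theorem ip_self_fs (o : ℤ) (a : List GI) (acc : ℤ) :
    ((nrm a acc : ℤ) : ℝ) = acc + (ip (fs o a) (fs o a)).re := by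
  have h : ip (fs o a) (fs o a) = (pdot a a).toC := by
    have h1 := ip_fs o 0 a a
    rw [Nat.cast_zero, sub_zero] at h1
    exact h1
  rw [h]
  clear h
  induction a with
  | nil =>
    rw [pdot_nil_left, toC_zero]
    change ((acc : ℤ) : ℝ) = _
    simp
  | cons x a ih =>
    rw [pdot_cons, toC_gadd, toC_gcmul]
    have hn : nrm (x :: a) acc = iadd (iadd (imul x.r x.r) (imul x.i x.i)) (nrm a acc) := rfl
    rw [hn, iadd_eq, iadd_eq, imul_eq, imul_eq]
    push_cast
    rw [ih, Complex.add_re, Complex.mul_re, Complex.conj_re, Complex.conj_im]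
    change (x.r : ℝ) * x.r + x.i * x.i + _ = _
    have h1 : x.toC.re = x.r := rfl
    have h2 : x.toC.im = x.i := rfl
    rw [h1, h2]
    ring

theorem ip_fs_right (o : ℤ) (k : ℕ) (a p : List GI) :
    ip (fs o a) (fs (o + k) p) = (pdot (pdrop k a) p).toC := by
  induction k generalizing o a with
  | zero =>
    have h1 := ip_fs o 0 a p
    rw [Nat.cast_zero, sub_zero] at h1
    rw [Nat.cast_zero, add_zero]
    exact h1
  | succ k ih =>
    cases a with
    | nil =>
      change _ = (pdot [] p).toC
      rw [fs_nil, ip_zero_left, pdot_nil_left, toC_zero]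
    | cons x a =>
      change _ = (pdot (pdrop k a) p).toC
      rw [fs_cons, ip_add_left, ip_single_left, fs_apply, if_neg (by push_cast; omega), mul_zero,
        zero_add, ← ih (o + 1)]
      congr 2
      push_cast
      ring

/-- alignment used by `crossE`. -/
theorem ips_fs (nG nH : ℕ) (a p : List GI) :
    ips (fs (-(nG : ℤ)) a) (fs (1 - (nH : ℤ)) p) =
      (pdot (pdrop (Nat.sub nG (Nat.succ nH)) a) (pdrop (Nat.sub (Nat.succ nH) nG) p)).toC := by
  rw [ips_fs_eq]
  have e1 : Nat.sub nG (Nat.succ nH) = nG - (nH + 1) := rfl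
  have e2 : Nat.sub (Nat.succ nH) nG = (nH + 1) - nG := rfl
  rw [e1, e2]
  rcases le_total nG (nH + 1) with h | h
  · have h1 : nG - (nH + 1) = 0 := by omega
    rw [h1]
    change _ = (pdot a (pdrop (nH + 1 - nG) p)).toC
    rw [← ip_fs (-(nG : ℤ) + 2) (nH + 1 - nG) a p]
    congr 2
    omega
  · have h1 : nH + 1 - nG = 0 := by omega
    rw [h1]
    change _ = (pdot (pdrop (nG - (nH + 1)) a) p).toC
    rw [← ip_fs_right (-(nG : ℤ) + 2) (nG - (nH + 1)) a p]
    congr 2
    omega

theorem norm_ev_fs_le (o : ℤ) (X : List GI) {ζ : ℂ} (hζ : ‖ζ‖ = 1) :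
    8 * ‖ev (fs o X) ζ‖ ≤ (chiSum X : ℝ) := by
  induction X generalizing o with
  | nil =>
    rw [fs_nil, ev_zero, norm_zero, mul_zero]
    exact Nat.cast_nonneg _
  | cons x X ih =>
    rw [fs_cons, ev_add, ev_single]
    have hc : chiSum (x :: X) = gnw x + chiSum X := rfl
    rw [hc]
    push_cast
    have h1 : ‖x.toC * ζ ^ o‖ = ‖x.toC‖ := by
      rw [norm_mul, norm_zpow, hζ, one_zpow, mul_one]
    have h2 := norm_add_le (x.toC * ζ ^ o) (ev (fs (o + 1) X) ζ)
    rw [h1] at h2
    linarith [norm_le_gnw x, ih (o + 1)]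

/-- **splitting** of a pairing into the left part (`n = s + i`) and the right part (`n = s - 1 - i`). -/
theorem pr_split (s : ℤ) (nL : ℕ) (l : List GI) (g : Bool → ℕ → ℂ) {NL NR : ℕ}
    (hL : (psideL nL l).length ≤ NL) (hR : (pdrop nL l).length ≤ NR) :
    pr (fs (1 - s - nL) l) (sq s g) =
      ∑ i ∈ Finset.range NL, co (psideL nL l) i * g true i +
        ∑ i ∈ Finset.range NR, co (pdrop nL l) i * g false i := by
  have hlen : (pdrop nL l).length = l.length - nL := length_pdrop nL l
  rw [pr_fs_sum, sum_co (g true) hL (length_psideL_le nL l)]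
  have hN : l.length ≤ nL + NR := by omega
  rw [sum_co (fun i => sq s g (-(1 - s - (nL : ℤ) + i))) le_rfl hN, Finset.sum_range_add]
  congr 1
  · rw [← Finset.sum_range_reflect]
    refine Finset.sum_congr rfl fun i hi => ?_
    rw [Finset.mem_range] at hi
    rw [co_psideL, if_pos hi]
    congr 1
    unfold sq
    rw [if_pos (by omega)]
    congr 1
    omega
  · refine Finset.sum_congr rfl fun i _ => ?_
    rw [co_pdrop]
    congr 1
    unfold sq
    rw [if_neg (by push_cast; omega)]
    congr 1
    push_cast
    omega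

end MaxTerm.PB
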