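import Pool.Agent.MaxTerm.PB.SPolyA
import Pool.Agent.MaxTerm.PB.SPolyB

/-!
# Soundness of the checker, layer 3: Taylor models
-/

open Filter Topology ComplexConjugate

namespace MaxTerm.PB

/-- the parameters of a point of the cell. -/
structure Par where
  ε : ℂ
  θ : ℝ
  re_le : |ε.re| ≤ 1
  im_le : |ε.im| ≤ 1
  θ_le : |θ| ≤ 1

def UM.Ok (m : UM) (p : Par) (z : ℂ) : Prop :=
  ‖(2 : ℂ) ^ 30 * z - (m.c0.toC + p.ε * m.ce.toC)‖ ≤ m.rad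

def RM.Ok (m : RM) (p : Par) (x : ℝ) : Prop :=
  |(2 : ℝ) ^ 30 * x - (m.c0 + p.θ * m.cd)| ≤ m.rad

def TM.Ok (m : TM) (p : Par) (z : ℂ) : Prop :=
  ‖(2 : ℂ) ^ 30 * z - (m.c0.toC + p.ε * m.ce.toC + p.θ * m.cd.toC)‖ ≤ m.rad

def R3.Ok (m : R3) (p : Par) (z : ℂ) : Prop :=
  ‖(2 : ℂ) ^ 75 * z - (m.r0.toC + p.ε * m.re.toC + p.θ * m.rd.toC)‖ ≤ m.rr

/-- the value `(T0 + ε T1 + θ T2) / 2^45`. -/
noncomputable def tval (p : Par) (x0 x1 x2 : ℂ) : ℂ := (x0 + p.ε * x1 + p.θ * x2) / 2 ^ 45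

/-- entry of a list of contributions. -/
noncomputable def r3get (l : List R3) (i : ℕ) : R3 := l.getD i R3.zero

/-- payment of one mode. -/
noncomputable def payOne (x : R3) : ℕ := gab x.r0 + r2 (gab x.re) + (gab x.rd + x.rr)

end MaxTerm.PB
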