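import Pool.Agent.MaxTerm.PB.STM

/-!
# Soundness of the checker, layer 3a: Taylor model arithmetic
-/

open Filter Topology ComplexConjugate

namespace MaxTerm.PB

/-! ## auxiliary estimates -/

theorem Par.norm_ε_le (p : Par) : ‖p.ε‖ ≤ Real.sqrt 2 := by
  refine (Complex.norm_le_sqrt_two_mul_max _).trans ?_
  have h : max |p.ε.re| |p.ε.im| ≤ 1 := max_le p.re_le p.im_le
  calc Real.sqrt 2 * max |p.ε.re| |p.ε.im| ≤ Real.sqrt 2 * 1 :=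
        mul_le_mul_of_nonneg_left h (Real.sqrt_nonneg 2)
    _ = Real.sqrt 2 := mul_one _

theorem Par.norm_ε_mul_le (p : Par) (a : GI) : ‖p.ε * a.toC‖ ≤ (r2 (gab a) : ℝ) := by
  rw [norm_mul]
  refine le_trans ?_ (sqrt_two_mul_le_r2 (gab a))
  exact mul_le_mul p.norm_ε_le (norm_le_gab a) (norm_nonneg _) (Real.sqrt_nonneg 2)

theorem Par.norm_θ_le (p : Par) : ‖(p.θ : ℂ)‖ ≤ 1 := by
  rw [Complex.norm_real, Real.norm_eq_abs]
  exact p.θ_le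

theorem Par.norm_θ_mul_le (p : Par) (a : GI) : ‖(p.θ : ℂ) * a.toC‖ ≤ (gab a : ℝ) := by
  rw [norm_mul]
  calc ‖(p.θ : ℂ)‖ * ‖a.toC‖ ≤ 1 * ‖a.toC‖ :=
        mul_le_mul_of_nonneg_right p.norm_θ_le (norm_nonneg _)
    _ = ‖a.toC‖ := one_mul _
    _ ≤ _ := norm_le_gab a

theorem norm_intCast_eq (a : ℤ) : ‖(a : ℂ)‖ = (iabs a : ℝ) := by
  rw [iabs_eq, Nat.cast_natAbs, Int.cast_abs, ← Complex.ofReal_intCast, Complex.norm_real,
    Real.norm_eq_abs]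

theorem abs_intCast_eq (a : ℤ) : |(a : ℝ)| = (iabs a : ℝ) := by
  rw [iabs_eq, Nat.cast_natAbs, Int.cast_abs]

theorem Par.norm_θ_mul_int_le (p : Par) (a : ℤ) : ‖(p.θ : ℂ) * (a : ℂ)‖ ≤ (iabs a : ℝ) := by
  rw [norm_mul, norm_intCast_eq]
  calc ‖(p.θ : ℂ)‖ * (iabs a : ℝ) ≤ 1 * (iabs a : ℝ) :=
        mul_le_mul_of_nonneg_right p.norm_θ_le (Nat.cast_nonneg _)
    _ = _ := one_mul _

theorem nat_div_bound (N : ℕ) : (N : ℝ) ≤ 2 ^ 30 * (((N / 1073741824 : ℕ) : ℝ) + 1) := by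
  have h : N ≤ 1073741824 * (N / 1073741824 + 1) := by omega
  have h' : (N : ℝ) ≤ ((1073741824 * (N / 1073741824 + 1) : ℕ) : ℝ) := by exact_mod_cast h
  push_cast at h'
  norm_num at h' ⊢
  exact h'

theorem sqrt_two_le : Real.sqrt 2 ≤ 3 / 2 - 1 / 12 := by
  rw [Real.sqrt_le_left (by norm_num)]
  norm_num

theorem norm_two_pow (k : ℕ) : ‖(2 : ℂ) ^ k‖ = 2 ^ k := by
  rw [norm_pow, Complex.norm_ofNat]

/-- a bound of `2^30 z` gives a bound of `z`. -/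
theorem norm_le_of_scaled {z : ℂ} {r : ℝ} (h : ‖(2 : ℂ) ^ 30 * z‖ ≤ 2 ^ 30 * r) : ‖z‖ ≤ r := by
  rw [norm_mul, norm_two_pow] at h
  exact le_of_mul_le_mul_left h (by positivity)

/-- product of two approximate numbers: the remainder. -/
theorem prod_error {A B α β : ℂ} {ar br AA BB : ℝ} (hα : ‖α‖ ≤ ar) (hβ : ‖β‖ ≤ br)
    (hA : ‖A‖ ≤ AA) (hB : ‖B‖ ≤ BB) :
    ‖(A + α) * (B + β) - A * B‖ ≤ ar * (BB + br) + br * AA := by
  have har : 0 ≤ ar := (norm_nonneg _).trans hα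
  have hbr : 0 ≤ br := (norm_nonneg _).trans hβ
  have h : (A + α) * (B + β) - A * B = α * (B + β) + β * A := by ring
  rw [h]
  refine (norm_add_le _ _).trans ?_
  rw [norm_mul, norm_mul]
  have h1 : ‖B + β‖ ≤ BB + br := (norm_add_le _ _).trans (add_le_add hB hβ)
  exact add_le_add (mul_le_mul hα h1 (norm_nonneg _) har) (mul_le_mul hβ hA (norm_nonneg _) hbr)

theorem umul_ok {a b : UM} {p : Par} {x y : ℂ} (ha : a.Ok p x) (hb : b.Ok p y) :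
    (umul a b).Ok p (x * y) := by
  obtain ⟨a0, ae, ar⟩ := a
  obtain ⟨b0, be, br⟩ := b
  change ‖(2 : ℂ) ^ 30 * x - (a0.toC + p.ε * ae.toC)‖ ≤ (ar : ℝ) at ha
  change ‖(2 : ℂ) ^ 30 * y - (b0.toC + p.ε * be.toC)‖ ≤ (br : ℝ) at hb
  change ‖(2 : ℂ) ^ 30 * (x * y) - ((gsh (gmul a0 b0)).toC +
    p.ε * (gsh (gadd (gmul a0 be) (gmul ae b0))).toC)‖ ≤
    ((5 + ((r2 (gab ae) * r2 (gab be)) + ar * (gab b0 + (r2 (gab be) + br)) +
      br * (gab a0 + r2 (gab ae))) / 1073741824 : ℕ) : ℝ)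
  have hs0 := norm_gsh (gmul a0 b0)
  have hs1 := norm_gsh (gadd (gmul a0 be) (gmul ae b0))
  rw [toC_gmul] at hs0
  rw [toC_gadd, toC_gmul, toC_gmul] at hs1
  set α := (2 : ℂ) ^ 30 * x - (a0.toC + p.ε * ae.toC) with hα
  set β := (2 : ℂ) ^ 30 * y - (b0.toC + p.ε * be.toC) with hβ
  set c0 := (gsh (gmul a0 b0)).toC
  set ce := (gsh (gadd (gmul a0 be) (gmul ae b0))).toC
  have hA : ‖a0.toC + p.ε * ae.toC‖ ≤ gab a0 + r2 (gab ae) :=
    (norm_add_le _ _).trans (add_le_add (norm_le_gab _) (p.norm_ε_mul_le _))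
  have hB : ‖b0.toC + p.ε * be.toC‖ ≤ gab b0 + r2 (gab be) :=
    (norm_add_le _ _).trans (add_le_add (norm_le_gab _) (p.norm_ε_mul_le _))
  have hP := prod_error ha hb hA hB
  have hE : ‖(p.ε * ae.toC) * (p.ε * be.toC)‖ ≤ r2 (gab ae) * r2 (gab be) := by
    rw [norm_mul]
    exact mul_le_mul (p.norm_ε_mul_le _) (p.norm_ε_mul_le _) (norm_nonneg _) (Nat.cast_nonneg _)
  have hR0 : ‖a0.toC * b0.toC - 2 ^ 30 * c0‖ ≤ 2 ^ 30 * Real.sqrt 2 := by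
    rw [norm_sub_rev]
    exact hs0
  have hR1 : ‖p.ε * ((a0.toC * be.toC + ae.toC * b0.toC) - 2 ^ 30 * ce)‖ ≤
      Real.sqrt 2 * (2 ^ 30 * Real.sqrt 2) := by
    rw [norm_mul]
    refine mul_le_mul p.norm_ε_le ?_ (norm_nonneg _) (Real.sqrt_nonneg 2)
    rw [norm_sub_rev]
    exact hs1
  apply norm_le_of_scaled
  have key : (2 : ℂ) ^ 30 * ((2 : ℂ) ^ 30 * (x * y) - (c0 + p.ε * ce)) =
      (((a0.toC + p.ε * ae.toC) + α) * ((b0.toC + p.ε * be.toC) + β) -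
        (a0.toC + p.ε * ae.toC) * (b0.toC + p.ε * be.toC)) +
      (p.ε * ae.toC) * (p.ε * be.toC) + (a0.toC * b0.toC - 2 ^ 30 * c0) +
      p.ε * ((a0.toC * be.toC + ae.toC * b0.toC) - 2 ^ 30 * ce) := by
    rw [hα, hβ]
    ring
  rw [key]
  have h2 : Real.sqrt 2 * Real.sqrt 2 = 2 := Real.mul_self_sqrt (by norm_num)
  have h3 := sqrt_two_le
  have hd := nat_div_bound ((r2 (gab ae) * r2 (gab be)) + ar * (gab b0 + (r2 (gab be) + br)) +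
      br * (gab a0 + r2 (gab ae)))
  refine (norm_add_le _ _).trans ?_
  refine (add_le_add ((norm_add_le _ _).trans (add_le_add ((norm_add_le _ _).trans
    (add_le_add hP hE)) hR0)) hR1).trans ?_
  push_cast at hd ⊢
  have h4 : Real.sqrt 2 * (2 ^ 30 * Real.sqrt 2) = 2 ^ 30 * 2 := by
    rw [mul_left_comm, h2]
  rw [h4]
  have h5 : (2 : ℝ) ^ 30 * Real.sqrt 2 ≤ 2 ^ 30 * 2 := by
    apply mul_le_mul_of_nonneg_left _ (by positivity)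
    linarith
  linarith

theorem rmul_ok {a b : RM} {p : Par} {x y : ℝ} (ha : a.Ok p x) (hb : b.Ok p y) :
    (rmul a b).Ok p (x * y) := by
  obtain ⟨a0, ad, ar⟩ := a
  obtain ⟨b0, bd, br⟩ := b
  change |(2 : ℝ) ^ 30 * x - (a0 + p.θ * ad)| ≤ (ar : ℝ) at ha
  change |(2 : ℝ) ^ 30 * y - (b0 + p.θ * bd)| ≤ (br : ℝ) at hb
  change |(2 : ℝ) ^ 30 * (x * y) - ((ish (imul a0 b0) : ℝ) +
    p.θ * (ish (iadd (imul a0 bd) (imul ad b0)) : ℝ))| ≤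
    ((3 + ((iabs ad * iabs bd) + ar * (iabs b0 + (iabs bd + br)) +
      br * (iabs a0 + iabs ad)) / 1073741824 : ℕ) : ℝ)
  have i1 := ish_le (imul a0 b0)
  have i2 := lt_ish (imul a0 b0)
  have j1 := ish_le (iadd (imul a0 bd) (imul ad b0))
  have j2 := lt_ish (iadd (imul a0 bd) (imul ad b0))
  set c0 : ℤ := ish (imul a0 b0)
  set cd : ℤ := ish (iadd (imul a0 bd) (imul ad b0))
  rw [imul_eq] at i1 i2
  rw [iadd_eq, imul_eq, imul_eq] at j1 j2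
  push_cast at i1 i2 j1 j2
  set α := (2 : ℝ) ^ 30 * x - (a0 + p.θ * ad) with hα
  set β := (2 : ℝ) ^ 30 * y - (b0 + p.θ * bd) with hβ
  have hθ := p.θ_le
  have t1 : |p.θ * ad| ≤ (iabs ad : ℝ) := by
    rw [abs_mul, abs_intCast_eq]
    exact mul_le_of_le_one_left (Nat.cast_nonneg _) hθ
  have t2 : |p.θ * bd| ≤ (iabs bd : ℝ) := by
    rw [abs_mul, abs_intCast_eq]
    exact mul_le_of_le_one_left (Nat.cast_nonneg _) hθ
  have hA : |(a0 : ℝ) + p.θ * ad| ≤ iabs a0 + iabs ad :=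
    (abs_add_le _ _).trans (add_le_add (abs_intCast_eq a0).le t1)
  have hB : |(b0 : ℝ) + p.θ * bd| ≤ iabs b0 + iabs bd :=
    (abs_add_le _ _).trans (add_le_add (abs_intCast_eq b0).le t2)
  have har : (0 : ℝ) ≤ ar := Nat.cast_nonneg _
  have hbr : (0 : ℝ) ≤ br := Nat.cast_nonneg _
  have hP : |α * (((b0 : ℝ) + p.θ * bd) + β) + β * ((a0 : ℝ) + p.θ * ad)| ≤
      ar * (iabs b0 + iabs bd + br) + br * (iabs a0 + iabs ad) := by
    refine (abs_add_le _ _).trans ?_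
    rw [abs_mul, abs_mul]
    refine add_le_add (mul_le_mul ha ((abs_add_le _ _).trans (add_le_add hB hb)) (abs_nonneg _) har)
      (mul_le_mul hb hA (abs_nonneg _) hbr)
  have hE : |(p.θ * ad) * (p.θ * bd)| ≤ iabs ad * iabs bd := by
    rw [abs_mul]
    exact mul_le_mul t1 t2 (abs_nonneg _) (Nat.cast_nonneg _)
  have hR0 : |(a0 : ℝ) * b0 - 2 ^ 30 * c0| ≤ 2 ^ 30 := by
    rw [abs_le]
    constructor <;> linarith
  have hR1 : |p.θ * (((a0 : ℝ) * bd + ad * b0) - 2 ^ 30 * cd)| ≤ 2 ^ 30 := by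
    rw [abs_mul]
    have h : |((a0 : ℝ) * bd + ad * b0) - 2 ^ 30 * cd| ≤ 2 ^ 30 := by
      rw [abs_le]
      constructor <;> linarith
    calc |p.θ| * |((a0 : ℝ) * bd + ad * b0) - 2 ^ 30 * cd| ≤ 1 * 2 ^ 30 :=
          mul_le_mul hθ h (abs_nonneg _) zero_le_one
      _ = 2 ^ 30 := one_mul _
  have key : (2 : ℝ) ^ 30 * ((2 : ℝ) ^ 30 * (x * y) - ((c0 : ℝ) + p.θ * cd)) =
      (α * (((b0 : ℝ) + p.θ * bd) + β) + β * ((a0 : ℝ) + p.θ * ad)) +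
      (p.θ * ad) * (p.θ * bd) + ((a0 : ℝ) * b0 - 2 ^ 30 * c0) +
      p.θ * (((a0 : ℝ) * bd + ad * b0) - 2 ^ 30 * cd) := by
    rw [hα, hβ]
    ring
  have hd := nat_div_bound ((iabs ad * iabs bd) + ar * (iabs b0 + (iabs bd + br)) +
      br * (iabs a0 + iabs ad))
  have hfin : |(2 : ℝ) ^ 30 * ((2 : ℝ) ^ 30 * (x * y) - ((c0 : ℝ) + p.θ * cd))| ≤
      2 ^ 30 * ((3 + ((iabs ad * iabs bd) + ar * (iabs b0 + (iabs bd + br)) +
      br * (iabs a0 + iabs ad)) / 1073741824 : ℕ) : ℝ) := by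
    rw [key]
    refine (abs_add_le _ _).trans ?_
    refine (add_le_add ((abs_add_le _ _).trans (add_le_add ((abs_add_le _ _).trans
      (add_le_add hP hE)) hR0)) hR1).trans ?_
    push_cast at hd ⊢
    linarith
  rw [abs_mul, abs_of_pos (by positivity : (0 : ℝ) < 2 ^ 30)] at hfin
  exact le_of_mul_le_mul_left hfin (by positivity)

theorem umulR_ok {a : UM} {b : RM} {p : Par} {x : ℂ} {y : ℝ} (ha : a.Ok p x) (hb : b.Ok p y) :
    (umulR a b).Ok p (x * y) := by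
  obtain ⟨a0, ae, ar⟩ := a
  obtain ⟨b0, bd, br⟩ := b
  change ‖(2 : ℂ) ^ 30 * x - (a0.toC + p.ε * ae.toC)‖ ≤ (ar : ℝ) at ha
  change |(2 : ℝ) ^ 30 * y - (b0 + p.θ * bd)| ≤ (br : ℝ) at hb
  change ‖(2 : ℂ) ^ 30 * (x * y) - ((gsh (gsm b0 a0)).toC +
    p.ε * (gsh (gsm b0 ae)).toC + p.θ * (gsh (gsm bd a0)).toC)‖ ≤
    ((6 + ((r2 (gab ae) * iabs bd) + ar * (iabs b0 + (iabs bd + br)) +
      br * (gab a0 + r2 (gab ae))) / 1073741824 : ℕ) : ℝ)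
  have hs0 := norm_gsh (gsm b0 a0)
  have hs1 := norm_gsh (gsm b0 ae)
  have hs2 := norm_gsh (gsm bd a0)
  rw [toC_gsm] at hs0 hs1 hs2
  set α := (2 : ℂ) ^ 30 * x - (a0.toC + p.ε * ae.toC) with hα
  have hb' : ‖(2 : ℂ) ^ 30 * (y : ℂ) - ((b0 : ℂ) + p.θ * (bd : ℂ))‖ ≤ (br : ℝ) := by
    have e : (2 : ℂ) ^ 30 * (y : ℂ) - ((b0 : ℂ) + p.θ * (bd : ℂ)) =
        (((2 : ℝ) ^ 30 * y - (b0 + p.θ * bd) : ℝ) : ℂ) := by
      push_cast
      ring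
    rw [e, Complex.norm_real, Real.norm_eq_abs]
    exact hb
  set β := (2 : ℂ) ^ 30 * (y : ℂ) - ((b0 : ℂ) + p.θ * (bd : ℂ)) with hβ
  set c0 := (gsh (gsm b0 a0)).toC
  set ce := (gsh (gsm b0 ae)).toC
  set cd := (gsh (gsm bd a0)).toC
  have hA : ‖a0.toC + p.ε * ae.toC‖ ≤ gab a0 + r2 (gab ae) :=
    (norm_add_le _ _).trans (add_le_add (norm_le_gab _) (p.norm_ε_mul_le _))
  have hB : ‖(b0 : ℂ) + p.θ * (bd : ℂ)‖ ≤ iabs b0 + iabs bd :=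
    (norm_add_le _ _).trans (add_le_add (norm_intCast_eq b0).le (p.norm_θ_mul_int_le bd))
  have hP := prod_error ha hb' hA hB
  have hE : ‖(p.ε * ae.toC) * (p.θ * (bd : ℂ))‖ ≤ r2 (gab ae) * iabs bd := by
    rw [norm_mul]
    exact mul_le_mul (p.norm_ε_mul_le _) (p.norm_θ_mul_int_le _) (norm_nonneg _) (Nat.cast_nonneg _)
  have hR0 : ‖(b0 : ℂ) * a0.toC - 2 ^ 30 * c0‖ ≤ 2 ^ 30 * Real.sqrt 2 := by
    rw [norm_sub_rev]
    exact hs0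
  have hR1 : ‖p.ε * ((b0 : ℂ) * ae.toC - 2 ^ 30 * ce)‖ ≤
      Real.sqrt 2 * (2 ^ 30 * Real.sqrt 2) := by
    rw [norm_mul]
    refine mul_le_mul p.norm_ε_le ?_ (norm_nonneg _) (Real.sqrt_nonneg 2)
    rw [norm_sub_rev]
    exact hs1
  have hR2 : ‖(p.θ : ℂ) * ((bd : ℂ) * a0.toC - 2 ^ 30 * cd)‖ ≤ 1 * (2 ^ 30 * Real.sqrt 2) := by
    rw [norm_mul]
    refine mul_le_mul p.norm_θ_le ?_ (norm_nonneg _) zero_le_one
    rw [norm_sub_rev]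
    exact hs2
  apply norm_le_of_scaled
  have key : (2 : ℂ) ^ 30 * ((2 : ℂ) ^ 30 * (x * y) - (c0 + p.ε * ce + p.θ * cd)) =
      (((a0.toC + p.ε * ae.toC) + α) * (((b0 : ℂ) + p.θ * (bd : ℂ)) + β) -
        (a0.toC + p.ε * ae.toC) * ((b0 : ℂ) + p.θ * (bd : ℂ))) +
      (p.ε * ae.toC) * (p.θ * (bd : ℂ)) + ((b0 : ℂ) * a0.toC - 2 ^ 30 * c0) +
      p.ε * ((b0 : ℂ) * ae.toC - 2 ^ 30 * ce) +
      (p.θ : ℂ) * ((bd : ℂ) * a0.toC - 2 ^ 30 * cd) := by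
    rw [hα, hβ]
    ring
  rw [key]
  have h2 : Real.sqrt 2 * Real.sqrt 2 = 2 := Real.mul_self_sqrt (by norm_num)
  have h3 := sqrt_two_le
  have hd := nat_div_bound ((r2 (gab ae) * iabs bd) + ar * (iabs b0 + (iabs bd + br)) +
      br * (gab a0 + r2 (gab ae)))
  refine (norm_add_le _ _).trans ?_
  refine (add_le_add ((norm_add_le _ _).trans (add_le_add ((norm_add_le _ _).trans
    (add_le_add ((norm_add_le _ _).trans (add_le_add hP hE)) hR0)) hR1)) hR2).trans ?_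
  push_cast at hd ⊢
  have h4 : Real.sqrt 2 * (2 ^ 30 * Real.sqrt 2) = 2 ^ 30 * 2 := by
    rw [mul_left_comm, h2]
  rw [h4]
  have h5 : (2 : ℝ) ^ 30 * Real.sqrt 2 ≤ 2 ^ 30 * (3 / 2) := by
    apply mul_le_mul_of_nonneg_left _ (by positivity)
    linarith
  linarith

/-! ## powers -/

theorem UM.one_ok (p : Par) : UM.one.Ok p 1 := by
  change ‖(2 : ℂ) ^ 30 * 1 - (GI.toC ⟨Int.ofNat 1073741824, Int.ofNat 0⟩ +
    p.ε * GI.zero.toC)‖ ≤ ((0 : ℕ) : ℝ)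
  have h : GI.toC ⟨Int.ofNat 1073741824, Int.ofNat 0⟩ = (2 : ℂ) ^ 30 := by
    apply Complex.ext
    · change ((Int.ofNat 1073741824 : ℤ) : ℝ) = _
      rw [← Complex.ofReal_ofNat, ← Complex.ofReal_pow, Complex.ofReal_re]
      norm_num
    · change ((Int.ofNat 0 : ℤ) : ℝ) = _
      rw [← Complex.ofReal_ofNat, ← Complex.ofReal_pow, Complex.ofReal_im]
      norm_num
  rw [h, toC_zero]
  simp

theorem UM.junk_ok (p : Par) {z : ℂ} (hz : ‖z‖ ≤ 1) : UM.junk.Ok p z := by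
  change ‖(2 : ℂ) ^ 30 * z - (GI.zero.toC + p.ε * GI.zero.toC)‖ ≤ ((1073741824 : ℕ) : ℝ)
  rw [toC_zero, mul_zero, add_zero, sub_zero, norm_mul, norm_two_pow]
  calc (2 : ℝ) ^ 30 * ‖z‖ ≤ 2 ^ 30 * 1 := mul_le_mul_of_nonneg_left hz (by positivity)
    _ = ((1073741824 : ℕ) : ℝ) := by norm_num

theorem RM.one_ok (p : Par) : RM.one.Ok p 1 := by
  change |(2 : ℝ) ^ 30 * 1 - (((Int.ofNat 1073741824 : ℤ) : ℝ) +
    p.θ * ((Int.ofNat 0 : ℤ) : ℝ))| ≤ ((0 : ℕ) : ℝ)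
  norm_num

theorem RM.junk_ok (p : Par) {z : ℝ} (hz : |z| ≤ 1) : RM.junk.Ok p z := by
  change |(2 : ℝ) ^ 30 * z - (((Int.ofNat 0 : ℤ) : ℝ) + p.θ * ((Int.ofNat 0 : ℤ) : ℝ))| ≤
    ((1073741824 : ℕ) : ℝ)
  have h0 : ((Int.ofNat 0 : ℤ) : ℝ) = 0 := by norm_num
  rw [h0, mul_zero, add_zero, sub_zero, abs_mul, abs_of_pos (by positivity : (0 : ℝ) < 2 ^ 30)]
  calc (2 : ℝ) ^ 30 * |z| ≤ 2 ^ 30 * 1 := mul_le_mul_of_nonneg_left hz (by positivity)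
    _ = ((1073741824 : ℕ) : ℝ) := by norm_num

theorem uget_upows_ok {x : UM} {p : Par} {u : ℂ} (hu : ‖u‖ ≤ 1) (hx : x.Ok p u) (n : ℕ) :
    ∀ (a : ℕ) (y : UM) (z : ℂ), ‖z‖ ≤ 1 → y.Ok p z → (uget a (upows x n y)).Ok p (z * u ^ a) := by
  have hpow : ∀ (a : ℕ) (z : ℂ), ‖z‖ ≤ 1 → ‖z * u ^ a‖ ≤ 1 := by
    intro a z hz
    rw [norm_mul, norm_pow]
    calc ‖z‖ * ‖u‖ ^ a ≤ 1 * 1 :=
          mul_le_mul hz (pow_le_one₀ (norm_nonneg _) hu) (by positivity) zero_le_one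
      _ = 1 := one_mul _
  induction n with
  | zero =>
    intro a y z hz _
    have h : uget a (upows x 0 y) = UM.junk := by
      cases a with
      | zero => rfl
      | succ a => rfl
    rw [h]
    exact UM.junk_ok p (hpow a z hz)
  | succ n ih =>
    intro a y z hz hy
    cases a with
    | zero =>
      have h : uget 0 (upows x (n + 1) y) = y := rfl
      rw [h, pow_zero, mul_one]
      exact hy
    | succ a =>
      have h : uget (a + 1) (upows x (n + 1) y) = uget a (upows x n (umul y x)) := rfl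
      rw [h]
      have h1 : z * u ^ (a + 1) = (z * u) * u ^ a := by ring
      rw [h1]
      refine ih a (umul y x) (z * u) ?_ (umul_ok hy hx)
      have := hpow 1 z hz
      rwa [pow_one] at this

theorem rget_rpows_ok {x : RM} {p : Par} {t : ℝ} (ht : |t| ≤ 1) (hx : x.Ok p t) (n : ℕ) :
    ∀ (a : ℕ) (y : RM) (z : ℝ), |z| ≤ 1 → y.Ok p z → (rget a (rpows x n y)).Ok p (z * t ^ a) := by
  have hpow : ∀ (a : ℕ) (z : ℝ), |z| ≤ 1 → |z * t ^ a| ≤ 1 := by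
    intro a z hz
    rw [abs_mul, abs_pow]
    calc |z| * |t| ^ a ≤ 1 * 1 :=
          mul_le_mul hz (pow_le_one₀ (abs_nonneg _) ht) (by positivity) zero_le_one
      _ = 1 := one_mul _
  induction n with
  | zero =>
    intro a y z hz _
    have h : rget a (rpows x 0 y) = RM.junk := by
      cases a with
      | zero => rfl
      | succ a => rfl
    rw [h]
    exact RM.junk_ok p (hpow a z hz)
  | succ n ih =>
    intro a y z hz hy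
    cases a with
    | zero =>
      have h : rget 0 (rpows x (n + 1) y) = y := rfl
      rw [h, pow_zero, mul_one]
      exact hy
    | succ a =>
      have h : rget (a + 1) (rpows x (n + 1) y) = rget a (rpows x n (rmul y x)) := rfl
      rw [h]
      have h1 : z * t ^ (a + 1) = (z * t) * t ^ a := by ring
      rw [h1]
      refine ih a (rmul y x) (z * t) ?_ (rmul_ok hy hx)
      have := hpow 1 z hz
      rwa [pow_one] at this

theorem uget_ok {p : Par} {u0 : GI} {h : ℤ} {u : ℂ} (hu : ‖u‖ ≤ 1)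
    (hux : (2 : ℂ) ^ 30 * u = u0.toC + p.ε * h) (n a : ℕ) :
    (uget a (upows ⟨u0, ⟨h, Int.ofNat 0⟩, 0⟩ n UM.one)).Ok p (u ^ a) := by
  have hx : UM.Ok ⟨u0, ⟨h, Int.ofNat 0⟩, 0⟩ p u := by
    change ‖(2 : ℂ) ^ 30 * u - (u0.toC + p.ε * GI.toC ⟨h, Int.ofNat 0⟩)‖ ≤ ((0 : ℕ) : ℝ)
    have e : GI.toC ⟨h, Int.ofNat 0⟩ = (h : ℂ) := by
      apply Complex.ext
      · change (h : ℝ) = _
        simp
      · change ((Int.ofNat 0 : ℤ) : ℝ) = _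
        simp
    rw [e, hux]
    simp
  have := uget_upows_ok hu hx n a UM.one 1 (by simp) (UM.one_ok p)
  rwa [one_mul] at this

theorem rget_ok {p : Par} {t0 ht : ℤ} {t : ℝ} (h0 : 0 ≤ t) (h1 : t ≤ 1)
    (htx : (2 : ℝ) ^ 30 * t = t0 + p.θ * ht) (n b : ℕ) :
    (rget b (rpows ⟨t0, ht, 0⟩ n RM.one)).Ok p (t ^ b) := by
  have hx : RM.Ok ⟨t0, ht, 0⟩ p t := by
    change |(2 : ℝ) ^ 30 * t - ((t0 : ℝ) + p.θ * (ht : ℝ))| ≤ ((0 : ℕ) : ℝ)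
    rw [htx]
    simp
  have ht' : |t| ≤ 1 := by rwa [abs_of_nonneg h0]
  have := rget_rpows_ok ht' hx n b RM.one 1 (by simp) (RM.one_ok p)
  rwa [one_mul] at this

/-! ## contributions -/

theorem toC_gsm_pow (t : GI) : (gsm (Int.ofNat 1073741824) t).toC = (2 : ℂ) ^ 30 * t.toC := by
  rw [toC_gsm]
  congr 1
  have : (((Int.ofNat 1073741824 : ℤ)) : ℂ) = ((1073741824 : ℕ) : ℂ) := by
    rw [Int.ofNat_eq_natCast, Int.cast_natCast]
  rw [this]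
  norm_num

theorem two_pow_75_mul_tval (p : Par) (z x0 x1 x2 : ℂ) :
    (2 : ℂ) ^ 75 * (z * tval p x0 x1 x2) = ((2 : ℂ) ^ 30 * z) * (x0 + p.ε * x1 + p.θ * x2) := by
  rw [tval]
  have h : (2 : ℂ) ^ 75 = 2 ^ 30 * 2 ^ 45 := by rw [← pow_add]
  have h45 : (2 : ℂ) ^ 45 ≠ 0 := pow_ne_zero _ two_ne_zero
  rw [h]
  field_simp

theorem r3one_ok (p : Par) (t0 t1 t2 : GI) :
    (r3one t0 t1 t2).Ok p (tval p t0.toC t1.toC t2.toC) := by
  change ‖(2 : ℂ) ^ 75 * tval p t0.toC t1.toC t2.toC -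
    ((gsm (Int.ofNat 1073741824) t0).toC + p.ε * (gsm (Int.ofNat 1073741824) t1).toC +
      p.θ * (gsm (Int.ofNat 1073741824) t2).toC)‖ ≤ ((0 : ℕ) : ℝ)
  have h := two_pow_75_mul_tval p 1 t0.toC t1.toC t2.toC
  rw [one_mul, mul_one] at h
  rw [h, toC_gsm_pow, toC_gsm_pow, toC_gsm_pow]
  have e : (2 : ℂ) ^ 30 * (t0.toC + p.ε * t1.toC + p.θ * t2.toC) -
      (2 ^ 30 * t0.toC + p.ε * (2 ^ 30 * t1.toC) + p.θ * (2 ^ 30 * t2.toC)) = 0 := by ring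
  rw [e]
  simp

/-- bound of `ε T1 + θ T2`. -/
theorem norm_q_le (p : Par) (t1 t2 : GI) :
    ‖p.ε * t1.toC + p.θ * t2.toC‖ ≤ ((r2 (gab t1) + gab t2 : ℕ) : ℝ) := by
  push_cast
  exact (norm_add_le _ _).trans (add_le_add (p.norm_ε_mul_le _) (p.norm_θ_mul_le _))

theorem norm_t_le (p : Par) (t0 t1 t2 : GI) :
    ‖t0.toC + p.ε * t1.toC + p.θ * t2.toC‖ ≤ ((gab t0 + (r2 (gab t1) + gab t2) : ℕ) : ℝ) := by
  rw [add_assoc]
  have h := norm_q_le p t1 t2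
  push_cast at h ⊢
  exact (norm_add_le _ _).trans (add_le_add (norm_le_gab _) h)

theorem r3U_ok {s : UM} {p : Par} {z : ℂ} (hs : s.Ok p z) (t0 t1 t2 : GI) :
    (r3U s t0 t1 t2).Ok p (z * tval p t0.toC t1.toC t2.toC) := by
  obtain ⟨s0, se, sr⟩ := s
  change ‖(2 : ℂ) ^ 30 * z - (s0.toC + p.ε * se.toC)‖ ≤ (sr : ℝ) at hs
  change ‖(2 : ℂ) ^ 75 * (z * tval p t0.toC t1.toC t2.toC) -
    ((gmul s0 t0).toC + p.ε * (gadd (gmul s0 t1) (gmul se t0)).toC + p.θ * (gmul s0 t2).toC)‖ ≤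
    ((r2 (gab se) * (r2 (gab t1) + gab t2) + sr * (gab t0 + (r2 (gab t1) + gab t2)) : ℕ) : ℝ)
  rw [two_pow_75_mul_tval, toC_gmul, toC_gadd, toC_gmul, toC_gmul, toC_gmul]
  set σ := (2 : ℂ) ^ 30 * z - (s0.toC + p.ε * se.toC) with hσ
  have key : ((2 : ℂ) ^ 30 * z) * (t0.toC + p.ε * t1.toC + p.θ * t2.toC) -
      (s0.toC * t0.toC + p.ε * (s0.toC * t1.toC + se.toC * t0.toC) + p.θ * (s0.toC * t2.toC)) =
      (p.ε * se.toC) * (p.ε * t1.toC + p.θ * t2.toC) +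
      σ * (t0.toC + p.ε * t1.toC + p.θ * t2.toC) := by
    rw [hσ]
    ring
  rw [key]
  refine (norm_add_le _ _).trans ?_
  rw [norm_mul, norm_mul σ]
  have h1 := mul_le_mul (p.norm_ε_mul_le se) (norm_q_le p t1 t2) (norm_nonneg _) (Nat.cast_nonneg _)
  have h2 := mul_le_mul hs (norm_t_le p t0 t1 t2) (norm_nonneg _) (Nat.cast_nonneg _)
  have h3 := add_le_add h1 h2
  push_cast at h3 ⊢
  exact h3

theorem r3R_ok {s : RM} {p : Par} {z : ℝ} (hs : s.Ok p z) (t0 t1 t2 : GI) :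
    (r3R s t0 t1 t2).Ok p (z * tval p t0.toC t1.toC t2.toC) := by
  obtain ⟨s0, sd, sr⟩ := s
  change |(2 : ℝ) ^ 30 * z - (s0 + p.θ * sd)| ≤ (sr : ℝ) at hs
  change ‖(2 : ℂ) ^ 75 * (z * tval p t0.toC t1.toC t2.toC) -
    ((gsm s0 t0).toC + p.ε * (gsm s0 t1).toC + p.θ * (gadd (gsm s0 t2) (gsm sd t0)).toC)‖ ≤
    ((iabs sd * (r2 (gab t1) + gab t2) + sr * (gab t0 + (r2 (gab t1) + gab t2)) : ℕ) : ℝ)
  rw [two_pow_75_mul_tval, toC_gadd, toC_gsm, toC_gsm, toC_gsm, toC_gsm]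
  have hs' : ‖(2 : ℂ) ^ 30 * (z : ℂ) - ((s0 : ℂ) + p.θ * (sd : ℂ))‖ ≤ (sr : ℝ) := by
    have e : (2 : ℂ) ^ 30 * (z : ℂ) - ((s0 : ℂ) + p.θ * (sd : ℂ)) =
        (((2 : ℝ) ^ 30 * z - (s0 + p.θ * sd) : ℝ) : ℂ) := by
      push_cast
      ring
    rw [e, Complex.norm_real, Real.norm_eq_abs]
    exact hs
  set σ := (2 : ℂ) ^ 30 * (z : ℂ) - ((s0 : ℂ) + p.θ * (sd : ℂ)) with hσ
  have key : ((2 : ℂ) ^ 30 * z) * (t0.toC + p.ε * t1.toC + p.θ * t2.toC) -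
      ((s0 : ℂ) * t0.toC + p.ε * ((s0 : ℂ) * t1.toC) +
        p.θ * ((s0 : ℂ) * t2.toC + (sd : ℂ) * t0.toC)) =
      (p.θ * (sd : ℂ)) * (p.ε * t1.toC + p.θ * t2.toC) +
      σ * (t0.toC + p.ε * t1.toC + p.θ * t2.toC) := by
    rw [hσ]
    ring
  rw [key]
  refine (norm_add_le _ _).trans ?_
  rw [norm_mul, norm_mul σ]
  have h1 := mul_le_mul (p.norm_θ_mul_int_le sd) (norm_q_le p t1 t2) (norm_nonneg _)
    (Nat.cast_nonneg _)
  have h2 := mul_le_mul hs' (norm_t_le p t0 t1 t2) (norm_nonneg _) (Nat.cast_nonneg _)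
  have h3 := add_le_add h1 h2
  push_cast at h3 ⊢
  exact h3

theorem r3T_ok {s : TM} {p : Par} {z : ℂ} (hs : s.Ok p z) (t0 t1 t2 : GI) :
    (r3T s t0 t1 t2).Ok p (z * tval p t0.toC t1.toC t2.toC) := by
  obtain ⟨s0, se, sd, sr⟩ := s
  change ‖(2 : ℂ) ^ 30 * z - (s0.toC + p.ε * se.toC + p.θ * sd.toC)‖ ≤ (sr : ℝ) at hs
  change ‖(2 : ℂ) ^ 75 * (z * tval p t0.toC t1.toC t2.toC) -
    ((gmul s0 t0).toC + p.ε * (gadd (gmul s0 t1) (gmul se t0)).toC +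
      p.θ * (gadd (gmul s0 t2) (gmul sd t0)).toC)‖ ≤
    (((r2 (gab se) + gab sd) * (r2 (gab t1) + gab t2) +
      sr * (gab t0 + (r2 (gab t1) + gab t2)) : ℕ) : ℝ)
  rw [two_pow_75_mul_tval, toC_gmul, toC_gadd, toC_gadd, toC_gmul, toC_gmul, toC_gmul, toC_gmul]
  set σ := (2 : ℂ) ^ 30 * z - (s0.toC + p.ε * se.toC + p.θ * sd.toC) with hσ
  have key : ((2 : ℂ) ^ 30 * z) * (t0.toC + p.ε * t1.toC + p.θ * t2.toC) -
      (s0.toC * t0.toC + p.ε * (s0.toC * t1.toC + se.toC * t0.toC) +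
        p.θ * (s0.toC * t2.toC + sd.toC * t0.toC)) =
      (p.ε * se.toC + p.θ * sd.toC) * (p.ε * t1.toC + p.θ * t2.toC) +
      σ * (t0.toC + p.ε * t1.toC + p.θ * t2.toC) := by
    rw [hσ]
    ring
  rw [key]
  refine (norm_add_le _ _).trans ?_
  rw [norm_mul, norm_mul σ]
  have h1 := mul_le_mul (norm_q_le p se sd) (norm_q_le p t1 t2) (norm_nonneg _) (Nat.cast_nonneg _)
  have h2 := mul_le_mul hs (norm_t_le p t0 t1 t2) (norm_nonneg _) (Nat.cast_nonneg _)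
  have h3 := add_le_add h1 h2
  push_cast at h3 ⊢
  exact h3

theorem r3sc_ok {U : List UM} {T : List RM} {p : Par} {u : ℂ} {t : ℝ}
    (hU : ∀ a, (uget a U).Ok p (u ^ a)) (hT : ∀ b, (rget b T).Ok p (t ^ b)) (a b : ℕ) (t0 t1 t2 : GI) :
    (r3sc U T a b t0 t1 t2).Ok p (u ^ a * (t : ℂ) ^ b * tval p t0.toC t1.toC t2.toC) := by
  cases a with
  | zero =>
    cases b with
    | zero =>
      have h : r3sc U T 0 0 t0 t1 t2 = r3one t0 t1 t2 := rfl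
      rw [h, pow_zero, pow_zero, one_mul, one_mul]
      exact r3one_ok p t0 t1 t2
    | succ b =>
      have h : r3sc U T 0 (b + 1) t0 t1 t2 = r3R (rget (b + 1) T) t0 t1 t2 := rfl
      rw [h, pow_zero, one_mul]
      have := r3R_ok (hT (b + 1)) t0 t1 t2
      push_cast at this
      exact this
  | succ a =>
    cases b with
    | zero =>
      have h : r3sc U T (a + 1) 0 t0 t1 t2 = r3U (uget (a + 1) U) t0 t1 t2 := rfl
      rw [h, pow_zero, mul_one]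
      exact r3U_ok (hU (a + 1)) t0 t1 t2
    | succ b =>
      have h : r3sc U T (a + 1) (b + 1) t0 t1 t2 =
        r3T (umulR (uget (a + 1) U) (rget (b + 1) T)) t0 t1 t2 := rfl
      rw [h]
      have := r3T_ok (umulR_ok (hU (a + 1)) (hT (b + 1))) t0 t1 t2
      push_cast at this
      exact this

theorem gab_zero : gab GI.zero = 0 := rfl

theorem r2_zero : r2 0 = 0 := rfl

theorem r3one0_ok (p : Par) (t0 : GI) : (r3one0 t0).Ok p (tval p t0.toC 0 0) := by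
  change ‖(2 : ℂ) ^ 75 * tval p t0.toC 0 0 -
    ((gsm (Int.ofNat 1073741824) t0).toC + p.ε * GI.zero.toC + p.θ * GI.zero.toC)‖ ≤ ((0 : ℕ) : ℝ)
  have h := two_pow_75_mul_tval p 1 t0.toC 0 0
  rw [one_mul, mul_one] at h
  rw [h, toC_gsm_pow, toC_zero]
  simp

theorem r3U0_ok {s : UM} {p : Par} {z : ℂ} (hs : s.Ok p z) (t0 : GI) :
    (r3U0 s t0).Ok p (z * tval p t0.toC 0 0) := by
  obtain ⟨s0, se, sr⟩ := s
  change ‖(2 : ℂ) ^ 30 * z - (s0.toC + p.ε * se.toC)‖ ≤ (sr : ℝ) at hs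
  change ‖(2 : ℂ) ^ 75 * (z * tval p t0.toC 0 0) -
    ((gmul s0 t0).toC + p.ε * (gmul se t0).toC + p.θ * GI.zero.toC)‖ ≤ ((sr * gab t0 : ℕ) : ℝ)
  rw [two_pow_75_mul_tval, toC_gmul, toC_gmul, toC_zero]
  have key : ((2 : ℂ) ^ 30 * z) * (t0.toC + p.ε * 0 + p.θ * 0) -
      (s0.toC * t0.toC + p.ε * (se.toC * t0.toC) + p.θ * 0) =
      ((2 : ℂ) ^ 30 * z - (s0.toC + p.ε * se.toC)) * t0.toC := by ring
  rw [key, norm_mul]
  push_cast
  exact mul_le_mul hs (norm_le_gab t0) (norm_nonneg _) (Nat.cast_nonneg _)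

theorem r3R0_ok {s : RM} {p : Par} {z : ℝ} (hs : s.Ok p z) (t0 : GI) :
    (r3R0 s t0).Ok p (z * tval p t0.toC 0 0) := by
  obtain ⟨s0, sd, sr⟩ := s
  change |(2 : ℝ) ^ 30 * z - (s0 + p.θ * sd)| ≤ (sr : ℝ) at hs
  change ‖(2 : ℂ) ^ 75 * (z * tval p t0.toC 0 0) -
    ((gsm s0 t0).toC + p.ε * GI.zero.toC + p.θ * (gsm sd t0).toC)‖ ≤ ((sr * gab t0 : ℕ) : ℝ)
  rw [two_pow_75_mul_tval, toC_gsm, toC_gsm, toC_zero]
  have hs' : ‖(2 : ℂ) ^ 30 * (z : ℂ) - ((s0 : ℂ) + p.θ * (sd : ℂ))‖ ≤ (sr : ℝ) := by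
    have e : (2 : ℂ) ^ 30 * (z : ℂ) - ((s0 : ℂ) + p.θ * (sd : ℂ)) =
        (((2 : ℝ) ^ 30 * z - (s0 + p.θ * sd) : ℝ) : ℂ) := by
      push_cast
      ring
    rw [e, Complex.norm_real, Real.norm_eq_abs]
    exact hs
  have key : ((2 : ℂ) ^ 30 * z) * (t0.toC + p.ε * 0 + p.θ * 0) -
      ((s0 : ℂ) * t0.toC + p.ε * 0 + p.θ * ((sd : ℂ) * t0.toC)) =
      ((2 : ℂ) ^ 30 * (z : ℂ) - ((s0 : ℂ) + p.θ * (sd : ℂ))) * t0.toC := by ring
  rw [key, norm_mul]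
  push_cast
  exact mul_le_mul hs' (norm_le_gab t0) (norm_nonneg _) (Nat.cast_nonneg _)

theorem r3T0_ok {s : TM} {p : Par} {z : ℂ} (hs : s.Ok p z) (t0 : GI) :
    (r3T0 s t0).Ok p (z * tval p t0.toC 0 0) := by
  obtain ⟨s0, se, sd, sr⟩ := s
  change ‖(2 : ℂ) ^ 30 * z - (s0.toC + p.ε * se.toC + p.θ * sd.toC)‖ ≤ (sr : ℝ) at hs
  change ‖(2 : ℂ) ^ 75 * (z * tval p t0.toC 0 0) -
    ((gmul s0 t0).toC + p.ε * (gmul se t0).toC + p.θ * (gmul sd t0).toC)‖ ≤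
    ((sr * gab t0 : ℕ) : ℝ)
  rw [two_pow_75_mul_tval, toC_gmul, toC_gmul, toC_gmul]
  have key : ((2 : ℂ) ^ 30 * z) * (t0.toC + p.ε * 0 + p.θ * 0) -
      (s0.toC * t0.toC + p.ε * (se.toC * t0.toC) + p.θ * (sd.toC * t0.toC)) =
      ((2 : ℂ) ^ 30 * z - (s0.toC + p.ε * se.toC + p.θ * sd.toC)) * t0.toC := by ring
  rw [key, norm_mul]
  push_cast
  exact mul_le_mul hs (norm_le_gab t0) (norm_nonneg _) (Nat.cast_nonneg _)

theorem r3sc0_ok {U : List UM} {T : List RM} {p : Par} {u : ℂ} {t : ℝ}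
    (hU : ∀ a, (uget a U).Ok p (u ^ a)) (hT : ∀ b, (rget b T).Ok p (t ^ b)) (a b : ℕ) (t0 : GI) :
    (r3sc0 U T a b t0).Ok p (u ^ a * (t : ℂ) ^ b * tval p t0.toC 0 0) := by
  cases a with
  | zero =>
    cases b with
    | zero =>
      have h : r3sc0 U T 0 0 t0 = r3one0 t0 := rfl
      rw [h, pow_zero, pow_zero, one_mul, one_mul]
      exact r3one0_ok p t0
    | succ b =>
      have h : r3sc0 U T 0 (b + 1) t0 = r3R0 (rget (b + 1) T) t0 := rfl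
      rw [h, pow_zero, one_mul]
      have := r3R0_ok (hT (b + 1)) t0
      push_cast at this
      exact this
  | succ a =>
    cases b with
    | zero =>
      have h : r3sc0 U T (a + 1) 0 t0 = r3U0 (uget (a + 1) U) t0 := rfl
      rw [h, pow_zero, mul_one]
      exact r3U0_ok (hU (a + 1)) t0
    | succ b =>
      have h : r3sc0 U T (a + 1) (b + 1) t0 =
        r3T0 (umulR (uget (a + 1) U) (rget (b + 1) T)) t0 := rfl
      rw [h]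
      have := r3T0_ok (umulR_ok (hU (a + 1)) (hT (b + 1))) t0
      push_cast at this
      exact this

end MaxTerm.PB
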