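import Pool.Agent.MaxTerm.PB.STMA

/-!
# Soundness of the checker, layer 3b: contributions, known modes and payments
-/

open Filter Topology ComplexConjugate

namespace MaxTerm.PB

theorem r3add_ok {a b : R3} {p : Par} {x y : ℂ} (ha : a.Ok p x) (hb : b.Ok p y) :
    (r3add a b).Ok p (x + y) := by
  obtain ⟨a0, ae, ad, ar⟩ := a
  obtain ⟨b0, be, bd, br⟩ := b
  change ‖(2 : ℂ) ^ 75 * x - (a0.toC + p.ε * ae.toC + p.θ * ad.toC)‖ ≤ (ar : ℝ) at ha
  change ‖(2 : ℂ) ^ 75 * y - (b0.toC + p.ε * be.toC + p.θ * bd.toC)‖ ≤ (br : ℝ) at hb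
  change ‖(2 : ℂ) ^ 75 * (x + y) - ((gadd a0 b0).toC + p.ε * (gadd ae be).toC +
    p.θ * (gadd ad bd).toC)‖ ≤ ((ar + br : ℕ) : ℝ)
  rw [toC_gadd, toC_gadd, toC_gadd]
  have h : (2 : ℂ) ^ 75 * (x + y) - ((a0.toC + b0.toC) + p.ε * (ae.toC + be.toC) +
      p.θ * (ad.toC + bd.toC)) =
      ((2 : ℂ) ^ 75 * x - (a0.toC + p.ε * ae.toC + p.θ * ad.toC)) +
      ((2 : ℂ) ^ 75 * y - (b0.toC + p.ε * be.toC + p.θ * bd.toC)) := by ring
  rw [h]
  push_cast
  exact (norm_add_le _ _).trans (add_le_add ha hb)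

theorem r3zero_ok (p : Par) : R3.zero.Ok p 0 := by
  change ‖(2 : ℂ) ^ 75 * 0 - (GI.zero.toC + p.ε * GI.zero.toC + p.θ * GI.zero.toC)‖ ≤ ((0 : ℕ) : ℝ)
  rw [toC_zero]
  simp

theorem r3get_ladd_ok {a b : List R3} {p : Par} {x y : ℂ} {i : ℕ} (ha : (r3get a i).Ok p x)
    (hb : (r3get b i).Ok p y) : (r3get (r3ladd a b) i).Ok p (x + y) := by
  -- adding the zero entry
  have key : ∀ (c : R3) (z w : ℂ), c.Ok p z → R3.zero.Ok p w → c.Ok p (z + w) := by
    intro c z w hc hw
    change ‖(2 : ℂ) ^ 75 * w - (GI.zero.toC + p.ε * GI.zero.toC + p.θ * GI.zero.toC)‖ ≤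
      ((0 : ℕ) : ℝ) at hw
    rw [toC_zero] at hw
    have hw0 : w = 0 := by
      have h1 : ‖(2 : ℂ) ^ 75 * w‖ ≤ 0 := by simpa using hw
      have h2 : (2 : ℂ) ^ 75 * w = 0 := norm_le_zero_iff.1 h1
      rcases mul_eq_zero.1 h2 with h | h
      · exact absurd h (pow_ne_zero _ two_ne_zero)
      · exact h
    rw [hw0, add_zero]
    exact hc
  induction a generalizing b i with
  | nil =>
    have h1 : r3ladd [] b = b := rfl
    rw [h1, add_comm]
    exact key _ _ _ hb ha
  | cons c a ih =>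
    cases b with
    | nil =>
      have h1 : r3ladd (c :: a) [] = c :: a := rfl
      rw [h1]
      exact key _ _ _ ha hb
    | cons d b =>
      have h1 : r3ladd (c :: a) (d :: b) = r3add c d :: r3ladd a b := rfl
      rw [h1]
      cases i with
      | zero => exact r3add_ok ha hb
      | succ i => exact ih ha hb

theorem contrib_ok {U : List UM} {T : List RM} {p : Par} {u : ℂ} {t : ℝ}
    (hU : ∀ a, (uget a U).Ok p (u ^ a)) (hT : ∀ b, (rget b T).Ok p (t ^ b)) (ea eb : ℕ → ℕ)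
    (l0 l1 l2 : List GI) (h1 : l1.length ≤ l0.length) (h2 : l2.length = l1.length) (j i : ℕ) :
    (r3get (contrib U T ea eb l0 l1 l2 j) i).Ok p
      (u ^ ea (j + i) * (t : ℂ) ^ eb (j + i) * tval p (co l0 i) (co l1 i) (co l2 i)) := by
  induction l0 generalizing l1 l2 j i with
  | nil =>
    have hl1 : l1 = [] := List.length_eq_zero_iff.1 (Nat.le_zero.1 h1)
    subst hl1
    have hl2 : l2 = [] := List.length_eq_zero_iff.1 h2
    subst hl2
    have hc : co [] i = 0 := by
      change (([] : List GI).getD i GI.zero).toC = 0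
      rw [List.getD_nil, toC_zero]
    have hv : u ^ ea (j + i) * (t : ℂ) ^ eb (j + i) * tval p (co [] i) (co [] i) (co [] i) = 0 := by
      rw [hc, tval]
      simp
    rw [hv]
    exact r3zero_ok p
  | cons x l0 ih =>
    cases l1 with
    | nil =>
      have hl2 : l2 = [] := List.length_eq_zero_iff.1 h2
      subst hl2
      have hc : contrib U T ea eb (x :: l0) [] [] j =
        r3sc0 U T (ea j) (eb j) x :: contrib U T ea eb l0 [] [] (j + 1) := rfl
      rw [hc]
      cases i with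
      | zero =>
        have h0 : co [] 0 = 0 := toC_zero
        have hx : co (x :: l0) 0 = x.toC := rfl
        rw [h0, hx, add_zero]
        exact r3sc0_ok hU hT _ _ _
      | succ i =>
        have hx : co (x :: l0) (i + 1) = co l0 i := rfl
        have h0 : co [] (i + 1) = co [] i := rfl
        have hj : j + (i + 1) = j + 1 + i := by omega
        rw [hx, h0, hj]
        exact ih [] [] (Nat.zero_le _) rfl (j + 1) i
    | cons x1 l1 =>
      cases l2 with
      | nil => exact absurd h2 (by simp)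
      | cons x2 l2 =>
        have hc : contrib U T ea eb (x :: l0) (x1 :: l1) (x2 :: l2) j =
          r3sc U T (ea j) (eb j) x x1 x2 :: contrib U T ea eb l0 l1 l2 (j + 1) := rfl
        rw [hc]
        cases i with
        | zero =>
          have hx : co (x :: l0) 0 = x.toC := rfl
          have hx1 : co (x1 :: l1) 0 = x1.toC := rfl
          have hx2 : co (x2 :: l2) 0 = x2.toC := rfl
          rw [hx, hx1, hx2, add_zero]
          exact r3sc_ok hU hT _ _ _ _ _
        | succ i =>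
          have hx : co (x :: l0) (i + 1) = co l0 i := rfl
          have hx1 : co (x1 :: l1) (i + 1) = co l1 i := rfl
          have hx2 : co (x2 :: l2) (i + 1) = co l2 i := rfl
          have hj : j + (i + 1) = j + 1 + i := by omega
          rw [hx, hx1, hx2, hj]
          exact ih l1 l2 (by simpa using h1) (by simpa using h2) (j + 1) i

theorem length_contrib (U : List UM) (T : List RM) (ea eb : ℕ → ℕ) (l0 l1 l2 : List GI) (j : ℕ) :
    (contrib U T ea eb l0 l1 l2 j).length = l0.length := by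
  induction l0 generalizing l1 l2 j with
  | nil => rfl
  | cons x l0 ih =>
    cases l1 with
    | nil =>
      have hc : contrib U T ea eb (x :: l0) [] l2 j =
        r3sc0 U T (ea j) (eb j) x :: contrib U T ea eb l0 [] [] (j + 1) := rfl
      rw [hc, List.length_cons, List.length_cons, ih]
    | cons x1 l1 =>
      cases l2 with
      | nil =>
        have hc : contrib U T ea eb (x :: l0) (x1 :: l1) [] j =
          r3sc U T (ea j) (eb j) x x1 GI.zero :: contrib U T ea eb l0 l1 [] (j + 1) := rfl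
        rw [hc, List.length_cons, List.length_cons, ih]
      | cons x2 l2 =>
        have hc : contrib U T ea eb (x :: l0) (x1 :: l1) (x2 :: l2) j =
          r3sc U T (ea j) (eb j) x x1 x2 :: contrib U T ea eb l0 l1 l2 (j + 1) := rfl
        rw [hc, List.length_cons, List.length_cons, ih]

theorem length_r3ladd (a b : List R3) : (r3ladd a b).length = max a.length b.length := by
  induction a generalizing b with
  | nil =>
    have h1 : r3ladd [] b = b := rfl
    rw [h1]
    simp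
  | cons c a ih =>
    cases b with
    | nil =>
      have h1 : r3ladd (c :: a) [] = c :: a := rfl
      rw [h1]
      simp
    | cons d b =>
      have h1 : r3ladd (c :: a) (d :: b) = r3add c d :: r3ladd a b := rfl
      rw [h1, List.length_cons, List.length_cons, List.length_cons, ih]
      omega

/-! known modes and payments -/

theorem norm_eps_le (p : Par) : ‖p.ε‖ ≤ Real.sqrt 2 := by
  have h1 : p.ε.re ^ 2 ≤ 1 := by
    have h := abs_le.1 p.re_le
    nlinarith [h.1, h.2]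
  have h2 : p.ε.im ^ 2 ≤ 1 := by
    have h := abs_le.1 p.im_le
    nlinarith [h.1, h.2]
  refine Real.le_sqrt_of_sq_le ?_
  rw [← Complex.normSq_eq_norm_sq, Complex.normSq_apply]
  nlinarith

theorem norm_le_payOne {x : R3} {p : Par} {z : ℂ} (h : x.Ok p z) :
    (2 : ℝ) ^ 75 * ‖z‖ ≤ payOne x := by
  obtain ⟨a0, ae, ad, ar⟩ := x
  change ‖(2 : ℂ) ^ 75 * z - (a0.toC + p.ε * ae.toC + p.θ * ad.toC)‖ ≤ (ar : ℝ) at h
  have hpay : payOne ⟨a0, ae, ad, ar⟩ = gab a0 + r2 (gab ae) + (gab ad + ar) := rfl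
  rw [hpay]
  have h0 := norm_le_gab a0
  have h1 := norm_le_gab ad
  have h2 := norm_le_gab ae
  have h3 := sqrt_two_mul_le_r2 (gab ae)
  have h4 : ‖p.ε * ae.toC‖ ≤ (r2 (gab ae) : ℝ) := by
    rw [norm_mul]
    exact (mul_le_mul (norm_eps_le p) h2 (norm_nonneg _) (Real.sqrt_nonneg _)).trans h3
  have h5 : ‖(p.θ : ℂ) * ad.toC‖ ≤ (gab ad : ℝ) := by
    rw [norm_mul, Complex.norm_real, Real.norm_eq_abs]
    calc |p.θ| * ‖ad.toC‖ ≤ 1 * ‖ad.toC‖ := mul_le_mul_of_nonneg_right p.θ_le (norm_nonneg _)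
      _ = ‖ad.toC‖ := one_mul _
      _ ≤ _ := h1
  have h6 : (2 : ℝ) ^ 75 * ‖z‖ = ‖(2 : ℂ) ^ 75 * z‖ := by
    rw [norm_mul, norm_pow]
    simp
  rw [h6]
  have h7 : (2 : ℂ) ^ 75 * z = ((2 : ℂ) ^ 75 * z - (a0.toC + p.ε * ae.toC + p.θ * ad.toC)) +
    (a0.toC + p.ε * ae.toC + p.θ * ad.toC) := by ring
  have h8 : ‖(2 : ℂ) ^ 75 * z‖ ≤ ‖(2 : ℂ) ^ 75 * z - (a0.toC + p.ε * ae.toC + p.θ * ad.toC)‖ +
      ‖a0.toC + p.ε * ae.toC + p.θ * ad.toC‖ := by
    conv_lhs => rw [h7]
    exact norm_add_le _ _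
  have h9 : ‖a0.toC + p.ε * ae.toC + p.θ * ad.toC‖ ≤ ‖a0.toC‖ + ‖p.ε * ae.toC‖ +
      ‖(p.θ : ℂ) * ad.toC‖ :=
    (norm_add_le _ _).trans (add_le_add (norm_add_le _ _) le_rfl)
  push_cast
  linarith

theorem payAll_cons (x : R3) (l : List R3) (acc : ℕ) :
    payAll (x :: l) acc = payOne x + payAll l acc := rfl

theorem payAll_bound {p : Par} (l : List R3) (acc : ℕ) (z X : ℕ → ℂ)
    (hz : ∀ i, (r3get l i).Ok p (z i)) (hX : ∀ i, ‖X i‖ ≤ 1) :
    -(((payAll l acc : ℕ) : ℝ) - (acc : ℝ)) / 2 ^ 75 ≤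
      (∑ i ∈ Finset.range l.length, z i * X i).re := by
  induction l generalizing z X with
  | nil =>
    have h1 : payAll [] acc = acc := rfl
    rw [h1]
    simp
  | cons x l ih =>
    rw [payAll_cons, List.length_cons, Finset.sum_range_succ']
    have h1 := ih (fun i => z (i + 1)) (fun i => X (i + 1)) (fun i => hz (i + 1))
      (fun i => hX (i + 1))
    have h2 : (2 : ℝ) ^ 75 * ‖z 0‖ ≤ payOne x := norm_le_payOne (hz 0)
    have h3 : -‖z 0‖ ≤ (z 0 * X 0).re := by
      have h4 : ‖z 0 * X 0‖ ≤ ‖z 0‖ := by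
        rw [norm_mul]
        exact mul_le_of_le_one_right (norm_nonneg _) (hX 0)
      have h5 := (abs_le.1 (Complex.abs_re_le_norm (z 0 * X 0))).1
      linarith
    rw [Complex.add_re]
    push_cast
    have h6 : -((payOne x : ℝ) + (payAll l acc : ℝ) - (acc : ℝ)) / 2 ^ 75 =
      -((payAll l acc : ℝ) - (acc : ℝ)) / 2 ^ 75 - (payOne x : ℝ) / 2 ^ 75 := by ring
    rw [h6]
    have h7 : ‖z 0‖ ≤ (payOne x : ℝ) / 2 ^ 75 := by
      rw [le_div_iff₀ (by positivity)]
      linarith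
    linarith

/-- semantics of `known`: `z i` the exact values, `X i` the natural variables (`= 1` for `i < k`). -/
theorem known_ok {p : Par} (k : ℕ) (l : List R3) (q : KP) (z X : ℕ → ℂ) {κ : ℂ}
    (hz : ∀ i, (r3get l i).Ok p (z i)) (hX : ∀ i, ‖X i‖ ≤ 1) (hk : ∀ i, i < k → X i = 1)
    (hq : q.K.Ok p κ) :
    ∃ κ' : ℂ, (known k l q).K.Ok p κ' ∧
      κ'.re - (((known k l q).pay : ℝ) - (q.pay : ℝ)) / 2 ^ 75 ≤
        (κ + ∑ i ∈ Finset.range l.length, z i * X i).re := by
  induction k generalizing l q z X κ with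
  | zero =>
    obtain ⟨K, pay⟩ := q
    refine ⟨κ, hq, ?_⟩
    have h1 : known 0 l ⟨K, pay⟩ = ⟨K, payAll l pay⟩ := rfl
    rw [h1]
    have h2 := payAll_bound l pay z X hz hX
    rw [Complex.add_re]
    change κ.re - ((payAll l pay : ℝ) - (pay : ℝ)) / 2 ^ 75 ≤ _
    rw [neg_div] at h2
    linarith
  | succ k ih =>
    cases l with
    | nil =>
      have h1 : known (k + 1) [] q = q := rfl
      rw [h1]
      refine ⟨κ, hq, ?_⟩
      simp
    | cons x l =>
      obtain ⟨K, pay⟩ := q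
      have h1 : known (k + 1) (x :: l) ⟨K, pay⟩ = known k l ⟨r3add x K, pay⟩ := rfl
      rw [h1]
      have h2 : (r3add x K).Ok p (z 0 + κ) := r3add_ok (hz 0) hq
      obtain ⟨κ', h3, h4⟩ := ih l ⟨r3add x K, pay⟩ (fun i => z (i + 1)) (fun i => X (i + 1))
        (κ := z 0 + κ) (fun i => hz (i + 1)) (fun i => hX (i + 1))
        (fun i hi => hk (i + 1) (by omega)) h2
      refine ⟨κ', h3, h4.trans (le_of_eq ?_)⟩
      rw [List.length_cons, Finset.sum_range_succ', hk 0 (Nat.succ_pos _), mul_one]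
      congr 1
      ring

end MaxTerm.PB
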