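import Pool.Agent.MaxTerm.PB.STMA
import Pool.Agent.MaxTerm.PB.STMB
import Pool.Agent.MaxTerm.PB.Analysis

/-!
# Soundness of the checker, layer 4: windows and the final inequality
-/

open Filter Topology ComplexConjugate

namespace MaxTerm.PB

/-- length conditions on the test vectors of a class. -/
structure CC.Good (c : CC) : Prop where
  le : c.a1.length ≤ c.a0.length
  eq : c.a2.length = c.a1.length

/-- length conditions on the certificate of a window. -/
structure WC.Good (c : WC) : Prop where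
  X_len : (c.r = 0 ∧ c.X = []) ∨ (0 < c.r ∧ c.X.length = 2 * c.r + 1)
  nL_eq : 0 < c.r → c.F.nL = c.G.nL
  F : c.F.Good
  G : c.G.Good
  H : c.H.Good

/-- value of the energy at a point of the cell. -/
noncomputable def EN.val (e : EN) (p : Par) : ℝ :=
  e.e00 + 2 * (p.ε * e.e01.toC).re + 2 * p.θ * e.e02 + ‖p.ε‖ ^ 2 * e.e11 +
    2 * p.θ * (conj p.ε * e.e12.toC).re + p.θ ^ 2 * e.e22

noncomputable def Acc.lr (a : Acc) : ℕ → Bool → List R3
  | 0, true => a.F.L
  | 0, false => a.F.R
  | 1, true => a.G.L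
  | 1, false => a.G.R
  | _, true => a.H.L
  | _, false => a.H.R

/-- invariant of the accumulator: `Z` are the exact values of the sums over the windows. -/
def AccOk (K2 : ℝ) (X : ℕ → Bool → ℕ → ℂ) (p : Par) (acc : Acc) : Prop :=
  0 ≤ acc.mass ∧ ∃ Z : ℕ → Bool → ℕ → ℂ,
    (∀ cls, cls < 3 → ∀ side i, (r3get (acc.lr cls side) i).Ok p (Z cls side i)) ∧
    2 * (∑ cls ∈ Finset.range 3, ∑ side : Bool,
      ∑ i ∈ Finset.range (acc.lr cls side).length, Z cls side i * X cls side i).re ≤
      K2 * (acc.mass / 2 ^ 16) + acc.en.val p / 2 ^ 53 + 2 * (acc.cross : ℝ) / 2 ^ 53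

end MaxTerm.PB
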