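import Pool.Agent.MaxTerm.PB.SWin

/-!
# Soundness of the checker, layer 4a: the vectors `P`
-/

open Filter Topology ComplexConjugate

namespace MaxTerm.PB

/-- pointwise identities for `mkPP` (scales `2^16`, `2^7`, `2^37`). -/
theorem mkPP_ev {g r : ℕ} {X a b : List GI} (hX : (r = 0 ∧ X = []) ∨ (0 < r ∧ X.length = 2 * r + 1))
    (o : ℤ) {ζ : ℂ} (hζ : ‖ζ‖ = 1) :
    ev (fs (o - 2 * r) (mkPP g r X (pstar X) a b).F) ζ / 2 ^ 37 =
        ((1 - (g : ℝ) / 128 * ‖ev (fs (-r) X) ζ / 2 ^ 7‖ ^ 2 : ℝ) : ℂ) * (ev (fs o a) ζ / 2 ^ 16) +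
          conj (ev (fs (-r) X) ζ / 2 ^ 7) * (ev (fs o b) ζ / 2 ^ 16) ∧
      ev (fs (o - 2 * r) (mkPP g r X (pstar X) a b).G) ζ / 2 ^ 37 =
        ((1 - (g : ℝ) / 128 * ‖ev (fs (-r) X) ζ / 2 ^ 7‖ ^ 2 : ℝ) : ℂ) * (ev (fs o b) ζ / 2 ^ 16) +
          (ev (fs (-r) X) ζ / 2 ^ 7) * (ev (fs o a) ζ / 2 ^ 16) := by
  have hk1 : ((Int.ofNat 2097152 : ℤ) : ℂ) = 2 ^ 21 := by
    rw [Int.ofNat_eq_natCast]
    norm_num
  have hk2 : ((Int.ofNat 16384 : ℤ) : ℂ) = 2 ^ 14 := by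
    rw [Int.ofNat_eq_natCast]
    norm_num
  rcases hX with ⟨rfl, rfl⟩ | ⟨hr, hlen⟩
  · have h1 : mkPP g 0 [] (pstar []) a b =
      ⟨pism (Int.ofNat 2097152) a, pism (Int.ofNat 2097152) b⟩ := rfl
    rw [h1]
    simp only [Nat.cast_zero, mul_zero, sub_zero, neg_zero]
    rw [fs_pism, fs_pism, ev_smul, ev_smul, fs_nil, ev_zero, hk1]
    constructor
    · simp
      ring
    · simp
      ring
  · obtain ⟨s, rfl⟩ : ∃ s, r = s + 1 := ⟨r - 1, by omega⟩
    have h1 : mkPP g (s + 1) X (pstar X) a b =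
      ⟨padd (padd (pshift (2 * (s + 1)) (pism (Int.ofNat 2097152) a))
          (pism (inegN g) (pmul (pstar X) (pmul X a))))
          (pshift (s + 1) (pism (Int.ofNat 16384) (pmul (pstar X) b))),
        padd (padd (pshift (2 * (s + 1)) (pism (Int.ofNat 2097152) b))
          (pism (inegN g) (pmul X (pmul (pstar X) b))))
          (pshift (s + 1) (pism (Int.ofNat 16384) (pmul X a)))⟩ := rfl
    rw [h1]
    generalize hrr : s + 1 = r at *
    set χ : ℂ := ev (fs (-(r : ℤ)) X) ζ with hχ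
    have hstar : ev (fs (-(r : ℤ)) (pstar X)) ζ = conj χ := by
      have h2 := ev_pstar (-(r : ℤ)) X hζ
      have h3 : (1 - -(r : ℤ) - (X.length : ℤ)) = -(r : ℤ) := by
        rw [hlen]
        push_cast
        ring
      rw [h3] at h2
      exact h2
    have e0 : (o - 2 * (r : ℤ)) + ((2 * r : ℕ) : ℤ) = o := by push_cast; ring
    have e1 : (o - 2 * (r : ℤ)) = -(r : ℤ) + (-(r : ℤ) + o) := by ring
    have e2 : (o - 2 * (r : ℤ)) + (r : ℤ) = -(r : ℤ) + o := by ring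
    have hg : ((inegN g : ℤ) : ℂ) = -(g : ℂ) := by
      rw [inegN_eq]
      push_cast
      ring
    have hnorm : ((‖χ / 2 ^ 7‖ : ℝ) : ℂ) ^ 2 = conj χ * χ / 2 ^ 14 := by
      rw [← Complex.conj_mul', map_div₀, map_pow]
      have : conj (2 : ℂ) = 2 := Complex.conj_ofNat 2
      rw [this]
      ring
    have key1 : ∀ (l : List GI), ev (fs (o - 2 * (r : ℤ)) (pmul (pstar X) (pmul X l))) ζ =
        conj χ * (χ * ev (fs o l) ζ) := by
      intro l
      rw [e1, ev_pmul _ _ _ _ hζ, ev_pmul _ _ _ _ hζ, hstar]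
    have key2 : ∀ (l : List GI), ev (fs (o - 2 * (r : ℤ)) (pmul X (pmul (pstar X) l))) ζ =
        χ * (conj χ * ev (fs o l) ζ) := by
      intro l
      rw [e1, ev_pmul _ _ _ _ hζ, ev_pmul _ _ _ _ hζ, hstar]
    have hconj : conj (χ / 2 ^ 7) = conj χ / 2 ^ 7 := by
      rw [map_div₀, map_pow]
      have : conj (2 : ℂ) = 2 := Complex.conj_ofNat 2
      rw [this]
    have hcast : ((1 - (g : ℝ) / 128 * ‖χ / 2 ^ 7‖ ^ 2 : ℝ) : ℂ) =
        1 - (g : ℂ) / 128 * (conj χ * χ / 2 ^ 14) := by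
      push_cast
      rw [← hnorm]
    constructor
    · change ev (fs (o - 2 * (r : ℤ)) (padd (padd (pshift (2 * r) (pism (Int.ofNat 2097152) a))
          (pism (inegN g) (pmul (pstar X) (pmul X a))))
          (pshift r (pism (Int.ofNat 16384) (pmul (pstar X) b))))) ζ / 2 ^ 37 = _
      rw [fs_padd, fs_padd, ev_add, ev_add, fs_pshift, fs_pshift, fs_pism, fs_pism, fs_pism,
        ev_smul, ev_smul, ev_smul, e0, e2, key1, ev_pmul _ _ _ _ hζ, hstar, hk1, hk2, hg,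
        hcast, hconj]
      ring
    · change ev (fs (o - 2 * (r : ℤ)) (padd (padd (pshift (2 * r) (pism (Int.ofNat 2097152) b))
          (pism (inegN g) (pmul X (pmul (pstar X) b))))
          (pshift r (pism (Int.ofNat 16384) (pmul X a))))) ζ / 2 ^ 37 = _
      rw [fs_padd, fs_padd, ev_add, ev_add, fs_pshift, fs_pshift, fs_pism, fs_pism, fs_pism,
        ev_smul, ev_smul, ev_smul, e0, e2, key2, ev_pmul _ _ _ _ hζ, hk1, hk2, hg,
        hcast]
      ring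

end MaxTerm.PB
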