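import Pool.Agent.MaxTerm.PB.SWinA

/-!
# Soundness of the checker, layer 4b: one window
-/

open Filter Topology ComplexConjugate

namespace MaxTerm.PB

/-- `a0 + ε a1 + θ a2`. -/
noncomputable def tc (p : Par) (a0 a1 a2 : ℤ →₀ ℂ) : ℤ →₀ ℂ := a0 + p.ε • a1 + (p.θ : ℂ) • a2

theorem ev_tc (p : Par) (a0 a1 a2 : ℤ →₀ ℂ) (ζ : ℂ) :
    ev (tc p a0 a1 a2) ζ = ev a0 ζ + p.ε * ev a1 ζ + p.θ * ev a2 ζ := by
  rw [tc, ev_add, ev_add, ev_smul, ev_smul]

theorem pr_tc (p : Par) (a0 a1 a2 : ℤ →₀ ℂ) (f : ℤ → ℂ) :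
    pr (tc p a0 a1 a2) f = pr a0 f + p.ε * pr a1 f + p.θ * pr a2 f := by
  rw [tc, pr_add, pr_add, pr_smul, pr_smul]

theorem ip_tc (p : Par) (a0 a1 a2 b0 b1 b2 : ℤ →₀ ℂ) :
    ip (tc p a0 a1 a2) (tc p b0 b1 b2) =
      ip a0 b0 + p.ε * ip a0 b1 + p.θ * ip a0 b2 +
        conj p.ε * (ip a1 b0 + p.ε * ip a1 b1 + p.θ * ip a1 b2) +
        p.θ * (ip a2 b0 + p.ε * ip a2 b1 + p.θ * ip a2 b2) := by
  simp only [tc, ip_add_left, ip_add_right, ip_smul_left, ip_smul_right, Complex.conj_ofReal]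
  ring

theorem ips_tc (p : Par) (a0 a1 a2 b0 b1 b2 : ℤ →₀ ℂ) :
    ips (tc p a0 a1 a2) (tc p b0 b1 b2) =
      ips a0 b0 + p.ε * ips a0 b1 + p.θ * ips a0 b2 +
        conj p.ε * (ips a1 b0 + p.ε * ips a1 b1 + p.θ * ips a1 b2) +
        p.θ * (ips a2 b0 + p.ε * ips a2 b1 + p.θ * ips a2 b2) := by
  simp only [tc, ips_add_left, ips_add_right, ips_smul_left, ips_smul_right, Complex.conj_ofReal]
  ring

theorem quad_re (p : Par) {e00 e01 e02 e10 e11 e12 e20 e21 e22 : ℂ} (h10 : e10 = conj e01)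
    (h20 : e20 = conj e02) (h21 : e21 = conj e12) :
    (e00 + p.ε * e01 + p.θ * e02 + conj p.ε * (e10 + p.ε * e11 + p.θ * e12) +
      p.θ * (e20 + p.ε * e21 + p.θ * e22)).re =
      e00.re + 2 * (p.ε * e01).re + 2 * p.θ * e02.re + ‖p.ε‖ ^ 2 * e11.re +
        2 * p.θ * (conj p.ε * e12).re + p.θ ^ 2 * e22.re := by
  subst h10 h20 h21
  rw [Complex.sq_norm, Complex.normSq_apply]
  simp only [Complex.add_re, Complex.mul_re, Complex.add_im, Complex.mul_im, Complex.conj_re,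
    Complex.conj_im, Complex.ofReal_re, Complex.ofReal_im]
  ring

/-- the quadratic form of the energies. -/
noncomputable def qf (p : Par) (d00 d01 d02 d11 d12 d22 : ℂ) : ℝ :=
  d00.re + 2 * (p.ε * d01).re + 2 * p.θ * d02.re + ‖p.ε‖ ^ 2 * d11.re +
    2 * p.θ * (conj p.ε * d12).re + p.θ ^ 2 * d22.re

theorem eadd_val (k : ℕ) (a0 a1 a2 p0 p1 p2 : List GI) (e : EN) (p : Par) :
    (eadd k a0 a1 a2 p0 p1 p2 e).val p = e.val p +
      qf p (pdot a0 (pdrop k p0)).toC (pdot a0 (pdrop k p1)).toC (pdot a0 (pdrop k p2)).toC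
        (pdot a1 (pdrop k p1)).toC (pdot a1 (pdrop k p2)).toC (pdot a2 (pdrop k p2)).toC := by
  have h : eadd k a0 a1 a2 p0 p1 p2 e =
      ⟨iadd e.e00 (gre (pdot a0 (pdrop k p0))), gadd e.e01 (pdot a0 (pdrop k p1)),
        iadd e.e02 (gre (pdot a0 (pdrop k p2))), iadd e.e11 (gre (pdot a1 (pdrop k p1))),
        gadd e.e12 (pdot a1 (pdrop k p2)), iadd e.e22 (gre (pdot a2 (pdrop k p2)))⟩ := rfl
  rw [h]
  simp only [EN.val, qf, iadd_eq, toC_gadd, Int.cast_add, gre_eq, mul_add, Complex.add_re]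
  ring

theorem length_mkPP_mono {g r : ℕ} {x xs a b a' b' : List GI} (ha : a.length ≤ a'.length)
    (hb : b.length ≤ b'.length) :
    (mkPP g r x xs a b).F.length ≤ (mkPP g r x xs a' b').F.length ∧
      (mkPP g r x xs a b).G.length ≤ (mkPP g r x xs a' b').G.length := by
  cases r with
  | zero =>
    constructor
    · change (pism _ a).length ≤ (pism _ a').length
      rw [length_pism, length_pism]; exact ha
    · change (pism _ b).length ≤ (pism _ b').length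
      rw [length_pism, length_pism]; exact hb
  | succ r =>
    have hU : (pmul x a).length ≤ (pmul x a').length := length_pmul_mono ha
    have hV : (pmul xs b).length ≤ (pmul xs b').length := length_pmul_mono hb
    constructor
    · change (padd (padd (pshift (Nat.mul 2 (r + 1)) (pism _ a)) (pism _ (pmul xs (pmul x a))))
          (pshift (r + 1) (pism _ (pmul xs b)))).length ≤
        (padd (padd (pshift (Nat.mul 2 (r + 1)) (pism _ a')) (pism _ (pmul xs (pmul x a'))))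
          (pshift (r + 1) (pism _ (pmul xs b')))).length
      rw [length_padd, length_padd, length_padd, length_padd]
      refine max_le_max (max_le_max ?_ ?_) ?_
      · exact length_pshift_mono (by rw [length_pism, length_pism]; exact ha)
      · rw [length_pism, length_pism]; exact length_pmul_mono hU
      · exact length_pshift_mono (by rw [length_pism, length_pism]; exact hV)
    · change (padd (padd (pshift (Nat.mul 2 (r + 1)) (pism _ b)) (pism _ (pmul x (pmul xs b))))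
          (pshift (r + 1) (pism _ (pmul x a)))).length ≤
        (padd (padd (pshift (Nat.mul 2 (r + 1)) (pism _ b')) (pism _ (pmul x (pmul xs b'))))
          (pshift (r + 1) (pism _ (pmul x a')))).length
      rw [length_padd, length_padd, length_padd, length_padd]
      refine max_le_max (max_le_max ?_ ?_) ?_
      · exact length_pshift_mono (by rw [length_pism, length_pism]; exact hb)
      · rw [length_pism, length_pism]; exact length_pmul_mono hV
      · exact length_pshift_mono (by rw [length_pism, length_pism]; exact hU)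

theorem le_nrm (l : List GI) (acc : ℤ) : acc ≤ nrm l acc := by
  induction l with
  | nil => exact le_refl _
  | cons x l ih =>
    have h : nrm (x :: l) acc = iadd (iadd (imul x.r x.r) (imul x.i x.i)) (nrm l acc) := rfl
    rw [h, iadd_eq, iadd_eq, imul_eq, imul_eq]
    nlinarith [mul_self_nonneg x.r, mul_self_nonneg x.i]

theorem r3get_of_le {l : List R3} {i : ℕ} (h : l.length ≤ i) : r3get l i = R3.zero := by
  rw [r3get, List.getD_eq_default _ _ h]

theorem eq_zero_of_ok {p : Par} {z : ℂ} (h : R3.zero.Ok p z) : z = 0 := by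
  have h1 : ‖(2 : ℂ) ^ 75 * z - (GI.zero.toC + p.ε * GI.zero.toC + p.θ * GI.zero.toC)‖ ≤
    ((0 : ℕ) : ℝ) := h
  rw [toC_zero, mul_zero, mul_zero, add_zero, add_zero, sub_zero, Nat.cast_zero] at h1
  have h2 := norm_le_zero_iff.1 h1
  have h3 : (2 : ℂ) ^ 75 ≠ 0 := pow_ne_zero _ two_ne_zero
  exact (mul_eq_zero.1 h2).resolve_left h3

theorem sum_ext_len {p : Par} {l : List R3} {Z X : ℕ → ℂ} (h : ∀ i, (r3get l i).Ok p (Z i))
    {N : ℕ} (hN : l.length ≤ N) :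
    ∑ i ∈ Finset.range N, Z i * X i = ∑ i ∈ Finset.range l.length, Z i * X i := by
  symm
  apply Finset.sum_subset (Finset.range_mono hN)
  intro i _ hi
  rw [Finset.mem_range, not_lt] at hi
  have h1 := h i
  rw [r3get_of_le hi] at h1
  rw [eq_zero_of_ok h1, zero_mul]

/-- the two lists of a class. -/
noncomputable def LR.lr (x : LR) : Bool → List R3
  | true => x.L
  | false => x.R

theorem lrAdd_ok {f : Fam} {U : List UM} {T : List RM} {p : Par} {u : ℂ} {t : ℝ}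
    (hU : ∀ a, (uget a U).Ok p (u ^ a)) (hT : ∀ b, (rget b T).Ok p (t ^ b)) {w cls nL : ℕ}
    {t0 t1 t2 : List GI} (h1 : t1.length ≤ t0.length) (h2 : t2.length = t1.length) {acc : LR}
    {Z : Bool → ℕ → ℂ} (hZ : ∀ side i, (r3get (acc.lr side) i).Ok p (Z side i))
    (X : ℕ → Bool → ℕ → ℂ) :
    ∃ Z' : Bool → ℕ → ℂ,
      (∀ side i, (r3get ((lrAdd f U T w cls nL t0 t1 t2 acc).lr side) i).Ok p (Z' side i)) ∧
      ∑ side : Bool, ∑ i ∈ Finset.range ((lrAdd f U T w cls nL t0 t1 t2 acc).lr side).length,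
        Z' side i * X cls side i =
      pr (((2 : ℂ) ^ 45)⁻¹ • tc p (fs (1 - split cls - nL) t0) (fs (1 - split cls - nL) t1)
        (fs (1 - split cls - nL) t2)) (f.seq u t X w cls) +
      ∑ side : Bool, ∑ i ∈ Finset.range (acc.lr side).length, Z side i * X cls side i := by
  obtain ⟨CL, hCL⟩ : ∃ CL, CL = contrib U T (f.ea true w cls) (f.eb true w cls)
    (psideL nL t0) (psideL nL t1) (psideL nL t2) 0 := ⟨_, rfl⟩
  obtain ⟨CR, hCR⟩ : ∃ CR, CR = contrib U T (f.ea false w cls) (f.eb false w cls)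
    (pdrop nL t0) (pdrop nL t1) (pdrop nL t2) 0 := ⟨_, rfl⟩
  have hnew : lrAdd f U T w cls nL t0 t1 t2 acc = ⟨r3ladd CL acc.L, r3ladd CR acc.R⟩ := by
    rw [hCL, hCR]; rfl
  have hs1 : (psideL nL t1).length ≤ (psideL nL t0).length := length_psideL_mono h1
  have hs2 : (psideL nL t2).length = (psideL nL t1).length :=
    le_antisymm (length_psideL_mono h2.le) (length_psideL_mono h2.ge)
  have hd1 : (pdrop nL t1).length ≤ (pdrop nL t0).length := by
    rw [length_pdrop, length_pdrop]; omega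
  have hd2 : (pdrop nL t2).length = (pdrop nL t1).length := by
    rw [length_pdrop, length_pdrop, h2]
  have hlenL : CL.length = (psideL nL t0).length := by rw [hCL, length_contrib]
  have hlenR : CR.length = (pdrop nL t0).length := by rw [hCR, length_contrib]
  -- the new values
  obtain ⟨A, hA⟩ : ∃ A : Bool → ℕ → ℂ, A = fun side i => u ^ (f.ea side w cls i) *
      (t : ℂ) ^ (f.eb side w cls i) *
      tval p (co (bif side then psideL nL t0 else pdrop nL t0) i)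
        (co (bif side then psideL nL t1 else pdrop nL t1) i)
        (co (bif side then psideL nL t2 else pdrop nL t2) i) := ⟨_, rfl⟩
  have hAL : ∀ i, (r3get CL i).Ok p (A true i) := by
    intro i
    have := contrib_ok hU hT (f.ea true w cls) (f.eb true w cls) (psideL nL t0) (psideL nL t1)
      (psideL nL t2) hs1 hs2 0 i
    rw [zero_add] at this
    rw [hCL, hA]
    exact this
  have hAR : ∀ i, (r3get CR i).Ok p (A false i) := by
    intro i
    have := contrib_ok hU hT (f.ea false w cls) (f.eb false w cls) (pdrop nL t0) (pdrop nL t1)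
      (pdrop nL t2) hd1 hd2 0 i
    rw [zero_add] at this
    rw [hCR, hA]
    exact this
  have hlL : (r3ladd CL acc.L).length = max CL.length acc.L.length := length_r3ladd _ _
  have hlR : (r3ladd CR acc.R).length = max CR.length acc.R.length := length_r3ladd _ _
  refine ⟨fun side i => A side i + Z side i, ?_, ?_⟩
  · intro side i
    rw [hnew]
    cases side
    · exact r3get_ladd_ok (hAR i) (hZ false i)
    · exact r3get_ladd_ok (hAL i) (hZ true i)
  · rw [hnew, Fintype.sum_bool, Fintype.sum_bool]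
    change ∑ i ∈ Finset.range (r3ladd CL acc.L).length, (A true i + Z true i) * X cls true i +
      ∑ i ∈ Finset.range (r3ladd CR acc.R).length, (A false i + Z false i) * X cls false i =
      _ + (∑ i ∈ Finset.range acc.L.length, Z true i * X cls true i +
        ∑ i ∈ Finset.range acc.R.length, Z false i * X cls false i)
    have hNL : CL.length ≤ (r3ladd CL acc.L).length := by rw [hlL]; exact le_max_left _ _
    have hNR : CR.length ≤ (r3ladd CR acc.R).length := by rw [hlR]; exact le_max_left _ _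
    have hNL' : acc.L.length ≤ (r3ladd CL acc.L).length := by rw [hlL]; exact le_max_right _ _
    have hNR' : acc.R.length ≤ (r3ladd CR acc.R).length := by rw [hlR]; exact le_max_right _ _
    generalize (r3ladd CL acc.L).length = NL at hNL hNL'
    generalize (r3ladd CR acc.R).length = NR at hNR hNR'
    have hZL := sum_ext_len (l := acc.L) (Z := Z true) (X := X cls true) (fun i => hZ true i) hNL'
    have hZR := sum_ext_len (l := acc.R) (Z := Z false) (X := X cls false) (fun i => hZ false i) hNR'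
    rw [← hZL, ← hZR]
    have hsp : ∀ l : List GI, (psideL nL l).length ≤ NL → (pdrop nL l).length ≤ NR →
        pr (fs (1 - split cls - nL) l) (f.seq u t X w cls) =
        ∑ i ∈ Finset.range NL, co (psideL nL l) i * (u ^ (f.ea true w cls i) *
          (t : ℂ) ^ (f.eb true w cls i) * X cls true i) +
        ∑ i ∈ Finset.range NR, co (pdrop nL l) i * (u ^ (f.ea false w cls i) *
          (t : ℂ) ^ (f.eb false w cls i) * X cls false i) := by
      intro l hl hr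
      exact pr_split (split cls) nL l _ hl hr
    rw [pr_smul, pr_tc, hsp t0 (by omega) (by omega), hsp t1 (by omega) (by omega),
      hsp t2 (by omega) (by omega)]
    have hsumL : ∑ i ∈ Finset.range NL, (A true i + Z true i) * X cls true i =
        ((2 : ℂ) ^ 45)⁻¹ * (∑ i ∈ Finset.range NL, co (psideL nL t0) i * (u ^ (f.ea true w cls i) *
          (t : ℂ) ^ (f.eb true w cls i) * X cls true i) +
          p.ε * ∑ i ∈ Finset.range NL, co (psideL nL t1) i * (u ^ (f.ea true w cls i) *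
          (t : ℂ) ^ (f.eb true w cls i) * X cls true i) +
          p.θ * ∑ i ∈ Finset.range NL, co (psideL nL t2) i * (u ^ (f.ea true w cls i) *
          (t : ℂ) ^ (f.eb true w cls i) * X cls true i)) +
          ∑ i ∈ Finset.range NL, Z true i * X cls true i := by
      rw [Finset.mul_sum, Finset.mul_sum, ← Finset.sum_add_distrib, ← Finset.sum_add_distrib,
        Finset.mul_sum, ← Finset.sum_add_distrib]
      refine Finset.sum_congr rfl fun i _ => ?_
      rw [hA]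
      simp only [cond_true, tval]
      ring
    have hsumR : ∑ i ∈ Finset.range NR, (A false i + Z false i) * X cls false i =
        ((2 : ℂ) ^ 45)⁻¹ * (∑ i ∈ Finset.range NR, co (pdrop nL t0) i * (u ^ (f.ea false w cls i) *
          (t : ℂ) ^ (f.eb false w cls i) * X cls false i) +
          p.ε * ∑ i ∈ Finset.range NR, co (pdrop nL t1) i * (u ^ (f.ea false w cls i) *
          (t : ℂ) ^ (f.eb false w cls i) * X cls false i) +
          p.θ * ∑ i ∈ Finset.range NR, co (pdrop nL t2) i * (u ^ (f.ea false w cls i) *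
          (t : ℂ) ^ (f.eb false w cls i) * X cls false i)) +
          ∑ i ∈ Finset.range NR, Z false i * X cls false i := by
      rw [Finset.mul_sum, Finset.mul_sum, ← Finset.sum_add_distrib, ← Finset.sum_add_distrib,
        Finset.mul_sum, ← Finset.sum_add_distrib]
      refine Finset.sum_congr rfl fun i _ => ?_
      rw [hA]
      simp only [cond_false, tval]
      ring
    rw [hsumL, hsumR]
    ring

/-- nine terms. -/
noncomputable def nine (p : Par) (e00 e01 e02 e10 e11 e12 e20 e21 e22 : ℂ) : ℂ :=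
  e00 + p.ε * e01 + p.θ * e02 + conj p.ε * (e10 + p.ε * e11 + p.θ * e12) +
    p.θ * (e20 + p.ε * e21 + p.θ * e22)

theorem norm_theta_le (p : Par) : ‖(p.θ : ℂ)‖ ≤ 1 := by
  rw [Complex.norm_real, Real.norm_eq_abs]
  exact p.θ_le

theorem norm_nine_le (p : Par) (e00 e01 e02 e10 e11 e12 e20 e21 e22 : ℂ) :
    ‖nine p e00 e01 e02 e10 e11 e12 e20 e21 e22‖ ≤
      ‖e00‖ + Real.sqrt 2 * (‖e01‖ + ‖e10‖) + (‖e02‖ + ‖e20‖) + 2 * ‖e11‖ +
        Real.sqrt 2 * (‖e12‖ + ‖e21‖) + ‖e22‖ := by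
  have hε := norm_eps_le p
  have hθ := norm_theta_le p
  have hε' : ‖conj p.ε‖ ≤ Real.sqrt 2 := by rw [RCLike.norm_conj]; exact hε
  have hs : (0 : ℝ) ≤ Real.sqrt 2 := Real.sqrt_nonneg 2
  have h2 : Real.sqrt 2 * Real.sqrt 2 = 2 := Real.mul_self_sqrt (by norm_num)
  have e1 : ‖p.ε * e01‖ ≤ Real.sqrt 2 * ‖e01‖ := by
    rw [norm_mul]; exact mul_le_mul_of_nonneg_right hε (norm_nonneg _)
  have e2 : ‖(p.θ : ℂ) * e02‖ ≤ ‖e02‖ := by
    rw [norm_mul]; exact mul_le_of_le_one_left (norm_nonneg _) hθ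
  have e3 : ‖conj p.ε * (e10 + p.ε * e11 + p.θ * e12)‖ ≤
      Real.sqrt 2 * ‖e10‖ + 2 * ‖e11‖ + Real.sqrt 2 * ‖e12‖ := by
    rw [norm_mul]
    have h3 : ‖e10 + p.ε * e11 + p.θ * e12‖ ≤ ‖e10‖ + Real.sqrt 2 * ‖e11‖ + ‖e12‖ := by
      refine (norm_add_le _ _).trans (add_le_add ((norm_add_le _ _).trans (add_le_add le_rfl ?_)) ?_)
      · rw [norm_mul]; exact mul_le_mul_of_nonneg_right hε (norm_nonneg _)
      · rw [norm_mul]; exact mul_le_of_le_one_left (norm_nonneg _) hθ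
    calc ‖conj p.ε‖ * ‖e10 + p.ε * e11 + p.θ * e12‖
        ≤ Real.sqrt 2 * (‖e10‖ + Real.sqrt 2 * ‖e11‖ + ‖e12‖) :=
          mul_le_mul hε' h3 (norm_nonneg _) hs
      _ = Real.sqrt 2 * ‖e10‖ + 2 * ‖e11‖ + Real.sqrt 2 * ‖e12‖ := by
          rw [mul_add, mul_add, ← mul_assoc, h2]
  have e4 : ‖(p.θ : ℂ) * (e20 + p.ε * e21 + p.θ * e22)‖ ≤
      ‖e20‖ + Real.sqrt 2 * ‖e21‖ + ‖e22‖ := by
    rw [norm_mul]
    refine (mul_le_of_le_one_left (norm_nonneg _) hθ).trans ?_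
    refine (norm_add_le _ _).trans (add_le_add ((norm_add_le _ _).trans (add_le_add le_rfl ?_)) ?_)
    · rw [norm_mul]; exact mul_le_mul_of_nonneg_right hε (norm_nonneg _)
    · rw [norm_mul]; exact mul_le_of_le_one_left (norm_nonneg _) hθ
  unfold nine
  have h5 := norm_add_le (e00 + p.ε * e01 + p.θ * e02 + conj p.ε * (e10 + p.ε * e11 + p.θ * e12))
    ((p.θ : ℂ) * (e20 + p.ε * e21 + p.θ * e22))
  have h6 := norm_add_le (e00 + p.ε * e01 + p.θ * e02) (conj p.ε * (e10 + p.ε * e11 + p.θ * e12))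
  have h7 := norm_add_le (e00 + p.ε * e01) ((p.θ : ℂ) * e02)
  have h8 := norm_add_le e00 (p.ε * e01)
  linarith

theorem cross_bound (p : Par) (nG nH : ℕ) (g0 g1 g2 q0 q1 q2 : List GI) :
    ‖ips (tc p (fs (-(nG : ℤ)) g0) (fs (-(nG : ℤ)) g1) (fs (-(nG : ℤ)) g2))
      (tc p (fs (1 - (nH : ℤ)) q0) (fs (1 - (nH : ℤ)) q1) (fs (1 - (nH : ℤ)) q2))‖ ≤
      (crossE nG nH g0 g1 g2 q0 q1 q2 : ℝ) := by
  rw [ips_tc]
  simp only [ips_fs]
  obtain ⟨d, hd⟩ : ∃ d : List GI → List GI → GI, d = fun a q =>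
    pdot (pdrop (Nat.sub nG (Nat.succ nH)) a) (pdrop (Nat.sub (Nat.succ nH) nG) q) := ⟨_, rfl⟩
  have hc : crossE nG nH g0 g1 g2 q0 q1 q2 =
      ((gab (d g0 q0) + r2 (gab (d g0 q1) + gab (d g1 q0))) +
        ((gab (d g0 q2) + gab (d g2 q0)) + 2 * gab (d g1 q1))) +
        (r2 (gab (d g1 q2) + gab (d g2 q1)) + gab (d g2 q2)) := by
    rw [hd]; rfl
  have hn := norm_nine_le p (d g0 q0).toC (d g0 q1).toC (d g0 q2).toC (d g1 q0).toC (d g1 q1).toC
    (d g1 q2).toC (d g2 q0).toC (d g2 q1).toC (d g2 q2).toC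
  rw [hc]
  have hs : (0 : ℝ) ≤ Real.sqrt 2 := Real.sqrt_nonneg 2
  have r1 := sqrt_two_mul_le_r2 (gab (d g0 q1) + gab (d g1 q0))
  have r2' := sqrt_two_mul_le_r2 (gab (d g1 q2) + gab (d g2 q1))
  have m1 : Real.sqrt 2 * (‖(d g0 q1).toC‖ + ‖(d g1 q0).toC‖) ≤
      Real.sqrt 2 * ((gab (d g0 q1) + gab (d g1 q0) : ℕ) : ℝ) := by
    refine mul_le_mul_of_nonneg_left ?_ hs
    push_cast
    exact add_le_add (norm_le_gab _) (norm_le_gab _)
  have m2 : Real.sqrt 2 * (‖(d g1 q2).toC‖ + ‖(d g2 q1).toC‖) ≤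
      Real.sqrt 2 * ((gab (d g1 q2) + gab (d g2 q1) : ℕ) : ℝ) := by
    refine mul_le_mul_of_nonneg_left ?_ hs
    push_cast
    exact add_le_add (norm_le_gab _) (norm_le_gab _)
  have a00 := norm_le_gab (d g0 q0)
  have a02 := norm_le_gab (d g0 q2)
  have a20 := norm_le_gab (d g2 q0)
  have a11 := norm_le_gab (d g1 q1)
  have a22 := norm_le_gab (d g2 q2)
  have key : ‖nine p (d g0 q0).toC (d g0 q1).toC (d g0 q2).toC (d g1 q0).toC (d g1 q1).toC
    (d g1 q2).toC (d g2 q0).toC (d g2 q1).toC (d g2 q2).toC‖ ≤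
      (((gab (d g0 q0) + r2 (gab (d g0 q1) + gab (d g1 q0))) +
        ((gab (d g0 q2) + gab (d g2 q0)) + 2 * gab (d g1 q1))) +
        (r2 (gab (d g1 q2) + gab (d g2 q1)) + gab (d g2 q2)) : ℕ) := by
    push_cast at *
    linarith
  rw [hd] at key ⊢
  exact key

/-- the pointwise identities of `mkPP` for scaled vectors. -/
theorem pp_ev {g r : ℕ} {X : List GI} (hX : (r = 0 ∧ X = []) ∨ (0 < r ∧ X.length = 2 * r + 1))
    {oA oB : ℤ} (hAB : 0 < r → oA = oB) (a b : List GI) {ζ : ℂ} (hζ : ‖ζ‖ = 1) :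
    ev (((2 : ℂ) ^ 37)⁻¹ • fs (oA - 2 * r) (mkPP g r X (pstar X) a b).F) ζ =
        ((1 - (g : ℝ) / 128 * ‖ev (((2 : ℂ) ^ 7)⁻¹ • fs (-r) X) ζ‖ ^ 2 : ℝ) : ℂ) *
          ev (((2 : ℂ) ^ 16)⁻¹ • fs oA a) ζ +
          conj (ev (((2 : ℂ) ^ 7)⁻¹ • fs (-r) X) ζ) * ev (((2 : ℂ) ^ 16)⁻¹ • fs oB b) ζ ∧
      ev (((2 : ℂ) ^ 37)⁻¹ • fs (oB - 2 * r) (mkPP g r X (pstar X) a b).G) ζ =
        ((1 - (g : ℝ) / 128 * ‖ev (((2 : ℂ) ^ 7)⁻¹ • fs (-r) X) ζ‖ ^ 2 : ℝ) : ℂ) *
          ev (((2 : ℂ) ^ 16)⁻¹ • fs oB b) ζ +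
          ev (((2 : ℂ) ^ 7)⁻¹ • fs (-r) X) ζ * ev (((2 : ℂ) ^ 16)⁻¹ • fs oA a) ζ := by
  have h1 := (mkPP_ev (g := g) (a := a) (b := b) hX oA hζ).1
  have h2 := (mkPP_ev (g := g) (a := a) (b := b) hX oB hζ).2
  simp only [ev_smul]
  simp only [div_eq_inv_mul] at h1 h2
  simp only [div_eq_inv_mul]
  have hoff : ∀ l : List GI, (((2 : ℂ) ^ 7)⁻¹ * ev (fs (-r) X) ζ) * ev (fs oA l) ζ =
      (((2 : ℂ) ^ 7)⁻¹ * ev (fs (-r) X) ζ) * ev (fs oB l) ζ := by
    intro l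
    rcases hX with ⟨hr, hX⟩ | ⟨hr, -⟩
    · subst hX
      have : ev (fs (-(r : ℤ)) []) ζ = 0 := by
        rw [fs, ev, Finsupp.sum_zero_index]
      rw [this, mul_zero, zero_mul, zero_mul]
    · rw [hAB hr]
  have hoff' : ∀ l : List GI, conj (((2 : ℂ) ^ 7)⁻¹ * ev (fs (-r) X) ζ) * ev (fs oA l) ζ =
      conj (((2 : ℂ) ^ 7)⁻¹ * ev (fs (-r) X) ζ) * ev (fs oB l) ζ := by
    intro l
    rcases hX with ⟨hr, hX⟩ | ⟨hr, -⟩
    · subst hX
      have : ev (fs (-(r : ℤ)) []) ζ = 0 := by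
        rw [fs, ev, Finsupp.sum_zero_index]
      rw [this, mul_zero, map_zero, zero_mul, zero_mul]
    · rw [hAB hr]
  constructor
  · rw [h1]
    have h3 := hoff' b
    linear_combination ((2 : ℂ) ^ 16)⁻¹ * h3
  · rw [h2]
    have h3 := hoff a
    linear_combination (-((2 : ℂ) ^ 16)⁻¹) * h3

/-- the energy matrix is Hermitian. -/
theorem pp_herm {g r : ℕ} {X : List GI} (hX : (r = 0 ∧ X = []) ∨ (0 < r ∧ X.length = 2 * r + 1))
    {oA oB : ℤ} (hAB : 0 < r → oA = oB) (a b a' b' : List GI) :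
    ip (fs oA a) (fs (oA - 2 * r) (mkPP g r X (pstar X) a' b').F) +
      ip (fs oB b) (fs (oB - 2 * r) (mkPP g r X (pstar X) a' b').G) =
    conj (ip (fs oA a') (fs (oA - 2 * r) (mkPP g r X (pstar X) a b).F) +
      ip (fs oB b') (fs (oB - 2 * r) (mkPP g r X (pstar X) a b).G)) := by
  have h := energy_herm (γ := (g : ℝ) / 128) (X := ((2 : ℂ) ^ 7)⁻¹ • fs (-r) X)
    (A := ((2 : ℂ) ^ 16)⁻¹ • fs oA a) (B := ((2 : ℂ) ^ 16)⁻¹ • fs oB b)
    (A' := ((2 : ℂ) ^ 16)⁻¹ • fs oA a') (B' := ((2 : ℂ) ^ 16)⁻¹ • fs oB b')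
    (fun ζ hζ => (pp_ev hX hAB a b hζ).1) (fun ζ hζ => (pp_ev hX hAB a b hζ).2)
    (fun ζ hζ => (pp_ev hX hAB a' b' hζ).1) (fun ζ hζ => (pp_ev hX hAB a' b' hζ).2)
  simp only [ip_smul_left, ip_smul_right, map_inv₀, map_pow, Complex.conj_ofNat, map_add, map_mul]
    at h
  rw [map_add]
  have h16 : ((2 : ℂ) ^ 16) ≠ 0 := pow_ne_zero _ two_ne_zero
  have h37 : ((2 : ℂ) ^ 37) ≠ 0 := pow_ne_zero _ two_ne_zero
  have key : (((2 : ℂ) ^ 37)⁻¹ * ((2 : ℂ) ^ 16)⁻¹) *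
      (ip (fs oA a) (fs (oA - 2 * r) (mkPP g r X (pstar X) a' b').F) +
      ip (fs oB b) (fs (oB - 2 * r) (mkPP g r X (pstar X) a' b').G)) =
    (((2 : ℂ) ^ 37)⁻¹ * ((2 : ℂ) ^ 16)⁻¹) *
    (conj (ip (fs oA a') (fs (oA - 2 * r) (mkPP g r X (pstar X) a b).F)) +
      conj (ip (fs oB b') (fs (oB - 2 * r) (mkPP g r X (pstar X) a b).G))) := by
    linear_combination h
  exact mul_left_cancel₀ (mul_ne_zero (inv_ne_zero h37) (inv_ne_zero h16)) key

theorem tc_smul (p : Par) (c : ℂ) (a b d : ℤ →₀ ℂ) :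
    tc p (c • a) (c • b) (c • d) = c • tc p a b d := by
  simp only [tc, smul_add]
  rw [smul_comm p.ε c, smul_comm (p.θ : ℂ) c]

theorem scale_q : ((2 : ℂ) ^ 37)⁻¹ * ((Int.ofNat 2097152 : ℤ) : ℂ) = ((2 : ℂ) ^ 16)⁻¹ := by
  norm_num

theorem qf_add (p : Par) (a b c d e f a' b' c' d' e' f' : ℂ) :
    qf p (a + a') (b + b') (c + c') (d + d') (e + e') (f + f') =
      qf p a b c d e f + qf p a' b' c' d' e' f' := by
  simp only [qf, mul_add, Complex.add_re]
  ring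

/-- **T4d.** one window. -/
theorem win_ok {f : Fam} (hcr : f.cross = true → f.xmax = 0) {K2 : ℝ} {u : ℂ} {t : ℝ}
    {X : ℕ → Bool → ℕ → ℂ} {p : Par}
    {U : List UM} {T : List RM} (hU : ∀ a, (uget a U).Ok p (u ^ a)) (hT : ∀ b, (rget b T).Ok p (t ^ b))
    {w : ℕ} {c : WC} (hc : c.Good) (hchi : (chiSum c.X : ℝ) ≤ f.xmax)
    (hwi : WI ((f.g : ℝ) / 128) ((f.xmax : ℝ) / 1024) K2 f.cross
      (f.seq u t X w 0) (f.seq u t X w 1) (f.seq u t X w 2))
    {acc : Acc} (hacc : AccOk K2 X p acc) :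
    AccOk K2 X p (win f U T w c acc) := by
  obtain ⟨Y, r, χ, ⟨nF, f0, f1, f2⟩, ⟨nG, g0, g1, g2⟩, ⟨nH, h0, h1, h2⟩⟩ := c
  obtain ⟨mass, en, aF, aG, aH, cr⟩ := acc
  obtain ⟨hXlen, hnL, ⟨hF1, hF2⟩, ⟨hG1, hG2⟩, ⟨hH1, hH2⟩⟩ := hc
  simp only at hXlen hnL hF1 hF2 hG1 hG2 hH1 hH2 hchi
  obtain ⟨hmass, Z, hZ, hineq⟩ := hacc
  -- the vectors `P`
  obtain ⟨P0, hP0⟩ : ∃ P, P = mkPP f.g r χ (pstar χ) f0 g0 := ⟨_, rfl⟩
  obtain ⟨P1, hP1⟩ : ∃ P, P = mkPP f.g r χ (pstar χ) f1 g1 := ⟨_, rfl⟩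
  obtain ⟨P2, hP2⟩ : ∃ P, P = mkPP f.g r χ (pstar χ) f2 g2 := ⟨_, rfl⟩
  obtain ⟨q0, hq0⟩ : ∃ q, q = pism (Int.ofNat 2097152) h0 := ⟨_, rfl⟩
  obtain ⟨q1, hq1⟩ : ∃ q, q = pism (Int.ofNat 2097152) h1 := ⟨_, rfl⟩
  obtain ⟨q2, hq2⟩ : ∃ q, q = pism (Int.ofNat 2097152) h2 := ⟨_, rfl⟩
  obtain ⟨aF', haF⟩ : ∃ x, x = lrAdd f U T w 0 nF (pmul Y P0.F) (pmul Y P1.F) (pmul Y P2.F) aF :=
    ⟨_, rfl⟩
  obtain ⟨aG', haG⟩ : ∃ x, x = lrAdd f U T w 1 nG (pmul Y P0.G) (pmul Y P1.G) (pmul Y P2.G) aG :=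
    ⟨_, rfl⟩
  obtain ⟨aH', haH⟩ : ∃ x, x = lrAdd f U T w 2 nH (pmul Y q0) (pmul Y q1) (pmul Y q2) aH :=
    ⟨_, rfl⟩
  obtain ⟨en', hen⟩ : ∃ x, x = eadd (Nat.mul 2 r) f0 f1 f2 P0.F P1.F P2.F
    (eadd (Nat.mul 2 r) g0 g1 g2 P0.G P1.G P2.G (eadd 0 h0 h1 h2 q0 q1 q2 en)) := ⟨_, rfl⟩
  obtain ⟨cr', hcr'⟩ : ∃ x, x = @Bool.rec (fun _ => Nat) cr
    (Nat.add cr (crossE nG nH g0 g1 g2 q0 q1 q2)) f.cross := ⟨_, rfl⟩
  have hwin : win f U T w ⟨Y, r, χ, ⟨nF, f0, f1, f2⟩, ⟨nG, g0, g1, g2⟩, ⟨nH, h0, h1, h2⟩⟩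
      ⟨mass, en, aF, aG, aH, cr⟩ = ⟨nrm Y mass, en', aF', aG', aH', cr'⟩ := by
    rw [hcr', hen, haF, haG, haH, hq0, hq1, hq2, hP0, hP1, hP2]
    rfl
  rw [hwin]
  -- lengths
  have lF1 : P1.F.length ≤ P0.F.length := by
    rw [hP1, hP0]; exact (length_mkPP_mono hF1 hG1).1
  have lG1 : P1.G.length ≤ P0.G.length := by
    rw [hP1, hP0]; exact (length_mkPP_mono hF1 hG1).2
  have lF2 : P2.F.length = P1.F.length := by
    rw [hP2, hP1]
    exact le_antisymm (length_mkPP_mono hF2.le hG2.le).1 (length_mkPP_mono hF2.ge hG2.ge).1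
  have lG2 : P2.G.length = P1.G.length := by
    rw [hP2, hP1]
    exact le_antisymm (length_mkPP_mono hF2.le hG2.le).2 (length_mkPP_mono hF2.ge hG2.ge).2
  have lq1 : q1.length ≤ q0.length := by
    rw [hq1, hq0, length_pism, length_pism]; exact hH1
  have lq2 : q2.length = q1.length := by
    rw [hq2, hq1, length_pism, length_pism]; exact hH2
  -- contributions
  obtain ⟨ZF, hZF, hsF⟩ := lrAdd_ok (f := f) (w := w) (cls := 0) (nL := nF) hU hT
    (length_pmul_mono (a := Y) lF1) (length_pmul_congr (a := Y) lF2) (acc := aF) (Z := Z 0)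
    (fun side i => by cases side <;> exact hZ 0 (by norm_num) _ i) X
  obtain ⟨ZG, hZG, hsG⟩ := lrAdd_ok (f := f) (w := w) (cls := 1) (nL := nG) hU hT
    (length_pmul_mono (a := Y) lG1) (length_pmul_congr (a := Y) lG2) (acc := aG) (Z := Z 1)
    (fun side i => by cases side <;> exact hZ 1 (by norm_num) _ i) X
  obtain ⟨ZH, hZH, hsH⟩ := lrAdd_ok (f := f) (w := w) (cls := 2) (nL := nH) hU hT
    (length_pmul_mono (a := Y) lq1) (length_pmul_congr (a := Y) lq2) (acc := aH) (Z := Z 2)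
    (fun side i => by cases side <;> exact hZ 2 (by norm_num) _ i) X
  rw [← haF] at hZF hsF
  rw [← haG] at hZG hsG
  rw [← haH] at hZH hsH
  refine ⟨hmass.trans (le_nrm Y mass),
    fun cls => match cls with
      | 0 => ZF
      | 1 => ZG
      | _ => ZH, ?_, ?_⟩
  · intro cls hcls side i
    match cls, hcls with
    | 0, _ => cases side
              · exact hZF false i
              · exact hZF true i
    | 1, _ => cases side
              · exact hZG false i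
              · exact hZG true i
    | 2, _ => cases side
              · exact hZH false i
              · exact hZH true i
  -- the inequality
  have hnew : ∑ cls ∈ Finset.range 3, ∑ side : Bool,
      ∑ i ∈ Finset.range ((Acc.mk (nrm Y mass) en' aF' aG' aH' cr').lr cls side).length,
        (match cls with
          | 0 => ZF
          | 1 => ZG
          | _ => ZH : Bool → ℕ → ℂ) side i * X cls side i =
      (∑ side : Bool, ∑ i ∈ Finset.range (aF'.lr side).length, ZF side i * X 0 side i) +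
      (∑ side : Bool, ∑ i ∈ Finset.range (aG'.lr side).length, ZG side i * X 1 side i) +
      (∑ side : Bool, ∑ i ∈ Finset.range (aH'.lr side).length, ZH side i * X 2 side i) := by
    rw [Finset.sum_range_succ, Finset.sum_range_succ, Finset.sum_range_one]
    simp only [Fintype.sum_bool]
    rfl
  have hold : ∑ cls ∈ Finset.range 3, ∑ side : Bool,
      ∑ i ∈ Finset.range ((Acc.mk mass en aF aG aH cr).lr cls side).length,
        Z cls side i * X cls side i =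
      (∑ side : Bool, ∑ i ∈ Finset.range (aF.lr side).length, Z 0 side i * X 0 side i) +
      (∑ side : Bool, ∑ i ∈ Finset.range (aG.lr side).length, Z 1 side i * X 1 side i) +
      (∑ side : Bool, ∑ i ∈ Finset.range (aH.lr side).length, Z 2 side i * X 2 side i) := by
    rw [Finset.sum_range_succ, Finset.sum_range_succ, Finset.sum_range_one]
    simp only [Fintype.sum_bool]
    rfl
  rw [hold] at hineq
  rw [hnew, hsF, hsG, hsH]
  -- offsets
  obtain ⟨oA, hoA⟩ : ∃ o : ℤ, o = -(nF : ℤ) + 2 * r := ⟨_, rfl⟩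
  obtain ⟨oB, hoB⟩ : ∃ o : ℤ, o = -(nG : ℤ) + 2 * r := ⟨_, rfl⟩
  obtain ⟨oC, hoC⟩ : ∃ o : ℤ, o = 1 - (nH : ℤ) := ⟨_, rfl⟩
  have hAB : 0 < r → oA = oB := fun hr => by rw [hoA, hoB, hnL hr]
  have eF : (1 - split 0 - (nF : ℤ)) = oA - 2 * r := by rw [hoA, split]; ring
  have eG : (1 - split 1 - (nG : ℤ)) = oB - 2 * r := by rw [hoB, split]; ring
  have eH : (1 - split 2 - (nH : ℤ)) = oC := by rw [hoC]; simp [split]
  rw [eF, eG, eH]
  -- apply the window inequality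
  have hW := hwi (((2 : ℂ) ^ 8)⁻¹ • fs 0 Y) (((2 : ℂ) ^ 7)⁻¹ • fs (-r) χ)
    (((2 : ℂ) ^ 16)⁻¹ • tc p (fs oA f0) (fs oA f1) (fs oA f2))
    (((2 : ℂ) ^ 16)⁻¹ • tc p (fs oB g0) (fs oB g1) (fs oB g2))
    (((2 : ℂ) ^ 37)⁻¹ • tc p (fs oC q0) (fs oC q1) (fs oC q2))
    (((2 : ℂ) ^ 37)⁻¹ • tc p (fs (oA - 2 * r) P0.F) (fs (oA - 2 * r) P1.F) (fs (oA - 2 * r) P2.F))
    (((2 : ℂ) ^ 37)⁻¹ • tc p (fs (oB - 2 * r) P0.G) (fs (oB - 2 * r) P1.G) (fs (oB - 2 * r) P2.G))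
    (((2 : ℂ) ^ 45)⁻¹ • tc p (fs (oA - 2 * r) (pmul Y P0.F)) (fs (oA - 2 * r) (pmul Y P1.F))
      (fs (oA - 2 * r) (pmul Y P2.F)))
    (((2 : ℂ) ^ 45)⁻¹ • tc p (fs (oB - 2 * r) (pmul Y P0.G)) (fs (oB - 2 * r) (pmul Y P1.G))
      (fs (oB - 2 * r) (pmul Y P2.G)))
    (((2 : ℂ) ^ 45)⁻¹ • tc p (fs oC (pmul Y q0)) (fs oC (pmul Y q1)) (fs oC (pmul Y q2)))
    (by
      intro ζ hζ
      rw [ev_smul, norm_mul, norm_inv, norm_pow, Complex.norm_ofNat]
      have h3 := norm_ev_fs_le (-(r : ℤ)) χ hζ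
      have h4 := h3.trans hchi
      rw [inv_mul_le_iff₀ (by norm_num)]
      linarith)
    (by
      intro ζ hζ
      have k0 := (pp_ev (g := f.g) hXlen hAB f0 g0 hζ).1
      have k1 := (pp_ev (g := f.g) hXlen hAB f1 g1 hζ).1
      have k2 := (pp_ev (g := f.g) hXlen hAB f2 g2 hζ).1
      rw [← hP0] at k0
      rw [← hP1] at k1
      rw [← hP2] at k2
      simp only [ev_smul, ev_tc] at k0 k1 k2 ⊢
      linear_combination k0 + p.ε * k1 + p.θ * k2)
    (by
      intro ζ hζ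
      have k0 := (pp_ev (g := f.g) hXlen hAB f0 g0 hζ).2
      have k1 := (pp_ev (g := f.g) hXlen hAB f1 g1 hζ).2
      have k2 := (pp_ev (g := f.g) hXlen hAB f2 g2 hζ).2
      rw [← hP0] at k0
      rw [← hP1] at k1
      rw [← hP2] at k2
      simp only [ev_smul, ev_tc] at k0 k1 k2 ⊢
      linear_combination k0 + p.ε * k1 + p.θ * k2)
    (by
      intro ζ hζ
      have k : ∀ l, ev (fs (oA - 2 * r) (pmul Y l)) ζ = ev (fs 0 Y) ζ * ev (fs (oA - 2 * r) l) ζ := by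
        intro l
        have := ev_pmul 0 (oA - 2 * r) Y l hζ
        rwa [zero_add] at this
      simp only [ev_smul, ev_tc, k]
      ring)
    (by
      intro ζ hζ
      have k : ∀ l, ev (fs (oB - 2 * r) (pmul Y l)) ζ = ev (fs 0 Y) ζ * ev (fs (oB - 2 * r) l) ζ := by
        intro l
        have := ev_pmul 0 (oB - 2 * r) Y l hζ
        rwa [zero_add] at this
      simp only [ev_smul, ev_tc, k]
      ring)
    (by
      intro ζ hζ
      have k : ∀ l, ev (fs oC (pmul Y l)) ζ = ev (fs 0 Y) ζ * ev (fs oC l) ζ := by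
        intro l
        have := ev_pmul 0 oC Y l hζ
        rwa [zero_add] at this
      simp only [ev_smul, ev_tc, k]
      ring)
  -- mass
  have hY : (ip (((2 : ℂ) ^ 8)⁻¹ • fs 0 Y) (((2 : ℂ) ^ 8)⁻¹ • fs 0 Y)).re =
      ((nrm Y mass : ℤ) - (mass : ℝ)) / 2 ^ 16 := by
    rw [ip_smul_left, ip_smul_right, ← mul_assoc]
    have h3 := ip_self_fs 0 Y mass
    have h4 : conj (((2 : ℂ) ^ 8)⁻¹) * ((2 : ℂ) ^ 8)⁻¹ = (((2 : ℝ) ^ 16)⁻¹ : ℝ) := by
      rw [map_inv₀, map_pow, Complex.conj_ofNat]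
      push_cast
      norm_num
    rw [h4, Complex.re_ofReal_mul]
    have h5 : (ip (fs 0 Y) (fs 0 Y)).re = ((nrm Y mass : ℤ) : ℝ) - mass := by linarith
    rw [h5]
    ring
  -- energies
  obtain ⟨DF, hDF⟩ : ∃ D : List GI → List GI → ℂ, D = fun a q => ip (fs oA a) (fs (oA - 2 * r) q) :=
    ⟨_, rfl⟩
  obtain ⟨DG, hDG⟩ : ∃ D : List GI → List GI → ℂ, D = fun a q => ip (fs oB a) (fs (oB - 2 * r) q) :=
    ⟨_, rfl⟩
  obtain ⟨DH, hDH⟩ : ∃ D : List GI → List GI → ℂ, D = fun a q => ip (fs oC a) (fs oC q) :=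
    ⟨_, rfl⟩
  have hDF' : ∀ a q, (pdot a (pdrop (Nat.mul 2 r) q)).toC = DF a q := by
    intro a q
    have := ip_fs oA (2 * r) a q
    rw [hDF]
    push_cast at this
    exact this.symm
  have hDG' : ∀ a q, (pdot a (pdrop (Nat.mul 2 r) q)).toC = DG a q := by
    intro a q
    have := ip_fs oB (2 * r) a q
    rw [hDG]
    push_cast at this
    exact this.symm
  have hDH' : ∀ a q, (pdot a (pdrop 0 q)).toC = DH a q := by
    intro a q
    have := ip_fs oC 0 a q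
    rw [hDH]
    rw [Nat.cast_zero, sub_zero] at this
    exact this.symm
  have hen1 : en'.val p = en.val p + (qf p (DH h0 q0) (DH h0 q1) (DH h0 q2) (DH h1 q1) (DH h1 q2)
      (DH h2 q2) + qf p (DG g0 P0.G) (DG g0 P1.G) (DG g0 P2.G) (DG g1 P1.G) (DG g1 P2.G)
      (DG g2 P2.G) + qf p (DF f0 P0.F) (DF f0 P1.F) (DF f0 P2.F) (DF f1 P1.F) (DF f1 P2.F)
      (DF f2 P2.F)) := by
    rw [hen, eadd_val, hDF', hDF', hDF', hDF', hDF', hDF', eadd_val]
    rw [hDG', hDG', hDG', hDG', hDG', hDG', eadd_val, hDH', hDH', hDH', hDH', hDH', hDH']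
    ring
  have hherm : ∀ a b a' b', DF a (mkPP f.g r χ (pstar χ) a' b').F +
      DG b (mkPP f.g r χ (pstar χ) a' b').G = conj (DF a' (mkPP f.g r χ (pstar χ) a b).F +
      DG b' (mkPP f.g r χ (pstar χ) a b).G) := by
    intro a b a' b'
    rw [hDF, hDG]
    exact pp_herm hXlen hAB a b a' b'
  have hhermH : ∀ a a', DH a (pism (Int.ofNat 2097152) a') =
      conj (DH a' (pism (Int.ofNat 2097152) a)) := by
    intro a a'
    rw [hDH]
    simp only [fs_pism, ip_smul_right, map_mul, map_intCast]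
    rw [ip_herm (fs oC a) (fs oC a')]
  have hquad : (ip (((2 : ℂ) ^ 16)⁻¹ • tc p (fs oA f0) (fs oA f1) (fs oA f2))
      (((2 : ℂ) ^ 37)⁻¹ • tc p (fs (oA - 2 * r) P0.F) (fs (oA - 2 * r) P1.F)
        (fs (oA - 2 * r) P2.F)) +
      ip (((2 : ℂ) ^ 16)⁻¹ • tc p (fs oB g0) (fs oB g1) (fs oB g2))
      (((2 : ℂ) ^ 37)⁻¹ • tc p (fs (oB - 2 * r) P0.G) (fs (oB - 2 * r) P1.G)
        (fs (oB - 2 * r) P2.G)) +
      ip (((2 : ℂ) ^ 37)⁻¹ • tc p (fs oC q0) (fs oC q1) (fs oC q2))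
        (((2 : ℂ) ^ 37)⁻¹ • tc p (fs oC q0) (fs oC q1) (fs oC q2))).re =
      (en'.val p - en.val p) / 2 ^ 53 := by
    have hq : ((2 : ℂ) ^ 37)⁻¹ • tc p (fs oC q0) (fs oC q1) (fs oC q2) =
        ((2 : ℂ) ^ 16)⁻¹ • tc p (fs oC h0) (fs oC h1) (fs oC h2) := by
      rw [hq0, hq1, hq2, fs_pism, fs_pism, fs_pism, tc_smul, smul_smul, scale_q]
    conv_lhs => rw [hq]
    nth_rw 2 [← hq]
    simp only [ip_smul_left, ip_smul_right, ip_tc]
    have hF : ∀ a q, ip (fs oA a) (fs (oA - 2 * r) q) = DF a q := by intro a q; rw [hDF]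
    have hG : ∀ a q, ip (fs oB a) (fs (oB - 2 * r) q) = DG a q := by intro a q; rw [hDG]
    have hH : ∀ a q, ip (fs oC a) (fs oC q) = DH a q := by intro a q; rw [hDH]
    simp only [hF, hG, hH]
    have hcc : conj (((2 : ℂ) ^ 16)⁻¹) = ((2 : ℂ) ^ 16)⁻¹ := by
      rw [map_inv₀, map_pow, Complex.conj_ofNat]
    rw [hcc]
    have hqr := quad_re p (e00 := DF f0 P0.F + DG g0 P0.G + DH h0 q0)
      (e01 := DF f0 P1.F + DG g0 P1.G + DH h0 q1) (e02 := DF f0 P2.F + DG g0 P2.G + DH h0 q2)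
      (e10 := DF f1 P0.F + DG g1 P0.G + DH h1 q0) (e11 := DF f1 P1.F + DG g1 P1.G + DH h1 q1)
      (e12 := DF f1 P2.F + DG g1 P2.G + DH h1 q2) (e20 := DF f2 P0.F + DG g2 P0.G + DH h2 q0)
      (e21 := DF f2 P1.F + DG g2 P1.G + DH h2 q1) (e22 := DF f2 P2.F + DG g2 P2.G + DH h2 q2)
      (by rw [hP0, hP1, hq0, hq1, hherm, hhermH, ← map_add])
      (by rw [hP0, hP2, hq0, hq2, hherm, hhermH, ← map_add])
      (by rw [hP1, hP2, hq1, hq2, hherm, hhermH, ← map_add])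
    have hval : en'.val p - en.val p = qf p (DF f0 P0.F + DG g0 P0.G + DH h0 q0)
      (DF f0 P1.F + DG g0 P1.G + DH h0 q1) (DF f0 P2.F + DG g0 P2.G + DH h0 q2)
      (DF f1 P1.F + DG g1 P1.G + DH h1 q1) (DF f1 P2.F + DG g1 P2.G + DH h1 q2)
      (DF f2 P2.F + DG g2 P2.G + DH h2 q2) := by
      rw [hen1, qf_add, qf_add]
      ring
    rw [hval, qf, ← hqr]
    have h53 : ∀ z : ℂ, z.re / 2 ^ 53 = ((((2 : ℝ) ^ 53)⁻¹ : ℝ) * z).re := by
      intro z
      rw [Complex.re_ofReal_mul]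
      ring
    rw [h53]
    congr 1
    push_cast
    ring
  -- cross terms
  have hcross : (if f.cross then 2 * ‖ips (((2 : ℂ) ^ 16)⁻¹ • tc p (fs oB g0) (fs oB g1) (fs oB g2))
      (((2 : ℂ) ^ 37)⁻¹ • tc p (fs oC q0) (fs oC q1) (fs oC q2))‖ else 0) ≤
      2 * ((cr' : ℝ) - cr) / 2 ^ 53 := by
    by_cases hx : f.cross = true
    · rw [if_pos hx]
      have hxm := hcr hx
      have hr : r = 0 := by
        rcases hXlen with h | ⟨h, h'⟩
        · exact h.1
        · exfalso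
          have hne : χ ≠ [] := by
            intro h3
            rw [h3] at h'
            simp at h'
          obtain ⟨x, l, rfl⟩ := List.exists_cons_of_ne_nil hne
          have h4 : chiSum (x :: l) = gnw x + chiSum l := rfl
          have h5 : 0 < gnw x := Nat.succ_pos _
          rw [h4, hxm] at hchi
          push_cast at hchi
          have h6 : (0 : ℝ) < gnw x := by exact_mod_cast h5
          have h7 : (0 : ℝ) ≤ chiSum l := Nat.cast_nonneg _
          linarith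
      have hoB' : oB = -(nG : ℤ) := by rw [hoB, hr]; simp
      have hcr2 : cr' = cr + crossE nG nH g0 g1 g2 q0 q1 q2 := by
        rw [hcr', hx]; rfl
      rw [hcr2, ips_smul_left, ips_smul_right, norm_mul, norm_mul, hoB', hoC]
      have hb := cross_bound p nG nH g0 g1 g2 q0 q1 q2
      have hcc : ‖conj (((2 : ℂ) ^ 16)⁻¹)‖ = ((2 : ℝ) ^ 16)⁻¹ := by
        rw [RCLike.norm_conj, norm_inv, norm_pow, Complex.norm_ofNat]
      have hcc' : ‖((2 : ℂ) ^ 37)⁻¹‖ = ((2 : ℝ) ^ 37)⁻¹ := by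
        rw [norm_inv, norm_pow, Complex.norm_ofNat]
      rw [hcc, hcc']
      push_cast
      rw [add_sub_cancel_left]
      have h8 : ((2 : ℝ) ^ 16)⁻¹ * (((2 : ℝ) ^ 37)⁻¹ * (crossE nG nH g0 g1 g2 q0 q1 q2 : ℝ)) =
          (crossE nG nH g0 g1 g2 q0 q1 q2 : ℝ) / 2 ^ 53 := by ring
      have h9 := mul_le_mul_of_nonneg_left hb (show (0 : ℝ) ≤ ((2 : ℝ) ^ 37)⁻¹ by positivity)
      have h10 := mul_le_mul_of_nonneg_left h9 (show (0 : ℝ) ≤ ((2 : ℝ) ^ 16)⁻¹ by positivity)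
      rw [h8] at h10
      rw [mul_div_assoc]
      linarith
    · rw [if_neg hx]
      have hx' : f.cross = false := by simpa using hx
      have hcr2 : cr' = cr := by rw [hcr', hx']
      rw [hcr2, sub_self, mul_zero, zero_div]
  rw [hY, hquad] at hW
  simp only [Complex.add_re] at hW hineq ⊢
  change _ ≤ K2 * ((nrm Y mass : ℤ) / 2 ^ 16) + en'.val p / 2 ^ 53 + 2 * (cr' : ℝ) / 2 ^ 53
  change _ ≤ K2 * ((mass : ℝ) / 2 ^ 16) + en.val p / 2 ^ 53 + 2 * (cr : ℝ) / 2 ^ 53 at hineq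
  have e1 : K2 * ((nrm Y mass : ℤ) / 2 ^ 16 : ℝ) =
      K2 * (((nrm Y mass : ℤ) - (mass : ℝ)) / 2 ^ 16) + K2 * ((mass : ℝ) / 2 ^ 16) := by ring
  have e2 : en'.val p / 2 ^ 53 = (en'.val p - en.val p) / 2 ^ 53 + en.val p / 2 ^ 53 := by ring
  have e3 : 2 * (cr' : ℝ) / 2 ^ 53 = 2 * ((cr' : ℝ) - cr) / 2 ^ 53 + 2 * (cr : ℝ) / 2 ^ 53 := by ring
  rw [e1, e2, e3]
  linarith

end MaxTerm.PB
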