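import Pool.Agent.MaxTerm.PB.SWinB

/-!
# Soundness of the checker, layer 4c: the final inequality
-/

open Filter Topology ComplexConjugate

namespace MaxTerm.PB

theorem accOk_zero {K2 : ℝ} {X : ℕ → Bool → ℕ → ℂ} {p : Par} : AccOk K2 X p Acc.zero := by
  refine ⟨le_of_eq rfl, fun _ _ _ => 0, ?_, ?_⟩
  · intro cls hcls side i
    have h : r3get (Acc.zero.lr cls side) i = R3.zero := by
      rcases cls with _ | _ | cls <;> cases side <;> rfl
    rw [h]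
    exact r3zero_ok p
  · simp [Acc.zero, EN.val]

/-- adding one side of one class. -/
theorem wc_lr_step {p : Par} (k : ℕ) (l : List R3) (q : KP) (z X : ℕ → ℂ) {S : ℂ}
    (hz : ∀ i, (r3get l i).Ok p (z i)) (hX : ∀ i, ‖X i‖ ≤ 1) (hk : ∀ i, i < k → X i = 1)
    (hq : ∃ κ : ℂ, q.K.Ok p κ ∧ κ.re - (q.pay : ℝ) / 2 ^ 75 ≤ S.re) :
    ∃ κ' : ℂ, (known k l q).K.Ok p κ' ∧
      κ'.re - ((known k l q).pay : ℝ) / 2 ^ 75 ≤
        (S + ∑ i ∈ Finset.range l.length, z i * X i).re := by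
  obtain ⟨κ, h1, h2⟩ := hq
  obtain ⟨κ', h3, h4⟩ := known_ok k l q z X hz hX hk h1
  refine ⟨κ', h3, ?_⟩
  simp only [Complex.add_re] at h4 ⊢
  have : (((known k l q).pay : ℝ) - (q.pay : ℝ)) / 2 ^ 75 =
      ((known k l q).pay : ℝ) / 2 ^ 75 - (q.pay : ℝ) / 2 ^ 75 := by ring
  linarith

theorem wc_abs_re_mul_le (p : Par) (z : ℂ) : |(p.ε * z).re| ≤ |z.re| + |z.im| := by
  have h1 := p.re_le
  have h2 := p.im_le
  rw [Complex.mul_re]
  calc |p.ε.re * z.re - p.ε.im * z.im| ≤ |p.ε.re * z.re| + |p.ε.im * z.im| := abs_sub _ _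
    _ = |p.ε.re| * |z.re| + |p.ε.im| * |z.im| := by rw [abs_mul, abs_mul]
    _ ≤ 1 * |z.re| + 1 * |z.im| := by gcongr
    _ = _ := by ring

theorem wc_norm_eps_sq_le (p : Par) : ‖p.ε‖ ^ 2 ≤ 2 := by
  have h1 := p.re_le
  have h2 := p.im_le
  rw [← Complex.normSq_eq_norm_sq, Complex.normSq_apply]
  rw [abs_le] at h1 h2
  nlinarith

theorem wc_norm_eps_le (p : Par) : ‖p.ε‖ ≤ Real.sqrt 2 :=
  Real.le_sqrt_of_sq_le (wc_norm_eps_sq_le p)

/-- unfolding of `final`. -/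
theorem wc_final_iff (mass : ℤ) (e : EN) (q : KP) (cross : ℕ) (h : final mass e q cross = true) :
    (mass.natAbs * 168399750188142193278976 +
      200000 * (gl1 (gadd q.K.re (gsm (Int.negSucc 4194303) e.e01)) +
        (((gre q.K.rd) - 4194304 * e.e02).natAbs + (q.K.rr + q.pay))) +
      419430400000 * ((2 * e.e11.natAbs + 2 * r2 (gab e.e12)) + (e.e22.natAbs + 2 * cross)) : ℕ) <
      100000 * Int.toNat (2 * gre q.K.r0 - 4194304 * e.e00) := by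
  obtain ⟨x00, x01, x02, x11, x12, x22⟩ := e
  obtain ⟨⟨k0, ke, kd, kr⟩, pay⟩ := q
  have h' : Nat.blt
          (Nat.add (Nat.add (Nat.mul (iabs mass) 168399750188142193278976)
            (Nat.mul 200000 (Nat.add (gl1 (gadd ke (gsm (Int.negSucc 4194303) x01)))
              (Nat.add (iabs (isub (gre kd) (imul (Int.ofNat 4194304) x02))) (Nat.add kr pay)))))
            (Nat.mul 419430400000 (Nat.add (Nat.add (Nat.mul 2 (iabs x11)) (Nat.mul 2 (r2 (gab x12))))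
              (Nat.add (iabs x22) (Nat.mul 2 cross)))))
          (Nat.mul 100000 (Int.toNat (isub (imul (Int.ofNat 2) (gre k0))
            (imul (Int.ofNat 4194304) x00)))) = true := h
  rw [iabs_eq, iabs_eq, iabs_eq, iabs_eq, isub_eq, isub_eq, imul_eq, imul_eq, imul_eq] at h'
  have h2 := Nat.le_of_ble_eq_true h'
  exact h2

/-- the second order part of the energy. -/
theorem wc_en_quad_le (e : EN) (p : Par) :
    ‖p.ε‖ ^ 2 * e.e11 + 2 * p.θ * (conj p.ε * e.e12.toC).re + p.θ ^ 2 * e.e22 ≤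
      2 * (e.e11.natAbs : ℝ) + 2 * (r2 (gab e.e12) : ℝ) + (e.e22.natAbs : ℝ) := by
  have hθ := p.θ_le
  have h1 : ‖p.ε‖ ^ 2 * (e.e11 : ℝ) ≤ 2 * (e.e11.natAbs : ℝ) := by
    have ha : (e.e11 : ℝ) ≤ (e.e11.natAbs : ℝ) := by
      rw [Nat.cast_natAbs, Int.cast_abs]; exact le_abs_self _
    have hb : (0 : ℝ) ≤ (e.e11.natAbs : ℝ) := Nat.cast_nonneg _
    calc ‖p.ε‖ ^ 2 * (e.e11 : ℝ) ≤ ‖p.ε‖ ^ 2 * (e.e11.natAbs : ℝ) := by gcongr
      _ ≤ 2 * (e.e11.natAbs : ℝ) := by gcongr; exact wc_norm_eps_sq_le p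
  have h2 : 2 * p.θ * (conj p.ε * e.e12.toC).re ≤ 2 * (r2 (gab e.e12) : ℝ) := by
    have ha : |(conj p.ε * e.e12.toC).re| ≤ (r2 (gab e.e12) : ℝ) := by
      calc |(conj p.ε * e.e12.toC).re| ≤ ‖conj p.ε * e.e12.toC‖ := Complex.abs_re_le_norm _
        _ = ‖p.ε‖ * ‖e.e12.toC‖ := by rw [norm_mul, Complex.norm_conj]
        _ ≤ Real.sqrt 2 * (gab e.e12 : ℝ) := by
            gcongr
            · exact wc_norm_eps_le p
            · exact norm_le_gab _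
        _ ≤ _ := sqrt_two_mul_le_r2 _
    have hb : p.θ * (conj p.ε * e.e12.toC).re ≤ |(conj p.ε * e.e12.toC).re| := by
      calc p.θ * (conj p.ε * e.e12.toC).re ≤ |p.θ * (conj p.ε * e.e12.toC).re| := le_abs_self _
        _ = |p.θ| * |(conj p.ε * e.e12.toC).re| := abs_mul _ _
        _ ≤ 1 * |(conj p.ε * e.e12.toC).re| := by gcongr
        _ = _ := one_mul _
    linarith
  have h3 : p.θ ^ 2 * (e.e22 : ℝ) ≤ (e.e22.natAbs : ℝ) := by
    have ha : (e.e22 : ℝ) ≤ (e.e22.natAbs : ℝ) := by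
      rw [Nat.cast_natAbs, Int.cast_abs]; exact le_abs_self _
    have hb : (0 : ℝ) ≤ (e.e22.natAbs : ℝ) := Nat.cast_nonneg _
    have hc : p.θ ^ 2 ≤ 1 := by
      rw [← sq_abs]; exact pow_le_one₀ (abs_nonneg _) hθ
    calc p.θ ^ 2 * (e.e22 : ℝ) ≤ p.θ ^ 2 * (e.e22.natAbs : ℝ) := by gcongr
      _ ≤ 1 * (e.e22.natAbs : ℝ) := by gcongr
      _ = _ := one_mul _
  linarith

/-- the final inequality, in terms of the known part. -/
theorem wc_final_core {K2 : ℝ} {p : Par} {mass : ℤ} {e : EN} {q : KP} {cross : ℕ} {κ S : ℂ}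
    (hm : 0 ≤ mass) (hκ : q.K.Ok p κ) (hS : κ.re - (q.pay : ℝ) / 2 ^ 75 ≤ S.re)
    (h : 2 * S.re ≤ K2 * (mass / 2 ^ 16) + e.val p / 2 ^ 53 + 2 * (cross : ℝ) / 2 ^ 53)
    (hfin : final mass e q cross = true) : 2.92127 < K2 := by
  by_contra hK
  rw [not_lt] at hK
  have hf := wc_final_iff mass e q cross hfin
  have hpos : 0 ≤ 2 * gre q.K.r0 - 4194304 * e.e00 := by
    by_contra hneg
    rw [not_le] at hneg
    rw [Int.toNat_of_nonpos hneg.le, mul_zero] at hf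
    exact absurd hf (Nat.not_lt_zero _)
  have hcast : ((Int.toNat (2 * gre q.K.r0 - 4194304 * e.e00) : ℕ) : ℝ) =
      2 * q.K.r0.toC.re - 4194304 * e.e00 := by
    have : ((Int.toNat (2 * gre q.K.r0 - 4194304 * e.e00) : ℕ) : ℝ) =
        ((Int.toNat (2 * gre q.K.r0 - 4194304 * e.e00) : ℤ) : ℝ) := by norm_cast
    rw [this, Int.toNat_of_nonneg hpos]
    push_cast
    rw [gre_eq]
  have hmass : ((mass.natAbs : ℕ) : ℝ) = mass := by
    rw [Nat.cast_natAbs, abs_of_nonneg hm]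
  have hd2 : (((gre q.K.rd - 4194304 * e.e02).natAbs : ℕ) : ℝ) =
      |q.K.rd.toC.re - 4194304 * e.e02| := by
    rw [Nat.cast_natAbs, Int.cast_abs]
    push_cast
    rw [gre_eq]
  have hd1 : (gl1 (gadd q.K.re (gsm (Int.negSucc 4194303) e.e01)) : ℝ) =
      |(q.K.re.toC - 4194304 * e.e01.toC).re| + |(q.K.re.toC - 4194304 * e.e01.toC).im| := by
    rw [gl1_eq, toC_gadd, toC_gsm]
    have : ((Int.negSucc 4194303 : ℤ) : ℂ) = -4194304 := by norm_num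
    rw [this, neg_mul, ← sub_eq_add_neg]
  have hq := wc_en_quad_le e p
  generalize Int.toNat (2 * gre q.K.r0 - 4194304 * e.e00) = N0 at hf hcast
  generalize mass.natAbs = N1 at hf hmass
  generalize (gre q.K.rd - 4194304 * e.e02).natAbs = N2 at hf hd2
  generalize gl1 (gadd q.K.re (gsm (Int.negSucc 4194303) e.e01)) = N3 at hf hd1
  generalize e.e11.natAbs = N4 at hf hq
  generalize r2 (gab e.e12) = N5 at hf hq
  generalize e.e22.natAbs = N6 at hf hq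
  have hf' : ((N1 * 168399750188142193278976 + 200000 * (N3 + (N2 + (q.K.rr + q.pay))) +
      419430400000 * (2 * N4 + 2 * N5 + (N6 + 2 * cross)) : ℕ) : ℝ) < ((100000 * N0 : ℕ) : ℝ) :=
    Nat.cast_lt.mpr hf
  push_cast at hf'
  rw [hcast, hmass] at hf'
  -- the known part
  have hk : q.K.r0.toC.re + (p.ε * q.K.re.toC).re + p.θ * q.K.rd.toC.re - q.K.rr ≤
      2 ^ 75 * κ.re := by
    have h1 := (Complex.abs_re_le_norm _).trans hκ
    have h2 : ((2 : ℂ) ^ 75 * κ - (q.K.r0.toC + p.ε * q.K.re.toC + (p.θ : ℂ) * q.K.rd.toC)).re =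
        2 ^ 75 * κ.re - (q.K.r0.toC.re + (p.ε * q.K.re.toC).re + p.θ * q.K.rd.toC.re) := by
      rw [Complex.sub_re, Complex.add_re, Complex.add_re, Complex.re_ofReal_mul]
      have : (2 : ℂ) ^ 75 = ((2 ^ 75 : ℝ) : ℂ) := by norm_num
      rw [this, Complex.re_ofReal_mul]
    rw [h2, abs_le] at h1
    linarith [h1.1]
  -- the first order parts
  have hD1 : -(N3 : ℝ) ≤ (p.ε * q.K.re.toC).re - 4194304 * (p.ε * e.e01.toC).re := by
    have h1 := wc_abs_re_mul_le p (q.K.re.toC - 4194304 * e.e01.toC)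
    rw [← hd1] at h1
    have h2 : (p.ε * (q.K.re.toC - 4194304 * e.e01.toC)).re =
        (p.ε * q.K.re.toC).re - 4194304 * (p.ε * e.e01.toC).re := by
      rw [mul_sub, Complex.sub_re]
      have : p.ε * (4194304 * e.e01.toC) = ((4194304 : ℝ) : ℂ) * (p.ε * e.e01.toC) := by
        push_cast; ring
      rw [this, Complex.re_ofReal_mul]
    rw [h2, abs_le] at h1
    exact h1.1
  have hD2 : -(N2 : ℝ) ≤ p.θ * q.K.rd.toC.re - 4194304 * (p.θ * e.e02) := by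
    have h1 : |p.θ * (q.K.rd.toC.re - 4194304 * e.e02)| ≤ N2 := by
      rw [abs_mul, hd2]
      calc |p.θ| * |q.K.rd.toC.re - 4194304 * (e.e02 : ℝ)|
          ≤ 1 * |q.K.rd.toC.re - 4194304 * (e.e02 : ℝ)| := by gcongr; exact p.θ_le
        _ = _ := one_mul _
    rw [abs_le] at h1
    linarith [h1.1]
  -- the assembled inequality
  have hen : e.val p = e.e00 + 2 * (p.ε * e.e01.toC).re + 2 * (p.θ * e.e02) +
      (‖p.ε‖ ^ 2 * e.e11 + 2 * p.θ * (conj p.ε * e.e12.toC).re + p.θ ^ 2 * e.e22) := by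
    unfold EN.val; ring
  have hmain : 2 * (2 ^ 75 * κ.re - q.pay) ≤
      K2 * mass * 2 ^ 59 + 2 ^ 22 * e.val p + 2 ^ 23 * cross := by
    have h1 : 2 ^ 75 * (2 * S.re) ≤
        2 ^ 75 * (K2 * (mass / 2 ^ 16) + e.val p / 2 ^ 53 + 2 * (cross : ℝ) / 2 ^ 53) := by
      gcongr
    have h2 : 2 ^ 75 * (κ.re - (q.pay : ℝ) / 2 ^ 75) ≤ 2 ^ 75 * S.re := by gcongr
    have h3 : (2 : ℝ) ^ 75 * (κ.re - (q.pay : ℝ) / 2 ^ 75) = 2 ^ 75 * κ.re - q.pay := by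
      field_simp
    have h4 : (2 : ℝ) ^ 75 * (K2 * (mass / 2 ^ 16) + e.val p / 2 ^ 53 + 2 * (cross : ℝ) / 2 ^ 53) =
        K2 * mass * 2 ^ 59 + 2 ^ 22 * e.val p + 2 ^ 23 * cross := by
      ring
    rw [h4] at h1
    rw [h3] at h2
    linarith
  have hKm : K2 * mass * 2 ^ 59 ≤ 2.92127 * mass * 2 ^ 59 := by
    have : (0 : ℝ) ≤ mass := by exact_mod_cast hm
    gcongr
  rw [hen] at hmain
  generalize (p.ε * q.K.re.toC).re = r1 at *
  generalize (p.ε * e.e01.toC).re = r2' at *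
  generalize ‖p.ε‖ ^ 2 * (e.e11 : ℝ) + 2 * p.θ * (conj p.ε * e.e12.toC).re + p.θ ^ 2 * (e.e22 : ℝ) = r3 at *
  generalize p.θ * q.K.rd.toC.re = r4 at *
  generalize p.θ * (e.e02 : ℝ) = r5 at *
  generalize q.K.r0.toC.re = r6 at *
  generalize κ.re = r7 at *
  norm_num at hmain hKm hk hf' ⊢
  nlinarith

/-- **T4d'.** the final inequality. -/
theorem final_ok {f : Fam} {K2 : ℝ} {X : ℕ → Bool → ℕ → ℂ} {p : Par}
    (hX : ∀ cls side i, ‖X cls side i‖ ≤ 1)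
    (hL : ∀ cls i, i < f.kL cls → X cls true i = 1) (hR : ∀ cls i, i < f.kR cls → X cls false i = 1)
    {acc : Acc} (hacc : AccOk K2 X p acc)
    (hfin : final acc.mass acc.en (lrKP f 0 acc.F (lrKP f 1 acc.G (lrKP f 2 acc.H ⟨R3.zero, 0⟩)))
      acc.cross = true) :
    2.92127 < K2 := by
  obtain ⟨hm, Z, hZ, hle⟩ := hacc
  have hq0 : ∃ κ : ℂ, (⟨R3.zero, 0⟩ : KP).K.Ok p κ ∧
      κ.re - ((⟨R3.zero, 0⟩ : KP).pay : ℝ) / 2 ^ 75 ≤ (0 : ℂ).re :=
    ⟨0, r3zero_ok p, by simp⟩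
  have s1 := wc_lr_step (f.kR 2) acc.H.R _ (Z 2 false) (X 2 false) (hZ 2 (by norm_num) false)
    (hX 2 false) (hR 2) hq0
  have s2 := wc_lr_step (f.kL 2) acc.H.L _ (Z 2 true) (X 2 true) (hZ 2 (by norm_num) true)
    (hX 2 true) (hL 2) s1
  have s3 := wc_lr_step (f.kR 1) acc.G.R _ (Z 1 false) (X 1 false) (hZ 1 (by norm_num) false)
    (hX 1 false) (hR 1) s2
  have s4 := wc_lr_step (f.kL 1) acc.G.L _ (Z 1 true) (X 1 true) (hZ 1 (by norm_num) true)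
    (hX 1 true) (hL 1) s3
  have s5 := wc_lr_step (f.kR 0) acc.F.R _ (Z 0 false) (X 0 false) (hZ 0 (by norm_num) false)
    (hX 0 false) (hR 0) s4
  have s6 := wc_lr_step (f.kL 0) acc.F.L _ (Z 0 true) (X 0 true) (hZ 0 (by norm_num) true)
    (hX 0 true) (hL 0) s5
  obtain ⟨κ, hκ, hS⟩ := s6
  refine wc_final_core hm hκ hS ?_ hfin
  refine le_trans (le_of_eq ?_) hle
  congr 2
  simp only [Finset.sum_range_succ, Finset.range_zero, Finset.sum_empty, Fintype.sum_bool]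
  simp only [Acc.lr]
  ring

theorem wc_chiOK_le {f : Fam} {c : WC} (h : chiOK f c = true) : (chiSum c.X : ℝ) ≤ f.xmax := by
  obtain ⟨Y, r, X, F, G, H⟩ := c
  have h' : Bool.and (Nat.ble (chiSum X) f.xmax)
    (@Nat.rec (fun _ => Bool) true (fun _ _ => Nat.beq F.nL G.nL) r) = true := h
  rw [Bool.and_eq_true] at h'
  exact_mod_cast Nat.le_of_ble_eq_true h'.1

/-- soundness of the check of one cell. -/
theorem checkWC_sound {f : Fam} {u0 : GI} {h t0 ht : ℤ} {w0 w1 w2 : WC}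
    (hcr : f.cross = true → f.xmax = 0) (h0 : w0.Good) (h1 : w1.Good)
    (h2 : w2.Good) (hc : checkWC f u0 h t0 ht w0 w1 w2 = true) {K2 : ℝ} {u : ℂ} {t : ℝ} {p : Par}
    (hu : (2 : ℂ) ^ 30 * u = u0.toC + p.ε * h) (ht' : (2 : ℝ) ^ 30 * t = t0 + p.θ * ht)
    (I : Inst f K2 u t) : 2.92127 < K2 := by
  have hc' : Bool.and (Bool.and (chiOK f w0) (Bool.and (chiOK f w1) (chiOK f w2)))
    (@Acc.rec (fun _ => Bool) (fun mass en aF aG aH cr =>
        final mass en (lrKP f 0 aF (lrKP f 1 aG (lrKP f 2 aH ⟨R3.zero, 0⟩))) cr)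
        (win f (upows ⟨u0, ⟨h, Int.ofNat 0⟩, 0⟩ 40 UM.one) (rpows ⟨t0, ht, 0⟩ 80 RM.one) 0 w0
          (win f (upows ⟨u0, ⟨h, Int.ofNat 0⟩, 0⟩ 40 UM.one) (rpows ⟨t0, ht, 0⟩ 80 RM.one) 1 w1
            (win f (upows ⟨u0, ⟨h, Int.ofNat 0⟩, 0⟩ 40 UM.one) (rpows ⟨t0, ht, 0⟩ 80 RM.one) 2 w2
              Acc.zero)))) = true := hc
  rw [Bool.and_eq_true, Bool.and_eq_true, Bool.and_eq_true] at hc'
  obtain ⟨⟨c0, c1, c2⟩, hfin⟩ := hc'
  have hU : ∀ a, (uget a (upows ⟨u0, ⟨h, Int.ofNat 0⟩, 0⟩ 40 UM.one)).Ok p (u ^ a) :=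
    fun a => uget_ok I.norm_u hu 40 a
  have hT : ∀ b, (rget b (rpows ⟨t0, ht, 0⟩ 80 RM.one)).Ok p (t ^ b) :=
    fun b => rget_ok I.t_nonneg I.t_le ht' 80 b
  have a2 : AccOk K2 I.X p _ := win_ok (hcr := hcr) hU hT (w := 2) h2 (wc_chiOK_le c2)
    (I.wi 2 (by norm_num)) accOk_zero
  have a1 : AccOk K2 I.X p _ := win_ok (hcr := hcr) hU hT (w := 1) h1 (wc_chiOK_le c1)
    (I.wi 1 (by norm_num)) a2
  have a0 : AccOk K2 I.X p _ := win_ok (hcr := hcr) hU hT (w := 0) h0 (wc_chiOK_le c0)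
    (I.wi 0 (by norm_num)) a1
  exact final_ok I.norm_X I.known_L I.known_R a0 hfin

end MaxTerm.PB
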